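import Pool.Agent.Lib_helper91.TX.JX

namespace Pool.Agent.Lib_helper91.TX

open Finset

section CHIaux

/-- reduction mod `p` -/
def CHI_pi (p : ℕ) : ZMod (p ^ 2) →+* ZMod p :=
  ZMod.castHom (dvd_pow_self p two_ne_zero) (ZMod p)

set_option linter.unusedSectionVars false

variable {p : ℕ} [Fact p.Prime]

theorem CHI_pp : (p : ZMod (p ^ 2)) ^ 2 = 0 := by
  have := ZMod.natCast_self (p ^ 2)
  push_cast at this
  exact this

theorem CHI_ker {a : ZMod (p ^ 2)} (h : CHI_pi p a = 0) : ∃ b, a = (p : ZMod (p ^ 2)) * b := by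
  haveI : NeZero (p ^ 2) := ⟨pow_ne_zero 2 (Fact.out : p.Prime).ne_zero⟩
  rw [← ZMod.natCast_zmod_val a] at h ⊢
  rw [map_natCast, ZMod.natCast_eq_zero_iff] at h
  obtain ⟨c, hc⟩ := h
  exact ⟨(c : ZMod (p ^ 2)), by rw [hc]; push_cast; ring⟩

theorem CHI_pow {a b : ZMod (p ^ 2)} (h : CHI_pi p a = CHI_pi p b) : a ^ p = b ^ p := by
  obtain ⟨c, hc⟩ := CHI_ker (a := a - b) (by rw [map_sub, h, sub_self])
  obtain ⟨d, hd⟩ := dvd_sub_pow_of_dvd_sub (p := p) (Dvd.intro c hc.symm) 1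
  rw [pow_one, CHI_pp, zero_mul] at hd
  exact sub_eq_zero.1 hd

theorem CHI_zero {a : ZMod (p ^ 2)} (h : CHI_pi p a = 0) {n : ℕ} (hn : 2 ≤ n) : a ^ n = 0 := by
  obtain ⟨c, rfl⟩ := CHI_ker h
  obtain ⟨m, rfl⟩ := Nat.exists_eq_add_of_le hn
  rw [pow_add, mul_pow, CHI_pp, zero_mul, zero_mul]

theorem CHI_sum {M : Type} [AddCommMonoid M] (f : ZMod p → M) :
    ∑ j ∈ range p, f (j : ZMod p) = ∑ x : ZMod p, f x := by
  refine sum_nbij' (fun j => (j : ZMod p)) (fun x => x.val) ?_ ?_ ?_ ?_ ?_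
  · intro j _; exact mem_univ _
  · intro x _; exact mem_range.mpr (ZMod.val_lt x)
  · intro j hj; exact ZMod.val_cast_of_lt (mem_range.mp hj)
  · intro x _; exact ZMod.natCast_zmod_val x
  · intro j _; rfl

theorem CHI_key {K : ℕ} (hK : p = 4 * K + 1) {r0 : ZMod p} {hr : r0 * r0 = ((-1 : ℤ) : ZMod p)}
    {r2 : ZMod (p ^ 2)} {h2 : r2 * r2 = ((-1 : ℤ) : ZMod (p ^ 2))} (hpr : CHI_pi p r2 = r0)
    (χ : MulChar (ZMod p) GaussianInt) (hord : orderOf χ = 4)
    (hχ : ∀ t : ZMod p, gZ r0 hr (χ t) = t ^ (3 * K)) (s : ZMod p) (s' : ZMod (p ^ 2))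
    (hs : CHI_pi p s' = s) : gZ r2 h2 (χ s) = s' ^ (3 * K * p) := by
  have hp : p.Prime := Fact.out
  have hK1 : 1 ≤ K := by
    rcases Nat.eq_zero_or_pos K with h | h
    · subst h
      exact absurd hp (by rw [hK]; norm_num)
    · exact h
  have hcomp : (CHI_pi p).comp (gZ r2 h2) = gZ r0 hr := by
    apply Zsqrtd.hom_ext
    simp [gZ, hpr]
  by_cases h0 : s = 0
  · rw [h0, MulChar.map_zero, map_zero, CHI_zero (hs.trans h0)]
    have : 2 ≤ p := hp.two_le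
    nlinarith
  · have h4 : (gZ r2 h2 (χ s)) ^ 4 = 1 := by
      rw [← map_pow, ← MulChar.pow_apply' χ four_ne_zero, ← hord, pow_orderOf_eq_one,
        MulChar.one_apply (isUnit_iff_ne_zero.2 h0), map_one]
    have hpw : (gZ r2 h2 (χ s)) ^ p = gZ r2 h2 (χ s) := by
      have hgen : ∀ a : ZMod (p ^ 2), a ^ 4 = 1 → a ^ p = a := by
        intro a ha
        have e : a ^ p = a ^ (4 * K + 1) := congrArg (fun n => a ^ n) hK
        rw [e, pow_succ a, pow_mul a, ha, one_pow, one_mul]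
      exact hgen _ h4
    have hmod : CHI_pi p (gZ r2 h2 (χ s)) = CHI_pi p (s' ^ (3 * K)) := by
      have := RingHom.congr_fun hcomp (χ s)
      rw [RingHom.comp_apply] at this
      rw [this, hχ, map_pow, hs]
    rw [← hpw, CHI_pow hmod, ← pow_mul]

end CHIaux

/-- the Jacobi sum modulo `p²` in terms of `p = x² + y²` -/
theorem CHI (p : ℕ) [Fact p.Prime] (K : ℕ) (hK : p = 4 * K + 1) (x y : ℤ) (hxy : (p : ℤ) = x ^ 2 + y ^ 2)
    (hx : Odd x) : Jac p K ^ 2 = ((4 * x ^ 2 - 2 * (p : ℤ) : ℤ) : ZMod (p ^ 2)) := by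
  have hp : p.Prime := Fact.out
  have hK1 : 1 ≤ K := by
    rcases Nat.eq_zero_or_pos K with h | h
    · subst h
      exact absurd hp (by rw [hK]; norm_num)
    · exact h
  have hodd : Odd p := ⟨2 * K, by omega⟩
  have h0 : ((x : ZMod p)) ^ 2 + ((y : ZMod p)) ^ 2 = 0 := by
    have := congrArg (Int.cast (R := ZMod p)) hxy
    push_cast at this
    rw [ZMod.natCast_self] at this
    exact this.symm
  have hy : (y : ZMod p) ≠ 0 := by
    intro hy0
    rw [hy0] at h0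
    have hx0 : (x : ZMod p) = 0 := by
      have : (x : ZMod p) ^ 2 = 0 := by simpa using h0
      exact pow_eq_zero_iff two_ne_zero |>.1 this
    rw [ZMod.intCast_zmod_eq_zero_iff_dvd] at hy0 hx0
    obtain ⟨a, ha⟩ := hx0
    obtain ⟨b, hb⟩ := hy0
    have hp2 : (2 : ℤ) ≤ p := by exact_mod_cast hp.two_le
    rw [ha, hb] at hxy
    have h1 : (p : ℤ) * ((p : ℤ) * (a ^ 2 + b ^ 2)) = (p : ℤ) * 1 := by linear_combination -hxy
    have h2 : (p : ℤ) * (a ^ 2 + b ^ 2) = 1 := mul_left_cancel₀ (by omega) h1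
    have h3 : (p : ℤ) ∣ 1 := ⟨_, h2.symm⟩
    have h4 := Int.le_of_dvd one_pos h3
    omega
  set r0 : ZMod p := -(x : ZMod p) * ((y : ZMod p))⁻¹ with hr0
  have hr : r0 * r0 = ((-1 : ℤ) : ZMod p) := by
    push_cast
    rw [hr0]
    field_simp
    linear_combination h0
  have hxr : (x : ZMod p) + r0 * (y : ZMod p) = 0 := by
    rw [hr0, mul_assoc, inv_mul_cancel₀ hy]
    ring
  obtain ⟨χ, hord, hχ, hJ⟩ := JX p K hK x y hxy hx r0 hr hxr
  set R : ZMod (p ^ 2) := (r0.val : ZMod (p ^ 2)) with hR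
  have hRp : CHI_pi p R = r0 := by
    rw [hR, map_natCast, ZMod.natCast_zmod_val]
  have hRR : (R * R) ^ p = (((-1 : ℤ) : ZMod (p ^ 2))) ^ p := by
    apply CHI_pow
    rw [map_mul, hRp, hr, map_intCast]
  have h2 : R ^ p * R ^ p = ((-1 : ℤ) : ZMod (p ^ 2)) := by
    rw [← mul_pow, hRR]
    push_cast
    exact hodd.neg_one_pow
  have hpr : CHI_pi p (R ^ p) = r0 := by
    rw [map_pow, hRp, ZMod.pow_card]
  have hkey := fun s s' hs => CHI_key hK (h2 := h2) hpr χ hord hχ s s' hs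
  have hsq : ∀ u : ZMod (p ^ 2), u ^ (3 * K * p) * u ^ (3 * K * p) = u ^ (2 * K * p) := by
    intro u
    have hp2 := hp.two_le
    by_cases hu : CHI_pi p u = 0
    · rw [CHI_zero hu (by nlinarith), CHI_zero hu (by nlinarith), zero_mul]
    · have h1 : (u ^ (4 * K)) ^ p = 1 := by
        have := CHI_pow (p := p) (a := u ^ (4 * K)) (b := 1) (by
          rw [map_pow, map_one]
          have h5 := ZMod.pow_card_sub_one_eq_one hu
          rwa [show p - 1 = 4 * K by omega] at h5)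
        rw [this, one_pow]
      rw [← pow_add, show 3 * K * p + 3 * K * p = 4 * K * p + 2 * K * p by ring, pow_add, pow_mul, h1,
        one_mul]
  have hJac : Jac p K = gZ (R ^ p) h2 (jacobiSum χ (χ ^ 2)) := by
    unfold Jac jacobiSum
    rw [map_sum, ← CHI_sum (fun t : ZMod p => gZ (R ^ p) h2 (χ t * (χ ^ 2) (1 - t)))]
    refine sum_congr rfl fun t _ => ?_
    rw [map_mul, MulChar.pow_apply' χ two_ne_zero, map_pow,
      hkey (t : ZMod p) (t : ZMod (p ^ 2)) (map_natCast _ _),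
      hkey (1 - (t : ZMod p)) (1 - (t : ZMod (p ^ 2))) (by rw [map_sub, map_one, map_natCast]),
      sq ((1 - (t : ZMod (p ^ 2))) ^ (3 * K * p)), hsq]
  have hJ2 : Jac p K ^ 2 = ((x ^ 2 - y ^ 2 : ℤ) : ZMod (p ^ 2)) + ((-2 * x * y : ℤ) : ZMod (p ^ 2)) * R ^ p := by
    rw [hJac, ← map_pow, hJ]
    simp [gZ]
  have hz : ((x : ZMod (p ^ 2)) + R ^ p * (y : ZMod (p ^ 2))) ^ 2 = 0 := by
    apply CHI_zero _ le_rfl
    rw [map_add, map_mul, hpr, map_intCast, map_intCast, hxr]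
  have hxy2 := congrArg (Int.cast (R := ZMod (p ^ 2))) hxy
  push_cast at hxy2 hJ2 h2 ⊢
  rw [hJ2]
  linear_combination -hz + (y : ZMod (p ^ 2)) ^ 2 * h2 + 2 * hxy2

end Pool.Agent.Lib_helper91.TX
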