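import Pool.Agent.Lib_helper91.TX.C2
import Pool.Agent.Lib_helper91.TX.CHI

namespace Pool.Agent.Lib_helper91.TX

open PowerSeries Finset Pool.Agent.Lib_helper91.TN

section JACaux

set_option linter.unusedSectionVars false

variable {p : ℕ} [Fact p.Prime]

theorem JAC_pmul {a b : ZMod (p ^ 2)} (h : CHI_pi p a = CHI_pi p b) :
    (p : ZMod (p ^ 2)) * a = (p : ZMod (p ^ 2)) * b := by
  obtain ⟨c, hc⟩ := CHI_ker (a := a - b) (by rw [map_sub, h, sub_self])
  have h2 : (p : ZMod (p ^ 2)) ^ 2 = 0 := CHI_pp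
  linear_combination (p : ZMod (p ^ 2)) * hc + c * h2

/-- the multiplicative section of the reduction -/
def JAC_tau (p : ℕ) (x : ZMod p) : ZMod (p ^ 2) := ((x.val : ℕ) : ZMod (p ^ 2)) ^ p

theorem JAC_tau_pi (a : ZMod (p ^ 2)) : JAC_tau p (CHI_pi p a) = a ^ p := by
  unfold JAC_tau
  apply CHI_pow
  rw [map_natCast, ZMod.natCast_zmod_val]

theorem JAC_pi_tau (x : ZMod p) : CHI_pi p (JAC_tau p x) = x := by
  unfold JAC_tau
  rw [map_pow, map_natCast, ZMod.natCast_zmod_val, ZMod.pow_card]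

theorem JAC_tau_mul (x y : ZMod p) : JAC_tau p (x * y) = JAC_tau p x * JAC_tau p y := by
  obtain ⟨a, rfl⟩ : ∃ a, CHI_pi p a = x := ⟨_, JAC_pi_tau x⟩
  obtain ⟨b, rfl⟩ : ∃ b, CHI_pi p b = y := ⟨_, JAC_pi_tau y⟩
  rw [← map_mul, JAC_tau_pi, JAC_tau_pi, JAC_tau_pi, mul_pow]

theorem JAC_tau_pow (x : ZMod p) (n : ℕ) : JAC_tau p (x ^ n) = JAC_tau p x ^ n := by
  obtain ⟨a, rfl⟩ : ∃ a, CHI_pi p a = x := ⟨_, JAC_pi_tau x⟩
  rw [← map_pow, JAC_tau_pi, JAC_tau_pi, ← pow_mul, ← pow_mul, mul_comm]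

theorem JAC_tau_one : JAC_tau p 1 = 1 := by
  have := JAC_tau_pi (p := p) 1
  rwa [map_one, one_pow] at this

theorem JAC_unit {a : ZMod (p ^ 2)} (h : CHI_pi p a ≠ 0) : IsUnit a := by
  obtain ⟨b, hb⟩ : ∃ b, CHI_pi p b = (CHI_pi p a)⁻¹ := ⟨_, JAC_pi_tau _⟩
  have h1 : (a * b) ^ p = 1 ^ p := by
    apply CHI_pow
    rw [map_mul, hb, mul_inv_cancel₀ h, map_one]
  rw [one_pow, mul_pow] at h1
  have h2 : IsUnit (a ^ p) := IsUnit.of_mul_eq_one _ h1
  exact (isUnit_pow_iff (Fact.out : p.Prime).ne_zero).1 h2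

theorem JAC_S2 (n : ℕ) (hn : 0 < n) :
    ∑ x : ZMod p, JAC_tau p x ^ n = if (p - 1) ∣ n then ((p : ZMod (p ^ 2)) - 1) else 0 := by
  have hp : p.Prime := Fact.out
  split_ifs with h
  · have h1 : ∀ x : ZMod p, JAC_tau p x ^ n = 1 - if x = 0 then 1 else 0 := by
      intro x
      split_ifs with hx
      · rw [hx, sub_self, ← JAC_tau_pow, zero_pow hn.ne']
        have := JAC_tau_pi (p := p) 0
        rwa [map_zero, zero_pow hp.ne_zero] at this
      · obtain ⟨c, rfl⟩ := h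
        rw [sub_zero, pow_mul, ← JAC_tau_pow, ZMod.pow_card_sub_one_eq_one hx, JAC_tau_one, one_pow]
    rw [sum_congr rfl fun x _ => h1 x, sum_sub_distrib]
    simp
  · obtain ⟨g, hg⟩ : ∃ g : (ZMod p)ˣ, g ^ n ≠ 1 := by
      by_contra hcon
      push Not at hcon
      have := (FiniteField.forall_pow_eq_one_iff (ZMod p) n).1 hcon
      rw [ZMod.card] at this
      exact h this
    have h1 : ∑ x : ZMod p, JAC_tau p x ^ n = JAC_tau p g ^ n * ∑ x : ZMod p, JAC_tau p x ^ n := by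
      rw [mul_sum]
      have := Equiv.sum_comp (Units.mulLeft g) (fun x : ZMod p => JAC_tau p x ^ n)
      rw [← this]
      refine sum_congr rfl fun x _ => ?_
      rw [Units.mulLeft_apply, JAC_tau_mul, mul_pow]
    have h2 : IsUnit (JAC_tau p g ^ n - 1) := by
      apply JAC_unit
      rw [map_sub, map_pow, JAC_pi_tau, map_one, sub_ne_zero]
      intro h3
      apply hg
      ext
      push_cast
      exact h3
    have h3 : (JAC_tau p g ^ n - 1) * ∑ x : ZMod p, JAC_tau p x ^ n = 0 := by linear_combination -h1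
    exact (h2.mul_right_eq_zero).1 h3

theorem JAC_S1 (n : ℕ) (hn : 0 < n) :
    ∑ x : ZMod p, x ^ n = if (p - 1) ∣ n then (-1 : ZMod p) else 0 := by
  have h := congrArg (CHI_pi p) (JAC_S2 (p := p) n hn)
  rw [map_sum] at h
  have h1 : ∀ x : ZMod p, CHI_pi p (JAC_tau p x ^ n) = x ^ n := by
    intro x
    rw [map_pow, JAC_pi_tau]
  rw [sum_congr rfl fun x _ => h1 x] at h
  rw [h]
  split_ifs
  · rw [map_sub, map_natCast, map_one, ZMod.natCast_self, zero_sub]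
  · exact map_zero _

theorem JAC_inv {j : ℕ} (h0 : 0 < j) (hj : j < p) : (j : ZMod (p ^ 2)) * ((j : ℕ) : ZMod (p ^ 2))⁻¹ = 1 := by
  have hp : p.Prime := Fact.out
  apply ZMod.coe_mul_inv_eq_one
  exact Nat.Coprime.pow_right 2 ((Nat.Prime.coprime_iff_not_dvd hp).2 (Nat.not_dvd_of_pos_of_lt h0 hj)).symm

theorem JAC_pi_inv {j : ℕ} (h0 : 0 < j) (hj : j < p) :
    CHI_pi p ((j : ℕ) : ZMod (p ^ 2))⁻¹ = ((j : ℕ) : ZMod p)⁻¹ := by
  have h := congrArg (CHI_pi p) (JAC_inv h0 hj)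
  rw [map_mul, map_natCast, map_one] at h
  exact eq_inv_of_mul_eq_one_right h

/-- harmonic sums in `ℤ/p²` -/
def JAC_H (p n : ℕ) : ZMod (p ^ 2) := ∑ j ∈ Ioc 0 n, ((j : ℕ) : ZMod (p ^ 2))⁻¹

theorem JAC_H_succ (n : ℕ) : JAC_H p (n + 1) = ((n + 1 : ℕ) : ZMod (p ^ 2))⁻¹ + JAC_H p n := by
  unfold JAC_H
  rw [UB_Ioc_succ, sum_insert (by simp)]

theorem JAC_pi_H {n : ℕ} (hn : n < p) : CHI_pi p (JAC_H p n) = Hn (ZMod p) n := by
  unfold JAC_H Hn
  rw [map_sum]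
  refine sum_congr rfl fun j hj => ?_
  rw [mem_Ioc] at hj
  exact JAC_pi_inv (by omega) (by omega)

theorem JAC_Ioc {a b : ℕ} (hab : a ≤ b) :
    ∑ j ∈ Ioc a b, ((j : ℕ) : ZMod (p ^ 2))⁻¹ = JAC_H p b - JAC_H p a := by
  unfold JAC_H
  rw [eq_sub_iff_add_eq, add_comm]
  exact sum_Ioc_consecutive _ (Nat.zero_le a) hab

theorem JAC_Rep_H {n : ℕ} (hn : n < p) : A0f_Rep p (Hn ℚ_[p] n) (JAC_H p n) := by
  unfold JAC_H Hn
  apply A0f_Rep_sum
  intro j hj
  rw [mem_Ioc] at hj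
  have hp : p.Prime := Fact.out
  obtain ⟨r, hr⟩ := A0f_exists (PI_natCast_inv (p := p) j (Nat.not_dvd_of_pos_of_lt (by omega) (by omega)))
  have h1 := A0f_Rep_mul (A0f_Rep_nat j) hr
  have hj0 : (j : ℚ_[p]) ≠ 0 := by
    rw [Nat.cast_ne_zero]
    omega
  rw [mul_inv_cancel₀ hj0] at h1
  have h2 : (j : ZMod (p ^ 2)) * r = 1 := A0f_Rep_uniq h1 A0f_Rep_one
  have h3 := JAC_inv (p := p) (j := j) (by omega) (by omega)
  have h4 : r = ((j : ℕ) : ZMod (p ^ 2))⁻¹ := by linear_combination ((j : ℕ) : ZMod (p ^ 2))⁻¹ * h2 - r * h3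
  rwa [h4] at hr

/-- `C(p-1,m)` mod `p²` -/
theorem JAC_choose (m : ℕ) (hm : m < p) :
    (((p - 1).choose m : ℕ) : ZMod (p ^ 2)) = (-1) ^ m * (1 - (p : ZMod (p ^ 2)) * JAC_H p m) := by
  induction m with
  | zero => simp [JAC_H]
  | succ m ih =>
    have h1 := ih (by omega)
    have h2 := Nat.choose_succ_right_eq (p - 1) m
    have h3 := congrArg (Nat.cast (R := ZMod (p ^ 2))) h2
    have h4 : (((p - 1 - m : ℕ)) : ZMod (p ^ 2)) = (p : ZMod (p ^ 2)) - ((m + 1 : ℕ) : ZMod (p ^ 2)) := by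
      rw [show p - 1 - m = p - (m + 1) by omega, Nat.cast_sub (by omega)]
    have h5 := JAC_inv (p := p) (j := m + 1) (by omega) hm
    have h6 : (p : ZMod (p ^ 2)) ^ 2 = 0 := CHI_pp
    rw [Nat.cast_mul, Nat.cast_mul, h4, h1] at h3
    rw [JAC_H_succ, pow_succ (-1 : ZMod (p ^ 2))]
    generalize ((m + 1 : ℕ) : ZMod (p ^ 2)) = u at *
    generalize (((p - 1).choose (m + 1) : ℕ) : ZMod (p ^ 2)) = c at *
    generalize JAC_H p m = h at *
    generalize (-1 : ZMod (p ^ 2)) ^ m = s at *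
    generalize (p : ZMod (p ^ 2)) = q at *
    linear_combination u⁻¹ * h3 - (c + s * (1 - q * h)) * h5 - s * h * u⁻¹ * h6
/-- `∑_{m=1}^b (-1)^(m-1) C(n,b-m)/m` -/
def JAC_f (p n b : ℕ) [Fact p.Prime] : ZMod p :=
  ∑ m ∈ range b, (-1) ^ m * ((n.choose (b - 1 - m) : ℕ) : ZMod p) * ((m + 1 : ℕ) : ZMod p)⁻¹

theorem JAC_f_succ (n b : ℕ) : JAC_f p (n + 1) (b + 1) = JAC_f p n (b + 1) + JAC_f p n b := by
  unfold JAC_f
  rw [sum_range_succ, sum_range_succ]
  have h1 : ∀ m ∈ range b, (-1 : ZMod p) ^ m * (((n + 1).choose (b + 1 - 1 - m) : ℕ) : ZMod p)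
      * ((m + 1 : ℕ) : ZMod p)⁻¹ = (-1) ^ m * ((n.choose (b + 1 - 1 - m) : ℕ) : ZMod p) * ((m + 1 : ℕ) : ZMod p)⁻¹
        + (-1) ^ m * ((n.choose (b - 1 - m) : ℕ) : ZMod p) * ((m + 1 : ℕ) : ZMod p)⁻¹ := by
    intro m hm
    rw [mem_range] at hm
    rw [show b + 1 - 1 - m = (b - 1 - m) + 1 by omega, Nat.choose_succ_succ]
    push_cast
    ring
  rw [sum_congr rfl h1, sum_add_distrib]
  have h2 : b + 1 - 1 - b = 0 := by omega
  rw [h2, Nat.choose_zero_right, Nat.choose_zero_right]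
  ring

theorem JAC_ne {j : ℕ} (h0 : 0 < j) (hj : j < p) : ((j : ℕ) : ZMod p) ≠ 0 := by
  rw [Ne, ZMod.natCast_eq_zero_iff]
  exact Nat.not_dvd_of_pos_of_lt h0 hj

theorem JAC_f_diag (n : ℕ) (hn : n + 1 < p) : JAC_f p n (n + 1) = ((n + 1 : ℕ) : ZMod p)⁻¹ := by
  unfold JAC_f
  have h1 : ∀ m ∈ range (n + 1), (-1 : ZMod p) ^ m * ((n.choose (n + 1 - 1 - m) : ℕ) : ZMod p)
      * ((m + 1 : ℕ) : ZMod p)⁻¹ = -((n + 1 : ℕ) : ZMod p)⁻¹ * ((-1) ^ (m + 1) * (((n + 1).choose (m + 1) : ℕ) : ZMod p)) := by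
    intro m hm
    rw [mem_range] at hm
    rw [show n + 1 - 1 - m = n - m by omega, Nat.choose_symm (by omega : m ≤ n)]
    have h2 := congrArg (Nat.cast (R := ZMod p)) (Nat.add_one_mul_choose_eq n m)
    have h3 := JAC_ne (p := p) (j := n + 1) (by omega) hn
    have h4 := JAC_ne (p := p) (j := m + 1) (by omega) (by omega)
    rw [Nat.cast_mul, Nat.cast_mul] at h2
    rw [pow_succ]
    generalize ((n + 1 : ℕ) : ZMod p) = a at *
    generalize ((m + 1 : ℕ) : ZMod p) = b at *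
    field_simp
    linear_combination h2
  rw [sum_congr rfl h1, ← mul_sum]
  have h5 := Int.alternating_sum_range_choose (n := n + 1)
  rw [if_neg (by omega), sum_range_succ'] at h5
  have h6 := congrArg (Int.cast (R := ZMod p)) h5
  push_cast at h6
  rw [Nat.choose_zero_right] at h6
  push_cast at h6 ⊢
  linear_combination -((n : ZMod p) + 1)⁻¹ * h6

theorem JAC_f_eq (n : ℕ) (hn : n < p) : ∀ b ≤ n,
    JAC_f p n b = ((n.choose b : ℕ) : ZMod p) * (Hn (ZMod p) n - Hn (ZMod p) (n - b)) := by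
  induction n with
  | zero =>
    intro b hb
    obtain rfl : b = 0 := by omega
    simp [JAC_f]
  | succ n ih =>
    intro b hb
    rcases b with _ | b
    · simp [JAC_f]
    · rw [JAC_f_succ]
      rcases Nat.lt_or_ge b n with hbn | hbn
      · rw [ih (by omega) (b + 1) (by omega), ih (by omega) b (by omega)]
        obtain ⟨k, hk⟩ : ∃ k, n = b + (k + 1) := ⟨n - b - 1, by omega⟩
        have e1 : n - (b + 1) = k := by omega
        have e2 : n - b = k + 1 := by omega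
        have e3 : n + 1 - (b + 1) = k + 1 := by omega
        rw [e1, e2, e3, UB_Hn_succ (ZMod p) n, UB_Hn_succ (ZMod p) k, Nat.choose_succ_succ',
          Nat.cast_add (n.choose b) (n.choose (b + 1))]
        have h1 := congrArg (Nat.cast (R := ZMod p)) (Nat.choose_succ_right_eq n b)
        have h2 := congrArg (Nat.cast (R := ZMod p)) (Nat.add_one_mul_choose_eq n b)
        rw [e2, Nat.cast_mul, Nat.cast_mul] at h1
        rw [Nat.cast_mul, Nat.cast_mul, Nat.choose_succ_succ', Nat.cast_add (n.choose b) (n.choose (b + 1))] at h2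
        have h3 := JAC_ne (p := p) (j := n + 1) (by omega) hn
        have h4 := JAC_ne (p := p) (j := k + 1) (by omega) (by omega)
        have h5 := JAC_ne (p := p) (j := b + 1) (by omega) (by omega)
        generalize ((n + 1 : ℕ) : ZMod p) = N at *
        generalize ((k + 1 : ℕ) : ZMod p) = K at *
        generalize ((b + 1 : ℕ) : ZMod p) = B at *
        have h6 : ((n.choose (b + 1) : ℕ) : ZMod p) * K⁻¹ = ((n.choose b : ℕ) : ZMod p) * B⁻¹ := by
          rw [mul_inv_eq_iff_eq_mul₀ h4]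
          field_simp
          linear_combination h1
        have h7 : (((n.choose b : ℕ) : ZMod p) + ((n.choose (b + 1) : ℕ) : ZMod p)) * N⁻¹
            = ((n.choose b : ℕ) : ZMod p) * B⁻¹ := by
          rw [mul_inv_eq_iff_eq_mul₀ h3]
          field_simp
          linear_combination -h2
        linear_combination h6 - h7
      · obtain rfl : b = n := by omega
        rw [ih (by omega) b (by omega), JAC_f_diag b hn, UB_Hn_succ, Nat.choose_self, Nat.choose_self]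
        simp [Hn]

theorem JAC_addpow (u v : ZMod (p ^ 2)) (n : ℕ) :
    (u + (p : ZMod (p ^ 2)) * v) ^ (n + 1)
      = u ^ (n + 1) + ((n + 1 : ℕ) : ZMod (p ^ 2)) * (p : ZMod (p ^ 2)) * v * u ^ n := by
  have h2 : (p : ZMod (p ^ 2)) ^ 2 = 0 := CHI_pp
  induction n with
  | zero => simp
  | succ n ih =>
    rw [pow_succ (u + (p : ZMod (p ^ 2)) * v), ih]
    push_cast
    linear_combination ((n : ZMod (p ^ 2)) + 1) * v ^ 2 * u ^ n * h2

theorem JAC_split {M : Type} [AddCommMonoid M] (f : ℕ → M) {n : ℕ} (hn : 0 < n) :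
    ∑ m ∈ range (n + 1), f m = ∑ i ∈ range (n - 1), f (i + 1) + f 0 + f n := by
  obtain ⟨q, rfl⟩ : ∃ q, n = q + 1 := ⟨n - 1, by omega⟩
  rw [sum_range_succ, sum_range_succ']
  rfl

/-- `((1-a)^p - 1 + a^p)/p` -/
def JAC_h (p : ℕ) (a : ZMod (p ^ 2)) : ZMod (p ^ 2) :=
  ∑ i ∈ range (p - 1), (-1) ^ (i + 1) * ((p.choose (i + 1) / p : ℕ) : ZMod (p ^ 2)) * a ^ (i + 1)

theorem JAC_one_sub (hodd : Odd p) (a : ZMod (p ^ 2)) :
    (1 - a) ^ p = 1 - a ^ p + (p : ZMod (p ^ 2)) * JAC_h p a := by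
  have hp : p.Prime := Fact.out
  have h1 : (1 - a) ^ p = ∑ m ∈ range (p + 1), (-a) ^ m * 1 ^ (p - m) * ((p.choose m : ℕ) : ZMod (p ^ 2)) := by
    rw [← add_pow, neg_add_eq_sub]
  rw [h1, JAC_split _ hp.pos]
  unfold JAC_h
  rw [mul_sum, pow_zero, Nat.choose_zero_right, Nat.choose_self, hodd.neg_pow]
  have h2 : ∀ i ∈ range (p - 1), (-a) ^ (i + 1) * 1 ^ (p - (i + 1)) * ((p.choose (i + 1) : ℕ) : ZMod (p ^ 2))
      = (p : ZMod (p ^ 2)) * ((-1) ^ (i + 1) * ((p.choose (i + 1) / p : ℕ) : ZMod (p ^ 2)) * a ^ (i + 1)) := by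
    intro i hi
    rw [mem_range] at hi
    have h3 : p ∣ p.choose (i + 1) := hp.dvd_choose_self (by omega) (by omega)
    have h4 : p.choose (i + 1) = p * (p.choose (i + 1) / p) := (Nat.mul_div_cancel' h3).symm
    have h5 := congrArg (Nat.cast (R := ZMod (p ^ 2))) h4
    rw [Nat.cast_mul] at h5
    rw [h5, neg_pow a, one_pow]
    ring
  rw [sum_congr rfl h2]
  simp only [one_pow, Nat.cast_one, mul_one]
  ring

theorem JAC_pi_h (a : ZMod (p ^ 2)) :
    CHI_pi p (JAC_h p a) = -∑ i ∈ range (p - 1), CHI_pi p a ^ (i + 1) * ((i + 1 : ℕ) : ZMod p)⁻¹ := by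
  have hp : p.Prime := Fact.out
  unfold JAC_h
  rw [map_sum, ← sum_neg_distrib]
  refine sum_congr rfl fun i hi => ?_
  rw [mem_range] at hi
  rw [map_mul, map_mul, map_pow, map_pow, map_neg, map_one, map_natCast]
  have h3 : p ∣ p.choose (i + 1) := hp.dvd_choose_self (by omega) (by omega)
  have h4 : p * (p.choose (i + 1) / p) = p.choose (i + 1) := Nat.mul_div_cancel' h3
  have h5 := Nat.add_one_mul_choose_eq (p - 1) i
  rw [show p - 1 + 1 = p by omega] at h5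
  have h6 : (p - 1).choose i = (p.choose (i + 1) / p) * (i + 1) := by
    apply Nat.eq_of_mul_eq_mul_left hp.pos
    rw [h5, ← mul_assoc, h4]
  have h7 := congrArg (CHI_pi p) (JAC_choose (p := p) i (by omega))
  rw [map_natCast, map_mul, map_pow, map_neg, map_one, map_sub, map_one, map_mul, map_natCast,
    ZMod.natCast_self, zero_mul, sub_zero, mul_one, h6, Nat.cast_mul] at h7
  have h8 := JAC_ne (p := p) (j := i + 1) (by omega) (by omega)
  have h9 : (-1 : ZMod p) ^ i * (-1) ^ i = 1 := by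
    rw [← mul_pow]
    simp
  have h10 : ((i + 1 : ℕ) : ZMod p) * ((i + 1 : ℕ) : ZMod p)⁻¹ = 1 := mul_inv_cancel₀ h8
  rw [pow_succ (-1 : ZMod p)]
  generalize ((p.choose (i + 1) / p : ℕ) : ZMod p) = c at *
  generalize ((i + 1 : ℕ) : ZMod p) = b at *
  generalize CHI_pi p a ^ (i + 1) = y at *
  generalize (-1 : ZMod p) ^ i = s at *
  linear_combination -(s * y * b⁻¹) * h7 + (s * c * y) * h10 - y * b⁻¹ * h9

theorem JAC_val (K : ℕ) : Jac p K = ∑ x : ZMod p,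
    (JAC_tau p x) ^ (3 * K) * ((1 - ((x.val : ℕ) : ZMod (p ^ 2))) ^ p) ^ (2 * K) := by
  unfold Jac
  rw [← CHI_sum]
  refine sum_congr rfl fun t ht => ?_
  rw [mem_range] at ht
  unfold JAC_tau
  rw [ZMod.val_cast_of_lt ht, ← pow_mul, ← pow_mul, mul_comm p, mul_comm p]

theorem JAC_first (K : ℕ) (hK1 : 1 ≤ K) (hK : p = 4 * K + 1) :
    ∑ x : ZMod p, (JAC_tau p x) ^ (3 * K) * (1 - JAC_tau p x) ^ (2 * K)
      = (-1) ^ K * (((2 * K).choose K : ℕ) : ZMod (p ^ 2)) * ((p : ZMod (p ^ 2)) - 1) := by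
  have h1 : ∀ x : ZMod p, (JAC_tau p x) ^ (3 * K) * (1 - JAC_tau p x) ^ (2 * K)
      = ∑ i ∈ range (2 * K + 1), ((-1) ^ i * (((2 * K).choose i : ℕ) : ZMod (p ^ 2))) * JAC_tau p x ^ (3 * K + i) := by
    intro x
    rw [← neg_add_eq_sub, add_pow, mul_sum]
    refine sum_congr rfl fun i _ => ?_
    rw [neg_pow, one_pow, pow_add]
    ring
  rw [sum_congr rfl fun x _ => h1 x, sum_comm]
  have h2 : ∀ i ∈ range (2 * K + 1), ∑ x : ZMod p,
      ((-1) ^ i * (((2 * K).choose i : ℕ) : ZMod (p ^ 2))) * JAC_tau p x ^ (3 * K + i)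
        = ((-1) ^ i * (((2 * K).choose i : ℕ) : ZMod (p ^ 2))) * if (p - 1) ∣ (3 * K + i) then ((p : ZMod (p ^ 2)) - 1) else 0 := by
    intro i _
    rw [← mul_sum, JAC_S2 (3 * K + i) (by omega)]
  rw [sum_congr rfl h2, sum_eq_single K]
  · rw [if_pos]
    exact ⟨1, by omega⟩
  · intro i hi hne
    rw [mem_range] at hi
    rw [if_neg, mul_zero]
    rintro ⟨c, hc⟩
    rw [show p - 1 = 4 * K by omega] at hc
    have hc2 : c < 2 := by
      by_contra hcon
      have := Nat.mul_le_mul_left (4 * K) (not_lt.1 hcon)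
      omega
    interval_cases c <;> omega
  · intro h
    exact absurd (mem_range.2 (by omega)) h

theorem JAC_inner (K : ℕ) (_hK1 : 1 ≤ K) (j : ℕ) (hj : j < 2 * K) :
    ∑ i ∈ range (4 * K), (if (4 * K) ∣ (3 * K + (i + 1) + j) then ((i + 1 : ℕ) : ZMod p)⁻¹ else 0)
      = ((if j < K then K - j else 5 * K - j : ℕ) : ZMod p)⁻¹ := by
  have key : ∀ i < 4 * K, (4 * K) ∣ (3 * K + (i + 1) + j) → i + 1 = if j < K then K - j else 5 * K - j := by
    rintro i hi ⟨c, hc⟩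
    have hc2 : c < 3 := by
      by_contra hcon
      have := Nat.mul_le_mul_left (4 * K) (not_lt.1 hcon)
      omega
    split_ifs <;> interval_cases c <;> omega
  set n : ℕ := if j < K then K - j else 5 * K - j with hn
  have hn1 : 1 ≤ n ∧ n ≤ 4 * K ∧ (4 * K) ∣ (3 * K + n + j) := by
    rw [hn]
    split_ifs
    · exact ⟨by omega, by omega, 1, by omega⟩
    · exact ⟨by omega, by omega, 2, by omega⟩
  rw [sum_eq_single (n - 1)]
  · rw [show n - 1 + 1 = n by omega, if_pos hn1.2.2]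
  · intro i hi hne
    rw [mem_range] at hi
    rw [if_neg]
    intro hd
    have := key i hi hd
    omega
  · intro h
    exact absurd (mem_range.2 (by omega)) h

theorem JAC_second (K : ℕ) (hK1 : 1 ≤ K) (hK : p = 4 * K + 1) :
    ∑ x : ZMod p, x ^ (3 * K) * (-∑ i ∈ range (p - 1), x ^ (i + 1) * ((i + 1 : ℕ) : ZMod p)⁻¹) * (1 - x) ^ (2 * K - 1)
      = ∑ j ∈ range (2 * K), (-1) ^ j * (((2 * K - 1).choose j : ℕ) : ZMod p)
        * ((if j < K then K - j else 5 * K - j : ℕ) : ZMod p)⁻¹ := by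
  have h1 : ∀ x : ZMod p, x ^ (3 * K) * (-∑ i ∈ range (p - 1), x ^ (i + 1) * ((i + 1 : ℕ) : ZMod p)⁻¹) * (1 - x) ^ (2 * K - 1)
      = ∑ j ∈ range (2 * K), ∑ i ∈ range (4 * K), (-((-1) ^ j * (((2 * K - 1).choose j : ℕ) : ZMod p)
        * ((i + 1 : ℕ) : ZMod p)⁻¹)) * x ^ (3 * K + (i + 1) + j) := by
    intro x
    rw [← neg_add_eq_sub, add_pow, show 2 * K - 1 + 1 = 2 * K by omega, mul_sum, show p - 1 = 4 * K by omega]
    refine sum_congr rfl fun j _ => ?_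
    rw [mul_comm, ← mul_assoc, mul_neg, mul_sum, ← sum_neg_distrib]
    refine sum_congr rfl fun i _ => ?_
    rw [neg_pow x, one_pow, pow_add, pow_add]
    ring
  rw [sum_congr rfl fun x _ => h1 x, sum_comm]
  refine sum_congr rfl fun j hj => ?_
  rw [mem_range] at hj
  rw [sum_comm, ← JAC_inner K hK1 j hj, mul_sum]
  refine sum_congr rfl fun i _ => ?_
  rw [← mul_sum, JAC_S1 _ (by omega), show p - 1 = 4 * K by omega]
  split_ifs
  · ring
  · ring

theorem JAC_B (K : ℕ) (hK1 : 1 ≤ K) (hK : p = 4 * K + 1) :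
    ∑ j ∈ range (2 * K), (-1) ^ j * (((2 * K - 1).choose j : ℕ) : ZMod p)
        * ((if j < K then K - j else 5 * K - j : ℕ) : ZMod p)⁻¹
      = -2 * (-1) ^ K * JAC_f p (2 * K - 1) K := by
  have hp0 : (4 * (K : ZMod p) + 1) = 0 := by
    have := congrArg (Nat.cast (R := ZMod p)) hK
    push_cast at this
    rw [← this, ZMod.natCast_self]
  rw [show range (2 * K) = range (K + K) by rw [two_mul], sum_range_add]
  have hA : ∑ j ∈ range K, (-1) ^ j * (((2 * K - 1).choose j : ℕ) : ZMod p)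
        * ((if j < K then K - j else 5 * K - j : ℕ) : ZMod p)⁻¹ = -(-1) ^ K * JAC_f p (2 * K - 1) K := by
    rw [← sum_range_reflect, JAC_f, mul_sum]
    refine sum_congr rfl fun m hm => ?_
    rw [mem_range] at hm
    rw [if_pos (by omega), show K - (K - 1 - m) = m + 1 by omega]
    have h1 : (-1 : ZMod p) ^ (K - 1 - m) = -(-1) ^ K * (-1) ^ m := by
      obtain ⟨r, hr⟩ : ∃ r, K = r + m + 1 := ⟨K - 1 - m, by omega⟩
      rw [show K - 1 - m = r by omega, hr, pow_succ, pow_add]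
      have h2 : (-1 : ZMod p) ^ m * (-1) ^ m = 1 := by
        rw [← mul_pow]
        simp
      linear_combination -(-1 : ZMod p) ^ r * h2
    rw [h1]
    ring
  have hB : ∑ j ∈ range K, (-1) ^ (K + j) * (((2 * K - 1).choose (K + j) : ℕ) : ZMod p)
        * ((if K + j < K then K - (K + j) else 5 * K - (K + j) : ℕ) : ZMod p)⁻¹
      = ∑ j ∈ range K, (-1) ^ j * (((2 * K - 1).choose j : ℕ) : ZMod p)
        * ((if j < K then K - j else 5 * K - j : ℕ) : ZMod p)⁻¹ := by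
    rw [← sum_range_reflect]
    refine sum_congr rfl fun m hm => ?_
    rw [mem_range] at hm
    rw [if_neg (by omega), if_pos hm, show K + (K - 1 - m) = 2 * K - 1 - m by omega,
      Nat.choose_symm (by omega : m ≤ 2 * K - 1), show 5 * K - (2 * K - 1 - m) = 3 * K + 1 + m by omega]
    have h1 : (-1 : ZMod p) ^ (2 * K - 1 - m) = -(-1) ^ m := by
      obtain ⟨r, hr⟩ : ∃ r, 2 * K = r + m + 1 := ⟨2 * K - 1 - m, by omega⟩
      rw [show 2 * K - 1 - m = r by omega]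
      have h3 : (-1 : ZMod p) ^ (2 * K) = 1 := by
        rw [pow_mul]
        simp
      rw [hr, pow_succ, pow_add] at h3
      have h2 : (-1 : ZMod p) ^ m * (-1) ^ m = 1 := by
        rw [← mul_pow]
        simp
      linear_combination -(-1 : ZMod p) ^ m * h3 - (-1 : ZMod p) ^ r * h2
    have h4 : ((3 * K + 1 + m : ℕ) : ZMod p) = -((K - m : ℕ) : ZMod p) := by
      rw [Nat.cast_sub hm.le]
      push_cast
      linear_combination hp0
    rw [h1, h4, inv_neg]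
    ring
  rw [hB, hA]
  ring

theorem JAC_C (K : ℕ) (hK1 : 1 ≤ K) : (2 * K).choose K = 2 * (2 * K - 1).choose K := by
  obtain ⟨q, rfl⟩ : ∃ q, K = q + 1 := ⟨K - 1, by omega⟩
  rw [show 2 * (q + 1) = (2 * q + 1) + 1 by ring, show 2 * q + 1 + 1 - 1 = 2 * q + 1 by omega, Nat.choose_succ_succ',
    Nat.choose_symm_half q]
  ring

/-- the second sum: `2K B = -(-1)^K C(2K,K) (2K D + 1)` -/
theorem JAC_D (K : ℕ) (hK1 : 1 ≤ K) (hK : p = 4 * K + 1) :
    2 * (K : ZMod p) * (-2 * (-1) ^ K * JAC_f p (2 * K - 1) K)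
      = -(-1) ^ K * (((2 * K).choose K : ℕ) : ZMod p)
        * (2 * (K : ZMod p) * (Hn (ZMod p) (2 * K) - Hn (ZMod p) K) + 1) := by
  rw [JAC_f_eq (2 * K - 1) (by omega) K (by omega), JAC_C K hK1]
  have h1 := UB_Hn_succ (ZMod p) (2 * K - 1)
  have h2 := UB_Hn_succ (ZMod p) (K - 1)
  rw [show 2 * K - 1 + 1 = 2 * K by omega] at h1
  rw [show K - 1 + 1 = K by omega] at h2
  rw [show 2 * K - 1 - K = K - 1 by omega, h1, h2]
  have h3 := mul_inv_cancel₀ (JAC_ne (p := p) (j := 2 * K) (by omega) (by omega))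
  have h4 := mul_inv_cancel₀ (JAC_ne (p := p) (j := K) (by omega) (by omega))
  push_cast at h3 h4 ⊢
  generalize Hn (ZMod p) (2 * K - 1) = a at *
  generalize Hn (ZMod p) (K - 1) = b at *
  generalize (((2 * K - 1).choose K : ℕ) : ZMod p) = c at *
  generalize (-1 : ZMod p) ^ K = s at *
  linear_combination 2 * s * c * h3 - 4 * s * c * h4

theorem JAC_one (K : ℕ) (hK1 : 1 ≤ K) (hK : p = 4 * K + 1) :
    Jac p K = -(-1) ^ K * (((2 * K).choose K : ℕ) : ZMod (p ^ 2))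
      * (1 + 2 * (K : ZMod (p ^ 2)) * (p : ZMod (p ^ 2)) * (JAC_H p (2 * K) - JAC_H p K)) := by
  have hodd : Odd p := ⟨2 * K, by omega⟩
  have h1 : Jac p K = ∑ x : ZMod p, (JAC_tau p x) ^ (3 * K) * (1 - JAC_tau p x) ^ (2 * K)
      + (p : ZMod (p ^ 2)) * (2 * (K : ZMod (p ^ 2)) * ∑ x : ZMod p, (JAC_tau p x) ^ (3 * K)
        * JAC_h p ((x.val : ℕ) : ZMod (p ^ 2)) * (1 - JAC_tau p x) ^ (2 * K - 1)) := by
    rw [JAC_val, mul_sum, mul_sum, ← sum_add_distrib]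
    refine sum_congr rfl fun x _ => ?_
    rw [JAC_one_sub hodd]
    have h2 := JAC_addpow (p := p) (1 - ((x.val : ℕ) : ZMod (p ^ 2)) ^ p) (JAC_h p ((x.val : ℕ) : ZMod (p ^ 2))) (2 * K - 1)
    rw [show 2 * K - 1 + 1 = 2 * K by omega] at h2
    rw [h2]
    unfold JAC_tau
    push_cast
    ring
  have h3 : (p : ZMod (p ^ 2)) * (2 * (K : ZMod (p ^ 2)) * ∑ x : ZMod p, (JAC_tau p x) ^ (3 * K)
        * JAC_h p ((x.val : ℕ) : ZMod (p ^ 2)) * (1 - JAC_tau p x) ^ (2 * K - 1))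
      = (p : ZMod (p ^ 2)) * (-(-1) ^ K * (((2 * K).choose K : ℕ) : ZMod (p ^ 2))
        * (2 * (K : ZMod (p ^ 2)) * (JAC_H p (2 * K) - JAC_H p K) + 1)) := by
    apply JAC_pmul
    simp only [map_mul, map_sum, map_pow, map_sub, map_one, map_neg, map_add, map_natCast, JAC_pi_tau, JAC_pi_h,
      ZMod.natCast_zmod_val, map_ofNat]
    rw [JAC_pi_H (by omega : 2 * K < p), JAC_pi_H (by omega : K < p), ← JAC_D K hK1 hK, ← JAC_B K hK1 hK,
      ← JAC_second K hK1 hK]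
  rw [h1, h3, JAC_first K hK1 hK]
  ring

theorem JAC_Hp (h3 : 3 ≤ p) : Hn (ZMod p) (p - 1) = 0 := by
  have h := UB_sum_inv (p := p) h3
  rw [← CHI_sum (fun x : ZMod p => x⁻¹)] at h
  unfold Hn
  rw [← h]
  have hp : p.Prime := Fact.out
  have h1 : range p = insert 0 (Ioc 0 (p - 1)) := by
    ext j
    simp only [mem_range, mem_insert, mem_Ioc]
    have := hp.pos
    omega
  rw [h1, sum_insert (by simp)]
  simp

end JACaux

variable (p : ℕ) [Fact p.Prime]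

/-- the Jacobi sum modulo `p²` -/
theorem JAC1 (K : ℕ) (hK : p = 4 * K + 1) :
    Jac p K = -(-1) ^ K * ((2 * K).choose K : ZMod (p ^ 2))
      * (1 + 2 * (K : ZMod (p ^ 2)) * (p : ZMod (p ^ 2)) * ∑ j ∈ Ioc K (2 * K), ((j : ℕ) : ZMod (p ^ 2))⁻¹) := by
  have hp : p.Prime := Fact.out
  have hK1 : 1 ≤ K := by
    rcases Nat.eq_zero_or_pos K with h | h
    · subst h
      exact absurd hp (by rw [hK]; norm_num)
    · exact h
  rw [JAC_Ioc (by omega : K ≤ 2 * K)]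
  exact JAC_one K hK1 hK

/-- relation with `cc` and `gl2` -/
theorem JAC2 (K : ℕ) (hK : p = 4 * K + 1) :
    4 * (((2 * K).choose K : ZMod (p ^ 2)) ^ 2
      * (1 - (p : ZMod (p ^ 2)) * ∑ j ∈ Ioc K (2 * K), ((j : ℕ) : ZMod (p ^ 2))⁻¹))
      = 4 * (cc K : ZMod (p ^ 2)) - (p : ZMod (p ^ 2)) * (gl2 p K : ZMod (p ^ 2)) := by
  have hp : p.Prime := Fact.out
  have hK1 : 1 ≤ K := by
    rcases Nat.eq_zero_or_pos K with h | h
    · subst h
      exact absurd hp (by rw [hK]; norm_num)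
    · exact h
  have h2 : (p : ZMod (p ^ 2)) ^ 2 = 0 := CHI_pp
  rw [JAC_Ioc (by omega : K ≤ 2 * K)]
  have hr : A0f_Rep p (gc ℚ_[p] K) (4 * (cc K : ZMod (p ^ 2)) * (JAC_H p (4 * K) - JAC_H p K)) := by
    unfold gc
    have h4 := A0f_Rep_nat (p := p) 4
    push_cast at h4
    exact A0f_Rep_mul (A0f_Rep_mul h4 (A0f_Rep_nat _))
      (A0f_Rep_sub (JAC_Rep_H (by omega)) (JAC_Rep_H (by omega)))
  have h1 := A0f_p_mul hr (A0f_Rep_nat (gl2 p K)) (C2l p (by omega) K (by omega))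
  have h3 : (p : ZMod (p ^ 2)) * JAC_H p (4 * K) = 0 := by
    rw [← mul_zero (p : ZMod (p ^ 2))]
    apply JAC_pmul
    rw [map_zero, JAC_pi_H (by omega), show 4 * K = p - 1 by omega]
    exact JAC_Hp (by omega)
  have h5 := JAC_choose (p := p) (2 * K) (by omega)
  rw [show p - 1 = 4 * K by omega, pow_mul] at h5
  have h6 : (cc K : ZMod (p ^ 2)) = (((4 * K).choose (2 * K) : ℕ) : ZMod (p ^ 2)) * (((2 * K).choose K : ℕ) : ZMod (p ^ 2)) ^ 2 := by
    unfold cc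
    push_cast
    rfl
  rw [← h1, h6, h5]
  simp only [neg_one_sq, one_pow, one_mul]
  generalize (((2 * K).choose K : ℕ) : ZMod (p ^ 2)) = c at *
  generalize JAC_H p (4 * K) = a at *
  generalize JAC_H p (2 * K) = b at *
  generalize JAC_H p K = d at *
  generalize (p : ZMod (p ^ 2)) = q at *
  linear_combination (4 * c ^ 2 * (1 - q * b)) * h3 + (4 * c ^ 2 * b * d) * h2

theorem JAC (K : ℕ) (hK : p = 4 * K + 1) :
    4 * Jac p K ^ 2 = 4 * (cc K : ZMod (p ^ 2)) - (p : ZMod (p ^ 2)) * (gl2 p K : ZMod (p ^ 2)) := by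
  have h2 : (p : ZMod (p ^ 2)) ^ 2 = 0 := CHI_pp
  rw [← JAC2 p K hK, JAC1 p K hK]
  have h1 : (4 * (K : ZMod (p ^ 2)) + 1) = (p : ZMod (p ^ 2)) := by
    have := congrArg (Nat.cast (R := ZMod (p ^ 2))) hK
    push_cast at this
    exact this.symm
  have h3 : ((-1 : ZMod (p ^ 2)) ^ K) ^ 2 = 1 := by
    rw [← pow_mul, mul_comm, pow_mul]
    simp
  generalize (((2 * K).choose K : ℕ) : ZMod (p ^ 2)) = c at *
  generalize (∑ j ∈ Ioc K (2 * K), ((j : ℕ) : ZMod (p ^ 2))⁻¹) = d at *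
  generalize (-1 : ZMod (p ^ 2)) ^ K = s at *
  generalize (p : ZMod (p ^ 2)) = q at *
  generalize (K : ZMod (p ^ 2)) = k at *
  linear_combination (4 * c ^ 2 * (1 + 2 * k * q * d) ^ 2) * h3 + (16 * c ^ 2 * k ^ 2 * d ^ 2 + 4 * c ^ 2 * d) * h2
    + (4 * c ^ 2 * q * d) * h1

end Pool.Agent.Lib_helper91.TX
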