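import Pool.Agent.Lib_helper91.TX.Defs

namespace Pool.Agent.Lib_helper91.TX

open Finset

/-- a primitive additive character with values in an algebraically closed field -/
theorem QG_psi (p : ℕ) [Fact p.Prime] (Ω : Type) [Field Ω] [IsAlgClosed Ω] (hp : (p : Ω) ≠ 0) :
    ∃ ψ : AddChar (ZMod p) Ω, ψ.IsPrimitive := by
  have : NeZero (p : Ω) := ⟨hp⟩
  have : NeZero p := ⟨(Fact.out : p.Prime).ne_zero⟩
  obtain ⟨ζ, hζ⟩ := HasEnoughRootsOfUnity.exists_primitiveRoot Ω p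
  exact ⟨AddChar.zmodChar p ((IsPrimitiveRoot.iff_def ζ p).mp hζ).left,
    AddChar.zmodChar_primitive_of_primitive_root p hζ⟩

/-- relations between Gauss sums -/
theorem QG_rel (p : ℕ) [Fact p.Prime] {Ω : Type} [Field Ω] (φ : GaussianInt →+* Ω)
    (h2 : (2 : Ω) ≠ 0) (hp : (p : Ω) ≠ 0) (χ : MulChar (ZMod p) GaussianInt) (hχ : orderOf χ = 4)
    (ψ : AddChar (ZMod p) Ω) (hψ : ψ.IsPrimitive) :
    gaussSum (χ.ringHomComp φ) ψ ≠ 0 ∧ gaussSum ((χ.ringHomComp φ) ^ 3) ψ ≠ 0 ∧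
    gaussSum (χ.ringHomComp φ) ψ * gaussSum ((χ.ringHomComp φ) ^ 3) ψ = φ (χ (-1)) * p ∧
    gaussSum ((χ.ringHomComp φ) ^ 3) ψ * φ (jacobiSum χ (χ ^ 2)) =
      gaussSum (χ.ringHomComp φ) ψ * gaussSum ((χ.ringHomComp φ) ^ 2) ψ ∧
    gaussSum ((χ.ringHomComp φ) ^ 2) ψ ^ 2 = p ∧ (χ.ringHomComp φ) ^ 4 = 1 ∧ φ (χ (-1)) ^ 2 = 1 := by
  obtain ⟨η, hη⟩ : ∃ η, η = χ.ringHomComp φ := ⟨_, rfl⟩
  rw [← hη]
  have h4 : χ ^ 4 = 1 := by rw [← hχ, pow_orderOf_eq_one]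
  have hsq : χ ^ 2 ≠ 1 := by
    intro h
    have := orderOf_dvd_of_pow_eq_one h
    rw [hχ] at this
    revert this
    decide
  have e4 : η ^ 4 = 1 := by rw [hη, MulChar.ringHomComp_pow, h4, MulChar.ringHomComp_one]
  -- the square is nontrivial
  have e2 : η ^ 2 ≠ 1 := by
    obtain ⟨a, ha⟩ := MulChar.ne_one_iff.1 hsq
    have h1 : χ a ^ 4 = 1 := by
      rw [← MulChar.pow_apply_coe, h4, MulChar.one_apply_coe]
    have h1' : (χ a ^ 2 - 1) * (χ a ^ 2 + 1) = 0 := by linear_combination h1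
    rw [MulChar.pow_apply_coe] at ha
    have h3 : χ a ^ 2 = -1 := by
      rcases mul_eq_zero.1 h1' with h | h
      · exact absurd (sub_eq_zero.1 h) ha
      · linear_combination h
    rw [MulChar.ne_one_iff]
    refine ⟨a, ?_⟩
    rw [MulChar.pow_apply_coe, hη, MulChar.ringHomComp_apply, ← map_pow, h3, map_neg, map_one]
    intro h
    apply h2
    linear_combination -h
  have e1 : η ≠ 1 := by
    intro h
    apply e2
    rw [h, one_pow]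
  have e3i : η ^ 3 = η⁻¹ := by
    refine (inv_eq_of_mul_eq_one_right ?_).symm
    rw [← pow_succ', e4]
  have e3 : η ^ 3 ≠ 1 := by
    rw [e3i]
    intro h
    exact e1 (inv_eq_one.1 h)
  have hcard : ((Fintype.card (ZMod p) : ℕ) : Ω) = p := by rw [ZMod.card]
  have hcard0 : ((Fintype.card (ZMod p) : ℕ) : Ω) ≠ 0 := by rw [hcard]; exact hp
  have hm1 : φ (χ (-1)) = η (-1) := by rw [hη, MulChar.ringHomComp_apply]
  have hm2 : (η (-1)) ^ 2 = 1 := by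
    rw [← map_pow, neg_one_sq, map_one]
  refine ⟨gaussSum_ne_zero_of_nontrivial hcard0 e1 hψ, gaussSum_ne_zero_of_nontrivial hcard0 e3 hψ,
    ?_, ?_, ?_, e4, by rw [hm1, hm2]⟩
  · rw [hm1, e3i, ← mul_gaussSum_inv_eq_gaussSum η⁻¹, mul_left_comm, gaussSum_mul_gaussSum_eq_card e1 hψ,
      MulChar.inv_apply', inv_neg_one, hcard]
  · have h := jacobiSum_mul_nontrivial (χ := η) (φ := η ^ 2) (by rw [← pow_succ']; exact e3) ψ
    rw [← pow_succ'] at h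
    have hJ : jacobiSum η (η ^ 2) = φ (jacobiSum χ (χ ^ 2)) := by
      rw [hη, MulChar.ringHomComp_pow χ φ 2, jacobiSum_ringHomComp]
    rw [← h, hJ]
  · have h := gaussSum_mul_gaussSum_eq_card (R := ZMod p) (χ := η ^ 2) e2 hψ
    have hi : (η ^ 2)⁻¹ = η ^ 2 := inv_eq_of_mul_eq_one_right (by rw [← pow_add, e4])
    rw [hi] at h
    have h' := mul_gaussSum_inv_eq_gaussSum (η ^ 2) ψ
    rw [MulChar.pow_apply' _ two_ne_zero, hm2, one_mul] at h'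
    rw [h', hcard] at h
    rw [sq, h]

/-- Gauss sums in characteristic 3 -/
theorem QG3 (p : ℕ) [Fact p.Prime] (hp : 3 < p) (χ : MulChar (ZMod p) GaussianInt) (hχ : orderOf χ = 4) :
    ∃ z : GaussianInt, χ (-3) - jacobiSum χ (χ ^ 2) ^ 2 = 3 * z := by
  have : Fact (Nat.Prime 3) := ⟨Nat.prime_three⟩
  have hpp : p.Prime := Fact.out
  let Ω := AlgebraicClosure (ZMod 3)
  have hch : CharP Ω 3 := inferInstance
  have hpΩ : (p : Ω) ≠ 0 := by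
    intro h
    have := (CharP.cast_eq_zero_iff Ω 3 p).1 h
    rcases (Nat.prime_dvd_prime_iff_eq Nat.prime_three hpp).1 this with h
    omega
  have h3Ω : (3 : Ω) = 0 := by
    have := CharP.cast_eq_zero Ω 3
    exact_mod_cast this
  have h2 : (2 : Ω) ≠ 0 := by
    intro h
    have := (CharP.cast_eq_zero_iff Ω 3 2).1 (by exact_mod_cast h)
    omega
  obtain ⟨r, hr⟩ := IsAlgClosed.exists_pow_nat_eq (-1 : Ω) (n := 2) two_pos
  let φ : GaussianInt →+* Ω := Zsqrtd.lift ⟨r, by push_cast; rw [← hr]; ring⟩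
  obtain ⟨ψ, hψ⟩ := QG_psi p Ω hpΩ
  obtain ⟨hg1, hg3, r1, r2, r3, r4, r5⟩ := QG_rel p φ h2 hpΩ χ hχ ψ hψ
  -- Frobenius
  have hu : IsUnit ((3 : ℕ) : ZMod p) := by
    rw [ZMod.isUnit_iff_coprime]
    exact (Nat.coprime_primes Nat.prime_three hpp).2 (by omega)
  have hfr := gaussSum_frob 3 (χ.ringHomComp φ) ψ
  rw [AddChar.pow_mulShift] at hfr
  have hms := gaussSum_mulShift ((χ.ringHomComp φ) ^ 3) ψ hu.unit
  rw [hu.unit_spec] at hms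
  rw [← hfr, MulChar.pow_apply' _ (by norm_num)] at hms
  -- hms : η 3 ^ 3 * g1 ^ 3 = g3
  have hη3 : (χ.ringHomComp φ) ((3 : ℕ) : ZMod p) ^ 4 = 1 := by
    have h := congrArg (fun f => f ((3 : ℕ) : ZMod p)) r4
    rw [MulChar.pow_apply' _ (by norm_num), ← hu.unit_spec, MulChar.one_apply_coe, hu.unit_spec] at h
    exact h
  have hneg3 : φ (χ (-3)) = (χ.ringHomComp φ) ((3 : ℕ) : ZMod p) * φ (χ (-1)) := by
    rw [MulChar.ringHomComp_apply, ← map_mul, ← map_mul]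
    congr 2
    push_cast
    ring
  have hmain : φ (χ (-3) - jacobiSum χ (χ ^ 2) ^ 2) = 0 := by
    rw [map_sub, map_pow, hneg3]
    obtain ⟨e, he⟩ : ∃ e, e = (χ.ringHomComp φ) ((3 : ℕ) : ZMod p) := ⟨_, rfl⟩
    obtain ⟨u, hu'⟩ : ∃ u, u = φ (χ (-1)) := ⟨_, rfl⟩
    obtain ⟨J, hJ⟩ : ∃ J, J = φ (jacobiSum χ (χ ^ 2)) := ⟨_, rfl⟩
    obtain ⟨g1, hg1'⟩ : ∃ g1, g1 = gaussSum (χ.ringHomComp φ) ψ := ⟨_, rfl⟩
    obtain ⟨g2, hg2'⟩ : ∃ g2, g2 = gaussSum ((χ.ringHomComp φ) ^ 2) ψ := ⟨_, rfl⟩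
    obtain ⟨g3, hg3'⟩ : ∃ g3, g3 = gaussSum ((χ.ringHomComp φ) ^ 3) ψ := ⟨_, rfl⟩
    rw [← he] at hms hη3 ⊢
    rw [← hu'] at r1 r5 ⊢
    rw [← hJ] at r2 ⊢
    rw [← hg1'] at hms r1 r2 hg1
    rw [← hg2'] at r2 r3
    rw [← hg3'] at hms r1 r2 hg3
    -- e^3 g1^3 = g3, g1 g3 = u p, g3 J = g1 g2, g2^2 = p, e^4 = 1, u^2 = 1
    -- g1^4 = e u p
    have s1 : g1 ^ 4 = e * u * p := by
      linear_combination (-g1 ^ 4) * hη3 + e * g1 * hms + e * r1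
    have s2 : (e * u - J ^ 2) * (g3 ^ 2 * g1 ^ 4) = 0 := by
      have hJ2 : g3 ^ 2 * J ^ 2 = g1 ^ 2 * p := by
        linear_combination (g3 * J + g1 * g2) * r2 + g1 ^ 2 * r3
      have hs3 : g3 ^ 2 * g1 ^ 2 = (p : Ω) ^ 2 := by
        linear_combination (g1 * g3 + u * p) * r1 + (p : Ω) ^ 2 * r5
      have : (e * u - J ^ 2) * (g3 ^ 2 * g1 ^ 4) =
          e * u * g1 ^ 2 * (g3 ^ 2 * g1 ^ 2) - g3 ^ 2 * J ^ 2 * g1 ^ 4 := by ring
      rw [this, hs3, hJ2, s1]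
      ring
    rcases mul_eq_zero.1 s2 with h | h
    · exact h
    · exact absurd h (mul_ne_zero (pow_ne_zero _ hg3) (pow_ne_zero _ hg1))
  -- kernel of φ
  obtain ⟨x, hx⟩ : ∃ x, x = χ (-3) - jacobiSum χ (χ ^ 2) ^ 2 := ⟨_, rfl⟩
  rw [← hx] at hmain ⊢
  have hφ : φ x = (x.re : Ω) + (x.im : Ω) * r := by
    simp only [φ, Zsqrtd.lift_apply_apply]
  rw [hφ] at hmain
  have hn : ((x.re ^ 2 + x.im ^ 2 : ℤ) : Ω) = 0 := by
    push_cast
    linear_combination ((x.re : Ω) - (x.im : Ω) * r) * hmain + (x.im : Ω) ^ 2 * hr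
  rw [CharP.intCast_eq_zero_iff Ω 3] at hn
  have hre : (3 : ℤ) ∣ x.re ∧ (3 : ℤ) ∣ x.im := by
    have hn' : (x.re ^ 2 + x.im ^ 2) % 3 = 0 := Int.emod_eq_zero_of_dvd hn
    have a1 : x.re % 3 = 0 ∨ x.re % 3 = 1 ∨ x.re % 3 = 2 := by omega
    have a2 : x.im % 3 = 0 ∨ x.im % 3 = 1 ∨ x.im % 3 = 2 := by omega
    rcases a1 with h | h | h <;> rcases a2 with h' | h' | h' <;>
      simp [pow_two, Int.add_emod, Int.mul_emod, h, h'] at hn' ⊢ <;> omega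
  obtain ⟨⟨a, ha⟩, ⟨b, hb⟩⟩ := hre
  refine ⟨⟨a, b⟩, ?_⟩
  ext
  · simp [ha]
  · simp [hb]

/-- Gauss sums in characteristic 5 -/
theorem QG5 (p : ℕ) [Fact p.Prime] (hp : 5 < p) (χ : MulChar (ZMod p) GaussianInt) (hχ : orderOf χ = 4) :
    ∃ z : GaussianInt, χ 5 * jacobiSum χ (χ ^ 2) ^ 2 * (p : GaussianInt) - 1 = 5 * z := by
  have : Fact (Nat.Prime 5) := ⟨Nat.prime_five⟩
  have hpp : p.Prime := Fact.out
  let Ω := AlgebraicClosure (ZMod 5)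
  have hch : CharP Ω 5 := inferInstance
  have hpΩ : (p : Ω) ≠ 0 := by
    intro h
    have := (CharP.cast_eq_zero_iff Ω 5 p).1 h
    rcases (Nat.prime_dvd_prime_iff_eq Nat.prime_five hpp).1 this with h
    omega
  have h5Ω : (5 : Ω) = 0 := by
    have := CharP.cast_eq_zero Ω 5
    exact_mod_cast this
  have h2 : (2 : Ω) ≠ 0 := by
    intro h
    have := (CharP.cast_eq_zero_iff Ω 5 2).1 (by exact_mod_cast h)
    omega
  obtain ⟨ψ, hψ⟩ := QG_psi p Ω hpΩ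
  have hu : IsUnit ((5 : ℕ) : ZMod p) := by
    rw [ZMod.isUnit_iff_coprime]
    exact (Nat.coprime_primes Nat.prime_five hpp).2 (by omega)
  have key : ∀ φ : GaussianInt →+* Ω, φ (χ 5 * jacobiSum χ (χ ^ 2) ^ 2 * (p : GaussianInt) - 1) = 0 := by
    intro φ
    obtain ⟨hg1, hg3, r1, r2, r3, r4, r5⟩ := QG_rel p φ h2 hpΩ χ hχ ψ hψ
    have hfr := gaussSum_frob 5 (χ.ringHomComp φ) ψ
    rw [AddChar.pow_mulShift] at hfr
    have h51 : (χ.ringHomComp φ) ^ 5 = χ.ringHomComp φ := by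
      have := pow_succ (χ.ringHomComp φ) 4
      rw [r4, one_mul] at this
      exact this
    rw [h51] at hfr
    have hms := gaussSum_mulShift (χ.ringHomComp φ) ψ hu.unit
    rw [hu.unit_spec, ← hfr] at hms
    have hc5 : φ (χ 5) = (χ.ringHomComp φ) ((5 : ℕ) : ZMod p) := by
      rw [MulChar.ringHomComp_apply]
      norm_cast
    rw [map_sub, map_mul, map_mul, map_pow, map_one, map_natCast, hc5]
    obtain ⟨e, he⟩ : ∃ e, e = (χ.ringHomComp φ) ((5 : ℕ) : ZMod p) := ⟨_, rfl⟩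
    obtain ⟨u, hu'⟩ : ∃ u, u = φ (χ (-1)) := ⟨_, rfl⟩
    obtain ⟨J, hJ⟩ : ∃ J, J = φ (jacobiSum χ (χ ^ 2)) := ⟨_, rfl⟩
    obtain ⟨g1, hg1'⟩ : ∃ g1, g1 = gaussSum (χ.ringHomComp φ) ψ := ⟨_, rfl⟩
    obtain ⟨g2, hg2'⟩ : ∃ g2, g2 = gaussSum ((χ.ringHomComp φ) ^ 2) ψ := ⟨_, rfl⟩
    obtain ⟨g3, hg3'⟩ : ∃ g3, g3 = gaussSum ((χ.ringHomComp φ) ^ 3) ψ := ⟨_, rfl⟩
    rw [← he] at hms ⊢
    rw [← hu'] at r1 r5
    rw [← hJ] at r2 ⊢
    rw [← hg1'] at hms r1 r2 hg1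
    rw [← hg2'] at r2 r3
    rw [← hg3'] at r1 r2 hg3
    -- e g1^5 = g1
    have s1 : e * g1 ^ 4 = 1 := by
      have : (e * g1 ^ 4 - 1) * g1 = 0 := by linear_combination hms
      rcases mul_eq_zero.1 this with h | h
      · linear_combination h
      · exact absurd h hg1
    have hJ2 : g3 ^ 2 * J ^ 2 = g1 ^ 2 * p := by
      linear_combination (g3 * J + g1 * g2) * r2 + g1 ^ 2 * r3
    have hs3 : g3 ^ 2 * g1 ^ 2 = (p : Ω) ^ 2 := by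
      linear_combination (g1 * g3 + u * p) * r1 + (p : Ω) ^ 2 * r5
    have s2 : (e * J ^ 2 * p - 1) * (g3 ^ 2 * g1 ^ 2) = 0 := by
      have : (e * J ^ 2 * p - 1) * (g3 ^ 2 * g1 ^ 2) =
          e * g1 ^ 2 * p * (g3 ^ 2 * J ^ 2) - g3 ^ 2 * g1 ^ 2 := by ring
      rw [this, hJ2, hs3]
      linear_combination (p : Ω) ^ 2 * s1
    rcases mul_eq_zero.1 s2 with h | h
    · exact h
    · exact absurd h (mul_ne_zero (pow_ne_zero _ hg3) (pow_ne_zero _ hg1))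
  obtain ⟨x, hx⟩ : ∃ x, x = χ 5 * jacobiSum χ (χ ^ 2) ^ 2 * (p : GaussianInt) - 1 := ⟨_, rfl⟩
  rw [← hx] at key ⊢
  have k1 := key (Zsqrtd.lift ⟨(2 : Ω), by push_cast; linear_combination h5Ω⟩)
  have k2 := key (Zsqrtd.lift ⟨(3 : Ω), by push_cast; linear_combination 2 * h5Ω⟩)
  rw [Zsqrtd.lift_apply_apply] at k1 k2
  have n1 : ((x.re + x.im * 2 : ℤ) : Ω) = 0 := by
    rw [Int.cast_add, Int.cast_mul, Int.cast_ofNat]; exact k1
  have n2 : ((x.re + x.im * 3 : ℤ) : Ω) = 0 := by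
    rw [Int.cast_add, Int.cast_mul, Int.cast_ofNat]; exact k2
  rw [CharP.intCast_eq_zero_iff Ω 5] at n1 n2
  obtain ⟨a, ha⟩ : (5 : ℤ) ∣ x.re := by
    have h := dvd_sub (Dvd.dvd.mul_left n1 3) (Dvd.dvd.mul_left n2 2)
    have e : 3 * (x.re + x.im * 2) - 2 * (x.re + x.im * 3) = x.re := by ring
    push_cast at h
    rwa [e] at h
  obtain ⟨b, hb⟩ : (5 : ℤ) ∣ x.im := by
    have h := dvd_sub n2 n1
    have e : (x.re + x.im * 3) - (x.re + x.im * 2) = x.im := by ring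
    push_cast at h
    rwa [e] at h
  refine ⟨⟨a, b⟩, ?_⟩
  ext
  · simp [ha]
  · simp [hb]

end Pool.Agent.Lib_helper91.TX
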