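import Pool.Agent.Lib_helper91.TX.JX
import Pool.Agent.Lib_helper91.TX.QG

namespace Pool.Agent.Lib_helper91.TX

open Finset

theorem QR_root (u : GaussianInt) (h : u ^ 4 = 1) :
    u = ⟨1, 0⟩ ∨ u = ⟨-1, 0⟩ ∨ u = ⟨0, 1⟩ ∨ u = ⟨0, -1⟩ := by
  have h2 : (u - 1) * (u + 1) * ((u - ⟨0, 1⟩) * (u + ⟨0, 1⟩)) = 0 := by
    have hi : (⟨0, 1⟩ : GaussianInt) ^ 2 = -1 := by decide
    have : (u - 1) * (u + 1) * ((u - ⟨0, 1⟩) * (u + ⟨0, 1⟩)) = (u ^ 2 - 1) * (u ^ 2 - (⟨0, 1⟩ : GaussianInt) ^ 2) := by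
      ring
    rw [this, hi]
    linear_combination h
  rcases mul_eq_zero.1 h2 with h3 | h3
  · rcases mul_eq_zero.1 h3 with h4 | h4
    · left
      rw [sub_eq_zero.1 h4]
      rfl
    · right; left
      rw [eq_neg_of_add_eq_zero_left h4]
      rfl
  · rcases mul_eq_zero.1 h3 with h4 | h4
    · right; right; left
      exact sub_eq_zero.1 h4
    · right; right; right
      rw [eq_neg_of_add_eq_zero_left h4]
      rfl

theorem QR_r (p : ℕ) [Fact p.Prime] (x y : ℤ) (hxy : (p : ℤ) = x ^ 2 + y ^ 2) :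
    ∃ r : ZMod p, r * r = ((-1 : ℤ) : ZMod p) ∧ (x : ZMod p) + r * (y : ZMod p) = 0 := by
  have hp : p.Prime := Fact.out
  have hpz : Prime (p : ℤ) := Nat.prime_iff_prime_int.1 hp
  have h0 : (x : ZMod p) ^ 2 + (y : ZMod p) ^ 2 = 0 := by
    have := congrArg (Int.cast (R := ZMod p)) hxy
    push_cast at this
    rw [← this]
    simp
  have hy : (y : ZMod p) ≠ 0 := by
    intro hy
    rw [hy] at h0
    have hx : (x : ZMod p) = 0 := by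
      have : (x : ZMod p) ^ 2 = 0 := by linear_combination h0
      exact pow_eq_zero_iff (two_ne_zero) |>.1 this
    rw [ZMod.intCast_zmod_eq_zero_iff_dvd] at hx hy
    obtain ⟨a, rfl⟩ := hx
    obtain ⟨b, rfl⟩ := hy
    have h1 : (p : ℤ) * ((p : ℤ) * (a ^ 2 + b ^ 2)) = (p : ℤ) * 1 := by linear_combination -hxy
    have h2 := mul_left_cancel₀ hpz.ne_zero h1
    exact hpz.not_unit (IsUnit.of_mul_eq_one _ h2)
  refine ⟨-(x : ZMod p) * (y : ZMod p)⁻¹, ?_, ?_⟩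
  · have h1 : (y : ZMod p) * (y : ZMod p)⁻¹ = 1 := mul_inv_cancel₀ hy
    push_cast
    linear_combination (y : ZMod p)⁻¹ ^ 2 * h0 - (1 + (y : ZMod p) * (y : ZMod p)⁻¹) * h1
  · field_simp
    ring

/-- the value at `t` and the power `t^K` -/
theorem QR_pow (p : ℕ) [Fact p.Prime] (K : ℕ) (hK : p = 4 * K + 1) (r : ZMod p)
    (hr : r * r = ((-1 : ℤ) : ZMod p)) (χ : MulChar (ZMod p) GaussianInt) (hχ : orderOf χ = 4)
    (h : ∀ t : ZMod p, gZ r hr (χ t) = t ^ (3 * K)) (t : ZMod p) (ht : t ≠ 0) :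
    (χ t = ⟨1, 0⟩ ∧ t ^ K = 1) ∨ (χ t = ⟨-1, 0⟩ ∧ t ^ K = -1) ∨ (χ t = ⟨0, 1⟩ ∧ t ^ K = -r) ∨
      (χ t = ⟨0, -1⟩ ∧ t ^ K = r) := by
  have h4 : χ ^ 4 = 1 := by rw [← hχ]; exact pow_orderOf_eq_one χ
  have hu : IsUnit t := isUnit_iff_ne_zero.2 ht
  have h5 : (χ t) ^ 4 = 1 := by
    rw [← MulChar.pow_apply' χ (by norm_num), h4, MulChar.one_apply hu]
  have h6 : t ^ (3 * K) * t ^ K = 1 := by
    rw [← pow_add, show 3 * K + K = p - 1 by omega]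
    exact ZMod.pow_card_sub_one_eq_one ht
  have hr2 : r * r = -1 := by rw [hr]; simp
  have h7 := h t
  rw [JX_gZ_apply] at h7
  rcases QR_root _ h5 with e | e | e | e
  · left
    refine ⟨e, ?_⟩
    rw [e] at h7
    simp only [Int.cast_one, Int.cast_zero, zero_mul, add_zero] at h7
    rw [← h7, one_mul] at h6
    exact h6
  · right; left
    refine ⟨e, ?_⟩
    rw [e] at h7
    simp only [Int.cast_one, Int.cast_neg, Int.cast_zero, zero_mul, add_zero] at h7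
    rw [← h7] at h6
    linear_combination -h6
  · right; right; left
    refine ⟨e, ?_⟩
    rw [e] at h7
    simp only [Int.cast_one, Int.cast_zero, one_mul, zero_add] at h7
    rw [← h7] at h6
    linear_combination -r * h6 + t ^ K * hr2
  · right; right; right
    refine ⟨e, ?_⟩
    rw [e] at h7
    simp only [Int.cast_one, Int.cast_neg, Int.cast_zero, zero_add] at h7
    rw [← h7] at h6
    linear_combination r * h6 + t ^ K * hr2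

theorem QR_dec3 : ∀ X Y : ZMod 3, X ^ 2 + Y ^ 2 = 1 →
    (((1 : ZMod 3) - (X ^ 2 - Y ^ 2) = 0 ∧ (0 : ZMod 3) + 2 * X * Y = 0 → X ≠ 0) ∧
    ((-1 : ZMod 3) - (X ^ 2 - Y ^ 2) = 0 ∧ (0 : ZMod 3) + 2 * X * Y = 0 → X = 0) ∧
    ¬ ((0 : ZMod 3) - (X ^ 2 - Y ^ 2) = 0 ∧ (1 : ZMod 3) + 2 * X * Y = 0) ∧
    ¬ ((0 : ZMod 3) - (X ^ 2 - Y ^ 2) = 0 ∧ (-1 : ZMod 3) + 2 * X * Y = 0)) := by
  decide

theorem QR_dec3b : ∀ X Y : ZMod 3, X ^ 2 + Y ^ 2 = 2 →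
    (¬ ((1 : ZMod 3) - (X ^ 2 - Y ^ 2) = 0 ∧ (0 : ZMod 3) + 2 * X * Y = 0) ∧
    ¬ ((-1 : ZMod 3) - (X ^ 2 - Y ^ 2) = 0 ∧ (0 : ZMod 3) + 2 * X * Y = 0) ∧
    ((0 : ZMod 3) - (X ^ 2 - Y ^ 2) = 0 ∧ (1 : ZMod 3) + 2 * X * Y = 0 → X * Y = 1) ∧
    ((0 : ZMod 3) - (X ^ 2 - Y ^ 2) = 0 ∧ (-1 : ZMod 3) + 2 * X * Y = 0 → X * Y = 2)) := by
  decide

/-- the congruence mod 3 -/
theorem QR_c3 (p : ℕ) [Fact p.Prime] (hp : 3 < p) (x y : ℤ)
    (χ : MulChar (ZMod p) GaussianInt) (hχ : orderOf χ = 4)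
    (hJ : jacobiSum χ (χ ^ 2) ^ 2 = (⟨x ^ 2 - y ^ 2, -2 * x * y⟩ : GaussianInt)) (a b : ℤ)
    (h : χ (-3) = ⟨a, b⟩) :
    (a : ZMod 3) - ((x : ZMod 3) ^ 2 - (y : ZMod 3) ^ 2) = 0 ∧
      (b : ZMod 3) + 2 * (x : ZMod 3) * (y : ZMod 3) = 0 := by
  obtain ⟨z, hz⟩ := QG3 p hp χ hχ
  rw [hJ, h] at hz
  have h3 : (3 : ZMod 3) = 0 := by decide
  have h1 := congrArg (fun u : GaussianInt => ((u.re : ℤ) : ZMod 3)) hz
  have h2 := congrArg (fun u : GaussianInt => ((u.im : ℤ) : ZMod 3)) hz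
  simp only [Zsqrtd.re_sub, Zsqrtd.im_sub, Zsqrtd.re_mul, Zsqrtd.im_mul, Zsqrtd.re_ofNat, Zsqrtd.im_ofNat] at h1 h2
  push_cast at h1 h2
  constructor
  · linear_combination h1 + (z.re : ZMod 3) * h3
  · linear_combination h2 + (z.im : ZMod 3) * h3

theorem QR_j3 (m : ℤ) : ((m : ZMod 3) = 1 → jacobiSym m 3 = 1) ∧ ((m : ZMod 3) = 2 → jacobiSym m 3 = -1) := by
  rw [jacobiSym.mod_left m 3]
  constructor
  · intro h
    have h1 : ((m : ℤ) : ZMod 3) = ((1 : ℤ) : ZMod 3) := by rw [h]; rfl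
    have h2 := (ZMod.intCast_eq_intCast_iff' m 1 3).1 h1
    rw [h2]
    norm_num
  · intro h
    have h1 : ((m : ℤ) : ZMod 3) = ((2 : ℤ) : ZMod 3) := by rw [h]; rfl
    have h2 := (ZMod.intCast_eq_intCast_iff' m 2 3).1 h1
    rw [h2]
    norm_num

theorem QR3a (p : ℕ) [Fact p.Prime] (hp : p % 12 = 1) (x y : ℤ) (hxy : (p : ℤ) = x ^ 2 + y ^ 2) (hx : Odd x) :
    (-3 : ZMod p) ^ ((p - 1) / 4) = if (3 : ℤ) ∣ x then -1 else 1 := by
  have hpp : p.Prime := Fact.out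
  have h3 : 3 < p := by
    have := hpp.two_le
    omega
  obtain ⟨K, hK⟩ : ∃ K, p = 4 * K + 1 := ⟨p / 4, by omega⟩
  obtain ⟨r, hr, hxr⟩ := QR_r p x y hxy
  obtain ⟨χ, hχ, hv, hJ⟩ := JX p K hK x y hxy hx r hr hxr
  have hK2 : (p - 1) / 4 = K := by omega
  rw [hK2]
  have ht : (-3 : ZMod p) ≠ 0 := by
    rw [neg_ne_zero]
    have : ((3 : ℕ) : ZMod p) ≠ 0 := by
      rw [Ne, ZMod.natCast_eq_zero_iff]
      intro h
      have := Nat.le_of_dvd (by norm_num) h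
      omega
    exact_mod_cast this
  have hs : (x : ZMod 3) ^ 2 + (y : ZMod 3) ^ 2 = 1 := by
    have h1 := congrArg (Int.cast (R := ZMod 3)) hxy
    push_cast at h1
    rw [← h1]
    have e : p = 3 * (p / 3) + 1 := by omega
    have h2 := congrArg (Nat.cast (R := ZMod 3)) e
    push_cast at h2
    rw [h2, show (3 : ZMod 3) = 0 by decide, zero_mul, zero_add]
  have hd := QR_dec3 _ _ hs
  have h3x : (3 : ℤ) ∣ x ↔ (x : ZMod 3) = 0 := by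
    have := ZMod.intCast_zmod_eq_zero_iff_dvd x 3
    rw [this]
    norm_num
  rcases QR_pow p K hK r hr χ hχ hv _ ht with ⟨e, f⟩ | ⟨e, f⟩ | ⟨e, f⟩ | ⟨e, f⟩
  · have c := QR_c3 p h3 x y χ hχ hJ _ _ e
    push_cast at c
    rw [f, if_neg]
    rw [h3x]
    exact hd.1 c
  · have c := QR_c3 p h3 x y χ hχ hJ _ _ e
    push_cast at c
    rw [f, if_pos]
    rw [h3x]
    exact hd.2.1 c
  · have c := QR_c3 p h3 x y χ hχ hJ _ _ e
    push_cast at c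
    exact absurd c hd.2.2.1
  · have c := QR_c3 p h3 x y χ hχ hJ _ _ e
    push_cast at c
    exact absurd c hd.2.2.2

theorem QR3b (p : ℕ) [Fact p.Prime] (hp : p % 12 = 5) (x y : ℤ) (hxy : (p : ℤ) = x ^ 2 + y ^ 2) (hx : Odd x) :
    (-3 : ZMod p) ^ ((p - 1) / 4) * (y : ZMod p) = ((jacobiSym (x * y) 3 : ℤ) : ZMod p) * (x : ZMod p) := by
  have hpp : p.Prime := Fact.out
  have h3 : 3 < p := by
    have := hpp.two_le
    omega
  obtain ⟨K, hK⟩ : ∃ K, p = 4 * K + 1 := ⟨p / 4, by omega⟩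
  obtain ⟨r, hr, hxr⟩ := QR_r p x y hxy
  obtain ⟨χ, hχ, hv, hJ⟩ := JX p K hK x y hxy hx r hr hxr
  have hK2 : (p - 1) / 4 = K := by omega
  rw [hK2]
  have ht : (-3 : ZMod p) ≠ 0 := by
    rw [neg_ne_zero]
    have : ((3 : ℕ) : ZMod p) ≠ 0 := by
      rw [Ne, ZMod.natCast_eq_zero_iff]
      intro h
      have := Nat.le_of_dvd (by norm_num) h
      omega
    exact_mod_cast this
  have hs : (x : ZMod 3) ^ 2 + (y : ZMod 3) ^ 2 = 2 := by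
    have h1 := congrArg (Int.cast (R := ZMod 3)) hxy
    push_cast at h1
    rw [← h1]
    have e : p = 3 * (p / 3) + 2 := by omega
    have h2 := congrArg (Nat.cast (R := ZMod 3)) e
    push_cast at h2
    rw [h2, show (3 : ZMod 3) = 0 by decide, zero_mul, zero_add]
  have hd := QR_dec3b _ _ hs
  have hj := QR_j3 (x * y)
  push_cast at hj
  rcases QR_pow p K hK r hr χ hχ hv _ ht with ⟨e, f⟩ | ⟨e, f⟩ | ⟨e, f⟩ | ⟨e, f⟩
  · have c := QR_c3 p h3 x y χ hχ hJ _ _ e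
    push_cast at c
    exact absurd c hd.1
  · have c := QR_c3 p h3 x y χ hχ hJ _ _ e
    push_cast at c
    exact absurd c hd.2.1
  · have c := QR_c3 p h3 x y χ hχ hJ _ _ e
    push_cast at c
    rw [f, hj.1 (hd.2.2.1 c)]
    push_cast
    linear_combination -hxr
  · have c := QR_c3 p h3 x y χ hχ hJ _ _ e
    push_cast at c
    rw [f, hj.2 (hd.2.2.2 c)]
    push_cast
    linear_combination hxr

theorem QR_dec5 : ∀ X Y : ZMod 5, (X ^ 2 + Y ^ 2) ^ 2 = 1 →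
    (((1 * (X ^ 2 - Y ^ 2) + 2 * X * Y * 0) * (X ^ 2 + Y ^ 2) = 1 ∧
      (-2 * X * Y * 1 + 0 * (X ^ 2 - Y ^ 2)) * (X ^ 2 + Y ^ 2) = 0 → X ≠ 0) ∧
    ((-1 * (X ^ 2 - Y ^ 2) + 2 * X * Y * 0) * (X ^ 2 + Y ^ 2) = 1 ∧
      (-2 * X * Y * (-1) + 0 * (X ^ 2 - Y ^ 2)) * (X ^ 2 + Y ^ 2) = 0 → X = 0) ∧
    ¬ ((0 * (X ^ 2 - Y ^ 2) + 2 * X * Y * 1) * (X ^ 2 + Y ^ 2) = 1 ∧
      (-2 * X * Y * 0 + 1 * (X ^ 2 - Y ^ 2)) * (X ^ 2 + Y ^ 2) = 0) ∧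
    ¬ ((0 * (X ^ 2 - Y ^ 2) + 2 * X * Y * (-1)) * (X ^ 2 + Y ^ 2) = 1 ∧
      (-2 * X * Y * 0 + -1 * (X ^ 2 - Y ^ 2)) * (X ^ 2 + Y ^ 2) = 0)) := by
  decide

theorem QR_dec5b : ∀ X Y : ZMod 5, (X ^ 2 + Y ^ 2) ^ 2 = -1 → X * Y = 1 →
    (¬ ((1 * (X ^ 2 - Y ^ 2) + 2 * X * Y * 0) * (X ^ 2 + Y ^ 2) = 1 ∧
      (-2 * X * Y * 1 + 0 * (X ^ 2 - Y ^ 2)) * (X ^ 2 + Y ^ 2) = 0) ∧
    ¬ ((-1 * (X ^ 2 - Y ^ 2) + 2 * X * Y * 0) * (X ^ 2 + Y ^ 2) = 1 ∧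
      (-2 * X * Y * (-1) + 0 * (X ^ 2 - Y ^ 2)) * (X ^ 2 + Y ^ 2) = 0) ∧
    ((0 * (X ^ 2 - Y ^ 2) + 2 * X * Y * 1) * (X ^ 2 + Y ^ 2) = 1 ∧
      (-2 * X * Y * 0 + 1 * (X ^ 2 - Y ^ 2)) * (X ^ 2 + Y ^ 2) = 0 → X ^ 2 = -1) ∧
    ((0 * (X ^ 2 - Y ^ 2) + 2 * X * Y * (-1)) * (X ^ 2 + Y ^ 2) = 1 ∧
      (-2 * X * Y * 0 + -1 * (X ^ 2 - Y ^ 2)) * (X ^ 2 + Y ^ 2) = 0 → X ^ 2 = 1)) := by
  decide

/-- the congruence mod 5 -/
theorem QR_c5 (p : ℕ) [Fact p.Prime] (hp : 5 < p) (x y : ℤ) (hxy : (p : ℤ) = x ^ 2 + y ^ 2)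
    (χ : MulChar (ZMod p) GaussianInt) (hχ : orderOf χ = 4)
    (hJ : jacobiSum χ (χ ^ 2) ^ 2 = (⟨x ^ 2 - y ^ 2, -2 * x * y⟩ : GaussianInt)) (a b : ℤ)
    (h : χ 5 = ⟨a, b⟩) :
    ((a : ZMod 5) * ((x : ZMod 5) ^ 2 - (y : ZMod 5) ^ 2) + 2 * (x : ZMod 5) * (y : ZMod 5) * (b : ZMod 5)) *
      ((x : ZMod 5) ^ 2 + (y : ZMod 5) ^ 2) = 1 ∧
    (-2 * (x : ZMod 5) * (y : ZMod 5) * (a : ZMod 5) + (b : ZMod 5) * ((x : ZMod 5) ^ 2 - (y : ZMod 5) ^ 2)) *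
      ((x : ZMod 5) ^ 2 + (y : ZMod 5) ^ 2) = 0 := by
  obtain ⟨z, hz⟩ := QG5 p hp χ hχ
  rw [hJ, h] at hz
  have h3 : (5 : ZMod 5) = 0 := by decide
  have h1 := congrArg (fun u : GaussianInt => ((u.re : ℤ) : ZMod 5)) hz
  have h2 := congrArg (fun u : GaussianInt => ((u.im : ℤ) : ZMod 5)) hz
  have h4 := congrArg (Int.cast (R := ZMod 5)) hxy
  simp only [Zsqrtd.re_sub, Zsqrtd.im_sub, Zsqrtd.re_mul, Zsqrtd.im_mul, Zsqrtd.re_ofNat, Zsqrtd.im_ofNat,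
    Zsqrtd.re_natCast, Zsqrtd.im_natCast, Zsqrtd.re_one, Zsqrtd.im_one] at h1 h2
  push_cast at h1 h2 h4
  rw [h4] at h1 h2
  constructor
  · linear_combination h1 + (z.re : ZMod 5) * h3
  · linear_combination h2 + (z.im : ZMod 5) * h3

theorem QR_j5 (m : ℤ) : ((jacobiSym m 5 : ℤ) : ZMod 5) = (m : ZMod 5) ^ 2 := by
  have : Fact (Nat.Prime 5) := ⟨by norm_num⟩
  have h := legendreSym.eq_pow 5 m
  rw [jacobiSym.legendreSym.to_jacobiSym] at h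
  exact h

theorem QR_j5' (m : ℤ) : ((m : ZMod 5) ^ 2 = 1 → jacobiSym m 5 = 1) ∧ ((m : ZMod 5) ^ 2 = -1 → jacobiSym m 5 = -1) := by
  have h := QR_j5 m
  rcases jacobiSym.trichotomy m 5 with e | e | e
  · rw [e] at h
    push_cast at h
    rw [← h]
    exact ⟨fun h => absurd h (by decide), fun h => absurd h (by decide)⟩
  · rw [e] at h
    push_cast at h
    rw [← h]
    exact ⟨fun _ => e, fun h => absurd h (by decide)⟩
  · rw [e] at h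
    push_cast at h
    rw [← h]
    exact ⟨fun h => absurd h (by decide), fun _ => e⟩

theorem QR_m4 (p : ℕ) [Fact p.Prime] (K : ℕ) (hK : p = 4 * K + 1) (r : ZMod p)
    (hr : r * r = ((-1 : ℤ) : ZMod p)) : (-4 : ZMod p) ^ K = 1 := by
  have hpp : p.Prime := Fact.out
  have hr2 : r * r = -1 := by rw [hr]; simp
  have h1 : (1 + r) ^ 4 = -4 := by linear_combination (r ^ 2 + 4 * r + 5) * hr2
  have h2 : (1 + r) ≠ 0 := by
    intro h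
    rw [h] at h1
    have h4 : ((4 : ℕ) : ZMod p) = 0 := by
      push_cast
      linear_combination h1
    rw [ZMod.natCast_eq_zero_iff] at h4
    have h5 := Nat.le_of_dvd (by norm_num) h4
    have := hpp.two_le
    omega
  rw [← h1, ← pow_mul, show 4 * K = p - 1 by omega]
  exact ZMod.pow_card_sub_one_eq_one h2

theorem QR5a (p : ℕ) [Fact p.Prime] (hp : p % 4 = 1) (h5 : jacobiSym p 5 = 1) (x y : ℤ)
    (hxy : (p : ℤ) = x ^ 2 + y ^ 2) (hx : Odd x) :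
    (-20 : ZMod p) ^ ((p - 1) / 4) = if (5 : ℤ) ∣ x then -1 else 1 := by
  have hpp : p.Prime := Fact.out
  have hp5 : p ≠ 5 := by
    intro h
    rw [h] at h5
    norm_num at h5
  have h3 : 5 < p := by
    have := hpp.two_le
    omega
  obtain ⟨K, hK⟩ : ∃ K, p = 4 * K + 1 := ⟨p / 4, by omega⟩
  obtain ⟨r, hr, hxr⟩ := QR_r p x y hxy
  obtain ⟨χ, hχ, hv, hJ⟩ := JX p K hK x y hxy hx r hr hxr
  have hK2 : (p - 1) / 4 = K := by omega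
  rw [hK2, show (-20 : ZMod p) = (-4) * 5 by norm_num, mul_pow, QR_m4 p K hK r hr, one_mul]
  have ht : (5 : ZMod p) ≠ 0 := by
    have : ((5 : ℕ) : ZMod p) ≠ 0 := by
      rw [Ne, ZMod.natCast_eq_zero_iff]
      intro h
      have := Nat.le_of_dvd (by norm_num) h
      omega
    exact_mod_cast this
  have hs : ((x : ZMod 5) ^ 2 + (y : ZMod 5) ^ 2) ^ 2 = 1 := by
    have h1 := congrArg (Int.cast (R := ZMod 5)) hxy
    push_cast at h1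
    rw [← h1]
    have := QR_j5 (p : ℤ)
    rw [h5] at this
    push_cast at this
    exact this.symm
  have hd := QR_dec5 _ _ hs
  have h3x : (5 : ℤ) ∣ x ↔ (x : ZMod 5) = 0 := by
    have := ZMod.intCast_zmod_eq_zero_iff_dvd x 5
    rw [this]
    norm_num
  rcases QR_pow p K hK r hr χ hχ hv _ ht with ⟨e, f⟩ | ⟨e, f⟩ | ⟨e, f⟩ | ⟨e, f⟩
  · have c := QR_c5 p h3 x y hxy χ hχ hJ _ _ e
    push_cast at c
    rw [f, if_neg]
    rw [h3x]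
    exact hd.1 c
  · have c := QR_c5 p h3 x y hxy χ hχ hJ _ _ e
    push_cast at c
    rw [f, if_pos]
    rw [h3x]
    exact hd.2.1 c
  · have c := QR_c5 p h3 x y hxy χ hχ hJ _ _ e
    push_cast at c
    exact absurd c hd.2.2.1
  · have c := QR_c5 p h3 x y hxy χ hχ hJ _ _ e
    push_cast at c
    exact absurd c hd.2.2.2

theorem QR5b (p : ℕ) [Fact p.Prime] (hp : p % 4 = 1) (h5 : jacobiSym p 5 = -1) (x y : ℤ)
    (hxy : (p : ℤ) = x ^ 2 + y ^ 2) (hx : Odd x) (h1 : (5 : ℤ) ∣ x * y - 1) :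
    (-20 : ZMod p) ^ ((p - 1) / 4) * (y : ZMod p) = -((jacobiSym x 5 : ℤ) : ZMod p) * (x : ZMod p) := by
  have hpp : p.Prime := Fact.out
  have hp5 : p ≠ 5 := by
    intro h
    rw [h] at h5
    norm_num at h5
  have h3 : 5 < p := by
    have := hpp.two_le
    omega
  obtain ⟨K, hK⟩ : ∃ K, p = 4 * K + 1 := ⟨p / 4, by omega⟩
  obtain ⟨r, hr, hxr⟩ := QR_r p x y hxy
  obtain ⟨χ, hχ, hv, hJ⟩ := JX p K hK x y hxy hx r hr hxr
  have hK2 : (p - 1) / 4 = K := by omega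
  rw [hK2, show (-20 : ZMod p) = (-4) * 5 by norm_num, mul_pow, QR_m4 p K hK r hr, one_mul]
  have ht : (5 : ZMod p) ≠ 0 := by
    have : ((5 : ℕ) : ZMod p) ≠ 0 := by
      rw [Ne, ZMod.natCast_eq_zero_iff]
      intro h
      have := Nat.le_of_dvd (by norm_num) h
      omega
    exact_mod_cast this
  have hs : ((x : ZMod 5) ^ 2 + (y : ZMod 5) ^ 2) ^ 2 = -1 := by
    have h1 := congrArg (Int.cast (R := ZMod 5)) hxy
    push_cast at h1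
    rw [← h1]
    have := QR_j5 (p : ℤ)
    rw [h5] at this
    push_cast at this
    exact this.symm
  have hxy1 : (x : ZMod 5) * (y : ZMod 5) = 1 := by
    have h2 : ((x * y - 1 : ℤ) : ZMod 5) = 0 := by
      rw [ZMod.intCast_zmod_eq_zero_iff_dvd]
      exact_mod_cast h1
    push_cast at h2
    linear_combination h2
  have hd := QR_dec5b _ _ hs hxy1
  have hj := QR_j5' x
  rcases QR_pow p K hK r hr χ hχ hv _ ht with ⟨e, f⟩ | ⟨e, f⟩ | ⟨e, f⟩ | ⟨e, f⟩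
  · have c := QR_c5 p h3 x y hxy χ hχ hJ _ _ e
    push_cast at c
    exact absurd c hd.1
  · have c := QR_c5 p h3 x y hxy χ hχ hJ _ _ e
    push_cast at c
    exact absurd c hd.2.1
  · have c := QR_c5 p h3 x y hxy χ hχ hJ _ _ e
    push_cast at c
    rw [f, hj.2 (hd.2.2.1 c)]
    push_cast
    linear_combination -hxr
  · have c := QR_c5 p h3 x y hxy χ hχ hJ _ _ e
    push_cast at c
    rw [f, hj.1 (hd.2.2.2 c)]
    push_cast
    linear_combination hxr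

end Pool.Agent.Lib_helper91.TX
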