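import Pool.Agent.Lib_helper91.TX.Defs

namespace Pool.Agent.Lib_helper91.TX

open PowerSeries Finset Pool.Agent.Lib_helper91.TN

/-- `f` has degree at most `n` and coefficient `a` at `X^n` -/
def S1C_T (f : Polynomial ℤ) (n : ℕ) (a : ℤ) : Prop := f.natDegree ≤ n ∧ f.coeff n = a

theorem S1C_mul {f g : Polynomial ℤ} {m n : ℕ} {a b : ℤ} (hf : S1C_T f m a) (hg : S1C_T g n b) :
    S1C_T (f * g) (m + n) (a * b) := by
  refine ⟨Polynomial.natDegree_mul_le_of_le hf.1 hg.1, ?_⟩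
  rw [Polynomial.coeff_mul_add_eq_of_natDegree_le hf.1 hg.1, hf.2, hg.2]

theorem S1C_add {f g : Polynomial ℤ} {n : ℕ} {a b : ℤ} (hf : S1C_T f n a) (hg : S1C_T g n b) :
    S1C_T (f + g) n (a + b) := by
  refine ⟨Polynomial.natDegree_add_le_of_degree_le hf.1 hg.1, ?_⟩
  rw [Polynomial.coeff_add, hf.2, hg.2]

theorem S1C_sub {f g : Polynomial ℤ} {n : ℕ} {a b : ℤ} (hf : S1C_T f n a) (hg : S1C_T g n b) :
    S1C_T (f - g) n (a - b) := by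
  refine ⟨(Polynomial.natDegree_sub_le _ _).trans (max_le hf.1 hg.1), ?_⟩
  rw [Polynomial.coeff_sub, hf.2, hg.2]

theorem S1C_pow {f : Polynomial ℤ} {n : ℕ} {a : ℤ} (hf : S1C_T f n a) (k : ℕ) :
    S1C_T (f ^ k) (k * n) (a ^ k) := by
  refine ⟨Polynomial.natDegree_pow_le_of_le k hf.1, ?_⟩
  rw [Polynomial.coeff_pow_of_natDegree_le hf.1, hf.2]

theorem S1C_exp (p : ℕ) (hp : 0 < p) {f : Polynomial ℤ} {n : ℕ} {a : ℤ} (hf : S1C_T f n a) :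
    S1C_T (Polynomial.expand ℤ p f) (n * p) a := by
  refine ⟨?_, ?_⟩
  · rw [Polynomial.natDegree_expand]
    exact Nat.mul_le_mul_right p hf.1
  · rw [Polynomial.coeff_expand_mul hp, hf.2]

theorem S1C_C (a : ℤ) : S1C_T (Polynomial.C a) 0 a :=
  ⟨(Polynomial.natDegree_C a).le, Polynomial.coeff_C_zero⟩

theorem S1C_int (a : ℤ) : S1C_T (a : Polynomial ℤ) 0 a := by
  have := S1C_C a
  simpa using this

theorem S1C_X (n : ℕ) : S1C_T (Polynomial.X ^ n) n 1 :=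
  ⟨Polynomial.natDegree_X_pow_le n, Polynomial.coeff_X_pow_self n⟩

theorem S1C_cast {f : Polynomial ℤ} {m n : ℕ} {a b : ℤ} (hf : S1C_T f m a) (h : m = n) (h' : a = b) :
    S1C_T f n b := by
  subst h; subst h'; exact hf

theorem S1C_sum {ι : Type} (s : Finset ι) (f : ι → Polynomial ℤ) (n : ℕ) (a : ι → ℤ)
    (h : ∀ i ∈ s, S1C_T (f i) n (a i)) : S1C_T (∑ i ∈ s, f i) n (∑ i ∈ s, a i) := by
  refine ⟨Polynomial.natDegree_sum_le_of_forall_le _ _ fun i hi => (h i hi).1, ?_⟩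
  rw [Polynomial.finsetSum_coeff]
  exact Finset.sum_congr rfl fun i hi => (h i hi).2

theorem S1C_phom (p : ℕ) (a : ℕ → ℕ) {κ H : Polynomial ℤ} {n : ℕ} {x y : ℤ} (hκ : S1C_T κ n x)
    (hH : S1C_T H n y) :
    S1C_T (phom p a κ H) ((p - 1) * n) (∑ k ∈ range p, (a k : ℤ) * x ^ k * y ^ (p - 1 - k)) := by
  unfold phom
  refine S1C_sum _ _ _ _ fun k hk => ?_
  rw [Finset.mem_range] at hk
  refine S1C_cast (S1C_mul (S1C_mul (S1C_C (a k : ℤ)) (S1C_pow hκ k)) (S1C_pow hH (p - 1 - k))) ?_ rfl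
  rw [zero_add, ← add_mul]
  congr 1
  omega

variable (u0 : ℤ)

theorem S1C_N : S1C_T (pN u0) 1 u0 := by
  unfold pN
  refine ⟨by compute_degree, ?_⟩
  simp [Polynomial.coeff_one]

theorem S1C_Q : S1C_T (pQ u0) 2 (u0 ^ 2 + 6 * u0 + 25) := by
  unfold pQ
  refine ⟨by compute_degree, ?_⟩
  rw [Polynomial.coeff_add, Polynomial.coeff_add, Polynomial.coeff_C_mul, Polynomial.coeff_C_mul,
    Polynomial.coeff_X_pow, Polynomial.coeff_X, Polynomial.coeff_one]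
  simp

theorem S1C_V : S1C_T (pV u0) 1 (u0 + 25) := by
  unfold pV
  refine ⟨by compute_degree, ?_⟩
  simp [Polynomial.coeff_one]

theorem S1C_A : S1C_T (pA u0) 2 (u0 ^ 2 - 25) := by
  unfold pA
  refine S1C_sub (S1C_cast (S1C_pow (S1C_N u0) 2) rfl rfl) ?_
  have := S1C_mul (S1C_int 25) (S1C_X 2)
  refine S1C_cast ?_ (zero_add 2) (mul_one 25)
  simpa using this

theorem S1C_Ph : S1C_T (pPh u0) 1 (22 * u0 + 50) := by
  unfold pPh
  refine ⟨by compute_degree, ?_⟩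
  simp

theorem S1C_J1 (p : ℕ) [Fact p.Prime] (hp : 13 ≤ p) :
    S1C_T (J1 u0 p) (13 * p - 5)
      ((u0 + 25) ^ (4 * p - 3) * ((u0 ^ 2 + 6 * u0 + 25) ^ p + (u0 ^ 2 + 6 * u0 + 25))
        * ((u0 + 25) * (u0 ^ 2 - 25) * (u0 ^ 2 + 6 * u0 + 25) ^ p
            * (∑ k ∈ range p, (bb k : ℤ) * u0 ^ k * (u0 ^ 2 + 6 * u0 + 25) ^ (p - 1 - k))
          - 1 * (22 * u0 + 50)
            * ((u0 ^ p * (u0 ^ 2 + 6 * u0 + 25) - u0 * (u0 ^ 2 + 6 * u0 + 25) ^ p)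
                * (∑ k ∈ range p, (bb k : ℤ) * u0 ^ k * (u0 ^ 2 + 6 * u0 + 25) ^ (p - 1 - k))
              + (p : ℤ) * (u0 ^ 2 + 6 * u0 + 25) ^ p * u0
                * (∑ k ∈ range p, (gl p k : ℤ) * u0 ^ k * (u0 ^ 2 + 6 * u0 + 25) ^ (p - 1 - k))))
      - 2 * (u0 + 25) ^ 2 * (u0 ^ 2 - 25) * (u0 ^ 2 + 6 * u0 + 25) ^ ((p + 1) / 2)
          * (u0 ^ 2 + 6 * u0 + 25) ^ p
          * (∑ k ∈ range p, (cc k : ℤ) * (u0 ^ 5) ^ k
              * ((u0 ^ 2 + 6 * u0 + 25) * (u0 + 25) ^ 4) ^ (p - 1 - k))) := by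
  have hp0 : 0 < p := by omega
  have hodd : (p + 1) / 2 * 2 = p + 1 := by
    rcases (Nat.Prime.eq_two_or_odd (Fact.out : p.Prime)) with h | h
    · omega
    · omega
  have hXN : S1C_T (Polynomial.X * pN u0) 2 u0 := by
    have := S1C_mul (S1C_X 1) (S1C_N u0)
    rw [pow_one, one_mul] at this
    exact this
  have hXN5 : S1C_T (Polynomial.X * pN u0 ^ 5) 6 (u0 ^ 5) := by
    have := S1C_mul (S1C_X 1) (S1C_pow (S1C_N u0) 5)
    rw [pow_one, one_mul] at this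
    exact this
  have hQV : S1C_T (pQ u0 * pV u0 ^ 4) 6 ((u0 ^ 2 + 6 * u0 + 25) * (u0 + 25) ^ 4) :=
    S1C_mul (S1C_Q u0) (S1C_pow (S1C_V u0) 4)
  have hb := S1C_phom p bb hXN (S1C_Q u0)
  have hg := S1C_phom p (gl p) hXN (S1C_Q u0)
  have hc := S1C_phom p cc hXN5 hQV
  have hEV := S1C_exp p hp0 (S1C_V u0)
  have hEA := S1C_exp p hp0 (S1C_A u0)
  have hEQ := S1C_exp p hp0 (S1C_Q u0)
  have hEN := S1C_exp p hp0 (S1C_N u0)
  have hEP := S1C_exp p hp0 (S1C_Ph u0)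
  have hP : S1C_T (p : Polynomial ℤ) 0 (p : ℤ) := by
    have := S1C_int (p : ℤ)
    simpa using this
  have h2 : S1C_T (2 : Polynomial ℤ) 0 2 := by
    have := S1C_int 2
    simpa using this
  unfold J1
  refine S1C_sub ?_ ?_
  · refine S1C_cast (S1C_mul (S1C_mul (S1C_pow (S1C_V u0) (4 * p - 3))
      (S1C_add (S1C_pow (S1C_Q u0) p) (S1C_cast hEQ (mul_comm 2 p) rfl)))
      (S1C_sub (n := 7 * p - 2) ?_ ?_)) ?_ rfl
    · refine S1C_cast (S1C_mul (S1C_mul (S1C_mul hEV hEA) (S1C_pow (S1C_Q u0) p)) hb) ?_ rfl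
      omega
    · refine S1C_cast (S1C_mul (S1C_mul (S1C_X p) hEP) (S1C_add (n := 5 * p - 2) ?_ ?_)) ?_ rfl
      · refine S1C_cast (S1C_mul (S1C_sub (n := 3 * p) ?_ ?_) hb) ?_ rfl
        · exact S1C_cast (S1C_mul (S1C_pow (S1C_N u0) p) hEQ) (by omega) rfl
        · exact S1C_cast (S1C_mul hEN (S1C_pow (S1C_Q u0) p)) (by omega) rfl
        · omega
      · exact S1C_cast (S1C_mul (S1C_mul (S1C_mul hP (S1C_pow (S1C_Q u0) p)) hEN) hg) (by omega) rfl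
      · omega
    · omega
  · refine S1C_cast (S1C_mul (S1C_mul (S1C_mul (S1C_mul (S1C_mul h2 (S1C_pow hEV 2)) hEA)
      (S1C_pow (S1C_Q u0) ((p + 1) / 2))) (S1C_pow (S1C_Q u0) p)) hc) ?_ rfl
    omega

variable (p : ℕ) [Fact p.Prime]

theorem S1C_unit (x : ℤ) (h : ¬ (p : ℤ) ∣ x) : IsUnit ((x : ℤ) : ZMod (p ^ 2)) := by
  have hp : Prime (p : ℤ) := Nat.prime_iff_prime_int.1 Fact.out
  have h1 : IsCoprime (p : ℤ) x := (Prime.coprime_iff_not_dvd hp).2 h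
  have h2 : IsCoprime (((p ^ 2 : ℕ) : ℤ)) x := by
    rw [Nat.cast_pow]
    exact h1.pow_left
  exact (ZMod.coe_int_isUnit_iff_isCoprime x (p ^ 2)).2 h2

theorem S1C_alg {R : Type} [CommRing R] (q : ℕ) (b c v A w P S1 S2 G1 u cp up : R) (hu : u = v * c)
    (hcp : cp = c ^ (2 * q + 1)) (hup : up = (v * c) ^ (2 * q + 1))
    (hrel : (v ^ (2 * q) - 1) * S1 + P * G1 = 0)
    (h : b ^ (8 * q + 1) * (cp + c) * (b * A * cp * (c ^ (2 * q) * S1)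
        - 1 * w * ((up * c - u * cp) * (c ^ (2 * q) * S1) + P * cp * u * (c ^ (2 * q) * G1)))
        - 2 * b ^ 2 * A * c ^ (q + 1) * cp * ((c * b ^ 4) ^ (2 * q) * S2) = 0) :
    (b ^ (8 * q + 2) * A * c ^ (4 * q + 2)) * ((c ^ (2 * q) + 1) * S1 - 2 * c ^ q * S2) = 0 := by
  have e1 : b ^ (8 * q + 1) = (b ^ q) ^ 8 * b := by rw [← pow_mul, ← pow_succ, mul_comm q 8]
  have e2 : b ^ (8 * q + 2) = (b ^ q) ^ 8 * b ^ 2 := by rw [← pow_mul, ← pow_add, mul_comm q 8]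
  have e3 : c ^ (2 * q) = (c ^ q) ^ 2 := by rw [← pow_mul, mul_comm q 2]
  have e4 : c ^ (2 * q + 1) = (c ^ q) ^ 2 * c := by rw [← pow_mul, ← pow_succ, mul_comm q 2]
  have e5 : c ^ (4 * q + 2) = (c ^ q) ^ 4 * c ^ 2 := by rw [← pow_mul, ← pow_add, mul_comm q 4]
  have e6 : (v * c) ^ (2 * q + 1) = v ^ (2 * q) * v * ((c ^ q) ^ 2 * c) := by
    rw [mul_pow, e4, ← pow_succ]
  have e7 : c ^ (q + 1) = c ^ q * c := pow_succ _ _
  have e8 : (c * b ^ 4) ^ (2 * q) = (c ^ q) ^ 2 * (b ^ q) ^ 8 := by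
    have e9 : 4 * (2 * q) = q * 8 := by ring
    rw [mul_pow, e3, ← pow_mul b 4, ← pow_mul b q 8, e9]
  rw [hu, hcp, hup, e1, e3, e4, e6, e7, e8] at h
  rw [e2, e3, e5]
  generalize c ^ q = Cq at *
  generalize b ^ q = Bq at *
  generalize v ^ (2 * q) = V at *
  linear_combination h + (Bq ^ 8 * b * (Cq ^ 2 * c + c)) * w * v * c ^ 2 * Cq ^ 4 * hrel

/-- Step 1: the top coefficient (degree `13p-5`) -/
theorem S1C (hp : 13 ≤ p) (u0 : ℤ) (hc : ¬ (p : ℤ) ∣ u0 ^ 2 + 6 * u0 + 25) (hb : ¬ (p : ℤ) ∣ u0 + 25)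
    (hA : ¬ (p : ℤ) ∣ u0 ^ 2 - 25) (hJ : ∃ g : Polynomial ℤ, J1 u0 p = (p : Polynomial ℤ) ^ 2 * g)
    (c v1 v2 : ZMod (p ^ 2)) (hcc : c = ((u0 ^ 2 + 6 * u0 + 25 : ℤ) : ZMod (p ^ 2)))
    (hv1 : v1 * c = (u0 : ZMod (p ^ 2))) (hv2 : v2 * (c * ((u0 + 25 : ℤ) : ZMod (p ^ 2)) ^ 4) = (u0 : ZMod (p ^ 2)) ^ 5)
    (hrel : (v1 ^ (p - 1) - 1) * sm p 0 bb v1 + (p : ZMod (p ^ 2)) * sm p 0 (gl p) v1 = 0) :
    (c ^ (p - 1) + 1) * sm p 0 bb v1 = 2 * c ^ ((p - 1) / 2) * sm p 0 cc v2 := by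
  have hodd : p % 2 = 1 := by
    rcases (Nat.Prime.eq_two_or_odd (Fact.out : p.Prime)) with h | h
    · omega
    · exact h
  obtain ⟨q, hq⟩ : ∃ q, p = 2 * q + 1 := ⟨p / 2, by omega⟩
  -- the top coefficient vanishes
  obtain ⟨g, hg⟩ := hJ
  have h1 := (S1C_J1 u0 p hp).2
  have h2 : (((J1 u0 p).coeff (13 * p - 5) : ℤ) : ZMod (p ^ 2)) = 0 := by
    rw [hg, ← Nat.cast_pow, ← Polynomial.C_eq_natCast, Polynomial.coeff_C_mul]
    push_cast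
    have : ((p : ZMod (p ^ 2))) ^ 2 = 0 := by
      have := ZMod.natCast_self (p ^ 2)
      push_cast at this
      exact this
    rw [this, zero_mul]
  rw [h1] at h2
  push_cast at h2
  have uc : IsUnit c := by rw [hcc]; exact S1C_unit p _ hc
  have ub := S1C_unit p _ hb
  have uA := S1C_unit p _ hA
  push_cast at hcc ub uA hv2
  rw [← hcc] at h2
  have hs : ∀ a : ℕ → ℕ, ∑ k ∈ range p, (a k : ZMod (p ^ 2)) * (u0 : ZMod (p ^ 2)) ^ k * c ^ (p - 1 - k)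
      = c ^ (p - 1) * sm p 0 a v1 := by
    intro a
    unfold sm
    rw [Finset.mul_sum]
    refine Finset.sum_congr rfl fun k hk => ?_
    rw [Finset.mem_range] at hk
    have e : c ^ (p - 1) = c ^ k * c ^ (p - 1 - k) := by
      rw [← pow_add]; congr 1; omega
    rw [e, ← hv1, mul_pow, pow_zero, one_mul]
    ring
  have hs2 : ∑ k ∈ range p, (cc k : ZMod (p ^ 2)) * ((u0 : ZMod (p ^ 2)) ^ 5) ^ k
      * (c * ((u0 : ZMod (p ^ 2)) + 25) ^ 4) ^ (p - 1 - k)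
      = (c * ((u0 : ZMod (p ^ 2)) + 25) ^ 4) ^ (p - 1) * sm p 0 cc v2 := by
    unfold sm
    rw [Finset.mul_sum]
    refine Finset.sum_congr rfl fun k hk => ?_
    rw [Finset.mem_range] at hk
    have e : (c * ((u0 : ZMod (p ^ 2)) + 25) ^ 4) ^ (p - 1)
        = (c * ((u0 : ZMod (p ^ 2)) + 25) ^ 4) ^ k * (c * ((u0 : ZMod (p ^ 2)) + 25) ^ 4) ^ (p - 1 - k) := by
      rw [← pow_add]; congr 1; omega
    rw [e, ← hv2, pow_zero, one_mul, mul_pow v2]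
    generalize (c * ((u0 : ZMod (p ^ 2)) + 25) ^ 4) ^ k = y1
    generalize (c * ((u0 : ZMod (p ^ 2)) + 25) ^ 4) ^ (p - 1 - k) = y2
    ring
  rw [hs, hs, hs2] at h2
  have e1 : p - 1 = 2 * q := by omega
  have e2 : (p + 1) / 2 = q + 1 := by omega
  have e3 : 4 * p - 3 = 8 * q + 1 := by omega
  have e4 : (p - 1) / 2 = q := by omega
  rw [e2, e3] at h2
  rw [e4]
  rw [e1] at h2 hrel ⊢
  have hcp : c ^ p = c ^ (2 * q + 1) := congrArg (fun n => c ^ n) hq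
  have hup : (u0 : ZMod (p ^ 2)) ^ p = (v1 * c) ^ (2 * q + 1) := by
    rw [hv1]
    exact congrArg (fun n => (u0 : ZMod (p ^ 2)) ^ n) hq
  have h3 := S1C_alg q _ c v1 _ _ _ _ _ _ _ _ _ hv1.symm hcp hup hrel h2
  have u1 : IsUnit (((u0 : ZMod (p ^ 2)) + 25) ^ (8 * q + 2) * ((u0 : ZMod (p ^ 2)) ^ 2 - 25)
      * c ^ (4 * q + 2)) := ((ub.pow _).mul uA).mul (uc.pow _)
  obtain ⟨w, hw⟩ := u1
  rw [← hw] at h3
  exact sub_eq_zero.1 ((Units.mul_right_eq_zero w).1 h3)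

end Pool.Agent.Lib_helper91.TX
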