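import Pool.Agent.Lib_helper91.TX.S2A

namespace Pool.Agent.Lib_helper91.TX

open PowerSeries Finset Pool.Agent.Lib_helper91.TN

variable (p : ℕ) [Fact p.Prime]

/-- truncated composition -/
theorem S2B_trp (f z : PowerSeries ℚ_[p]) (hz : constantCoeff z = 0) :
    cmp (trp p f) z = ∑ k ∈ range p, C (coeff k f) * z ^ k :=
  cmp_trunc (fun k => coeff k f) p z hz

/-- homogenisation -/
theorem S2B_hom (a : ℕ → ℚ_[p]) (κ H z : PowerSeries ℚ_[p]) (hz : H * z = κ) :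
    H ^ (p - 1) * ∑ k ∈ range p, C (a k) * z ^ k = ∑ k ∈ range p, C (a k) * κ ^ k * H ^ (p - 1 - k) := by
  rw [Finset.mul_sum]
  refine Finset.sum_congr rfl fun k hk => ?_
  have hk' : k < p := Finset.mem_range.1 hk
  have h1 : H ^ (p - 1) = H ^ k * H ^ (p - 1 - k) := by rw [← pow_add]; congr 1; omega
  rw [h1, ← hz, mul_pow]
  ring

theorem S2B_cst_phom (a : ℕ → ℕ) (κ H : Polynomial ℤ) :
    cst ℚ_[p] (phom p a κ H) = ∑ k ∈ range p, C ((a k : ℕ) : ℚ_[p]) * cst ℚ_[p] κ ^ k * cst ℚ_[p] H ^ (p - 1 - k) := by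
  unfold phom
  rw [map_sum]
  refine Finset.sum_congr rfl fun k _ => ?_
  rw [map_mul, map_mul, map_pow, map_pow, cst_C, map_natCast]
  push_cast
  rfl

/-- the algebra of the functional equation of Step 2 -/
theorem S2B_alg {T : Type} [CommRing T] (φV φN φQ φL Qp Qp1 Np V3 V4 Xp a b c P μ φμ φE g2p gi : T)
    (h1 : φμ * φV = 1) (h2 : μ * V3 = V4) (h3 : φE * (φV ^ 2 * φL) = -(24 * Xp * φN * φQ))
    (h4 : Qp * (φN * (g2p * gi)) = Np * φQ) :
    (φV ^ 2 * φL * V3 * (Qp * Qp1)) * (a * φμ - μ * b + φE * ((g2p * gi - 1) * a + P * c)) =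
      (Qp1 * a) * φV * φL * V3 * Qp - φV ^ 2 * φL * Qp * (Qp1 * V4 * b)
        - 24 * Xp * φQ * V3 * ((Np * φQ - Qp * φN) * (Qp1 * a) + P * Qp * φN * (Qp1 * c)) := by
  linear_combination (φV * φL * V3 * Qp * Qp1 * a) * h1 - (φV ^ 2 * φL * Qp * Qp1 * b) * h2
    + (V3 * Qp * Qp1 * ((g2p * gi - 1) * a + P * c)) * h3
    - (24 * Xp * φQ * V3 * Qp1 * a) * h4

omit [Fact p.Prime] in
/-- degree of `phom` -/
theorem S2B_deg (a : ℕ → ℕ) (κ H : Polynomial ℤ) (m : ℕ) (h1 : κ.natDegree ≤ m) (h2 : H.natDegree ≤ m) :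
    (phom p a κ H).natDegree ≤ m * (p - 1) := by
  unfold phom
  refine Polynomial.natDegree_sum_le_of_forall_le _ _ fun k hk => ?_
  have hk' : k < p := Finset.mem_range.1 hk
  have e1 : (κ ^ k).natDegree ≤ k * m := Polynomial.natDegree_pow_le_of_le k h1
  have e2 : (H ^ (p - 1 - k)).natDegree ≤ (p - 1 - k) * m := Polynomial.natDegree_pow_le_of_le _ h2
  have e3 : (Polynomial.C (a k : ℤ) * κ ^ k).natDegree ≤ k * m :=
    (Polynomial.natDegree_C_mul_le _ _).trans e1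
  refine (Polynomial.natDegree_mul_le_of_le e3 e2).trans ?_
  rw [← add_mul, mul_comm m]
  exact Nat.mul_le_mul_right m (by omega)

theorem S2B_V : V24.natDegree ≤ 1 := by
  unfold V24
  refine (Polynomial.natDegree_add_le _ _).trans ?_
  rw [Polynomial.natDegree_one, Nat.zero_max]
  refine (Polynomial.natDegree_mul_le).trans ?_
  rw [Polynomial.natDegree_ofNat, Polynomial.natDegree_X]

/-- degree of the polynomial of Step 2 -/
theorem S2B_J2 (d : D2) (hd : d.Valid) (hq : d.q ≤ 2) (hp : 17 ≤ p) : (d.J2 p).natDegree < p * p := by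
  have hl := hd.hlq
  have dN := hd.hN
  have dQ := hd.hQ
  have dL := hd.hL
  have dV := S2B_V
  have dX : ∀ n : ℕ, ((Polynomial.X : Polynomial ℤ) ^ n).natDegree ≤ n := fun n =>
    Polynomial.natDegree_X_pow_le n
  have eE : ∀ (f : Polynomial ℤ) (m : ℕ), f.natDegree ≤ m →
      (Polynomial.expand ℤ p f).natDegree ≤ m * p := by
    intro f m h
    rw [Polynomial.natDegree_expand]
    exact Nat.mul_le_mul_right p h
  have eP : ∀ (f : Polynomial ℤ) (m n : ℕ), f.natDegree ≤ m → (f ^ n).natDegree ≤ n * m := by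
    intro f m n h
    exact Polynomial.natDegree_pow_le_of_le n h
  have k1 : (Polynomial.X ^ d.l * d.N).natDegree ≤ d.q + 4 :=
    (Polynomial.natDegree_mul_le_of_le (dX d.l) dN).trans (by omega)
  have k2 : (Polynomial.X * d.N ^ d.l).natDegree ≤ d.q + 4 :=
    (Polynomial.natDegree_mul_le_of_le Polynomial.natDegree_X_le (eP _ _ d.l dN)).trans (by omega)
  have k3 : (d.Q * V24 ^ 4).natDegree ≤ d.q + 4 :=
    (Polynomial.natDegree_mul_le_of_le dQ (eP _ _ 4 dV)).trans (by omega)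
  have f1 := S2B_deg p cc (Polynomial.X ^ d.l * d.N) d.Q (d.q + 4) k1 (by omega)
  have f2 := S2B_deg p cc (Polynomial.X * d.N ^ d.l) (d.Q * V24 ^ 4) (d.q + 4) k2 k3
  have f3 := S2B_deg p (gl2 p) (Polynomial.X ^ d.l * d.N) d.Q (d.q + 4) k1 (by omega)
  have hmul : ∀ {f g : Polynomial ℤ} {m n : ℕ}, f.natDegree ≤ m → g.natDegree ≤ n →
      (f * g).natDegree ≤ m + n := fun h h' => Polynomial.natDegree_mul_le_of_le h h'
  have hsub : ∀ {f g : Polynomial ℤ} {m : ℕ}, f.natDegree ≤ m → g.natDegree ≤ m →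
      (f - g).natDegree ≤ m := fun {f g m} h h' => (Polynomial.natDegree_sub_le f g).trans (max_le h h')
  have hadd : ∀ {f g : Polynomial ℤ} {m : ℕ}, f.natDegree ≤ m → g.natDegree ≤ m →
      (f + g).natDegree ≤ m := fun {f g m} h h' => (Polynomial.natDegree_add_le f g).trans (max_le h h')
  have h24 : (24 : Polynomial ℤ).natDegree ≤ 0 := by
    rw [show (24 : Polynomial ℤ) = Polynomial.C 24 from rfl, Polynomial.natDegree_C]
  have hpp : ((p : ℕ) : Polynomial ℤ).natDegree ≤ 0 := by rw [Polynomial.natDegree_natCast]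
  have t1 := hmul (hmul (hmul (hmul f1 (eE _ _ dV)) (eE _ _ dL)) (eP _ _ (4 * p - 3) dV)) (eP _ _ p dQ)
  have t2 := hmul (hmul (hmul (eP _ _ 2 (eE _ _ dV)) (eE _ _ dL)) (eP _ _ p dQ)) f2
  have t3 := hmul (hmul (hmul (hmul h24 (dX p)) (eE _ _ dQ)) (eP _ _ (4 * p - 3) dV))
    (hadd (m := (p + p * d.q) + (d.q + 4) * (p - 1))
      (hmul (hsub (m := p + p * d.q)
        ((hmul (eP _ _ p dN) (eE _ _ dQ)).trans (by rw [mul_comm d.q p]; omega))
        ((hmul (eP _ _ p dQ) (eE _ _ dN)).trans (by omega))) f1)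
      ((hmul (hmul (hmul hpp (eP _ _ p dQ)) (eE _ _ dN)) f3).trans (by omega)))
  have hp2 : 17 * p ≤ p * p := Nat.mul_le_mul_right p hp
  have hB : (d.J2 p).natDegree ≤ (3 * d.q + 10) * p - d.q - 7 := by
    unfold D2.J2
    refine hsub (hsub (t1.trans ?_) (t2.trans ?_)) (t3.trans ?_)
    all_goals
      rcases (by omega : d.q = 0 ∨ d.q = 1 ∨ d.q = 2) with h | h | h <;> rw [h] <;> omega
  refine lt_of_le_of_lt hB ?_
  rcases (by omega : d.q = 0 ∨ d.q = 1 ∨ d.q = 2) with h | h | h <;> rw [h] <;> omega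

/-- Step 2: the functional equation as a polynomial congruence -/
theorem S2B (d : D2) (hd : d.Valid) (hq : d.q ≤ 2) (hp : 17 ≤ p) :
    ∃ g : Polynomial ℤ, d.J2 p = (p : Polynomial ℤ) ^ 2 * g := by
  have hpp : p.Prime := Fact.out
  have hlq := hd.hlq
  have hl5 : d.l < p := by omega
  have hpl : ¬ p ∣ d.l := fun h => by
    have := Nat.le_of_dvd (by omega) h
    omega
  obtain ⟨μ, l2, g1, g2, hμ, hg1, hg2, hl2, hJE⟩ := S2A p (by omega) d hd hpl
  -- constant coefficients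
  have cV : constantCoeff (cst ℚ_[p] V24) = 1 := by
    rw [constantCoeff_cst]
    simp [V24]
  have cQ : constantCoeff (cst ℚ_[p] d.Q) = 1 := by
    rw [constantCoeff_cst, hd.hQ0, Int.cast_one]
  have cN : constantCoeff (cst ℚ_[p] d.N) = 1 := by
    rw [constantCoeff_cst, hd.hN0, Int.cast_one]
  have cL : constantCoeff (cst ℚ_[p] d.L) = (d.l : ℚ_[p]) := by
    rw [constantCoeff_cst]
    have h : d.L.coeff 0 = d.l := by
      unfold D2.L pth
      simp only [Polynomial.coeff_sub, Polynomial.coeff_add, Polynomial.mul_coeff_zero,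
        Polynomial.coeff_X_zero, zero_mul, mul_zero, sub_zero, add_zero, hd.hN0, hd.hQ0, mul_one,
        Polynomial.coeff_natCast_ite]
      simp
    rw [h, Int.cast_natCast]
  have cg2 : constantCoeff g2 = 1 := by
    have h := congrArg constantCoeff hg2
    rw [map_mul, cQ, cN, one_mul] at h
    exact h
  have cl2 : constantCoeff l2 ≠ 0 := by
    have h := congrArg constantCoeff hl2
    rw [map_mul, map_mul, cQ, cN, one_mul, mul_one, cL] at h
    rw [h]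
    have := hd.hl
    exact_mod_cast (by omega : d.l ≠ 0)
  -- inverses
  have il2 : l2 * l2⁻¹ = 1 := PowerSeries.mul_inv_cancel _ cl2
  have iph : ph p ℚ_[p] g2 * (ph p ℚ_[p] g2)⁻¹ = 1 := by
    refine PowerSeries.mul_inv_cancel _ ?_
    rw [constantCoeff_ph, cg2]
    exact one_ne_zero
  -- the factor `th μ / l2`
  have hthV : th (cst ℚ_[p] V24) = 24 * X := by
    rw [th_cst]
    have h : Polynomial.X * Polynomial.derivative V24 = 24 * (Polynomial.X : Polynomial ℤ) := by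
      unfold V24
      simp only [Polynomial.derivative_add, Polynomial.derivative_one, Polynomial.derivative_mul,
        Polynomial.derivative_X, Polynomial.derivative_ofNat]
      ring
    rw [h, map_mul, cst_X, map_ofNat]
  have hthμ : th μ * cst ℚ_[p] V24 ^ 2 = -(24 * X) := by
    have h := congrArg th hμ
    rw [th_mul, th_one, hthV] at h
    linear_combination cst ℚ_[p] V24 * h - (24 * X) * hμ
  have hE : (th μ * l2⁻¹) * (cst ℚ_[p] V24 ^ 2 * cst ℚ_[p] d.L) =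
      -(24 * X * cst ℚ_[p] d.N * cst ℚ_[p] d.Q) := by
    linear_combination (l2⁻¹ * cst ℚ_[p] d.L) * hthμ
      + (24 * X * l2⁻¹) * hl2 - (24 * X * cst ℚ_[p] d.N * cst ℚ_[p] d.Q) * il2
  have hφE : ph p ℚ_[p] (th μ * l2⁻¹) * (ph p ℚ_[p] (cst ℚ_[p] V24) ^ 2 * ph p ℚ_[p] (cst ℚ_[p] d.L)) =
      -(24 * X ^ p * ph p ℚ_[p] (cst ℚ_[p] d.N) * ph p ℚ_[p] (cst ℚ_[p] d.Q)) := by
    obtain ⟨E, hE'⟩ : ∃ E, E = th μ * l2⁻¹ := ⟨_, rfl⟩
    rw [← hE'] at hE ⊢
    have h := congrArg (ph p ℚ_[p]) hE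
    rw [map_mul, map_mul, map_pow, map_neg, map_mul, map_mul, map_mul, map_ofNat, ph_X] at h
    exact h
  have hφμ := congrArg (ph p ℚ_[p]) hμ
  rw [map_mul, map_one] at hφμ
  have hφg := congrArg (ph p ℚ_[p]) hg2
  rw [map_mul] at hφg
  -- composition
  have z20 : constantCoeff (X ^ d.l * g2) = 0 := by
    have := hd.hl
    rw [map_mul, map_pow, constantCoeff_X, zero_pow (by omega), zero_mul]
  have z10 : constantCoeff (X ^ 1 * g1) = 0 := by
    rw [map_mul, map_pow, constantCoeff_X, zero_pow one_ne_zero, zero_mul]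
  have hz2 : cst ℚ_[p] d.Q * (X ^ d.l * g2) = cst ℚ_[p] (Polynomial.X ^ d.l * d.N) := by
    rw [map_mul, map_pow, cst_X]
    linear_combination X ^ d.l * hg2
  have hz1 : cst ℚ_[p] (d.Q * V24 ^ 4) * (X ^ 1 * g1) = cst ℚ_[p] (Polynomial.X * d.N ^ d.l) := by
    rw [map_mul, map_pow, map_mul, map_pow, cst_X]
    linear_combination X * hg1
  have hA : cst ℚ_[p] d.Q ^ (p - 1) * cmp (fam2 p).FT (X ^ d.l * g2) =
      cst ℚ_[p] (phom p cc (Polynomial.X ^ d.l * d.N) d.Q) := by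
    unfold Fam.FT fam2
    rw [S2B_trp p _ _ z20, S2B_hom p _ _ _ _ hz2, S2B_cst_phom]
    simp only [coeff_mk]
  have hB : cst ℚ_[p] (d.Q * V24 ^ 4) ^ (p - 1) * cmp (fam2 p).FT (X ^ 1 * g1) =
      cst ℚ_[p] (phom p cc (Polynomial.X * d.N ^ d.l) (d.Q * V24 ^ 4)) := by
    unfold Fam.FT fam2
    rw [S2B_trp p _ _ z10, S2B_hom p _ _ _ _ hz1, S2B_cst_phom]
    simp only [coeff_mk]
  have hC : PO 1 (T0 p) (cst ℚ_[p] d.Q ^ (p - 1) * cmp (fam2 p).GT (X ^ d.l * g2)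
      - cst ℚ_[p] (phom p (gl2 p) (Polynomial.X ^ d.l * d.N) d.Q)) := by
    unfold Fam.GT fam2
    rw [S2B_trp p _ _ z20, S2B_hom p _ _ _ _ hz2, S2B_cst_phom, ← Finset.sum_sub_distrib]
    refine PO_sum _ _ fun k hk => ?_
    have hk' : k < p := Finset.mem_range.1 hk
    rw [coeff_mk, ← sub_mul, ← sub_mul, ← map_sub]
    exact PO_mul_right (PO_mul_right (PO_C (C2l p (by omega) k hk')) (PO_pow (PO_cst _ _) _))
      (PO_pow (PO_cst _ _) _)
  -- the algebra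
  have hV3 : μ * cst ℚ_[p] V24 ^ (4 * p - 3) = (cst ℚ_[p] V24 ^ 4) ^ (p - 1) := by
    rw [show 4 * p - 3 = 4 * (p - 1) + 1 by omega, pow_succ, pow_mul]
    linear_combination ((cst ℚ_[p] V24 ^ 4) ^ (p - 1)) * hμ
  have hg2p : cst ℚ_[p] d.Q ^ p * (ph p ℚ_[p] (cst ℚ_[p] d.N) * (g2 ^ p * (ph p ℚ_[p] g2)⁻¹)) =
      cst ℚ_[p] d.N ^ p * ph p ℚ_[p] (cst ℚ_[p] d.Q) := by
    have h : cst ℚ_[p] d.Q ^ p * g2 ^ p = cst ℚ_[p] d.N ^ p := by rw [← mul_pow, hg2]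
    rw [← hφg]
    linear_combination (ph p ℚ_[p] (cst ℚ_[p] d.Q) * ph p ℚ_[p] g2 * (ph p ℚ_[p] g2)⁻¹) * h
      + (cst ℚ_[p] d.N ^ p * ph p ℚ_[p] (cst ℚ_[p] d.Q)) * iph
  have halg := S2B_alg (ph p ℚ_[p] (cst ℚ_[p] V24))
    (ph p ℚ_[p] (cst ℚ_[p] d.N)) (ph p ℚ_[p] (cst ℚ_[p] d.Q))
    (ph p ℚ_[p] (cst ℚ_[p] d.L)) (cst ℚ_[p] d.Q ^ p) (cst ℚ_[p] d.Q ^ (p - 1)) (cst ℚ_[p] d.N ^ p)
    (cst ℚ_[p] V24 ^ (4 * p - 3)) ((cst ℚ_[p] V24 ^ 4) ^ (p - 1)) (X ^ p)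
    (cmp (fam2 p).FT (X ^ d.l * g2)) (cmp (fam2 p).FT (X ^ 1 * g1)) (cmp (fam2 p).GT (X ^ d.l * g2))
    (p : PowerSeries ℚ_[p]) μ (ph p ℚ_[p] μ) (ph p ℚ_[p] (th μ * l2⁻¹)) (g2 ^ p)
    (ph p ℚ_[p] g2)⁻¹ hφμ hV3 hφE hg2p
  -- the size of `J2`
  have hM : PO 0 (T0 p) (ph p ℚ_[p] (cst ℚ_[p] V24) ^ 2 * ph p ℚ_[p] (cst ℚ_[p] d.L)
      * cst ℚ_[p] V24 ^ (4 * p - 3) * (cst ℚ_[p] d.Q ^ p * cst ℚ_[p] d.Q ^ (p - 1))) := by
    rw [ph_cst, ph_cst]
    exact PO_mul_left (PO_mul_left (PO_mul_left (PO_pow (PO_cst _ _) _) (PO_cst _ _))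
      (PO_pow (PO_cst _ _) _)) (PO_mul_left (PO_pow (PO_cst _ _) _) (PO_pow (PO_cst _ _) _))
  have hM2 := PO_mul_left hM hJE
  unfold Fam.JE at hM2
  rw [halg, hA] at hM2
  have hD : PO 2 (T0 p) (24 * X ^ p * ph p ℚ_[p] (cst ℚ_[p] d.Q) * cst ℚ_[p] V24 ^ (4 * p - 3)
      * (cst ℚ_[p] d.Q ^ p * ph p ℚ_[p] (cst ℚ_[p] d.N))
      * ((p : PowerSeries ℚ_[p]) * (cst ℚ_[p] d.Q ^ (p - 1) * cmp (fam2 p).GT (X ^ d.l * g2)
      - cst ℚ_[p] (phom p (gl2 p) (Polynomial.X ^ d.l * d.N) d.Q)))) := by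
    have h2 : PO 2 (T0 p) ((p : PowerSeries ℚ_[p]) * (cst ℚ_[p] d.Q ^ (p - 1) * cmp (fam2 p).GT (X ^ d.l * g2)
      - cst ℚ_[p] (phom p (gl2 p) (Polynomial.X ^ d.l * d.N) d.Q))) := PO_mul (PO_p _) hC
    refine PO_mul_left ?_ h2
    have h24 : PO 0 (T0 p) (24 : PowerSeries ℚ_[p]) := by
      have := PO_natCast (p := p) 24 (T0 p)
      exact_mod_cast this
    rw [ph_cst, ph_cst]
    exact PO_mul_left (PO_mul_left (PO_mul_left (PO_mul_left h24 (PO_X_pow _ _)) (PO_cst _ _))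
      (PO_pow (PO_cst _ _) _)) (PO_mul_left (PO_pow (PO_cst _ _) _) (PO_cst _ _))
  have hfin := PO_add hM2 hD
  have hcst : PO 2 (T0 p) (cst ℚ_[p] (d.J2 p)) := by
    refine (congrArg (PO 2 (T0 p)) ?_).mp hfin
    unfold D2.J2
    simp only [map_sub, map_mul, map_add, map_pow, map_natCast, map_ofNat, cst_X, ← ph_cst, ← hB]
    ring
  -- conclusion
  have hdvd : ∀ n, ((p : ℤ) ^ 2) ∣ (d.J2 p).coeff n := by
    intro n
    by_cases hn : n < T0 p
    · have h := hcst n hn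
      rw [coeff_cst] at h
      exact (PI_intCast_iff 2 _).1 h
    · have h := S2B_J2 p d hd hq hp
      have h' : (d.J2 p).natDegree < n := by
        unfold T0 nz at hn
        omega
      rw [Polynomial.coeff_eq_zero_of_natDegree_lt h']
      exact dvd_zero _
  obtain ⟨g, hg⟩ := (Polynomial.C_dvd_iff_dvd_coeff _ _).2 hdvd
  refine ⟨g, ?_⟩
  rw [hg, map_pow, map_natCast]

end Pool.Agent.Lib_helper91.TX
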