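import Pool.Agent.Lib_helper91.TX.C2

namespace Pool.Agent.Lib_helper91.TX

open PowerSeries Finset Pool.Agent.Lib_helper91.TN

section

variable {R : Type} [CommRing R]

/-- `f` has degree at most `n` and coefficient `a` at `X^n` -/
def S2C_T (f : Polynomial R) (n : ℕ) (a : R) : Prop := f.natDegree ≤ n ∧ f.coeff n = a

theorem S2C_mul {f g : Polynomial R} {m n : ℕ} {a b : R} (hf : S2C_T f m a) (hg : S2C_T g n b) :
    S2C_T (f * g) (m + n) (a * b) := by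
  refine ⟨Polynomial.natDegree_mul_le_of_le hf.1 hg.1, ?_⟩
  rw [Polynomial.coeff_mul_add_eq_of_natDegree_le hf.1 hg.1, hf.2, hg.2]

theorem S2C_add {f g : Polynomial R} {n : ℕ} {a b : R} (hf : S2C_T f n a) (hg : S2C_T g n b) :
    S2C_T (f + g) n (a + b) := by
  refine ⟨Polynomial.natDegree_add_le_of_degree_le hf.1 hg.1, ?_⟩
  rw [Polynomial.coeff_add, hf.2, hg.2]

theorem S2C_sub {f g : Polynomial R} {n : ℕ} {a b : R} (hf : S2C_T f n a) (hg : S2C_T g n b) :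
    S2C_T (f - g) n (a - b) := by
  refine ⟨(Polynomial.natDegree_sub_le _ _).trans (max_le hf.1 hg.1), ?_⟩
  rw [Polynomial.coeff_sub, hf.2, hg.2]

theorem S2C_pow {f : Polynomial R} {n : ℕ} {a : R} (hf : S2C_T f n a) (k : ℕ) :
    S2C_T (f ^ k) (k * n) (a ^ k) := by
  refine ⟨Polynomial.natDegree_pow_le_of_le k hf.1, ?_⟩
  rw [Polynomial.coeff_pow_of_natDegree_le hf.1, hf.2]

theorem S2C_exp (p : ℕ) (hp : 0 < p) {f : Polynomial R} {n : ℕ} {a : R} (hf : S2C_T f n a) :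
    S2C_T (Polynomial.expand R p f) (n * p) a := by
  refine ⟨?_, ?_⟩
  · rw [Polynomial.natDegree_expand]
    exact Nat.mul_le_mul_right p hf.1
  · rw [Polynomial.coeff_expand_mul hp, hf.2]

theorem S2C_C (a : R) : S2C_T (Polynomial.C a) 0 a :=
  ⟨(Polynomial.natDegree_C a).le, Polynomial.coeff_C_zero⟩

theorem S2C_X (n : ℕ) : S2C_T (Polynomial.X ^ n : Polynomial R) n 1 :=
  ⟨Polynomial.natDegree_X_pow_le n, Polynomial.coeff_X_pow_self n⟩

theorem S2C_cast {f : Polynomial R} {m n : ℕ} {a b : R} (hf : S2C_T f m a) (h : m = n) (h' : a = b) :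
    S2C_T f n b := by
  subst h; subst h'; exact hf

theorem S2C_sum {ι : Type} (s : Finset ι) (f : ι → Polynomial R) (n : ℕ) (a : ι → R)
    (h : ∀ i ∈ s, S2C_T (f i) n (a i)) : S2C_T (∑ i ∈ s, f i) n (∑ i ∈ s, a i) := by
  refine ⟨Polynomial.natDegree_sum_le_of_forall_le _ _ fun i hi => (h i hi).1, ?_⟩
  rw [Polynomial.finsetSum_coeff]
  exact Finset.sum_congr rfl fun i hi => (h i hi).2

theorem S2C_map {f : Polynomial ℤ} {n : ℕ} {a : ℤ} (h1 : f.natDegree ≤ n) (h2 : f.coeff n = a) :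
    S2C_T (f.map (Int.castRingHom R)) n (a : R) := by
  refine ⟨Polynomial.natDegree_map_le.trans h1, ?_⟩
  rw [Polynomial.coeff_map, h2]
  simp

theorem S2C_lt {f : Polynomial R} {n m : ℕ} {a : R} (h : S2C_T f n a) (hm : n < m) : f.coeff m = 0 :=
  Polynomial.coeff_eq_zero_of_natDegree_lt (lt_of_le_of_lt h.1 hm)

end

variable (p : ℕ) [Fact p.Prime]

theorem S2C_frob (f : Polynomial ℤ) :
    Polynomial.C (p : ℤ) ∣ Polynomial.expand ℤ p f - f ^ p := by
  rw [Polynomial.C_dvd_iff_dvd_coeff]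
  intro n
  rw [← ZMod.intCast_zmod_eq_zero_iff_dvd]
  have h := ZMod.expand_card (p := p) (f.map (Int.castRingHom (ZMod p)))
  rw [← Polynomial.map_expand, ← Polynomial.map_pow, ← sub_eq_zero, ← Polynomial.map_sub] at h
  have h1 := congrArg (fun g => Polynomial.coeff g n) h
  simp only [Polynomial.coeff_map, Polynomial.coeff_zero] at h1
  simpa using h1

theorem S2C_frob2 (f : Polynomial ℤ) (c : ℕ) (hc : p ∣ c) :
    Polynomial.C (c : ZMod (p ^ 2)) * Polynomial.expand (ZMod (p ^ 2)) p (f.map (Int.castRingHom (ZMod (p ^ 2))))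
      = Polynomial.C (c : ZMod (p ^ 2)) * (f.map (Int.castRingHom (ZMod (p ^ 2)))) ^ p := by
  obtain ⟨g, hg⟩ := S2C_frob p f
  obtain ⟨m, rfl⟩ := hc
  have h := congrArg (Polynomial.map (Int.castRingHom (ZMod (p ^ 2)))) hg
  rw [Polynomial.map_sub, Polynomial.map_expand, Polynomial.map_pow, Polynomial.map_mul,
    Polynomial.map_C] at h
  have hpp : (p : ZMod (p ^ 2)) * (p : ZMod (p ^ 2)) = 0 := by
    have := ZMod.natCast_self (p ^ 2)
    push_cast at this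
    rw [← this]; ring
  have e : Polynomial.C ((p * m : ℕ) : ZMod (p ^ 2)) * (Polynomial.C ((Int.castRingHom (ZMod (p ^ 2))) (p : ℤ))
      * g.map (Int.castRingHom (ZMod (p ^ 2)))) = 0 := by
    rw [← mul_assoc, ← Polynomial.C_mul]
    have : ((p * m : ℕ) : ZMod (p ^ 2)) * ((Int.castRingHom (ZMod (p ^ 2))) (p : ℤ)) = 0 := by
      push_cast
      simp only [eq_intCast, Int.cast_natCast]
      linear_combination (m : ZMod (p ^ 2)) * hpp
    rw [this, Polynomial.C_0, zero_mul]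
  rw [← h] at e
  linear_combination e

/-- the `k`-th term -/
noncomputable def S2C_term {R : Type} [CommRing R] (p : ℕ) (κ Q V N EV EL EQ EN : Polynomial R) (c g : R) (k : ℕ) :
    Polynomial R :=
  κ ^ k * Q ^ (p - 1 - k) * V ^ (4 * p - 3) *
    (Polynomial.C c * (EV * EL * Q ^ p) - Polynomial.C 24 * Polynomial.X ^ p * EQ *
      ((N ^ p * EQ - Q ^ p * EN) * Polynomial.C c + Polynomial.C g * Q ^ p * EN))

theorem S2C_split {R : Type} [CommRing R] (p : ℕ) (κ Q V N EV EL EQ EN : Polynomial R) (c g : ℕ → R) (P : R) (S : Polynomial R) :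
    (∑ k ∈ range p, Polynomial.C (c k) * κ ^ k * Q ^ (p - 1 - k)) * EV * EL * V ^ (4 * p - 3) * Q ^ p - S
    - Polynomial.C 24 * Polynomial.X ^ p * EQ * V ^ (4 * p - 3)
      * ((N ^ p * EQ - Q ^ p * EN) * (∑ k ∈ range p, Polynomial.C (c k) * κ ^ k * Q ^ (p - 1 - k))
        + Polynomial.C P * Q ^ p * EN * (∑ k ∈ range p, Polynomial.C (g k) * κ ^ k * Q ^ (p - 1 - k)))
    = (∑ k ∈ range p, S2C_term p κ Q V N EV EL EQ EN (c k) (P * g k) k) - S := by
  have e : (∑ k ∈ range p, S2C_term p κ Q V N EV EL EQ EN (c k) (P * g k) k)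
      = (V ^ (4 * p - 3) * (EV * EL * Q ^ p) - V ^ (4 * p - 3) * Polynomial.C 24 * Polynomial.X ^ p * EQ * (N ^ p * EQ - Q ^ p * EN))
          * (∑ k ∈ range p, Polynomial.C (c k) * κ ^ k * Q ^ (p - 1 - k))
        - V ^ (4 * p - 3) * Polynomial.C 24 * Polynomial.X ^ p * EQ * Polynomial.C P * Q ^ p * EN
          * (∑ k ∈ range p, Polynomial.C (g k) * κ ^ k * Q ^ (p - 1 - k)) := by
    rw [Finset.mul_sum, Finset.mul_sum, ← Finset.sum_sub_distrib]
    refine Finset.sum_congr rfl fun k _ => ?_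
    unfold S2C_term
    rw [Polynomial.C_mul]
    ring
  rw [e]
  ring

theorem S2C_termT {R : Type} [CommRing R] (p l q k : ℕ) (hlq : l + 1 = q + 4) (hk : k < p)
    {κ Q V N EV EL EQ EN : Polynomial R} {n0 q0 v l4 : R} (c g : R)
    (hκ : S2C_T κ (l + 1) n0) (hQ : S2C_T Q q q0) (hV : S2C_T V 1 v) (hN : S2C_T N 1 n0)
    (hEV : S2C_T EV p v) (hEL : S2C_T EL ((q + 1) * p) l4) (hEQ : S2C_T EQ (q * p) q0) (hEN : S2C_T EN p n0) :
    S2C_T (S2C_term p κ Q V N EV EL EQ EN c g k) (q * (p - 1) + 4 * k + (4 * p - 3) + (2 * q + 2) * p)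
      (n0 ^ k * q0 ^ (p - 1 - k) * v ^ (4 * p - 3) *
        (c * (v * l4 * q0 ^ p) - 24 * 1 * q0 * ((n0 ^ p * q0 - q0 ^ p * n0) * c + g * q0 ^ p * n0))) := by
  unfold S2C_term
  have e1 : k * (l + 1) + (p - 1 - k) * q + (4 * p - 3) * 1 = q * (p - 1) + 4 * k + (4 * p - 3) := by
    rw [hlq]
    obtain ⟨m, hm⟩ : ∃ m, p - 1 = k + m := ⟨p - 1 - k, by omega⟩
    rw [hm, Nat.add_sub_cancel_left]
    ring
  refine S2C_cast (S2C_mul (n := (2 * q + 2) * p) (S2C_mul (S2C_mul (S2C_pow hκ k) (S2C_pow hQ (p - 1 - k)))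
    (S2C_pow hV (4 * p - 3))) (S2C_sub ?_ ?_)) (by rw [e1]) rfl
  · exact S2C_cast (S2C_mul (S2C_C c) (S2C_mul (S2C_mul hEV hEL) (S2C_pow hQ p))) (by ring) rfl
  · refine S2C_cast (S2C_mul (S2C_mul (S2C_mul (S2C_C 24) (S2C_X p)) hEQ)
      (S2C_add (n := (q + 1) * p) ?_ ?_)) (by ring) rfl
    · refine S2C_cast (S2C_mul (n := 0) (S2C_sub (n := (q + 1) * p) ?_ ?_) (S2C_C c)) (by ring) rfl
      · exact S2C_cast (S2C_mul (S2C_pow hN p) hEQ) (by ring) rfl
      · exact S2C_cast (S2C_mul (S2C_pow hQ p) hEN) (by ring) rfl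
    · exact S2C_cast (S2C_mul (S2C_mul (S2C_C g) (S2C_pow hQ p)) hEN) (by ring) rfl

theorem S2C_high {R : Type} [CommRing R] (p l q k : ℕ) (hlq : l + 1 = q + 4) (hk : k < p)
    {κ Q V N EV EL EQ EN : Polynomial R} {n0 q0 v : R} (c g : R)
    (hκ : S2C_T κ (l + 1) n0) (hQ : S2C_T Q q q0) (hV : S2C_T V 1 v)
    (hg : g = 4 * c) (e1 : Polynomial.C c * EN = Polynomial.C c * N ^ p)
    (e2 : Polynomial.C c * EQ = Polynomial.C c * Q ^ p) (w : R)
    (hW : S2C_T (EV * EL - Polynomial.C 96 * Polynomial.X ^ p * EQ * EN) ((q + 1) * p) w) :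
    (S2C_term p κ Q V N EV EL EQ EN c g k).natDegree ≤
      q * (p - 1) + 4 * k + (4 * p - 3) + (2 * q + 1) * p := by
  have e3 : S2C_term p κ Q V N EV EL EQ EN c g k = κ ^ k * Q ^ (p - 1 - k) * V ^ (4 * p - 3) *
      (Polynomial.C c * (Q ^ p * (EV * EL - Polynomial.C 96 * Polynomial.X ^ p * EQ * EN))) := by
    unfold S2C_term
    rw [hg, Polynomial.C_mul]
    have a1 : (Polynomial.C (96 : R)) = Polynomial.C 24 * Polynomial.C 4 := by
      rw [← Polynomial.C_mul]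
      norm_num
    rw [a1]
    linear_combination κ ^ k * Q ^ (p - 1 - k) * V ^ (4 * p - 3) * Polynomial.C 24 * Polynomial.X ^ p * EQ *
      (EQ * e1 - EN * e2)
  rw [e3]
  have e4 : k * (l + 1) + (p - 1 - k) * q + (4 * p - 3) * 1 = q * (p - 1) + 4 * k + (4 * p - 3) := by
    rw [hlq]
    obtain ⟨m, hm⟩ : ∃ m, p - 1 = k + m := ⟨p - 1 - k, by omega⟩
    rw [hm, Nat.add_sub_cancel_left]
    ring
  have e5 := S2C_mul (S2C_mul (S2C_mul (S2C_pow hκ k) (S2C_pow hQ (p - 1 - k)))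
    (S2C_pow hV (4 * p - 3))) (S2C_mul (S2C_C c) (S2C_mul (S2C_pow hQ p) hW))
  refine e5.1.trans (le_of_eq ?_)
  rw [e4]
  ring

theorem S2C_sm {R : Type} [CommRing R] (p : ℕ) (a : ℕ → ℕ) (x y v : R) (hv : v * y = x) :
    ∑ k ∈ range p, (a k : R) * x ^ k * y ^ (p - 1 - k) = y ^ (p - 1) * sm p 0 a v := by
  unfold sm
  rw [Finset.mul_sum]
  refine Finset.sum_congr rfl fun k hk => ?_
  rw [Finset.mem_range] at hk
  have e : y ^ (p - 1) = y ^ k * y ^ (p - 1 - k) := by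
    rw [← pow_add]; congr 1; omega
  rw [e, ← hv, mul_pow, pow_zero, one_mul]
  ring

theorem S2C_alg {R : Type} [CommRing R] (K : ℕ) (n0 q0 w c g s : R) (hw : w * q0 = n0)
    (h : n0 ^ K * q0 ^ (3 * K) * 24 ^ (16 * K + 1) * (c * (24 * (4 * q0 * n0) * q0 ^ (4 * K + 1))
      - 24 * 1 * q0 * ((n0 ^ (4 * K + 1) * q0 - q0 ^ (4 * K + 1) * n0) * c + g * q0 ^ (4 * K + 1) * n0))
      - 24 ^ 2 * (4 * q0 * n0) * q0 ^ (4 * K + 1) * ((q0 * 24 ^ 4) ^ (4 * K) * s) = 0) :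
    (24 ^ (16 * K + 2) * (q0 ^ (8 * K + 2) * n0)) * (4 * s - w ^ K * (4 * c - (w ^ (4 * K) - 1) * c - g)) = 0 := by
  subst hw
  have e1 : (24 : R) ^ (16 * K + 1) = (24 ^ (K * 16)) * 24 := by rw [pow_succ, mul_comm 16 K]
  have e2 : (24 : R) ^ (16 * K + 2) = (24 ^ (K * 16)) * 24 ^ 2 := by rw [pow_add, mul_comm 16 K]
  have e3 : q0 ^ (3 * K) = (q0 ^ K) ^ 3 := by rw [← pow_mul, mul_comm]
  have e4 : q0 ^ (4 * K + 1) = (q0 ^ K) ^ 4 * q0 := by rw [← pow_mul, ← pow_succ, mul_comm 4 K]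
  have e5 : q0 ^ (8 * K + 2) = (q0 ^ K) ^ 8 * q0 ^ 2 := by rw [← pow_mul, ← pow_add, mul_comm 8 K]
  have e6 : (q0 * (24 : R) ^ 4) ^ (4 * K) = (q0 ^ K) ^ 4 * 24 ^ (K * 16) := by
    rw [mul_pow, ← pow_mul, ← pow_mul, mul_comm 4 K]
    congr 2
    ring
  have e7 : (w * q0) ^ (4 * K + 1) = w ^ (4 * K) * w * ((q0 ^ K) ^ 4 * q0) := by
    rw [mul_pow, e4, pow_succ w]
  rw [e1, e3, e6, e7, e4, mul_pow] at h
  rw [e2, e5]
  generalize (24 : R) ^ (K * 16) = Z at *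
  generalize q0 ^ K = U at *
  generalize w ^ (4 * K) = W4 at *
  generalize w ^ K = W1 at *
  linear_combination -h

theorem S2C_phom {R : Type} [CommRing R] (p : ℕ) (a : ℕ → R) {κ H : Polynomial R} {n : ℕ} {x y : R}
    (hκ : S2C_T κ n x) (hH : S2C_T H n y) :
    S2C_T (∑ k ∈ range p, Polynomial.C (a k) * κ ^ k * H ^ (p - 1 - k)) ((p - 1) * n)
      (∑ k ∈ range p, a k * x ^ k * y ^ (p - 1 - k)) := by
  refine S2C_sum _ _ _ _ fun k hk => ?_
  rw [Finset.mem_range] at hk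
  refine S2C_cast (S2C_mul (S2C_mul (S2C_C (a k)) (S2C_pow hκ k)) (S2C_pow hH (p - 1 - k))) ?_ rfl
  rw [zero_add, ← add_mul]
  congr 1
  omega

theorem S2C_unit (x : ℤ) (h : ¬ (p : ℤ) ∣ x) : IsUnit ((x : ℤ) : ZMod (p ^ 2)) := by
  have hp : Prime (p : ℤ) := Nat.prime_iff_prime_int.1 Fact.out
  have h1 : IsCoprime (p : ℤ) x := (Prime.coprime_iff_not_dvd hp).2 h
  have h2 : IsCoprime (((p ^ 2 : ℕ) : ℤ)) x := by
    rw [Nat.cast_pow]
    exact h1.pow_left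
  exact (ZMod.coe_int_isUnit_iff_isCoprime x (p ^ 2)).2 h2

/-- Step 2: the coefficient of degree `3p + 2qp + (q+4)(p-1)`, `p = 4K+1` -/
theorem S2C (d : D2) (hd : d.Valid) (K : ℕ) (hK : p = 4 * K + 1) (hp : 17 ≤ p)
    (hn : ¬ (p : ℤ) ∣ d.n0) (hq : ¬ (p : ℤ) ∣ d.q0)
    (hJ : ∃ g : Polynomial ℤ, d.J2 p = (p : Polynomial ℤ) ^ 2 * g)
    (v w : ZMod (p ^ 2)) (hv : v * ((d.q0 : ZMod (p ^ 2)) * 24 ^ 4) = (d.n0 : ZMod (p ^ 2)) ^ d.l)
    (hw : w * (d.q0 : ZMod (p ^ 2)) = (d.n0 : ZMod (p ^ 2))) :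
    4 * sm p 0 cc v = w ^ K * (4 * (cc K : ZMod (p ^ 2)) - (w ^ (p - 1) - 1) * (cc K : ZMod (p ^ 2))
      - (p : ZMod (p ^ 2)) * (gl2 p K : ZMod (p ^ 2))) := by
  have hp0 : 0 < p := by omega
  have hlq := hd.hlq
  have hpp : (p : ZMod (p ^ 2)) ^ 2 = 0 := by
    have := ZMod.natCast_self (p ^ 2)
    push_cast at this
    exact this
  have hN : S2C_T (d.N.map (Int.castRingHom (ZMod (p ^ 2)))) 1 (d.n0 : ZMod (p ^ 2)) := S2C_map hd.hN hd.hN1
  have hQ : S2C_T (d.Q.map (Int.castRingHom (ZMod (p ^ 2)))) d.q (d.q0 : ZMod (p ^ 2)) := S2C_map hd.hQ hd.hQ1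
  have hL : S2C_T (d.L.map (Int.castRingHom (ZMod (p ^ 2)))) (d.q + 1)
      (4 * (d.q0 : ZMod (p ^ 2)) * (d.n0 : ZMod (p ^ 2))) := by
    have := S2C_map (R := ZMod (p ^ 2)) hd.hL hd.hL1
    push_cast at this
    exact this
  have hV : S2C_T (V24.map (Int.castRingHom (ZMod (p ^ 2)))) 1 (24 : ZMod (p ^ 2)) := by
    have := S2C_map (R := ZMod (p ^ 2)) (f := V24) (n := 1) (a := 24) (by unfold V24; compute_degree)
      (by
        unfold V24
        rw [Polynomial.coeff_add, Polynomial.coeff_one, ← Polynomial.C_ofNat, Polynomial.coeff_C_mul,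
          Polynomial.coeff_X]
        norm_num)
    push_cast at this
    exact this
  have hκ : S2C_T (Polynomial.X ^ d.l * d.N.map (Int.castRingHom (ZMod (p ^ 2)))) (d.l + 1)
      (d.n0 : ZMod (p ^ 2)) := S2C_cast (S2C_mul (S2C_X d.l) hN) rfl (one_mul _)
  have hκ2 : S2C_T (Polynomial.X * (d.N.map (Int.castRingHom (ZMod (p ^ 2)))) ^ d.l) (d.q + 4)
      ((d.n0 : ZMod (p ^ 2)) ^ d.l) := by
    have := S2C_mul (S2C_X (R := ZMod (p ^ 2)) 1) (S2C_pow hN d.l)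
    rw [pow_one] at this
    exact S2C_cast this (by omega) (one_mul _)
  have hH2 : S2C_T (d.Q.map (Int.castRingHom (ZMod (p ^ 2))) * (V24.map (Int.castRingHom (ZMod (p ^ 2)))) ^ 4)
      (d.q + 4) ((d.q0 : ZMod (p ^ 2)) * 24 ^ 4) := S2C_mul hQ (S2C_pow hV 4)
  have hEN := S2C_cast (S2C_exp p hp0 hN) (one_mul p) rfl
  have hEV := S2C_cast (S2C_exp p hp0 hV) (one_mul p) rfl
  have hEQ := S2C_exp p hp0 hQ
  have hEL := S2C_exp p hp0 hL
  have frN := fun c hc => S2C_frob2 p d.N c hc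
  have frQ := fun c hc => S2C_frob2 p d.Q c hc
  -- the mapped polynomial
  obtain ⟨g, hg⟩ := hJ
  have hz : (d.J2 p).map (Int.castRingHom (ZMod (p ^ 2))) = 0 := by
    rw [hg, Polynomial.map_mul, Polynomial.map_pow, Polynomial.map_natCast, ← Polynomial.C_eq_natCast,
      ← Polynomial.C_pow, hpp, Polynomial.C_0, zero_mul]
  have hm : (d.J2 p).map (Int.castRingHom (ZMod (p ^ 2))) =
      (∑ k ∈ range p, Polynomial.C ((cc k : ℕ) : ZMod (p ^ 2)) *
        (Polynomial.X ^ d.l * d.N.map (Int.castRingHom (ZMod (p ^ 2)))) ^ k *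
        (d.Q.map (Int.castRingHom (ZMod (p ^ 2)))) ^ (p - 1 - k)) *
        Polynomial.expand (ZMod (p ^ 2)) p (V24.map (Int.castRingHom (ZMod (p ^ 2)))) *
        Polynomial.expand (ZMod (p ^ 2)) p (d.L.map (Int.castRingHom (ZMod (p ^ 2)))) *
        (V24.map (Int.castRingHom (ZMod (p ^ 2)))) ^ (4 * p - 3) *
        (d.Q.map (Int.castRingHom (ZMod (p ^ 2)))) ^ p
      - Polynomial.expand (ZMod (p ^ 2)) p (V24.map (Int.castRingHom (ZMod (p ^ 2)))) ^ 2 *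
        Polynomial.expand (ZMod (p ^ 2)) p (d.L.map (Int.castRingHom (ZMod (p ^ 2)))) *
        (d.Q.map (Int.castRingHom (ZMod (p ^ 2)))) ^ p *
        (∑ k ∈ range p, Polynomial.C ((cc k : ℕ) : ZMod (p ^ 2)) *
          (Polynomial.X * (d.N.map (Int.castRingHom (ZMod (p ^ 2)))) ^ d.l) ^ k *
          (d.Q.map (Int.castRingHom (ZMod (p ^ 2))) * (V24.map (Int.castRingHom (ZMod (p ^ 2)))) ^ 4) ^ (p - 1 - k))
      - Polynomial.C 24 * Polynomial.X ^ p *
        Polynomial.expand (ZMod (p ^ 2)) p (d.Q.map (Int.castRingHom (ZMod (p ^ 2)))) *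
        (V24.map (Int.castRingHom (ZMod (p ^ 2)))) ^ (4 * p - 3)
        * (((d.N.map (Int.castRingHom (ZMod (p ^ 2)))) ^ p *
            Polynomial.expand (ZMod (p ^ 2)) p (d.Q.map (Int.castRingHom (ZMod (p ^ 2))))
            - (d.Q.map (Int.castRingHom (ZMod (p ^ 2)))) ^ p *
            Polynomial.expand (ZMod (p ^ 2)) p (d.N.map (Int.castRingHom (ZMod (p ^ 2))))) *
            (∑ k ∈ range p, Polynomial.C ((cc k : ℕ) : ZMod (p ^ 2)) *
              (Polynomial.X ^ d.l * d.N.map (Int.castRingHom (ZMod (p ^ 2)))) ^ k *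
              (d.Q.map (Int.castRingHom (ZMod (p ^ 2)))) ^ (p - 1 - k))
          + Polynomial.C (p : ZMod (p ^ 2)) * (d.Q.map (Int.castRingHom (ZMod (p ^ 2)))) ^ p *
            Polynomial.expand (ZMod (p ^ 2)) p (d.N.map (Int.castRingHom (ZMod (p ^ 2)))) *
            (∑ k ∈ range p, Polynomial.C ((gl2 p k : ℕ) : ZMod (p ^ 2)) *
              (Polynomial.X ^ d.l * d.N.map (Int.castRingHom (ZMod (p ^ 2)))) ^ k *
              (d.Q.map (Int.castRingHom (ZMod (p ^ 2)))) ^ (p - 1 - k))) := by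
    unfold D2.J2 phom
    simp only [Polynomial.map_sub, Polynomial.map_mul, Polynomial.map_pow, Polynomial.map_add,
      Polynomial.map_expand, Polynomial.map_sum, Polynomial.map_X, Polynomial.map_C, Polynomial.map_natCast,
      Polynomial.map_ofNat, Polynomial.C_ofNat, Polynomial.C_eq_natCast, eq_intCast, Int.cast_natCast]
  rw [hm, S2C_split] at hz
  have hc := congrArg (fun f => Polynomial.coeff f (3 * p + 2 * d.q * p + (d.q + 4) * (p - 1))) hz
  simp only [Polynomial.coeff_sub, Polynomial.coeff_zero, Polynomial.finsetSum_coeff] at hc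
  clear hm hz hg
  generalize d.N.map (Int.castRingHom (ZMod (p ^ 2))) = N' at *
  generalize d.Q.map (Int.castRingHom (ZMod (p ^ 2))) = Q' at *
  generalize V24.map (Int.castRingHom (ZMod (p ^ 2))) = V' at *
  generalize d.L.map (Int.castRingHom (ZMod (p ^ 2))) = L' at *
  have hW1 : S2C_T (V' * L' - Polynomial.C 96 * Polynomial.X ^ 1 * Q' * N') (d.q + 2) 0 := by
    refine S2C_cast (S2C_sub (n := d.q + 2) (S2C_cast (S2C_mul hV hL) (by omega) rfl)
      (S2C_cast (S2C_mul (S2C_mul (S2C_mul (S2C_C 96) (S2C_X 1)) hQ) hN) (by omega) rfl)) rfl ?_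
    ring
  have hW2 : (V' * L' - Polynomial.C 96 * Polynomial.X ^ 1 * Q' * N').natDegree ≤ d.q + 1 := by
    have := Polynomial.natDegree_le_pred hW1.1 hW1.2
    omega
  have hW3 := S2C_exp p hp0 (show S2C_T (V' * L' - Polynomial.C 96 * Polynomial.X ^ 1 * Q' * N')
    (d.q + 1) _ from ⟨hW2, rfl⟩)
  rw [map_sub, map_mul, map_mul, map_mul, map_mul, Polynomial.expand_C, map_pow, Polynomial.expand_X,
    pow_one] at hW3
  have e1 : (d.q + 4) * (p - 1) = d.q * (p - 1) + 4 * (p - 1) := by ring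
  have e2 : (2 * d.q + 2) * p = 2 * d.q * p + 2 * p := by ring
  have e3 : (2 * d.q + 1) * p = 2 * d.q * p + p := by ring
  have hk0 : ∀ k ∈ range p, k ≠ K → (S2C_term p (Polynomial.X ^ d.l * N') Q' V' N'
      (Polynomial.expand (ZMod (p ^ 2)) p V') (Polynomial.expand (ZMod (p ^ 2)) p L')
      (Polynomial.expand (ZMod (p ^ 2)) p Q') (Polynomial.expand (ZMod (p ^ 2)) p N')
      ((cc k : ℕ) : ZMod (p ^ 2)) ((p : ZMod (p ^ 2)) * ((gl2 p k : ℕ) : ZMod (p ^ 2))) k).coeff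
        (3 * p + 2 * d.q * p + (d.q + 4) * (p - 1)) = 0 := by
    intro k hk hkK
    rw [Finset.mem_range] at hk
    rcases lt_or_gt_of_ne hkK with h | h
    · refine S2C_lt (S2C_termT p d.l d.q k hlq hk _ _ hκ hQ hV hN hEV hEL hEQ hEN) ?_
      rw [e1, e2]
      omega
    · have h5 := C2e p (by omega) k (by omega) hk
      by_cases h2 : p ≤ 2 * k
      · have h3 := C2d p k h2 hk
        have h4 : ((cc k : ℕ) : ZMod (p ^ 2)) = 0 := (ZMod.natCast_eq_zero_iff _ _).2 h3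
        rw [h5, h4, mul_zero]
        unfold S2C_term
        simp
      · have h3 := C2c p k (by omega) hk
        refine Polynomial.coeff_eq_zero_of_natDegree_lt (lt_of_le_of_lt
          (S2C_high p d.l d.q k hlq hk _ _ hκ hQ hV h5 (frN _ h3) (frQ _ h3) _ hW3) ?_)
        rw [e1, e3]
        omega
  rw [Finset.sum_eq_single K hk0 (fun h => absurd (Finset.mem_range.2 (by omega)) h)] at hc
  have t1 := S2C_termT p d.l d.q K hlq (by omega) (cc K : ZMod (p ^ 2)) ((p : ZMod (p ^ 2)) *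
    ((gl2 p K : ℕ) : ZMod (p ^ 2))) hκ hQ hV hN hEV hEL hEQ hEN
  have t2 := S2C_cast t1 (n := 3 * p + 2 * d.q * p + (d.q + 4) * (p - 1)) (by rw [e1, e2]; omega) rfl
  have t3 := S2C_mul (S2C_mul (S2C_mul (S2C_pow hEV 2) hEL) (S2C_pow hQ p))
    (S2C_phom p (fun k => ((cc k : ℕ) : ZMod (p ^ 2))) hκ2 hH2)
  have t4 := S2C_cast t3 (n := 3 * p + 2 * d.q * p + (d.q + 4) * (p - 1)) (by ring) rfl
  rw [t2.2, t4.2, S2C_sm p cc _ _ v hv] at hc
  have e5 : p - 1 - K = 3 * K := by omega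
  have e6 : 4 * p - 3 = 16 * K + 1 := by omega
  have e7 : p - 1 = 4 * K := by omega
  have e8 : ∀ x : ZMod (p ^ 2), x ^ p = x ^ (4 * K + 1) := fun x => congrArg (fun n => x ^ n) hK
  rw [e5, e6, e7] at hc
  simp only [e8] at hc
  have h9 := S2C_alg K _ _ w _ _ _ hw hc
  rw [e7]
  have u24 : IsUnit (24 : ZMod (p ^ 2)) := by
    have := S2C_unit p 24 (fun h => by
      have h1 := Int.le_of_dvd (by norm_num) h
      have h2 : p = 17 ∨ p = 21 := by omega
      rcases h2 with h2 | h2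
      · rw [h2] at h; norm_num at h
      · rw [h2] at h; norm_num at h)
    push_cast at this
    exact this
  have uu : IsUnit (24 ^ (16 * K + 2) * ((d.q0 : ZMod (p ^ 2)) ^ (8 * K + 2) * (d.n0 : ZMod (p ^ 2)))) :=
    (u24.pow _).mul (((S2C_unit p _ hq).pow _).mul (S2C_unit p _ hn))
  obtain ⟨u, hu⟩ := uu
  rw [← hu] at h9
  exact sub_eq_zero.1 ((Units.mul_right_eq_zero u).1 h9)

end Pool.Agent.Lib_helper91.TX
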