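import Pool.Agent.Lib_helper91.TX.Defs

namespace Pool.Agent.Lib_helper91.TX

open Polynomial in
theorem s2v_L3 : d3.L = C 3 + C (-12) * X := by
  simp only [D2.L, d3, pth]
  simp only [derivative_sub, derivative_one, derivative_mul, derivative_X, derivative_ofNat, map_neg, map_ofNat]
  push_cast
  ring

open Polynomial in
theorem s2v_L13 : d3.L1 = C 1 + C (-84) * X := by
  simp only [D2.L1, d3, pth, V24]
  simp only [derivative_sub, derivative_add, derivative_one, derivative_mul, derivative_X, derivative_ofNat, map_neg, map_ofNat, map_one]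
  push_cast
  ring

open Polynomial in
theorem s2v_L5 : d5.L = C (-80) * X ^ 3 + C 40 * X ^ 2 + C 10 * X + C 5 := by
  simp only [D2.L, d5, pth]
  simp only [derivative_sub, derivative_add, derivative_one, derivative_mul, derivative_X, derivative_X_pow, derivative_ofNat, map_neg, map_ofNat]
  push_cast
  simp only [map_ofNat]
  ring

open Polynomial in
theorem s2v_L15 : d5.L1 = C (-2576) * X ^ 3 + C (-472) * X ^ 2 + C (-78) * X + C 1 := by
  simp only [D2.L1, d5, pth, V24]
  simp only [derivative_sub, derivative_add, derivative_one, derivative_mul, derivative_X, derivative_X_pow, derivative_ofNat, map_neg, map_ofNat, map_one]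
  push_cast
  simp only [map_ofNat]
  ring

open Polynomial in
theorem s2v_N (n : ℤ) : (1 + C n * X : Polynomial ℤ) = C n * X + C 1 := by
  rw [map_one]; ring

open Polynomial in
theorem s2v_N3 : d3.N = C (-3) * X + C 1 := by
  simp only [d3, map_neg, map_ofNat, map_one]
  ring

open Polynomial in
theorem s2v_N5 : d5.N = C (-1) * X + C 1 := by
  simp only [d5, map_neg, map_one]
  ring

open Polynomial in
theorem s2v_Q5 : d5.Q = C 20 * X ^ 2 + C 4 * X + C 1 := by
  simp only [d5, map_ofNat, map_one]
  ring

open Polynomial in
theorem d3_valid : d3.Valid where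
  hl := by simp [d3]
  hlq := by simp [d3]
  hN := by rw [s2v_N3]; exact natDegree_linear_le
  hN0 := by rw [s2v_N3]; simp
  hN1 := by rw [s2v_N3]; simp [d3, coeff_one]
  hQ := by simp [d3]
  hQ0 := by simp [d3]
  hQ1 := by simp [d3]
  hL := by
    rw [s2v_L3, add_comm]
    exact natDegree_linear_le
  hL1 := by
    rw [s2v_L3]
    simp [d3]
  I1 := by
    rw [s2v_L13]
    simp only [d3, V24, map_neg, map_ofNat, map_one]
    ring
  I2 := by
    rw [s2v_L3]
    simp only [d3, map_neg, map_ofNat]
    push_cast
    ring
  I3 := by
    simp only [D2.S, d3, pth, V24]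
    simp only [derivative_sub, derivative_add, derivative_one, derivative_mul, derivative_X, derivative_pow, derivative_ofNat, derivative_zero]
    push_cast
    simp only [map_ofNat]
    ring

open Polynomial in
theorem d5_valid : d5.Valid where
  hl := by simp [d5]
  hlq := by simp [d5]
  hN := by rw [s2v_N5]; exact natDegree_linear_le
  hN0 := by rw [s2v_N5]; simp
  hN1 := by rw [s2v_N5]; simp [d5, coeff_one]
  hQ := by rw [s2v_Q5]; exact natDegree_quadratic_le
  hQ0 := by rw [s2v_Q5]; simp
  hQ1 := by
    rw [s2v_Q5]
    simp [d5, coeff_X, coeff_one]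
  hL := by
    rw [s2v_L5]
    exact natDegree_cubic_le
  hL1 := by
    rw [s2v_L5]
    simp [d5, coeff_X]
  I1 := by
    rw [s2v_L15]
    simp only [d5, V24, map_neg, map_ofNat, map_one]
    ring
  I2 := by
    rw [s2v_L5]
    simp only [d5, map_neg, map_ofNat]
    push_cast
    ring
  I3 := by
    simp only [D2.S, d5, pth, V24]
    simp only [derivative_sub, derivative_add, derivative_one, derivative_mul, derivative_X, derivative_pow, derivative_ofNat, derivative_zero]
    push_cast
    simp only [map_ofNat]
    ring

end Pool.Agent.Lib_helper91.TX
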