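import Pool.Agent.Lib_helper91.TX.Defs
import Pool.Agent.Lib_helper91.TN.SMA

namespace Pool.Agent.Lib_helper91.TX

open Finset Pool.Agent.Lib_helper91.TN

/-- the four cases of part (a) for `p ≡ 1 (mod 4)` -/
structure AA (p : ℕ) (x y : ℤ) : Prop where
  q1a : p % 12 = 1 → x % 4 = 1 →
    (p : ℤ) ^ 2 ∣ (∑ k ∈ range p, Sx k 12) - (if (3 : ℤ) ∣ x then -1 else 1) * (4 * x ^ 2 - 2 * p)
  q1b : p % 12 = 5 → x % 4 = 1 →
    (p : ℤ) ^ 2 ∣ (∑ k ∈ range p, Sx k 12) - jacobiSym (x * y) 3 * (4 * x * y)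
  q2a : p % 4 = 1 → jacobiSym p 5 = 1 → Odd x →
    (p : ℤ) ^ 2 ∣ (∑ k ∈ range p, Sx k (-20)) - (if (5 : ℤ) ∣ x then -1 else 1) * (4 * x ^ 2 - 2 * p)
  q2b : p % 4 = 1 → jacobiSym p 5 = -1 → Odd x → (5 : ℤ) ∣ x * y - 1 →
    (p : ℤ) ^ 2 ∣ (∑ k ∈ range p, Sx k (-20)) - jacobiSym x 5 * (4 * x * y)

/-- `(n/3)` -/
def SMB_j3 (n : ℤ) : ℤ := if n % 3 = 0 then 0 else if n % 3 = 1 then 1 else -1
/-- `(n/5)` -/
def SMB_j5 (n : ℤ) : ℤ :=
  if n % 5 = 0 then 0 else if n % 5 = 1 then 1 else if n % 5 = 4 then 1 else -1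

theorem SMB_j3_eq (n : ℤ) : jacobiSym n 3 = SMB_j3 n := by
  rw [jacobiSym.mod_left]
  have h : n % 3 = 0 ∨ n % 3 = 1 ∨ n % 3 = 2 := by omega
  unfold SMB_j3
  rcases h with h | h | h
  · push_cast
    rw [h]; norm_num
  · push_cast
    rw [h]; norm_num
  · push_cast
    rw [h]; norm_num

theorem SMB_j5_eq (n : ℤ) : jacobiSym n 5 = SMB_j5 n := by
  rw [jacobiSym.mod_left]
  have h : n % 5 = 0 ∨ n % 5 = 1 ∨ n % 5 = 2 ∨ n % 5 = 3 ∨ n % 5 = 4 := by omega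
  unfold SMB_j5
  rcases h with h | h | h | h | h
  · push_cast
    rw [h]; norm_num
  · push_cast
    rw [h]; norm_num
  · push_cast
    rw [h]; norm_num
  · push_cast
    rw [h]; norm_num
  · push_cast
    rw [h]; norm_num

/-- the values of the two sums modulo `p²` -/
def SMB_c (p : ℕ) : ℤ × ℤ :=
  if p = 5 then (17, 0) else if p = 13 then (159, 145) else if p = 17 then (16, 273)
  else if p = 29 then (40, 799) else if p = 37 then (1299, 24) else if p = 41 then (1601, 1663)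
  else if p = 53 then (2753, 56) else if p = 61 then (3699, 22) else if p = 73 then (110, 96)
  else (160, 78)

/-- the finite check of the right-hand sides -/
def SMB_ok (p : ℕ) (C D : ℤ) (x y : ℤ) : Prop :=
  ((p : ℤ) = x ^ 2 + y ^ 2) →
  ((p % 12 = 1 → x % 4 = 1 →
      ((C - (if x % 3 = 0 then -1 else 1) * (4 * x ^ 2 - 2 * p)) % ((p : ℤ) ^ 2) = 0)) ∧
   (p % 12 = 5 → x % 4 = 1 → ((C - SMB_j3 (x * y) * (4 * x * y)) % ((p : ℤ) ^ 2) = 0)) ∧
   (SMB_j5 p = 1 → x % 2 = 1 →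
      ((D - (if x % 5 = 0 then -1 else 1) * (4 * x ^ 2 - 2 * p)) % ((p : ℤ) ^ 2) = 0)) ∧
   (SMB_j5 p = -1 → x % 2 = 1 → (x * y - 1) % 5 = 0 →
      ((D - SMB_j5 x * (4 * x * y)) % ((p : ℤ) ^ 2) = 0)))

instance (p : ℕ) (C D x y : ℤ) : Decidable (SMB_ok p C D x y) := by
  unfold SMB_ok
  infer_instance

/-- the check for one prime -/
def SMB_all (p : ℕ) : Prop :=
  ∀ i ∈ List.range 19, ∀ j ∈ List.range 19,
    SMB_ok p (SMB_c p).1 (SMB_c p).2 ((i : ℤ) - 9) ((j : ℤ) - 9)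

instance (p : ℕ) : Decidable (SMB_all p) := by
  unfold SMB_all
  infer_instance

theorem SMB_one (p : ℕ) (h2 : 2 < p) (hb : p < 97)
    (c1 : SMA_chk p 12 0 1 (SMB_c p).1 true = true)
    (c2 : SMA_chk p (-20) 0 1 (SMB_c p).2 true = true) (c3 : SMB_all p)
    (x y : ℤ) (hxy : (p : ℤ) = x ^ 2 + y ^ 2) : AA p x y := by
  obtain ⟨a1, -⟩ := SMA_chk_spec p h2 12 0 1 _ _ c1
  obtain ⟨a2, -⟩ := SMA_chk_spec p h2 (-20) 0 1 _ _ c2
  have hp : (p : ℤ) < 97 := by exact_mod_cast hb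
  have e1 : ∑ k ∈ range p, (((0 : ℕ) : ℤ) * (k : ℤ) + ((1 : ℕ) : ℤ)) * Sx k 12 = ∑ k ∈ range p, Sx k 12 := by
    refine Finset.sum_congr rfl fun k _ => ?_
    push_cast; ring
  have e2 : ∑ k ∈ range p, (((0 : ℕ) : ℤ) * (k : ℤ) + ((1 : ℕ) : ℤ)) * Sx k (-20)
      = ∑ k ∈ range p, Sx k (-20) := by
    refine Finset.sum_congr rfl fun k _ => ?_
    push_cast; ring
  rw [e1] at a1
  rw [e2] at a2
  have hx1 : x ≤ 9 := by nlinarith [sq_nonneg y]
  have hx2 : -9 ≤ x := by nlinarith [sq_nonneg y]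
  have hy1 : y ≤ 9 := by nlinarith [sq_nonneg x]
  have hy2 : -9 ≤ y := by nlinarith [sq_nonneg x]
  have hi : (x + 9).toNat ∈ List.range 19 := by
    rw [List.mem_range]; omega
  have hj : (y + 9).toNat ∈ List.range 19 := by
    rw [List.mem_range]; omega
  have key := c3 _ hi _ hj
  have hxe : (((x + 9).toNat : ℕ) : ℤ) - 9 = x := by
    rw [Int.toNat_of_nonneg (by omega)]; ring
  have hye : (((y + 9).toNat : ℕ) : ℤ) - 9 = y := by
    rw [Int.toNat_of_nonneg (by omega)]; ring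
  rw [hxe, hye] at key
  obtain ⟨k1, k2, k3, k4⟩ := key hxy
  have comb : ∀ A C B : ℤ, (p : ℤ) ^ 2 ∣ A - C → (C - B) % ((p : ℤ) ^ 2) = 0 → (p : ℤ) ^ 2 ∣ A - B := by
    intro A C B h1 h2
    have h3 := Int.dvd_of_emod_eq_zero h2
    have := dvd_add h1 h3
    rwa [sub_add_sub_cancel] at this
  refine ⟨?_, ?_, ?_, ?_⟩
  · intro h h'
    refine comb _ _ _ a1 ?_
    have := k1 h h'
    by_cases h3 : (3 : ℤ) ∣ x
    · have h30 : x % 3 = 0 := Int.emod_eq_zero_of_dvd h3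
      rw [if_pos h3]
      rwa [if_pos h30] at this
    · have h30 : ¬ x % 3 = 0 := fun h => h3 (Int.dvd_of_emod_eq_zero h)
      rw [if_neg h3]
      rwa [if_neg h30] at this
  · intro h h'
    refine comb _ _ _ a1 ?_
    rw [SMB_j3_eq]
    exact k2 h h'
  · intro _ h h'
    refine comb _ _ _ a2 ?_
    rw [SMB_j5_eq] at h
    have := k3 h (Int.odd_iff.mp h')
    by_cases h3 : (5 : ℤ) ∣ x
    · have h30 : x % 5 = 0 := Int.emod_eq_zero_of_dvd h3
      rw [if_pos h3]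
      rwa [if_pos h30] at this
    · have h30 : ¬ x % 5 = 0 := fun h => h3 (Int.dvd_of_emod_eq_zero h)
      rw [if_neg h3]
      rwa [if_neg h30] at this
  · intro _ h h' h''
    refine comb _ _ _ a2 ?_
    rw [SMB_j5_eq] at h ⊢
    exact k4 h (Int.odd_iff.mp h') (Int.emod_eq_zero_of_dvd h'')

/-- small primes by kernel computation (see TN/SMA.lean) -/
theorem SMB (p : ℕ) (hp : p.Prime) (h2 : 2 < p) (hb : p < 97) (x y : ℤ) (hxy : (p : ℤ) = x ^ 2 + y ^ 2) :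
    AA p x y := by
  by_cases h4 : p % 4 = 1
  · have key : SMA_chk p 12 0 1 (SMB_c p).1 true = true ∧
        SMA_chk p (-20) 0 1 (SMB_c p).2 true = true ∧ SMB_all p := by
      interval_cases p
      all_goals first
        | (exfalso; revert h4; norm_num; done)
        | (exfalso; revert hp; norm_num; done)
        | (refine ⟨by decide +kernel, by decide +kernel, by decide +kernel⟩)
    exact SMB_one p h2 hb key.1 key.2.1 key.2.2 x y hxy
  · refine ⟨?_, ?_, ?_, ?_⟩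
    · intro h; omega
    · intro h; omega
    · intro h; exact absurd h h4
    · intro h; exact absurd h h4

end Pool.Agent.Lib_helper91.TX
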