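import Pool.Agent.Lib_helper91.TX.S1B
import Pool.Agent.Lib_helper91.TX.S1C
import Pool.Agent.Lib_helper91.TX.S2B
import Pool.Agent.Lib_helper91.TX.S2C
import Pool.Agent.Lib_helper91.TX.S2V
import Pool.Agent.Lib_helper91.TX.JAC
import Pool.Agent.Lib_helper91.TX.CHI
import Pool.Agent.Lib_helper91.TX.QR
import Pool.Agent.Lib_helper91.TX.SMB
import Pool.Agent.Lib_helper91.TN.BaseFin

/-! Assembly of part (a), `p ≡ 1 (mod 4)`. -/

namespace Pool.Agent.Lib_helper91.TX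

open Finset Pool.Agent.Lib_helper91.TN

variable (p : ℕ) [Fact p.Prime]

/-! ### `ZMod (p²)` -/

/-- an element killed by reduction mod `p` has square zero -/
theorem ASM_nil (e : ZMod (p ^ 2)) (h : BIG_pi p e = 0) : (p : ZMod (p ^ 2)) * e = 0 ∧ e ^ 2 = 0 := by
  have h1 : (p : ZMod (p ^ 2)) * e = 0 := (BIG_pi_iff p e).2 h
  refine ⟨h1, ?_⟩
  have : NeZero (p ^ 2) := ⟨pow_ne_zero 2 (Fact.out : p.Prime).ne_zero⟩
  obtain ⟨n, rfl⟩ : ∃ n : ℕ, (n : ZMod (p ^ 2)) = e := ⟨e.val, ZMod.natCast_zmod_val e⟩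
  rw [map_natCast, ZMod.natCast_eq_zero_iff] at h
  obtain ⟨k, rfl⟩ := h
  have hpp := BF_pp p
  push_cast
  linear_combination (k : ZMod (p ^ 2)) ^ 2 * hpp

/-- an element with non-zero reduction is a unit -/
theorem ASM_unit (c : ZMod (p ^ 2)) (h : BIG_pi p c ≠ 0) : IsUnit c := by
  have : NeZero (p ^ 2) := ⟨pow_ne_zero 2 (Fact.out : p.Prime).ne_zero⟩
  obtain ⟨n, rfl⟩ : ∃ n : ℕ, (n : ZMod (p ^ 2)) = c := ⟨c.val, ZMod.natCast_zmod_val c⟩
  rw [map_natCast, Ne, ZMod.natCast_eq_zero_iff] at h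
  rw [ZMod.isUnit_iff_coprime]
  exact ((Nat.Prime.coprime_iff_not_dvd (Fact.out : p.Prime)).2 h).symm.pow_right 2

theorem ASM_surj (c : ZMod p) : ∃ e : ZMod (p ^ 2), BIG_pi p e = c := by
  refine ⟨((c.val : ℕ) : ZMod (p ^ 2)), ?_⟩
  rw [map_natCast, ZMod.natCast_zmod_val]

/-- `2` is a unit -/
theorem ASM_two (h2 : 2 < p) (c : ℕ) (hc : c ∣ 2 ^ 10) : IsUnit ((c : ℕ) : ZMod (p ^ 2)) := by
  apply ASM_unit
  rw [map_natCast, Ne, ZMod.natCast_eq_zero_iff]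
  intro h
  have h1 := h.trans hc
  have h3 := (Fact.out : p.Prime).dvd_of_dvd_pow h1
  exact absurd (Nat.le_of_dvd (by norm_num) h3) (by omega)

/-- lifting a square root of `-1` -/
theorem ASM_lift (h2 : 2 < p) (r : ZMod p) (hr : r * r = -1) :
    ∃ s : ZMod (p ^ 2), s * s = -1 ∧ BIG_pi p s = r := by
  obtain ⟨t, ht⟩ := ASM_surj p r
  obtain ⟨u, hu⟩ := ASM_two p h2 2 (by norm_num)
  have hu2 : ((u⁻¹ : (ZMod (p ^ 2))ˣ) : ZMod (p ^ 2)) * 2 = 1 := by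
    have := u.inv_mul
    rw [hu] at this
    exact_mod_cast this
  set h : ZMod (p ^ 2) := ((u⁻¹ : (ZMod (p ^ 2))ˣ) : ZMod (p ^ 2)) with hh
  have he : BIG_pi p (t * t + 1) = 0 := by
    rw [map_add, map_mul, map_one, ht, hr]; ring
  obtain ⟨-, hn⟩ := ASM_nil p _ he
  refine ⟨t + (t * t + 1) * (t * h), ?_, ?_⟩
  · linear_combination (t ^ 2 * h ^ 2 + 1) * hn + (t ^ 2 * (t * t + 1)) * hu2
  · rw [map_add, map_mul, he, zero_mul, add_zero, ht]

/-- Teichmüller: `w^K (5 - w^{4K}) = 4ε` -/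
theorem ASM_tei (w e : ZMod (p ^ 2)) (K : ℕ) (he : e ^ 4 = 1) (h : BIG_pi p (w ^ K) = BIG_pi p e) :
    w ^ K * (5 - w ^ (4 * K)) = 4 * e := by
  obtain ⟨-, hn⟩ := ASM_nil p (w ^ K - e) (by rw [map_sub, h, sub_self])
  have h4 : w ^ (4 * K) = (w ^ K) ^ 4 := by rw [mul_comm, pow_mul]
  rw [h4]
  set d := w ^ K - e with hd
  have hw : w ^ K = e + d := by rw [hd]; ring
  rw [hw]
  have hn3 : d ^ 3 = 0 := by rw [show d ^ 3 = d ^ 2 * d by ring, hn, zero_mul]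
  have hn4 : d ^ 4 = 0 := by rw [show d ^ 4 = d ^ 2 * d ^ 2 by ring, hn, zero_mul]
  have hn5 : d ^ 5 = 0 := by rw [show d ^ 5 = d ^ 2 * d ^ 3 by ring, hn, zero_mul]
  linear_combination (-e - 5 * d) * he - 10 * e ^ 3 * hn - 10 * e ^ 2 * hn3 - 5 * e * hn4 - hn5

/-- the quadratic character -/
theorem ASM_leg (c f T : ZMod (p ^ 2)) (χ : ℤ) (hχ : χ = 1 ∨ χ = -1) (h2 : 2 < p)
    (hc : BIG_pi p (c ^ ((p - 1) / 2)) = ((χ : ℤ) : ZMod p))
    (h : (c ^ (p - 1) + 1) * f = 2 * c ^ ((p - 1) / 2) * T) : f = (χ : ZMod (p ^ 2)) * T := by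
  have hχ2 : ((χ : ℤ) : ZMod (p ^ 2)) ^ 2 = 1 := by rcases hχ with h | h <;> rw [h] <;> norm_num
  obtain ⟨-, hn⟩ := ASM_nil p (c ^ ((p - 1) / 2) - (χ : ZMod (p ^ 2))) (by
    rw [map_sub, hc, map_intCast, sub_self])
  have e : p - 1 = (p - 1) / 2 * 2 := by
    rcases (Fact.out : p.Prime).eq_two_or_odd with h | h <;> omega
  have h4 : c ^ (p - 1) = (c ^ ((p - 1) / 2)) ^ 2 := by
    rw [← pow_mul, ← e]
  rw [h4] at h
  have hun : BIG_pi p (2 * c ^ ((p - 1) / 2)) ≠ 0 := by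
    rw [map_mul, hc, map_ofNat]
    have h2' : (2 : ZMod p) ≠ 0 := by
      have : ((2 : ℕ) : ZMod p) ≠ 0 := by
        rw [Ne, ZMod.natCast_eq_zero_iff]
        intro h
        exact absurd (Nat.le_of_dvd (by norm_num) h) (by omega)
      exact_mod_cast this
    refine mul_ne_zero h2' ?_
    rcases hχ with h | h <;> rw [h] <;> norm_num
  set d := c ^ ((p - 1) / 2) - (χ : ZMod (p ^ 2)) with hd
  have hw : c ^ ((p - 1) / 2) = (χ : ZMod (p ^ 2)) + d := by rw [hd]; ring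
  apply (ASM_unit p _ hun).mul_left_cancel
  rw [hw] at h ⊢
  linear_combination (χ : ZMod (p ^ 2)) * h
    - (((χ : ZMod (p ^ 2)) * f + 2 * d * f)) * hχ2 - (χ : ZMod (p ^ 2)) * f * hn

/-! ### Step 2 -/

theorem ASM_one (w : ZMod (p ^ 2)) (hw : BIG_pi p w ≠ 0) : BIG_pi p (w ^ (p - 1) - 1) = 0 := by
  rw [map_sub, map_pow, map_one, ZMod.pow_card_sub_one_eq_one hw, sub_self]

theorem ASM_T2 (K : ℕ) (hK : p = 4 * K + 1) (hp : 97 ≤ p) (x y : ℤ) (hxy : (p : ℤ) = x ^ 2 + y ^ 2) (hx : Odd x)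
    (d : D2) (hd : d.Valid) (hq2 : d.q ≤ 2) (hn : ¬ (p : ℤ) ∣ d.n0) (hq : ¬ (p : ℤ) ∣ d.q0)
    (v w e : ZMod (p ^ 2)) (hv : v * ((d.q0 : ZMod (p ^ 2)) * 24 ^ 4) = (d.n0 : ZMod (p ^ 2)) ^ d.l)
    (hw : w * (d.q0 : ZMod (p ^ 2)) = (d.n0 : ZMod (p ^ 2))) (he : e ^ 4 = 1)
    (hwe : BIG_pi p (w ^ K) = BIG_pi p e) :
    sm p 0 cc v = e * ((4 * x ^ 2 - 2 * (p : ℤ) : ℤ) : ZMod (p ^ 2)) := by
  have h1 := S2C p d hd K hK (by omega) hn hq (S2B p d hd hq2 (by omega)) v w hv hw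
  have h2 := JAC p K hK
  rw [CHI p K hK x y hxy hx] at h2
  have h3 := ASM_tei p w e K he hwe
  rw [show 4 * K = p - 1 by omega] at h3
  have hw0 : BIG_pi p w ≠ 0 := by
    intro h
    have h4 := congrArg (BIG_pi p) hw
    rw [map_mul, h, zero_mul, map_intCast] at h4
    exact hn ((ZMod.intCast_zmod_eq_zero_iff_dvd _ _).1 h4.symm)
  obtain ⟨h5, h6⟩ := ASM_nil p _ (ASM_one p w hw0)
  have hu := ASM_two p (by omega) 16 (by norm_num)
  apply hu.mul_left_cancel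
  generalize ((4 * x ^ 2 - 2 * (p : ℤ) : ℤ) : ZMod (p ^ 2)) = Z at h2 ⊢
  generalize (cc K : ZMod (p ^ 2)) = c at *
  generalize (gl2 p K : ZMod (p ^ 2)) = g at *
  push_cast
  linear_combination 4 * h1 + (w ^ K * (w ^ (p - 1) - 1) - 4 * w ^ K) * h2 - w ^ K * g * h5 + 4 * Z * h3

/-! ### Step 1 -/

theorem ASM_S (hp : 97 ≤ p) (h4 : p % 4 = 1) {x0 n0 m a : ℤ} (hpt : M13.Point x0 n0 m a 1 1)
    (hg : M13.GoodPt x0 n0 m 1 p) (c0 : ℤ) (hc0 : ¬ (p : ℤ) ∣ c0) (hD : M13.evI x0 n0 M13.D = -(c0 ^ 2))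
    (v : ZMod (p ^ 2)) (hv : v * ((m : ℤ) : ZMod (p ^ 2)) = 1) :
    ((∑ k ∈ range p, Sx k m : ℤ) : ZMod (p ^ 2)) = sm p 0 bb v ∧
      (v ^ (p - 1) - 1) * sm p 0 bb v + (p : ZMod (p ^ 2)) * sm p 0 (gl p) v = 0 := by
  have hpp : p.Prime := Fact.out
  obtain ⟨χ, hχ, hχD, -, -, -, k4⟩ := M13.big p valid13 (good13 p hpp hp) (big13 p hpp hp) hpt hg v hv
  have hχ1 : χ = 1 := by
    rcases hχ with h | h
    · exact h
    · exfalso
      have hev : Even ((p - 1) / 2) := by rw [Nat.even_iff]; omega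
      rw [h, hD, Int.cast_neg, hev.neg_pow, Int.cast_pow, ← pow_mul, BF_sq p (by omega) c0 hc0] at hχD
      push_cast at hχD
      have h5 : (2 : ZMod p) = 0 := by linear_combination hχD
      have h6 : ((2 : ℕ) : ZMod p) = 0 := by exact_mod_cast h5
      rw [ZMod.natCast_eq_zero_iff] at h6
      exact absurd (Nat.le_of_dvd (by norm_num) h6) (by omega)
  have k5 := k4 hχ1
  have r1 := RED1 p m v hv
  have hm0 : BIG_pi p ((m : ℤ) : ZMod (p ^ 2)) ≠ 0 := by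
    rw [map_intCast, Ne, ZMod.intCast_zmod_eq_zero_iff_dvd]
    exact hg.hm
  obtain ⟨-, h6⟩ := ASM_nil p _ (ASM_one p _ hm0)
  have h7 : v ^ (p - 1) * ((m : ℤ) : ZMod (p ^ 2)) ^ (p - 1) = 1 := by
    rw [← mul_pow, hv, one_pow]
  constructor
  · rw [r1, k5]
    linear_combination (-(sm p 0 bb v)) * h6
  · rw [k5]
    linear_combination (sm p 0 bb v) * (-(((m : ℤ) : ZMod (p ^ 2)) ^ (p - 1)) + 2) * h7
      + (sm p 0 bb v) * (v ^ (p - 1)) * h6

theorem ASM_nd (hp : 97 ≤ p) (c : ZMod (p ^ 2)) (N : ℤ) (hN : N.natAbs ∣ 30 ^ 12) (d : ZMod (p ^ 2))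
    (h : c * d = ((N : ℤ) : ZMod (p ^ 2))) : BIG_pi p c ≠ 0 := by
  intro h0
  have h1 := congrArg (BIG_pi p) h
  rw [map_mul, h0, zero_mul, map_intCast] at h1
  exact BF_nd p Fact.out hp N hN ((ZMod.intCast_zmod_eq_zero_iff_dvd _ _).1 h1.symm)

theorem ASM_ndz (hp : 97 ≤ p) (c : ℤ) (N : ℤ) (hN : N.natAbs ∣ 30 ^ 12) (d : ZMod (p ^ 2))
    (h : ((c : ℤ) : ZMod (p ^ 2)) * d = ((N : ℤ) : ZMod (p ^ 2))) : ¬ (p : ℤ) ∣ c := by
  have h1 := ASM_nd p hp _ N hN d h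
  rw [map_intCast] at h1
  intro h2
  exact h1 ((ZMod.intCast_zmod_eq_zero_iff_dvd _ _).2 h2)

/-- `f0(1/12) = (3/p) T2(-1/12288)` -/
theorem ASM_12 (hp : 97 ≤ p) (s : ZMod (p ^ 2)) (hs : s * s = -1)
    (v v2 : ZMod (p ^ 2)) (hv : v * 12 = 1) (hv2 : v2 * (-12288) = 1)
    (hrel : (v ^ (p - 1) - 1) * sm p 0 bb v + (p : ZMod (p ^ 2)) * sm p 0 (gl p) v = 0) :
    sm p 0 bb v = ((jacobiSym 3 p : ℤ) : ZMod (p ^ 2)) * sm p 0 cc v2 := by
  have : NeZero (p ^ 2) := ⟨pow_ne_zero 2 (Fact.out : p.Prime).ne_zero⟩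
  have hsv : (((s.val : ℕ) : ℤ) : ZMod (p ^ 2)) = s := by
    push_cast
    exact ZMod.natCast_zmod_val s
  set u0 : ℤ := 3 + 4 * ((s.val : ℕ) : ℤ) with hu0
  have hu : ((u0 : ℤ) : ZMod (p ^ 2)) = 3 + 4 * s := by
    rw [hu0]; push_cast; rw [ZMod.natCast_zmod_val s]
  have hcE : ((u0 ^ 2 + 6 * u0 + 25 : ℤ) : ZMod (p ^ 2)) = 36 + 48 * s := by
    push_cast; rw [hu]; linear_combination 16 * hs
  have hc : ¬ (p : ℤ) ∣ u0 ^ 2 + 6 * u0 + 25 := by
    apply ASM_ndz p hp _ 3600 (by decide) (36 - 48 * s)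
    rw [hcE]; push_cast; linear_combination (-2304) * hs
  have hb : ¬ (p : ℤ) ∣ u0 + 25 := by
    apply ASM_ndz p hp _ 800 (by decide) (28 - 4 * s)
    push_cast; rw [hu]; linear_combination (-16) * hs
  have hA : ¬ (p : ℤ) ∣ u0 ^ 2 - 25 := by
    apply ASM_ndz p hp _ 1600 (by decide) (-32 - 24 * s)
    push_cast; rw [hu]; linear_combination (-1088 - 384 * s) * hs
  have h1 := S1C p (by omega) u0 hc hb hA (S1B p (by omega) u0)
    (36 + 48 * s) v v2 hcE.symm (by rw [hu]; linear_combination (3 + 4 * s) * hv)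
    (by
      push_cast
      rw [hu]
      have e : (36 + 48 * s) * (3 + 4 * s + 25) ^ 4 = -12288 * (3 + 4 * s) ^ 5 := by
        have h2 : s ^ 2 = -1 := by linear_combination hs
        have h3 : s ^ 3 = -s := by linear_combination s * h2
        have h4 : s ^ 4 = 1 := by linear_combination (s ^ 2 - 1) * h2
        have h5 : s ^ 5 = s := by linear_combination s * h4
        ring_nf
        rw [h2, h3, h4, h5]
        ring
      rw [e]
      linear_combination (3 + 4 * s) ^ 5 * hv2) hrel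
  refine ASM_leg p (36 + 48 * s) _ _ (jacobiSym 3 p) ?_ (by omega) ?_ h1
  · have h3 : ¬ (p : ℤ) ∣ 3 := BF_nd p Fact.out hp 3 (by decide)
    rcases jacobiSym.trichotomy 3 p with h | h | h
    · exfalso
      have h4 := BF_leg p (by omega) 3
      rw [h] at h4
      push_cast at h4
      have h5 : ((3 : ℤ) : ZMod p) = 0 := by
        have := pow_eq_zero_iff (M₀ := ZMod p) (a := 3) (n := (p - 1) / 2) (by omega)
        exact_mod_cast this.1 h4
      exact h3 ((ZMod.intCast_zmod_eq_zero_iff_dvd _ _).1 h5)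
    · exact Or.inl h
    · exact Or.inr h
  · have e : (36 + 48 * s : ZMod (p ^ 2)) = 3 * (4 + 2 * s) ^ 2 := by linear_combination (-12) * hs
    have hne : BIG_pi p (4 + 2 * s) ≠ 0 :=
      ASM_nd p hp _ 20 (by decide) (4 - 2 * s) (by push_cast; linear_combination (-4) * hs)
    have e2 : 2 * ((p - 1) / 2) = p - 1 := by
      rcases (Fact.out : p.Prime).eq_two_or_odd with h | h <;> omega
    rw [e, mul_pow, map_mul, ← pow_mul, e2, map_pow, map_pow, ZMod.pow_card_sub_one_eq_one hne, mul_one]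
    have h4 := BF_leg p (by omega) 3
    push_cast at h4
    rw [map_ofNat, h4]

/-- `f0(-1/20) = (5/p) T2(-1/6635520)` -/
theorem ASM_20 (hp : 97 ≤ p)
    (v v2 : ZMod (p ^ 2)) (hv : v * (-20) = 1) (hv2 : v2 * (-6635520) = 1)
    (hrel : (v ^ (p - 1) - 1) * sm p 0 bb v + (p : ZMod (p ^ 2)) * sm p 0 (gl p) v = 0) :
    sm p 0 bb v = ((jacobiSym 5 p : ℤ) : ZMod (p ^ 2)) * sm p 0 cc v2 := by
  have hc : ¬ (p : ℤ) ∣ (-1) ^ 2 + 6 * (-1) + 25 := BF_nd p Fact.out hp _ (by decide)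
  have hb : ¬ (p : ℤ) ∣ -1 + 25 := BF_nd p Fact.out hp _ (by decide)
  have hA : ¬ (p : ℤ) ∣ (-1) ^ 2 - 25 := BF_nd p Fact.out hp _ (by decide)
  have h1 := S1C p (by omega) (-1) hc hb hA (S1B p (by omega) (-1))
    20 v v2 (by push_cast; norm_num) (by push_cast; linear_combination (-1 : ZMod (p ^ 2)) * hv)
    (by push_cast; linear_combination (-1 : ZMod (p ^ 2)) * hv2) hrel
  refine ASM_leg p 20 _ _ (jacobiSym 5 p) ?_ (by omega) ?_ h1
  · have h3 : ¬ (p : ℤ) ∣ 5 := BF_nd p Fact.out hp 5 (by decide)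
    rcases jacobiSym.trichotomy 5 p with h | h | h
    · exfalso
      have h4 := BF_leg p (by omega) 5
      rw [h] at h4
      push_cast at h4
      have h5 : ((5 : ℤ) : ZMod p) = 0 := by
        have := pow_eq_zero_iff (M₀ := ZMod p) (a := 5) (n := (p - 1) / 2) (by omega)
        exact_mod_cast this.1 h4
      exact h3 ((ZMod.intCast_zmod_eq_zero_iff_dvd _ _).1 h5)
    · exact Or.inl h
    · exact Or.inr h
  · have e : (20 : ZMod (p ^ 2)) = 5 * 2 ^ 2 := by norm_num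
    have hne : BIG_pi p 2 ≠ 0 :=
      ASM_nd p hp _ 2 (by decide) 1 (by push_cast; ring)
    have e2 : 2 * ((p - 1) / 2) = p - 1 := by
      rcases (Fact.out : p.Prime).eq_two_or_odd with h | h <;> omega
    rw [e, mul_pow, map_mul, ← pow_mul, e2, map_pow, map_pow, ZMod.pow_card_sub_one_eq_one hne, mul_one]
    have h4 := BF_leg p (by omega) 5
    push_cast at h4
    rw [map_ofNat, h4]

/-! ### `p = x² + y²` -/

theorem ASM_y (x y : ℤ) (hxy : (p : ℤ) = x ^ 2 + y ^ 2) : ((y : ℤ) : ZMod p) ≠ 0 := by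
  intro h
  have hpp : Prime (p : ℤ) := Nat.prime_iff_prime_int.1 Fact.out
  have hy : (p : ℤ) ∣ y := (ZMod.intCast_zmod_eq_zero_iff_dvd _ _).1 h
  have hx2 : (p : ℤ) ∣ x ^ 2 := by
    have h1 : x ^ 2 = (p : ℤ) - y * y := by rw [hxy]; ring
    rw [h1]
    exact dvd_sub (dvd_refl _) (Dvd.dvd.mul_right hy _)
  have hx : (p : ℤ) ∣ x := hpp.dvd_of_dvd_pow hx2
  obtain ⟨a, ha⟩ := hx
  obtain ⟨b, hb⟩ := hy
  have h2 : (p : ℤ) * 1 = (p : ℤ) * ((p : ℤ) * (a ^ 2 + b ^ 2)) := by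
    rw [mul_one]
    nth_rewrite 1 [hxy]
    rw [ha, hb]; ring
  have h3 := mul_left_cancel₀ hpp.ne_zero h2
  exact hpp.not_isUnit (isUnit_of_dvd_one ⟨_, h3⟩)

theorem ASM_r (h2 : 2 < p) (x y : ℤ) (hxy : (p : ℤ) = x ^ 2 + y ^ 2) :
    ∃ s : ZMod (p ^ 2), s * s = -1 ∧ (x : ZMod p) + BIG_pi p s * (y : ZMod p) = 0 := by
  have hy := ASM_y p x y hxy
  have h0 : (x : ZMod p) ^ 2 + (y : ZMod p) ^ 2 = 0 := by
    have h := congrArg (Int.cast : ℤ → ZMod p) hxy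
    push_cast at h
    rw [← h, ZMod.natCast_self]
  obtain ⟨s, hs, hs1⟩ := ASM_lift p h2 (-(x : ZMod p) * (y : ZMod p)⁻¹) (by
    have hyi : (y : ZMod p)⁻¹ * y = 1 := inv_mul_cancel₀ hy
    linear_combination (y : ZMod p)⁻¹ ^ 2 * h0 - ((y : ZMod p)⁻¹ * y + 1) * hyi)
  refine ⟨s, hs, ?_⟩
  rw [hs1, mul_assoc, inv_mul_cancel₀ hy]
  ring

theorem ASM_xy (x y : ℤ) (hxy : (p : ℤ) = x ^ 2 + y ^ 2) (s : ZMod (p ^ 2)) (hs : s * s = -1)
    (h : (x : ZMod p) + BIG_pi p s * (y : ZMod p) = 0) :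
    s * ((4 * x ^ 2 - 2 * (p : ℤ) : ℤ) : ZMod (p ^ 2)) = ((4 * x * y : ℤ) : ZMod (p ^ 2)) := by
  obtain ⟨-, h1⟩ := ASM_nil p ((x : ZMod (p ^ 2)) + s * (y : ZMod (p ^ 2))) (by
    rw [map_add, map_mul, map_intCast, map_intCast, h])
  rw [hxy]
  push_cast
  linear_combination 2 * s * h1 + (-2 * s * (y : ZMod (p ^ 2)) ^ 2 - 4 * x * y) * hs

omit [Fact p.Prime] in
theorem ASM_js3 (h4 : p % 4 = 1) : jacobiSym 3 p = jacobiSym p 3 := by
  have h := jacobiSym.quadratic_reciprocity_one_mod_four (a := p) (b := 3) h4 (by decide)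
  exact_mod_cast h.symm

theorem ASM_js5 (h2 : 2 < p) : jacobiSym 5 p = jacobiSym p 5 := by
  have hodd : Odd p := (Fact.out : p.Prime).odd_of_ne_two (by omega)
  have h := jacobiSym.quadratic_reciprocity_one_mod_four (a := 5) (b := p) (by norm_num) hodd
  exact_mod_cast h

theorem ASM_AA (hp : 97 ≤ p) (x y : ℤ) (hxy : (p : ℤ) = x ^ 2 + y ^ 2) : AA p x y := by
  have hpp : p.Prime := Fact.out
  obtain ⟨s, hs, hsx⟩ := ASM_r p (by omega) x y hxy
  have hy := ASM_y p x y hxy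
  have hZ := ASM_xy p x y hxy s hs hsx
  have hsx' : BIG_pi p s * (y : ZMod p) = -(x : ZMod p) := by linear_combination hsx
  have key12 : p % 4 = 1 → Odd x → ∀ e : ZMod (p ^ 2), e ^ 4 = 1 →
      (-3 : ZMod p) ^ ((p - 1) / 4) = BIG_pi p e →
      ((∑ k ∈ range p, Sx k 12 : ℤ) : ZMod (p ^ 2))
        = ((jacobiSym 3 p : ℤ) : ZMod (p ^ 2)) * (e * ((4 * x ^ 2 - 2 * (p : ℤ) : ℤ) : ZMod (p ^ 2))) := by
    intro h4 hx e he hwe
    obtain ⟨v, hv⟩ := BF_inv p 12 (BF_nd p hpp hp 12 (by decide))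
    obtain ⟨v2, hv2⟩ := BF_inv p (-12288) (by
      intro h
      have h1 := hpp.dvd_of_dvd_pow (n := 12) (m := 30) ?_
      · have h3 := hpp.dvd_mul (m := 5) (n := 6)
        have := Nat.le_of_dvd (by norm_num) h1
        omega
      · have h1 : (p : ℤ).natAbs ∣ (-12288 : ℤ).natAbs := Int.natAbs_dvd_natAbs.2 h
        have h3 : p ∣ 12288 := by simpa using h1
        exact h3.trans (by decide))
    obtain ⟨k1, k2⟩ := ASM_S p hp h4 P13a (G13a p hpp hp) 6 (BF_nd p hpp hp 6 (by decide)) D13a v hv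
    push_cast at hv hv2
    rw [k1, ASM_12 p hp s hs v v2 hv hv2 k2]
    congr 1
    refine ASM_T2 p ((p - 1) / 4) (by omega) hp x y hxy hx d3 d3_valid (by decide)
      (BF_nd p hpp hp (-3) (by decide)) (BF_nd p hpp hp 1 (by decide)) v2 (-3) e ?_ ?_ he ?_
    · show v2 * (((1 : ℤ) : ZMod (p ^ 2)) * 24 ^ 4) = ((-3 : ℤ) : ZMod (p ^ 2)) ^ 3
      push_cast
      linear_combination (-27 : ZMod (p ^ 2)) * hv2
    · show (-3 : ZMod (p ^ 2)) * ((1 : ℤ) : ZMod (p ^ 2)) = ((-3 : ℤ) : ZMod (p ^ 2))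
      push_cast
      ring
    · rw [map_pow, map_neg, map_ofNat, hwe]
  have key20 : p % 4 = 1 → Odd x → ∀ e : ZMod (p ^ 2), e ^ 4 = 1 →
      (-20 : ZMod p) ^ ((p - 1) / 4) * BIG_pi p e = 1 →
      ((∑ k ∈ range p, Sx k (-20) : ℤ) : ZMod (p ^ 2))
        = ((jacobiSym 5 p : ℤ) : ZMod (p ^ 2)) * (e * ((4 * x ^ 2 - 2 * (p : ℤ) : ℤ) : ZMod (p ^ 2))) := by
    intro h4 hx e he hwe
    obtain ⟨v, hv⟩ := BF_inv p (-20) (BF_nd p hpp hp (-20) (by decide))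
    obtain ⟨v2, hv2⟩ := BF_inv p (-6635520) (by
      intro h
      have h1 := hpp.dvd_of_dvd_pow (n := 15) (m := 30) ?_
      · have := Nat.le_of_dvd (by norm_num) h1
        omega
      · have h1 : (p : ℤ).natAbs ∣ (-6635520 : ℤ).natAbs := Int.natAbs_dvd_natAbs.2 h
        have h3 : p ∣ 6635520 := by simpa using h1
        exact h3.trans (by decide))
    obtain ⟨k1, k2⟩ := ASM_S p hp h4 P13b (G13b p hpp hp) 10 (BF_nd p hpp hp 10 (by decide)) D13b v hv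
    push_cast at hv hv2
    rw [k1, ASM_20 p hp v v2 hv hv2 k2]
    congr 1
    obtain ⟨w, hw⟩ := BF_inv p (-20) (BF_nd p hpp hp (-20) (by decide))
    push_cast at hw
    refine ASM_T2 p ((p - 1) / 4) (by omega) hp x y hxy hx d5 d5_valid (by decide)
      (BF_nd p hpp hp (-1) (by decide)) (BF_nd p hpp hp 20 (by decide)) v2 w e ?_ ?_ he ?_
    · show v2 * (((20 : ℤ) : ZMod (p ^ 2)) * 24 ^ 4) = ((-1 : ℤ) : ZMod (p ^ 2)) ^ 5
      push_cast
      linear_combination (-1 : ZMod (p ^ 2)) * hv2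
    · show w * ((20 : ℤ) : ZMod (p ^ 2)) = ((-1 : ℤ) : ZMod (p ^ 2))
      push_cast
      linear_combination (-1 : ZMod (p ^ 2)) * hw
    · have h5 : BIG_pi p w ^ ((p - 1) / 4) * (-20 : ZMod p) ^ ((p - 1) / 4) = 1 := by
        have h6 := congrArg (BIG_pi p) hw
        rw [map_mul, map_neg, map_ofNat, map_one] at h6
        rw [← mul_pow, h6, one_pow]
      rw [map_pow]
      calc BIG_pi p w ^ ((p - 1) / 4)
          = BIG_pi p w ^ ((p - 1) / 4) * ((-20 : ZMod p) ^ ((p - 1) / 4) * BIG_pi p e) := by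
            rw [hwe, mul_one]
        _ = (BIG_pi p w ^ ((p - 1) / 4) * (-20 : ZMod p) ^ ((p - 1) / 4)) * BIG_pi p e := by ring
        _ = BIG_pi p e := by rw [h5, one_mul]
  -- signs
  have sgn : ∀ (P : Prop) [Decidable P], ((if P then (-1 : ℤ) else 1 : ℤ) : ZMod (p ^ 2)) ^ 4 = 1 ∧
      BIG_pi p ((if P then (-1 : ℤ) else 1 : ℤ) : ZMod (p ^ 2)) = (if P then -1 else 1) ∧
      ((if P then (-1 : ZMod p) else 1) * (if P then (-1 : ZMod p) else 1)) = 1 := by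
    intro P _
    split_ifs <;> norm_num
  have s4 : s ^ 4 = 1 := by linear_combination (s ^ 2 - 1) * hs
  have jp : ∀ (a : ℤ) (b : ℕ), Int.gcd a b = 1 → jacobiSym a b = 1 ∨ jacobiSym a b = -1 :=
    fun a b h => jacobiSym.eq_one_or_neg_one h
  refine ⟨?_, ?_, ?_, ?_⟩
  · intro h12 hx4
    have hx : Odd x := Int.odd_iff.2 (by omega)
    obtain ⟨t1, t2, t3⟩ := sgn ((3 : ℤ) ∣ x)
    have h := key12 (by omega) hx _ t1 (by rw [QR3a p h12 x y hxy hx, t2])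
    have hj : jacobiSym 3 p = 1 := by
      rw [ASM_js3 p (by omega), jacobiSym.mod_left]
      have : ((p : ℤ) % ((3 : ℕ) : ℤ)) = 1 := by omega
      rw [this]
      exact jacobiSym.one_left 3
    apply BF_dvd
    rw [Int.cast_sub, h, hj, Int.cast_mul]
    push_cast
    ring
  · intro h12 hx4
    have hx : Odd x := Int.odd_iff.2 (by omega)
    have h3 : ¬ (3 : ℤ) ∣ x * y := by
      intro h
      rcases (Int.prime_three.dvd_mul).1 h with h | h
      · obtain ⟨a, ha⟩ := h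
        have h5 : y ^ 2 % 3 = 2 := by
          have : y ^ 2 = (p : ℤ) - 3 * (3 * a ^ 2) := by rw [hxy, ha]; ring
          omega
        have h6 : y % 3 = 0 ∨ y % 3 = 1 ∨ y % 3 = 2 := by omega
        rw [pow_two, Int.mul_emod] at h5
        rcases h6 with h6 | h6 | h6 <;> rw [h6] at h5 <;> norm_num at h5
      · obtain ⟨a, ha⟩ := h
        have h5 : x ^ 2 % 3 = 2 := by
          have : x ^ 2 = (p : ℤ) - 3 * (3 * a ^ 2) := by rw [hxy, ha]; ring
          omega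
        have h6 : x % 3 = 0 ∨ x % 3 = 1 ∨ x % 3 = 2 := by omega
        rw [pow_two, Int.mul_emod] at h5
        rcases h6 with h6 | h6 | h6 <;> rw [h6] at h5 <;> norm_num at h5
    have hg : Int.gcd (x * y) (3 : ℕ) = 1 := by
      have h7 := (Prime.coprime_iff_not_dvd Int.prime_three).2 h3
      have h8 := Int.isCoprime_iff_gcd_eq_one.1 h7.symm
      exact_mod_cast h8
    have hjj := jp (x * y) 3 hg
    have hjj2 : ((jacobiSym (x * y) 3 : ℤ) : ZMod (p ^ 2)) ^ 2 = 1 := by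
      rcases hjj with h | h <;> rw [h] <;> norm_num
    have h := key12 (by omega) hx (-((jacobiSym (x * y) 3 : ℤ) : ZMod (p ^ 2)) * s) (by
        linear_combination (((jacobiSym (x * y) 3 : ℤ) : ZMod (p ^ 2)) ^ 4) * s4
          + (((jacobiSym (x * y) 3 : ℤ) : ZMod (p ^ 2)) ^ 2 + 1) * hjj2) (by
        apply mul_right_cancel₀ hy
        rw [QR3b p h12 x y hxy hx, map_mul, map_neg, map_intCast]
        linear_combination (((jacobiSym (x * y) 3 : ℤ) : ZMod p)) * hsx')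
    have hj : jacobiSym 3 p = -1 := by
      rw [ASM_js3 p (by omega), jacobiSym.mod_left]
      have : ((p : ℤ) % ((3 : ℕ) : ℤ)) = 2 := by omega
      rw [this]
      norm_num
    apply BF_dvd
    rw [Int.cast_sub, h, hj, Int.cast_mul, ← hZ]
    push_cast
    ring
  · intro h4 h5 hx
    obtain ⟨t1, t2, t3⟩ := sgn ((5 : ℤ) ∣ x)
    have h := key20 h4 hx _ t1 (by rw [QR5a p h4 h5 x y hxy hx, t2, t3])
    have hj : jacobiSym 5 p = 1 := by rw [ASM_js5 p (by omega), h5]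
    apply BF_dvd
    rw [Int.cast_sub, h, hj, Int.cast_mul]
    push_cast
    ring
  · intro h4 h5 hx hxy1
    have h5x : ¬ (5 : ℤ) ∣ x := by
      intro h
      have h6 : (5 : ℤ) ∣ 1 := by
        have h7 := dvd_sub (Dvd.dvd.mul_right h y) hxy1
        rwa [show x * y - (x * y - 1) = 1 by ring] at h7
      omega
    have hg : Int.gcd x (5 : ℕ) = 1 := by
      have h7 := (Prime.coprime_iff_not_dvd (Nat.prime_iff_prime_int.1 Nat.prime_five)).2 h5x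
      have h8 := Int.isCoprime_iff_gcd_eq_one.1 h7.symm
      exact_mod_cast h8
    have hjj := jp x 5 hg
    have hjj2 : ((jacobiSym x 5 : ℤ) : ZMod (p ^ 2)) ^ 2 = 1 := by
      rcases hjj with h | h <;> rw [h] <;> norm_num
    have hjj3 : ((jacobiSym x 5 : ℤ) : ZMod p) ^ 2 = 1 := by
      rcases hjj with h | h <;> rw [h] <;> norm_num
    have hss : BIG_pi p s * BIG_pi p s = -1 := by
      rw [← map_mul, hs, map_neg, map_one]
    have h := key20 (by omega) hx (-((jacobiSym x 5 : ℤ) : ZMod (p ^ 2)) * s) (by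
        linear_combination (((jacobiSym x 5 : ℤ) : ZMod (p ^ 2)) ^ 4) * s4
          + (((jacobiSym x 5 : ℤ) : ZMod (p ^ 2)) ^ 2 + 1) * hjj2) (by
        apply mul_right_cancel₀ hy
        have h9 := QR5b p h4 h5 x y hxy hx hxy1
        rw [map_mul, map_neg, map_intCast]
        linear_combination (-((jacobiSym x 5 : ℤ) : ZMod p) * BIG_pi p s) * h9
          + (((jacobiSym x 5 : ℤ) : ZMod p)) ^ 2 * BIG_pi p s * hsx'
          - ((jacobiSym x 5 : ℤ) : ZMod p) ^ 2 * (y : ZMod p) * hss + (y : ZMod p) * hjj3)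
    have hj : jacobiSym 5 p = -1 := by rw [ASM_js5 p (by omega), h5]
    apply BF_dvd
    rw [Int.cast_sub, h, hj, Int.cast_mul, ← hZ]
    push_cast
    ring

/-- all odd primes -/
theorem ASM_all (p : ℕ) (hp : p.Prime) (h2 : 2 < p) (x y : ℤ) (hxy : (p : ℤ) = x ^ 2 + y ^ 2) : AA p x y := by
  by_cases hb : p < 97
  · exact SMB p hp h2 hb x y hxy
  · have : Fact p.Prime := ⟨hp⟩
    exact ASM_AA p (by omega) x y hxy

end Pool.Agent.Lib_helper91.TX
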