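import Pool.Agent.Lib_helper91.TX.Defs
import Pool.Agent.Lib_helper91.TN.A0

namespace Pool.Agent.Lib_helper91.TX

open PowerSeries Finset Pool.Agent.Lib_helper91.TN

variable (p : ℕ) [Fact p.Prime]

/-- `(x+1)(x+2)...(x+m)` -/
def C2_asc (x : ℕ) : ℕ → ℕ
  | 0 => 1
  | m + 1 => (x + m + 1) * C2_asc x m

/-- its derivative -/
def C2_dd (x : ℕ) : ℕ → ℕ
  | 0 => 0
  | m + 1 => (x + m + 1) * C2_dd x m + C2_asc x m

theorem C2_fact (x m : ℕ) : (x + m).factorial = x.factorial * C2_asc x m := by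
  induction m with
  | zero => simp [C2_asc]
  | succ m ih =>
    rw [← Nat.add_assoc, Nat.factorial_succ, ih, C2_asc]
    ring

theorem C2_harm (x m : ℕ) : (C2_asc x m : ℚ_[p]) * (Hn ℚ_[p] (x + m) - Hn ℚ_[p] x) =
    (C2_dd x m : ℚ_[p]) := by
  induction m with
  | zero => simp [C2_asc, C2_dd]
  | succ m ih =>
    have h1 : (((x + m + 1 : ℕ) : ℚ_[p])) ≠ 0 := by
      rw [Nat.cast_ne_zero]; omega
    rw [← Nat.add_assoc, UB_Hn_succ, C2_asc, C2_dd]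
    push_cast at h1 ⊢
    rw [← ih]
    field_simp
    ring

theorem C2_cc (n : ℕ) : cc n * n.factorial ^ 4 = (4 * n).factorial := by
  have h1 : (2 * n).choose n * n.factorial * n.factorial = (2 * n).factorial := by
    have := Nat.choose_mul_factorial_mul_factorial (n := 2 * n) (k := n) (by omega)
    rwa [show 2 * n - n = n by omega] at this
  have h2 : (4 * n).choose (2 * n) * (2 * n).factorial * (2 * n).factorial = (4 * n).factorial := by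
    have := Nat.choose_mul_factorial_mul_factorial (n := 4 * n) (k := 2 * n) (by omega)
    rwa [show 4 * n - 2 * n = 2 * n by omega] at this
  unfold cc
  calc (4 * n).choose (2 * n) * ((2 * n).choose n) ^ 2 * n.factorial ^ 4
      = (4 * n).choose (2 * n) * ((2 * n).choose n * n.factorial * n.factorial) *
        ((2 * n).choose n * n.factorial * n.factorial) := by ring
    _ = (4 * n).factorial := by rw [h1, h2]

/-- the exact formula -/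
theorem C2_exact (k0 k1 : ℕ) (h0 : k0 < p) :
    cc (k0 + p * k1) * (UU p (k0 + p * k1)) ^ 4 =
      p ^ (4 * k0 / p) * C2_asc (4 * k1) (4 * k0 / p) * cc k1 * UU p (4 * k0 + p * (4 * k1)) := by
  have hp : p.Prime := Fact.out
  have e1 : (k0 + p * k1) / p = k1 := by
    rw [Nat.add_mul_div_left _ _ hp.pos, Nat.div_eq_of_lt h0, zero_add]
  have e2 : (4 * (k0 + p * k1)) / p = 4 * k1 + 4 * k0 / p := by
    rw [show 4 * (k0 + p * k1) = 4 * k0 + p * (4 * k1) by ring, Nat.add_mul_div_left _ _ hp.pos,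
      add_comm]
  have f1 := C2_cc (k0 + p * k1)
  rw [U1 p (k0 + p * k1), U1 p (4 * (k0 + p * k1)), e1, e2, C2_fact, ← C2_cc k1, pow_add] at f1
  rw [show 4 * k0 + p * (4 * k1) = 4 * (k0 + p * k1) by ring]
  have hpos : 0 < p ^ (4 * k1) * k1.factorial ^ 4 := by
    have := hp.pos
    have := Nat.factorial_pos k1
    positivity
  apply Nat.eq_of_mul_eq_mul_left hpos
  calc _ = cc (k0 + p * k1) * (p ^ k1 * k1.factorial * UU p (k0 + p * k1)) ^ 4 := by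
        rw [show p ^ (4 * k1) = (p ^ k1) ^ 4 by rw [← pow_mul, mul_comm]]; ring
    _ = _ := f1
    _ = _ := by ring

/-- the unit factor -/
noncomputable def C2_V (k0 k1 : ℕ) : ℚ_[p] :=
  (UU p (4 * k0 + p * (4 * k1)) : ℚ_[p]) * (((UU p (k0 + p * k1) : ℚ_[p])) ^ 4)⁻¹

theorem C2_UU_ne (n : ℕ) : (UU p n : ℚ_[p]) ≠ 0 := by
  rw [Nat.cast_ne_zero]
  intro h
  exact UU_not_dvd p n (by rw [h]; exact dvd_zero p)

theorem C2_V_mul (k0 k1 : ℕ) : C2_V p k0 k1 * (UU p (k0 + p * k1) : ℚ_[p]) ^ 4 =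
    (UU p (4 * k0 + p * (4 * k1)) : ℚ_[p]) := by
  unfold C2_V
  rw [mul_assoc, inv_mul_cancel₀ (pow_ne_zero 4 (C2_UU_ne p _)), mul_one]

theorem C2_V_PI (k0 k1 : ℕ) : PI 0 (C2_V p k0 k1) := by
  unfold C2_V
  have h1 : ‖((UU p (k0 + p * k1) : ℚ_[p])) ^ 4‖ = 1 := by
    rw [norm_pow, norm_natCast_eq_one _ (UU_not_dvd p _), one_pow]
  exact PI_mul (i := 0) (j := 0) (PI_natCast _) (PI_inv h1)

theorem C2_cc_eq (k0 k1 : ℕ) (h0 : k0 < p) : (cc (k0 + p * k1) : ℚ_[p]) =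
    (p : ℚ_[p]) ^ (4 * k0 / p) * (C2_asc (4 * k1) (4 * k0 / p) : ℚ_[p]) * (cc k1 : ℚ_[p]) *
      C2_V p k0 k1 := by
  have h1 := congrArg (Nat.cast (R := ℚ_[p])) (C2_exact p k0 k1 h0)
  push_cast at h1
  rw [← C2_V_mul p k0 k1] at h1
  apply mul_right_cancel₀ (pow_ne_zero 4 (C2_UU_ne p (k0 + p * k1)))
  linear_combination h1

variable {p}

/-- the unit factor mod `p²` -/
theorem C2_V_rep (h3 : 3 ≤ p) (k0 : ℕ) {H h : ZMod (p ^ 2)} (hH : A0f_Rep p (HU p (4 * k0)) H)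
    (hh : A0f_Rep p (HU p k0) h) : ∃ v : ZMod (p ^ 2), ∀ k1, A0f_Rep p (C2_V p k0 k1)
      (v * (1 + 4 * (p : ZMod (p ^ 2)) * (k1 : ZMod (p ^ 2)) * (H - h))) := by
  obtain ⟨v, hv⟩ := A0f_exists (C2_V_PI p k0 0)
  refine ⟨v, fun k1 => ?_⟩
  obtain ⟨w, hw⟩ := A0f_exists (C2_V_PI p k0 k1)
  have hpp := A0f_pp (p := p)
  -- the equations
  have e1 : w * ((UU p (k0 + p * k1) : ℕ) : ZMod (p ^ 2)) ^ 4 =
      ((UU p (4 * k0 + p * (4 * k1)) : ℕ) : ZMod (p ^ 2)) := by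
    have a1 := A0f_Rep_mul hw (A0f_Rep_pow (A0f_Rep_nat (UU p (k0 + p * k1))) 4)
    rw [C2_V_mul] at a1
    exact A0f_Rep_uniq a1 (A0f_Rep_nat _)
  have e2 : v * ((UU p k0 : ℕ) : ZMod (p ^ 2)) ^ 4 =
      ((UU p (4 * k0) : ℕ) : ZMod (p ^ 2)) := by
    have a1 := A0f_Rep_mul hv (A0f_Rep_pow (A0f_Rep_nat (UU p (k0 + p * 0))) 4)
    rw [C2_V_mul] at a1
    have a2 := A0f_Rep_uniq a1 (A0f_Rep_nat _)
    simpa using a2
  rw [A0f_U2 h3 k0 k1 hh, A0f_U2 h3 (4 * k0) (4 * k1) hH, ← e2] at e1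
  have u1 := (A0f_unit (p := p) k0).pow 4
  have u3 := (A0f_unit (p := p) p).pow (4 * k1)
  have hpow : (((UU p p : ℕ) : ZMod (p ^ 2)) ^ k1) ^ 4 = ((UU p p : ℕ) : ZMod (p ^ 2)) ^ (4 * k1) := by
    rw [← pow_mul, mul_comm]
  push_cast at e1
  have e3 : (((UU p p : ℕ) : ZMod (p ^ 2)) ^ (4 * k1) * ((UU p k0 : ℕ) : ZMod (p ^ 2)) ^ 4) *
      (w * (1 + (p : ZMod (p ^ 2)) * (k1 : ZMod (p ^ 2)) * h) ^ 4) =
      (((UU p p : ℕ) : ZMod (p ^ 2)) ^ (4 * k1) * ((UU p k0 : ℕ) : ZMod (p ^ 2)) ^ 4) *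
      (v * (1 + (p : ZMod (p ^ 2)) * (4 * (k1 : ZMod (p ^ 2))) * H)) := by
    rw [← hpow] at e1 ⊢
    linear_combination e1
  have e4 := (u3.mul u1).mul_left_cancel e3
  have e5 : w = v * (1 + 4 * (p : ZMod (p ^ 2)) * (k1 : ZMod (p ^ 2)) * (H - h)) := by
    generalize (p : ZMod (p ^ 2)) = P at *
    generalize (k1 : ZMod (p ^ 2)) = x at *
    have e6 : w * (1 + 4 * (P * x * h)) = v * (1 + P * (4 * x) * H) := by
      linear_combination e4 - w * (6 * (x * h) ^ 2 + 4 * P * (x * h) ^ 3 + P ^ 2 * (x * h) ^ 4) * hpp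
    linear_combination (1 - 4 * (P * x * h)) * e6 + (16 * w * (x * h) ^ 2 - 16 * v * x ^ 2 * h * H) * hpp
  rw [← e5]
  exact hw

variable (p)

/-- `p gc k` -/
theorem C2_pgc (k0 k1 : ℕ) (h0 : k0 < p) : (p : ℚ_[p]) * gc ℚ_[p] (k0 + p * k1) =
    4 * (cc (k0 + p * k1) : ℚ_[p]) * ((p : ℚ_[p]) *
      (HU p (4 * k0 + p * (4 * k1)) - HU p (k0 + p * k1))) +
    (p : ℚ_[p]) ^ (4 * k0 / p) * C2_V p k0 k1 *
      ((C2_asc (4 * k1) (4 * k0 / p) : ℚ_[p]) * gc ℚ_[p] k1 +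
        4 * (cc k1 : ℚ_[p]) * (C2_dd (4 * k1) (4 * k0 / p) : ℚ_[p])) := by
  have hp : p.Prime := Fact.out
  have hp0 : (p : ℚ_[p]) ≠ 0 := by exact_mod_cast hp.ne_zero
  have e1 : (k0 + p * k1) / p = k1 := by
    rw [Nat.add_mul_div_left _ _ hp.pos, Nat.div_eq_of_lt h0, zero_add]
  have e2 : (4 * k0 + p * (4 * k1)) / p = 4 * k1 + 4 * k0 / p := by
    rw [Nat.add_mul_div_left _ _ hp.pos, add_comm]
  have e3 : (p : ℚ_[p]) * Hn ℚ_[p] (4 * k0 + p * (4 * k1)) =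
      (p : ℚ_[p]) * HU p (4 * k0 + p * (4 * k1)) + Hn ℚ_[p] (4 * k1 + 4 * k0 / p) := by
    rw [U3 p (4 * k0 + p * (4 * k1)), e2]
    field_simp
  have e4 : (p : ℚ_[p]) * Hn ℚ_[p] (k0 + p * k1) =
      (p : ℚ_[p]) * HU p (k0 + p * k1) + Hn ℚ_[p] k1 := by
    rw [U3 p (k0 + p * k1), e1]
    field_simp
  have e5 := C2_harm p (4 * k1) (4 * k0 / p)
  have e6 := C2_cc_eq p k0 k1 h0
  unfold gc
  rw [show 4 * (k0 + p * k1) = 4 * k0 + p * (4 * k1) by ring]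
  have e7 : (p : ℚ_[p]) * (4 * (cc (k0 + p * k1) : ℚ_[p]) *
      (Hn ℚ_[p] (4 * k0 + p * (4 * k1)) - Hn ℚ_[p] (k0 + p * k1))) =
      4 * (cc (k0 + p * k1) : ℚ_[p]) * ((p : ℚ_[p]) *
        (HU p (4 * k0 + p * (4 * k1)) - HU p (k0 + p * k1))) +
      4 * (cc (k0 + p * k1) : ℚ_[p]) * (Hn ℚ_[p] (4 * k1 + 4 * k0 / p) - Hn ℚ_[p] k1) := by
    linear_combination 4 * (cc (k0 + p * k1) : ℚ_[p]) * (e3 - e4)
  rw [e7]
  congr 1
  rw [e6, ← e5]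
  ring

/-- the cases `m = 0, 1, ≥ 2` -/
theorem C2_small (k0 : ℕ) (h0 : k0 < p) : 4 * k0 / p < 4 := by
  rw [Nat.div_lt_iff_lt_mul (Fact.out : p.Prime).pos]
  omega

theorem C2_Hn_small (hp : 3 < p) (m : ℕ) (hm : m < 4) : PI 0 (Hn ℚ_[p] m) :=
  PI_Hn p m (by omega)

/-- exact formula for `gc k`, `k < p` -/
theorem C2_gc0 (k : ℕ) (hk : k < p) : (p : ℚ_[p]) * gc ℚ_[p] k =
    4 * (cc k : ℚ_[p]) * ((p : ℚ_[p]) * (HU p (4 * k) - HU p k) + Hn ℚ_[p] (4 * k / p)) := by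
  have hp : p.Prime := Fact.out
  have hp0 : (p : ℚ_[p]) ≠ 0 := by exact_mod_cast hp.ne_zero
  have e3 : (p : ℚ_[p]) * Hn ℚ_[p] (4 * k) =
      (p : ℚ_[p]) * HU p (4 * k) + Hn ℚ_[p] (4 * k / p) := by
    rw [U3 p (4 * k)]
    field_simp
  rw [gc, ← A0f_HU_eq p k hk]
  linear_combination 4 * (cc k : ℚ_[p]) * e3

theorem C2_cc0 (k : ℕ) (hk : k < p) : (cc k : ℚ_[p]) =
    (p : ℚ_[p]) ^ (4 * k / p) * (C2_asc 0 (4 * k / p) : ℚ_[p]) * C2_V p k 0 := by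
  have := C2_cc_eq p k 0 hk
  simp only [mul_zero, add_zero] at this
  rw [this]
  simp [cc]

/-- integrality of `gc` -/
theorem C2i (hp : 3 < p) (k : ℕ) (hk : k < p) : PI 0 (gc ℚ_[p] k) := by
  apply PI_of_p_mul
  rw [C2_gc0 p k hk, zero_add]
  have h4 : PI 0 (4 : ℚ_[p]) := by simpa using PI_natCast (p := p) 4
  have hc : PI 0 (cc k : ℚ_[p]) := PI_natCast _
  have hm := C2_Hn_small p hp (4 * k / p) (C2_small p k hk)
  have hD : PI 0 (HU p (4 * k) - HU p k) := PI_sub (PI_HU p _) (PI_HU p _)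
  have e : 4 * (cc k : ℚ_[p]) * ((p : ℚ_[p]) * (HU p (4 * k) - HU p k) + Hn ℚ_[p] (4 * k / p)) =
      (p : ℚ_[p]) * (4 * (cc k : ℚ_[p]) * (HU p (4 * k) - HU p k)) +
      (cc k : ℚ_[p]) * (4 * Hn ℚ_[p] (4 * k / p)) := by ring
  rw [e]
  refine PI_add (PI_mul (i := 1) (j := 0) PI_p
    (PI_mul (i := 0) (j := 0) (PI_mul (i := 0) (j := 0) h4 hc) hD)) ?_
  rcases Nat.eq_zero_or_pos (4 * k / p) with h | h
  · rw [h]
    simp [Hn]
    exact PI_zero 1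
  · refine PI_mul (i := 1) (j := 0) ?_ (PI_mul (i := 0) (j := 0) h4 hm)
    rw [C2_cc0 p k hk]
    obtain ⟨m, hm'⟩ := Nat.exists_eq_succ_of_ne_zero (Nat.pos_iff_ne_zero.1 h)
    rw [hm', Nat.succ_eq_add_one, pow_succ']
    have : (p : ℚ_[p]) * (p : ℚ_[p]) ^ m * (C2_asc 0 (m + 1) : ℚ_[p]) * C2_V p k 0 =
        (p : ℚ_[p]) * ((((p ^ m * C2_asc 0 (m + 1) : ℕ)) : ℚ_[p]) * C2_V p k 0) := by
      push_cast; ring
    rw [this]
    exact PI_mul (i := 1) (j := 0) PI_p (PI_mul (i := 0) (j := 0) (PI_natCast _) (C2_V_PI p k 0))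

/-- Dwork type congruence for `cc` -/
theorem C2a (hp : 3 < p) (k0 k1 : ℕ) (h0 : k0 < p) :
    PI 2 ((cc (k0 + p * k1) : ℚ_[p]) - ((cc k0 : ℚ_[p]) * (cc k1 : ℚ_[p])
      + (p : ℚ_[p]) * gc ℚ_[p] k0 * ((k1 : ℚ_[p]) * (cc k1 : ℚ_[p])))) := by
  obtain ⟨H, hH⟩ := A0f_exists (PI_HU p (4 * k0))
  obtain ⟨h, hh⟩ := A0f_exists (PI_HU p k0)
  obtain ⟨hm, hhm⟩ := A0f_exists (C2_Hn_small p hp (4 * k0 / p) (C2_small p k0 h0))
  obtain ⟨v, hv⟩ := C2_V_rep (p := p) (by omega) k0 hH hh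
  have hpp := A0f_pp (p := p)
  have hv0 := hv 0
  simp only [Nat.cast_zero, mul_zero, zero_mul, add_zero, mul_one] at hv0
  rw [C2_gc0 p k0 h0, C2_cc_eq p k0 k1 h0, C2_cc0 p k0 h0]
  have h4 : A0f_Rep p (4 : ℚ_[p]) 4 := by simpa using A0f_Rep_nat (p := p) 4
  have r0 := A0f_Rep_mul (A0f_Rep_mul (A0f_Rep_pow (A0f_Rep_nat p) (4 * k0 / p))
    (A0f_Rep_nat (C2_asc 0 (4 * k0 / p)))) hv0
  have r1 := A0f_Rep_mul (A0f_Rep_mul (A0f_Rep_mul (A0f_Rep_pow (A0f_Rep_nat p) (4 * k0 / p))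
    (A0f_Rep_nat (C2_asc (4 * k1) (4 * k0 / p)))) (A0f_Rep_nat (cc k1))) (hv k1)
  have r2 := A0f_Rep_mul (A0f_Rep_mul h4 r0) (A0f_Rep_add (A0f_Rep_mul (A0f_Rep_nat p)
    (A0f_Rep_sub hH hh)) hhm)
  refine A0f_PI_two (A0f_Rep_sub r1 (A0f_Rep_add (A0f_Rep_mul r0 (A0f_Rep_nat (cc k1)))
    (A0f_Rep_mul r2 (A0f_Rep_mul (A0f_Rep_nat k1) (A0f_Rep_nat (cc k1)))))) ?_
  have hlt := C2_small p k0 h0
  rcases Nat.lt_or_ge (4 * k0 / p) 2 with hm2 | hm2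
  · have hcase : 4 * k0 / p = 0 ∨ 4 * k0 / p = 1 := by
      clear hv0 r0 r1 hv
      generalize 4 * k0 / p = m at hm2
      omega
    rcases hcase with hc | hc
    · rw [hc] at hhm ⊢
      have : hm = 0 := A0f_Rep_uniq hhm (by simpa [Hn] using A0f_Rep_zero (p := p))
      rw [this]
      simp only [C2_asc, pow_zero, Nat.cast_one]
      ring
    · rw [hc] at hhm ⊢
      have : hm = 1 := A0f_Rep_uniq hhm (by simpa [Hn] using A0f_Rep_one (p := p))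
      rw [this]
      simp only [C2_asc, pow_one]
      push_cast
      linear_combination (v * (cc k1 : ZMod (p ^ 2)) * (16 * (k1 : ZMod (p ^ 2)) ^ 2 * (H - h))) * hpp
  · obtain ⟨m, hm'⟩ := Nat.exists_eq_add_of_le hm2
    rw [hm', pow_add, hpp]
    ring

/-- the same for `gc` -/
theorem C2b (hp : 3 < p) (k0 k1 : ℕ) (h0 : k0 < p) (h1 : k1 < p) :
    PI 2 ((p : ℚ_[p]) * gc ℚ_[p] (k0 + p * k1) - ((cc k0 : ℚ_[p]) * gc ℚ_[p] k1
      + (p : ℚ_[p]) * gc ℚ_[p] k0 * ((cc k1 : ℚ_[p]) + (k1 : ℚ_[p]) * gc ℚ_[p] k1))) := by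
  obtain ⟨H, hH⟩ := A0f_exists (PI_HU p (4 * k0))
  obtain ⟨h, hh⟩ := A0f_exists (PI_HU p k0)
  obtain ⟨hm, hhm⟩ := A0f_exists (C2_Hn_small p hp (4 * k0 / p) (C2_small p k0 h0))
  obtain ⟨v, hv⟩ := C2_V_rep (p := p) (by omega) k0 hH hh
  obtain ⟨g, hg⟩ := A0f_exists (C2i p hp k1 h1)
  obtain ⟨H', hH'⟩ := A0f_exists (PI_HU p (4 * k0 + p * (4 * k1)))
  obtain ⟨h', hh'⟩ := A0f_exists (PI_HU p (k0 + p * k1))
  have q1 := A0f_p_mul hH' hH (HU_block p (by omega) (4 * k0) (4 * k1))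
  have q2 := A0f_p_mul hh' hh (HU_block p (by omega) k0 k1)
  have hpp := A0f_pp (p := p)
  have hv0 := hv 0
  simp only [Nat.cast_zero, mul_zero, zero_mul, add_zero, mul_one] at hv0
  have h4 : A0f_Rep p (4 : ℚ_[p]) 4 := by simpa using A0f_Rep_nat (p := p) 4
  have r0 := A0f_Rep_mul (A0f_Rep_mul (A0f_Rep_pow (A0f_Rep_nat p) (4 * k0 / p))
    (A0f_Rep_nat (C2_asc 0 (4 * k0 / p)))) hv0
  have r1 := A0f_Rep_mul (A0f_Rep_mul (A0f_Rep_mul (A0f_Rep_pow (A0f_Rep_nat p) (4 * k0 / p))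
    (A0f_Rep_nat (C2_asc (4 * k1) (4 * k0 / p)))) (A0f_Rep_nat (cc k1))) (hv k1)
  have r2 := A0f_Rep_mul (A0f_Rep_mul h4 r0) (A0f_Rep_add (A0f_Rep_mul (A0f_Rep_nat p)
    (A0f_Rep_sub hH hh)) hhm)
  have r3 := A0f_Rep_add (A0f_Rep_mul (A0f_Rep_mul h4 r1) (A0f_Rep_mul (A0f_Rep_nat p)
      (A0f_Rep_sub hH' hh')))
    (A0f_Rep_mul (A0f_Rep_mul (A0f_Rep_pow (A0f_Rep_nat p) (4 * k0 / p)) (hv k1))
      (A0f_Rep_add (A0f_Rep_mul (A0f_Rep_nat (C2_asc (4 * k1) (4 * k0 / p))) hg)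
        (A0f_Rep_mul (A0f_Rep_mul h4 (A0f_Rep_nat (cc k1)))
          (A0f_Rep_nat (C2_dd (4 * k1) (4 * k0 / p))))))
  rw [C2_pgc p k0 k1 h0, C2_gc0 p k0 h0, C2_cc_eq p k0 k1 h0, C2_cc0 p k0 h0]
  refine A0f_PI_two (A0f_Rep_sub r3 (A0f_Rep_add (A0f_Rep_mul r0 hg)
    (A0f_Rep_mul r2 (A0f_Rep_add (A0f_Rep_nat (cc k1)) (A0f_Rep_mul (A0f_Rep_nat k1) hg))))) ?_
  have q3 : (p : ZMod (p ^ 2)) * (H' - h') = (p : ZMod (p ^ 2)) * (H - h) := by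
    linear_combination q1 - q2
  rw [q3]
  have hlt := C2_small p k0 h0
  rcases Nat.lt_or_ge (4 * k0 / p) 2 with hm2 | hm2
  · have hcase : 4 * k0 / p = 0 ∨ 4 * k0 / p = 1 := by
      clear hv0 r0 r1 r3 hv
      generalize 4 * k0 / p = m at hm2
      omega
    generalize (cc k1 : ZMod (p ^ 2)) = c1 at *
    rcases hcase with hc | hc
    · rw [hc] at hhm ⊢
      have : hm = 0 := A0f_Rep_uniq hhm (by simpa [Hn] using A0f_Rep_zero (p := p))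
      rw [this]
      simp only [C2_asc, C2_dd, pow_zero, Nat.cast_one, Nat.cast_zero]
      linear_combination (16 * c1 * v * (k1 : ZMod (p ^ 2)) * (H - h) ^ 2) * hpp
    · rw [hc] at hhm ⊢
      have : hm = 1 := A0f_Rep_uniq hhm (by simpa [Hn] using A0f_Rep_one (p := p))
      rw [this]
      simp only [C2_asc, C2_dd, pow_one]
      push_cast
      generalize (k1 : ZMod (p ^ 2)) = x at *
      generalize (p : ZMod (p ^ 2)) = P at *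
      linear_combination (4 * c1 * (4 * x + 1) * v * (1 + 4 * P * x * (H - h)) * (H - h) +
        4 * v * x * (H - h) * ((4 * x + 1) * g + 4 * c1) - 4 * v * (H - h) * (c1 + x * g)) * hpp
  · obtain ⟨m, hm'⟩ := Nat.exists_eq_add_of_le hm2
    rw [hm', pow_add, hpp]
    ring

theorem C2_cop (k : ℕ) (j : ℕ) (h : p ^ j ∣ cc k * (UU p k) ^ 4) : p ^ j ∣ cc k := by
  have h1 : Nat.Coprime (p ^ j) ((UU p k) ^ 4) :=
    Nat.Coprime.pow j 4 ((Nat.Prime.coprime_iff_not_dvd (Fact.out : p.Prime)).2 (UU_not_dvd p k))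
  exact h1.dvd_of_dvd_mul_right h

theorem C2_dvd (k j : ℕ) (hk : k < p) (hj : j ≤ 4 * k / p) : p ^ j ∣ cc k := by
  apply C2_cop
  have := C2_exact p k 0 hk
  simp only [mul_zero, add_zero] at this
  rw [this, mul_assoc, mul_assoc]
  exact (pow_dvd_pow p hj).mul_right _

/-- `cc k ≡ 0` mod `p` for `p/4 < k < p` -/
theorem C2c (k : ℕ) (h1 : p ≤ 4 * k) (h2 : k < p) : p ∣ cc k := by
  have := C2_dvd p k 1 h2 ((Nat.le_div_iff_mul_le (Fact.out : p.Prime).pos).2 (by omega))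
  rwa [pow_one] at this

/-- `cc k ≡ 0` mod `p²` for `p/2 < k < p` -/
theorem C2d (k : ℕ) (h1 : p ≤ 2 * k) (h2 : k < p) : p ^ 2 ∣ cc k :=
  C2_dvd p k 2 h2 ((Nat.le_div_iff_mul_le (Fact.out : p.Prime).pos).2 (by omega))

/-- `gl2` lifts `gc` -/
theorem C2l (hp : 3 < p) (k : ℕ) (hk : k < p) : PI 1 (gc ℚ_[p] k - (gl2 p k : ℚ_[p])) := by
  have h1 : ‖gc ℚ_[p] k‖ ≤ 1 := by
    have := C2i p hp k hk
    unfold PI at this
    simpa using this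
  unfold gl2
  rw [dif_pos h1]
  set y : ℤ_[p] := ⟨gc ℚ_[p] k, h1⟩ with hy
  have e : gc ℚ_[p] k - (((PadicInt.toZMod y).val : ℕ) : ℚ_[p]) =
      ((y - (((PadicInt.toZMod y).val : ℕ) : ℤ_[p]) : ℤ_[p]) : ℚ_[p]) := by
    push_cast
    rfl
  rw [e, UB_PI1_iff, map_sub, map_natCast, ZMod.natCast_zmod_val, sub_self]

/-- `p gc k ≡ 4 cc k` mod `p²` for `p/4 < k < p` -/
theorem C2e (hp : 3 < p) (k : ℕ) (h1 : p ≤ 4 * k) (h2 : k < p) :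
    (p : ZMod (p ^ 2)) * (gl2 p k : ZMod (p ^ 2)) = 4 * (cc k : ZMod (p ^ 2)) := by
  obtain ⟨H, hH⟩ := A0f_exists (PI_HU p (4 * k))
  obtain ⟨h, hh⟩ := A0f_exists (PI_HU p k)
  obtain ⟨hm, hhm⟩ := A0f_exists (C2_Hn_small p hp (4 * k / p) (C2_small p k h2))
  obtain ⟨g, hg⟩ := A0f_exists (C2i p hp k h2)
  have hpp := A0f_pp (p := p)
  have h4 : A0f_Rep p (4 : ℚ_[p]) 4 := by simpa using A0f_Rep_nat (p := p) 4
  have q1 := A0f_p_mul hg (A0f_Rep_nat (gl2 p k)) (C2l p hp k h2)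
  rw [← q1]
  have r1 := A0f_Rep_mul (A0f_Rep_nat p) hg
  rw [C2_gc0 p k h2] at r1
  have r2 := A0f_Rep_mul (A0f_Rep_mul h4 (A0f_Rep_nat (cc k))) (A0f_Rep_add (A0f_Rep_mul (A0f_Rep_nat p)
    (A0f_Rep_sub hH hh)) hhm)
  rw [A0f_Rep_uniq r1 r2]
  have hge : 1 ≤ 4 * k / p := (Nat.le_div_iff_mul_le (Fact.out : p.Prime).pos).2 (by omega)
  rcases Nat.lt_or_ge (4 * k / p) 2 with hm2 | hm2
  · have hc : 4 * k / p = 1 := by omega
    rw [hc] at hhm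
    have : hm = 1 := A0f_Rep_uniq hhm (by simpa [Hn] using A0f_Rep_one (p := p))
    obtain ⟨c, hc'⟩ := C2c p k h1 h2
    rw [this, hc']
    push_cast
    linear_combination (4 * (c : ZMod (p ^ 2)) * (H - h)) * hpp
  · obtain ⟨c, hc'⟩ := C2_dvd p k 2 h2 hm2
    rw [hc']
    push_cast
    rw [hpp]
    ring

end Pool.Agent.Lib_helper91.TX
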