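import Pool.Agent.Lib_helper91.TN.Defs

/-!
Definitions for part (a), `p ≡ 1 (mod 4)`, of MP_f97b3c_nt.

Two families: `fam1` (`∑_k C(n,k)^4`, level 10) and `fam2` (`(4n)!/n!^4`, level 2).  Step 1 relates them on the curve `X_0(10)/w_2`
with coordinate `u`: `1/z = u + 6 + 25/u`, `1/t = (u^2+6u+25)(u+25)^4/u^5`, `F1(z) = sqrt(u^2+6u+25)/(u+25) F2(t)`.
Step 2 uses correspondences of degree 3 and 5 inside the level 2 family, at a point with `t' = ∞`.
The parameter at the cusp is `X = 1/(u - u0)`.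
-/

namespace Pool.Agent.Lib_helper91.TX

open PowerSeries Finset Pool.Agent.Lib_helper91.TN

section

variable (p : ℕ) [Fact p.Prime]

/-- truncation at `p` -/
noncomputable def trp (f : PowerSeries ℚ_[p]) : PowerSeries ℚ_[p] :=
  PowerSeries.mk fun k => if k < p then coeff k f else 0

/-- a period series `F`, its derivative `G`, and the inverse square root `w` of the discriminant -/
structure Fam where
  F : PowerSeries ℚ_[p]
  G : PowerSeries ℚ_[p]
  w : PowerSeries ℚ_[p]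

end

namespace Fam

variable {p : ℕ} [Fact p.Prime] (A : Fam p)

noncomputable def FT : PowerSeries ℚ_[p] := trp p A.F
noncomputable def GT : PowerSeries ℚ_[p] := trp p A.G
noncomputable def RR : PowerSeries ℚ_[p] := A.GT * A.FT⁻¹
noncomputable def W : PowerSeries ℚ_[p] := A.w * A.F⁻¹
noncomputable def E : PowerSeries ℚ_[p] := A.G * A.F⁻¹

/-- the properties used for the functional equation -/
structure Ok : Prop where
  F0 : constantCoeff A.F = 1
  G0 : constantCoeff A.G = 0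
  w0 : constantCoeff A.w = 1
  iF : ∀ T, PO 0 T A.F
  iG : PO 0 (nz p) A.G
  iw : ∀ T, PO 0 T A.w
  a1 : ∀ T, PO 2 T (A.F - (A.FT * ph p ℚ_[p] A.F
    + (p : PowerSeries ℚ_[p]) * A.GT * ph p ℚ_[p] (th A.F)))
  a2 : PO 2 (T0 p) ((p : PowerSeries ℚ_[p]) * A.G - (A.FT * ph p ℚ_[p] A.G
    + (p : PowerSeries ℚ_[p]) * A.GT * (ph p ℚ_[p] A.F + ph p ℚ_[p] (th A.G))))
  wr : A.F ^ 2 + (A.F * th A.G - A.G * th A.F) = A.F * A.w

/-- the differential equation, with discriminant `P` -/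
structure Ode (P B : PowerSeries ℚ_[p]) : Prop where
  P0 : constantCoeff P = 1
  B0 : constantCoeff B = 0
  wP : A.w ^ 2 * P = 1
  ode : P * (2 * A.F * th (th A.F) - (th A.F) ^ 2) + th P * A.F * th A.F = B * A.F ^ 2

/-- the expression of the functional equation for `F2(z2) = μ F1(z1)`, `z_i = X^{e_i} g_i` -/
noncomputable def JE (A1 A2 : Fam p) (e1 e2 : ℕ) (g1 g2 l2 μ : PowerSeries ℚ_[p]) : PowerSeries ℚ_[p] :=
  cmp A2.FT (X ^ e2 * g2) * ph p ℚ_[p] μ - μ * cmp A1.FT (X ^ e1 * g1)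
    + ph p ℚ_[p] (th μ * l2⁻¹)
      * ((g2 ^ p * (ph p ℚ_[p] g2)⁻¹ - 1) * cmp A2.FT (X ^ e2 * g2)
        + (p : PowerSeries ℚ_[p]) * cmp A2.GT (X ^ e2 * g2))

end Fam

/-! ### The two families -/

/-- `(4n)!/n!^4` -/
def cc (n : ℕ) : ℕ := (4 * n).choose (2 * n) * ((2 * n).choose n) ^ 2

/-- derivative of `cc` -/
def gc (K : Type) [Field K] (n : ℕ) : K := 4 * (cc n : K) * (Hn K (4 * n) - Hn K n)

open Classical in
/-- an integer lift of `gc k` mod `p` (for `k < p`) -/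
noncomputable def gl2 (p : ℕ) [Fact p.Prime] (k : ℕ) : ℕ :=
  if h : ‖gc ℚ_[p] k‖ ≤ 1 then (PadicInt.toZMod (⟨gc ℚ_[p] k, h⟩ : ℤ_[p])).val else 0

/-- level 10 -/
noncomputable def fam1 (p : ℕ) [Fact p.Prime] : Fam p := ⟨FF ℚ_[p], GG ℚ_[p], CB ℚ_[p]⟩

/-- level 2 -/
noncomputable def fam2 (p : ℕ) [Fact p.Prime] : Fam p :=
  ⟨PowerSeries.mk fun k => (cc k : ℚ_[p]), PowerSeries.mk fun k => gc ℚ_[p] k, CBs ℚ_[p] 64⟩

/-! ### Step 1 : polynomials, `u0` an integer -/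

section

variable (u0 : ℤ)

/-- `X u = 1 + u0 X` -/
noncomputable def pN : Polynomial ℤ := 1 + Polynomial.C u0 * Polynomial.X
/-- `X^2 (u^2 + 6u + 25)` -/
noncomputable def pQ : Polynomial ℤ :=
  1 + Polynomial.C (2 * u0 + 6) * Polynomial.X + Polynomial.C (u0 ^ 2 + 6 * u0 + 25) * Polynomial.X ^ 2
/-- `X (u + 25)` -/
noncomputable def pV : Polynomial ℤ := 1 + Polynomial.C (u0 + 25) * Polynomial.X
/-- `X^2 (u^2 - 25)` -/
noncomputable def pA : Polynomial ℤ := pN u0 ^ 2 - 25 * Polynomial.X ^ 2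
/-- `-φ(θμ/(μ l)) φV φA = X^p pPh φN` -/
noncomputable def pPh : Polynomial ℤ := Polynomial.C 22 + Polynomial.C (22 * u0 + 50) * Polynomial.X

/-- `∑_{k<p} a_k κ^k H^(p-1-k)` for integer polynomials -/
noncomputable def phom (p : ℕ) (a : ℕ → ℕ) (κ H : Polynomial ℤ) : Polynomial ℤ :=
  ∑ k ∈ range p, Polynomial.C (a k : ℤ) * κ ^ k * H ^ (p - 1 - k)

/-- the functional equation of Step 1 with denominators cleared -/
noncomputable def J1 (p : ℕ) [Fact p.Prime] : Polynomial ℤ :=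
  pV u0 ^ (4 * p - 3) * (pQ u0 ^ p + Polynomial.expand ℤ p (pQ u0))
      * (Polynomial.expand ℤ p (pV u0) * Polynomial.expand ℤ p (pA u0) * pQ u0 ^ p
          * phom p bb (Polynomial.X * pN u0) (pQ u0)
        - Polynomial.X ^ p * Polynomial.expand ℤ p (pPh u0)
          * ((pN u0 ^ p * Polynomial.expand ℤ p (pQ u0) - Polynomial.expand ℤ p (pN u0) * pQ u0 ^ p)
              * phom p bb (Polynomial.X * pN u0) (pQ u0)
            + (p : Polynomial ℤ) * pQ u0 ^ p * Polynomial.expand ℤ p (pN u0)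
              * phom p (gl p) (Polynomial.X * pN u0) (pQ u0)))
    - 2 * Polynomial.expand ℤ p (pV u0) ^ 2 * Polynomial.expand ℤ p (pA u0)
      * pQ u0 ^ ((p + 1) / 2) * pQ u0 ^ p
      * phom p cc (Polynomial.X * pN u0 ^ 5) (pQ u0 * pV u0 ^ 4)

end

/-! ### Step 2 : data of a correspondence `t = X N^l/(Q V^4)`, `t' = X^l N/Q`, `V = 1 + 24 X`, `F2(t') = F2(t)/V` -/

/-- data -/
structure D2 where
  l : ℕ
  q : ℕ
  n0 : ℤ
  q0 : ℤ
  N : Polynomial ℤ
  Q : Polynomial ℤ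
  R : Polynomial ℤ

/-- `1 + 24 X` -/
noncomputable def V24 : Polynomial ℤ := 1 + 24 * Polynomial.X

/-- `X d/dX` -/
noncomputable def pth (f : Polynomial ℤ) : Polynomial ℤ := Polynomial.X * Polynomial.derivative f

namespace D2

variable (d : D2)

/-- `L = N Q θt'/t'` -/
noncomputable def L : Polynomial ℤ := (d.l : Polynomial ℤ) * d.N * d.Q + pth d.N * d.Q - d.N * pth d.Q

/-- `L1 = N Q V θt/t` -/
noncomputable def L1 : Polynomial ℤ :=
  d.N * d.Q * V24 + (d.l : Polynomial ℤ) * pth d.N * d.Q * V24 - d.N * pth d.Q * V24 - 4 * d.N * d.Q * pth V24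

/-- `S = R N^2 Q` -/
noncomputable def S : Polynomial ℤ := d.R * d.N ^ 2 * d.Q

/-- conditions on the data -/
structure Valid : Prop where
  hl : 1 ≤ d.l
  hlq : d.l + 1 = d.q + 4
  hN : d.N.natDegree ≤ 1
  hN0 : d.N.coeff 0 = 1
  hN1 : d.N.coeff 1 = d.n0
  hQ : d.Q.natDegree ≤ d.q
  hQ0 : d.Q.coeff 0 = 1
  hQ1 : d.Q.coeff d.q = d.q0
  hL : d.L.natDegree ≤ d.q + 1
  hL1 : d.L.coeff (d.q + 1) = 4 * d.q0 * d.n0
  I1 : d.Q * V24 ^ 4 - 256 * Polynomial.X * d.N ^ d.l = d.L1 ^ 2 * d.R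
  I2 : (d.l : Polynomial ℤ) ^ 2 * (d.Q - 256 * Polynomial.X ^ d.l * d.N) = d.L ^ 2 * d.R
  I3 : 48 * Polynomial.X * d.N ^ d.l + d.Q * (d.S * (3 * (pth V24) ^ 2 - 2 * V24 * pth (pth V24)) - pth d.S * pth V24 * V24)
    = 48 * (d.l : Polynomial ℤ) ^ 2 * Polynomial.X ^ d.l * d.N * V24 ^ 2

/-- the functional equation of Step 2 with denominators cleared -/
noncomputable def J2 (p : ℕ) [Fact p.Prime] : Polynomial ℤ :=
  phom p cc (Polynomial.X ^ d.l * d.N) d.Q * Polynomial.expand ℤ p V24 * Polynomial.expand ℤ p d.L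
      * V24 ^ (4 * p - 3) * d.Q ^ p
    - Polynomial.expand ℤ p V24 ^ 2 * Polynomial.expand ℤ p d.L * d.Q ^ p
      * phom p cc (Polynomial.X * d.N ^ d.l) (d.Q * V24 ^ 4)
    - 24 * Polynomial.X ^ p * Polynomial.expand ℤ p d.Q * V24 ^ (4 * p - 3)
      * ((d.N ^ p * Polynomial.expand ℤ p d.Q - d.Q ^ p * Polynomial.expand ℤ p d.N)
          * phom p cc (Polynomial.X ^ d.l * d.N) d.Q
        + (p : Polynomial ℤ) * d.Q ^ p * Polynomial.expand ℤ p d.N
          * phom p (gl2 p) (Polynomial.X ^ d.l * d.N) d.Q)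

end D2

/-- degree 3 -/
noncomputable def d3 : D2 where
  l := 3
  q := 0
  n0 := -3
  q0 := 1
  N := 1 - 3 * Polynomial.X
  Q := 1
  R := 1 + 8 * Polynomial.X + 48 * Polynomial.X ^ 2

/-- degree 5 -/
noncomputable def d5 : D2 where
  l := 5
  q := 2
  n0 := -1
  q0 := 20
  N := 1 - Polynomial.X
  Q := 1 + 4 * Polynomial.X + 20 * Polynomial.X ^ 2
  R := 1

/-! ### The Jacobi sum -/

/-- the Jacobi sum modulo `p²` (`p = 4K+1`) -/
def Jac (p K : ℕ) : ZMod (p ^ 2) :=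
  ∑ t ∈ range p, (t : ZMod (p ^ 2)) ^ (3 * K * p) * (1 - (t : ZMod (p ^ 2))) ^ (2 * K * p)

end Pool.Agent.Lib_helper91.TX
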