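import Pool.Agent.Lib_helper91.TX.Defs
import Pool.Agent.Lib_helper91.TN.A8b
import Pool.Agent.Lib_helper91.TN.A12
import Pool.Agent.Lib_helper91.TN.Z3
import Pool.Agent.Lib_helper91.TN.Z5
import Pool.Agent.Lib_helper91.TN.GZ

namespace Pool.Agent.Lib_helper91.TX

open PowerSeries Finset Pool.Agent.Lib_helper91.TN

variable (p : ℕ) [Fact p.Prime]

theorem FA1_FT : (fam1 p).FT = Pool.Agent.Lib_helper91.TN.FT p := by
  unfold Fam.FT fam1 trp Pool.Agent.Lib_helper91.TN.FT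
  ext k
  simp only [coeff_mk]
  split_ifs
  · rw [FF, coeff_mk]
  · rfl

theorem FA1_GT : (fam1 p).GT = Pool.Agent.Lib_helper91.TN.GT p := by
  unfold Fam.GT fam1 trp Pool.Agent.Lib_helper91.TN.GT
  ext k
  simp only [coeff_mk]
  split_ifs
  · rw [GG, coeff_mk]
  · rfl

theorem FA1_WW : WW ℚ_[p] * FF ℚ_[p] = CB ℚ_[p] := Z3_WF ℚ_[p]

theorem fam1_ok (hp : 3 < p) : (fam1 p).Ok := by
  refine ⟨?_, ?_, ?_, ?_, ?_, ?_, ?_, ?_, ?_⟩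
  · exact constantCoeff_FF
  · exact constantCoeff_GG
  · exact constantCoeff_CB
  · intro T
    exact PO_FF p T
  · exact PO_GG p
  · intro T
    show PO 0 T (CB ℚ_[p])
    rw [← FA1_WW]
    exact PO_mul_left (PO_WW p T) (PO_FF p T)
  · intro T
    rw [FA1_FT, FA1_GT]
    exact A1 p hp T
  · rw [FA1_FT, FA1_GT]
    exact A2 p hp
  · show (FF ℚ_[p]) ^ 2 + (FF ℚ_[p] * th (GG ℚ_[p]) - GG ℚ_[p] * th (FF ℚ_[p]))
      = FF ℚ_[p] * CB ℚ_[p]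
    rw [Z5', ← FA1_WW]
    ring

theorem fam1_ode : (fam1 p).Ode (PD ℚ_[p]) (4 * X + 60 * X ^ 2) := by
  refine ⟨?_, ?_, ?_, ?_⟩
  · simp [PD]
  · simp
  · exact Z3 ℚ_[p]
  · show PD ℚ_[p] * (2 * FF ℚ_[p] * th (th (FF ℚ_[p])) - (th (FF ℚ_[p])) ^ 2)
      + th (PD ℚ_[p]) * FF ℚ_[p] * th (FF ℚ_[p]) = (4 * X + 60 * X ^ 2) * (FF ℚ_[p]) ^ 2
    have h := Z2 ℚ_[p]
    rw [th_PD ℚ_[p]]
    linear_combination h

end Pool.Agent.Lib_helper91.TX
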