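import Pool.Agent.Lib_helper91.TX.Defs
import Pool.Agent.Lib_helper91.TN.ThApi
import Pool.Agent.Lib_helper91.TN.Z5

namespace Pool.Agent.Lib_helper91.TX

open PowerSeries Finset Pool.Agent.Lib_helper91.TN

section

variable (K : Type) [Field K] [CharZero K]

/-- `∑ cc k X^k` -/
noncomputable def F2 : PowerSeries K := PowerSeries.mk fun k => (cc k : K)
/-- `∑ gc k X^k` -/
noncomputable def G2 : PowerSeries K := PowerSeries.mk fun k => gc K k

theorem TX_Z2_ccfac (n : ℕ) : cc n * (n.factorial) ^ 4 = (4 * n).factorial := by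
  have h1 := Nat.choose_mul_factorial_mul_factorial (show 2 * n ≤ 4 * n by omega)
  have h2 := Nat.choose_mul_factorial_mul_factorial (show n ≤ 2 * n by omega)
  have e1 : 4 * n - 2 * n = 2 * n := by omega
  have e2 : 2 * n - n = n := by omega
  rw [e1] at h1
  rw [e2] at h2
  unfold cc
  calc (4 * n).choose (2 * n) * (2 * n).choose n ^ 2 * n.factorial ^ 4
      = (4 * n).choose (2 * n) * ((2 * n).choose n * n.factorial * n.factorial)
        * ((2 * n).choose n * n.factorial * n.factorial) := by ring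
    _ = (4 * n).factorial := by rw [h2, h1]

theorem TX_Z2_cc_rec (n : ℕ) : (n + 1) ^ 3 * cc (n + 1)
    = (256 * n ^ 3 + 384 * n ^ 2 + 176 * n + 24) * cc n := by
  have h1 := TX_Z2_ccfac n
  have h2 := TX_Z2_ccfac (n + 1)
  have e1 : (4 * (n + 1)).factorial
      = (4 * n + 4) * ((4 * n + 3) * ((4 * n + 2) * ((4 * n + 1) * (4 * n).factorial))) := by
    rw [show 4 * (n + 1) = 4 * n + 3 + 1 by ring, Nat.factorial_succ, Nat.factorial_succ,
      Nat.factorial_succ, Nat.factorial_succ]
  have e2 : (n + 1).factorial = (n + 1) * n.factorial := Nat.factorial_succ n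
  rw [e1, e2, ← h1] at h2
  have h3 : 0 < (n + 1) * (n.factorial) ^ 4 := by positivity
  apply Nat.eq_of_mul_eq_mul_left h3
  calc (n + 1) * n.factorial ^ 4 * ((n + 1) ^ 3 * cc (n + 1))
      = cc (n + 1) * ((n + 1) * n.factorial) ^ 4 := by ring
    _ = (4 * n + 4) * ((4 * n + 3) * ((4 * n + 2) * ((4 * n + 1) * (cc n * n.factorial ^ 4)))) := h2
    _ = (n + 1) * n.factorial ^ 4 * ((256 * n ^ 3 + 384 * n ^ 2 + 176 * n + 24) * cc n) := by ring

omit [CharZero K] in
theorem TX_Z2_cc_recK (n : ℕ) : ((n : K) + 1) ^ 3 * (cc (n + 1) : K)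
    = (256 * (n : K) ^ 3 + 384 * (n : K) ^ 2 + 176 * (n : K) + 24) * (cc n : K) := by
  exact_mod_cast congrArg (Nat.cast (R := K)) (TX_Z2_cc_rec n)

theorem TX_Z2_gc_rec (n : ℕ) : ((n : K) + 1) ^ 3 * gc K (n + 1) + 3 * ((n : K) + 1) ^ 2 * (cc (n + 1) : K)
    = (256 * (n : K) ^ 3 + 384 * (n : K) ^ 2 + 176 * (n : K) + 24) * gc K n
      + (768 * (n : K) ^ 2 + 768 * (n : K) + 176) * (cc n : K) := by
  have hn1 : (n : K) + 1 ≠ 0 := by exact_mod_cast Nat.succ_ne_zero n
  have h41 : 4 * (n : K) + 1 ≠ 0 := by exact_mod_cast Nat.succ_ne_zero (4 * n)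
  have h42 : 4 * (n : K) + 2 ≠ 0 := by exact_mod_cast Nat.succ_ne_zero (4 * n + 1)
  have h43 : 4 * (n : K) + 3 ≠ 0 := by exact_mod_cast Nat.succ_ne_zero (4 * n + 2)
  have h44 : 4 * (n : K) + 4 ≠ 0 := by exact_mod_cast Nat.succ_ne_zero (4 * n + 3)
  have e1 : Hn K (4 * (n + 1)) = Hn K (4 * n) + (4 * (n : K) + 1)⁻¹ + (4 * (n : K) + 2)⁻¹
      + (4 * (n : K) + 3)⁻¹ + (4 * (n : K) + 4)⁻¹ := by
    rw [show 4 * (n + 1) = 4 * n + 3 + 1 by ring, Z12_Hn_succ, Z12_Hn_succ, Z12_Hn_succ, Z12_Hn_succ]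
    push_cast
    congr 1
    · congr 1
      · congr 1
        congr 1
        ring
      · congr 1
        ring
    · congr 1
      ring
  have e2 : Hn K (n + 1) = Hn K n + ((n : K) + 1)⁻¹ := Z12_Hn_succ K n
  have h := TX_Z2_cc_recK K n
  unfold gc
  rw [e1, e2]
  have j1 : (4 * (n : K) + 1) * (4 * (n : K) + 1)⁻¹ = 1 := mul_inv_cancel₀ h41
  have j2 : (4 * (n : K) + 2) * (4 * (n : K) + 2)⁻¹ = 1 := mul_inv_cancel₀ h42
  have j3 : (4 * (n : K) + 3) * (4 * (n : K) + 3)⁻¹ = 1 := mul_inv_cancel₀ h43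
  have j0 : ((n : K) + 1) * ((n : K) + 1)⁻¹ = 1 := mul_inv_cancel₀ hn1
  have j4 : 4 * (4 * (n : K) + 4)⁻¹ = ((n : K) + 1)⁻¹ := by
    rw [show 4 * (n : K) + 4 = 4 * ((n : K) + 1) by ring, mul_inv, ← mul_assoc,
      mul_inv_cancel₀ (by norm_num : (4 : K) ≠ 0), one_mul]
  generalize (4 * (n : K) + 1)⁻¹ = i1 at *
  generalize (4 * (n : K) + 2)⁻¹ = i2 at *
  generalize (4 * (n : K) + 3)⁻¹ = i3 at *
  generalize (4 * (n : K) + 4)⁻¹ = i4 at *
  generalize ((n : K) + 1)⁻¹ = i0 at *
  generalize Hn K (4 * n) = a at *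
  generalize Hn K n = b at *
  generalize (cc n : K) = c at *
  generalize (cc (n + 1) : K) = c1 at *
  linear_combination (4 * (a - b + i1 + i2 + i3 + i4 - i0) + 3 * i0) * h
    + (16 * (4 * (n : K) + 2) * (4 * (n : K) + 3) * c) * j1
    + (16 * (4 * (n : K) + 1) * (4 * (n : K) + 3) * c) * j2
    + (16 * (4 * (n : K) + 1) * (4 * (n : K) + 2) * c) * j3
    + ((256 * (n : K) ^ 3 + 384 * (n : K) ^ 2 + 176 * (n : K) + 24) * c) * j4
    - (3 * ((n : K) + 1) ^ 2 * c1) * j0

/-- `(1 - 256 X) w² = 1` -/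
theorem Z2w : (CBs K 64) ^ 2 * (1 - 256 * X) = 1 := by
  have h := Z3_sq K 64
  have e1 : (C (4 * 64 : K) : PowerSeries K) = 256 := by
    rw [← map_ofNat (C : K →+* PowerSeries K) 256]
    congr 1
    norm_num
  rw [e1] at h
  exact h

theorem TX_Z2_F : (1 - 256 * X) * th (th (th (F2 K)))
    = X * (384 * th (th (F2 K)) + 176 * th (F2 K) + 24 * F2 K) := by
  have h : th (th (th (F2 K))) = X * (C (256 : K) * th (th (th (F2 K))) + C (384 : K) * th (th (F2 K))
      + C (176 : K) * th (F2 K) + C (24 : K) * F2 K) := by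
    ext n
    rcases n with _ | n
    · simp [coeff_th]
    · rw [coeff_succ_X_mul]
      simp only [map_add, coeff_C_mul, coeff_th, F2, coeff_mk]
      have h' := TX_Z2_cc_recK K n
      push_cast
      linear_combination h'
  have e256 : (256 : PowerSeries K) = C (256 : K) := (map_ofNat C 256).symm
  have e384 : (384 : PowerSeries K) = C (384 : K) := (map_ofNat C 384).symm
  have e176 : (176 : PowerSeries K) = C (176 : K) := (map_ofNat C 176).symm
  have e24 : (24 : PowerSeries K) = C (24 : K) := (map_ofNat C 24).symm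
  rw [e256, e384, e176, e24]
  linear_combination h

theorem TX_Z2_G : (1 - 256 * X) * th (th (th (G2 K)))
    = X * (384 * th (th (G2 K)) + 176 * th (G2 K) + 24 * G2 K)
      - (3 * th (th (F2 K)) - X * (768 * th (th (F2 K)) + 768 * th (F2 K) + 176 * F2 K)) := by
  have h : th (th (th (G2 K))) = X * (C (256 : K) * th (th (th (G2 K))) + C (384 : K) * th (th (G2 K))
      + C (176 : K) * th (G2 K) + C (24 : K) * G2 K
      + C (768 : K) * th (th (F2 K)) + C (768 : K) * th (F2 K) + C (176 : K) * F2 K)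
      - C (3 : K) * th (th (F2 K)) := by
    ext n
    rcases n with _ | n
    · simp [coeff_th, constantCoeff_th]
    · rw [map_sub, coeff_succ_X_mul]
      simp only [map_add, coeff_C_mul, coeff_th, F2, G2, coeff_mk]
      have h' := TX_Z2_gc_rec K n
      push_cast
      linear_combination h'
  have e256 : (256 : PowerSeries K) = C (256 : K) := (map_ofNat C 256).symm
  have e384 : (384 : PowerSeries K) = C (384 : K) := (map_ofNat C 384).symm
  have e176 : (176 : PowerSeries K) = C (176 : K) := (map_ofNat C 176).symm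
  have e24 : (24 : PowerSeries K) = C (24 : K) := (map_ofNat C 24).symm
  have e768 : (768 : PowerSeries K) = C (768 : K) := (map_ofNat C 768).symm
  have e3 : (3 : PowerSeries K) = C (3 : K) := (map_ofNat C 3).symm
  rw [e256, e384, e176, e24, e768, e3]
  linear_combination h

omit [CharZero K] in
theorem TX_Z2_thP : th (1 - 256 * X : PowerSeries K) = - (256 * X) := by
  simp only [th_mul, th_sub, th_one, th_X, th_ofNat]
  ring

/-- the differential equation -/
theorem Z2ode : (1 - 256 * X) * (2 * F2 K * th (th (F2 K)) - (th (F2 K)) ^ 2)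
    + th (1 - 256 * X) * F2 K * th (F2 K) = 48 * X * F2 K ^ 2 := by
  have h1 := TX_Z2_F K
  have h2 := TX_Z2_thP K
  rw [h2]
  apply th_ext
  · simp only [th_mul, th_sub, th_add, th_neg, th_pow, th_X, th_one, th_ofNat]
    push_cast
    simp only [pow_one]
    linear_combination (2 * F2 K) * h1
  · simp [constantCoeff_th]

omit [CharZero K] in
theorem TX_Z2_F0 : constantCoeff (F2 K) = 1 := by
  rw [← coeff_zero_eq_constantCoeff_apply, F2, coeff_mk]
  simp [cc]

omit [CharZero K] in
theorem TX_Z2_G0 : constantCoeff (G2 K) = 0 := by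
  rw [← coeff_zero_eq_constantCoeff_apply, G2, coeff_mk]
  simp [gc, Hn]

/-- the differential operator of order 3 -/
noncomputable def TX_Z2_L {K : Type} [Field K] (f : PowerSeries K) : PowerSeries K :=
  (1 - 256 * X) * th (th (th f)) - X * (384 * th (th f) + 176 * th f + 24 * f)

theorem TX_Z2_uniq {K : Type} [Field K] [CharZero K] {f : PowerSeries K} (h : TX_Z2_L f = 0)
    (h0 : constantCoeff f = 0) : f = 0 := by
  have e : th (th (th f)) = X * (256 * th (th (th f)) + 384 * th (th f) + 176 * th f + 24 * f) := by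
    unfold TX_Z2_L at h
    linear_combination h
  have h1 : ∀ n, coeff n f = 0 := by
    intro n
    induction n with
    | zero => rw [coeff_zero_eq_constantCoeff_apply, h0]
    | succ n ih =>
      have h2 := congrArg (coeff (n + 1)) e
      rw [coeff_succ_X_mul, map_add, map_add, map_add, Z5_coeff_ofNat_mul 256,
        Z5_coeff_ofNat_mul 384, Z5_coeff_ofNat_mul 176, Z5_coeff_ofNat_mul 24] at h2
      simp only [coeff_th] at h2
      rw [ih] at h2
      simp only [mul_zero, add_zero] at h2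
      have p1 : ((n + 1 : ℕ) : K) ≠ 0 := by exact_mod_cast Nat.succ_ne_zero n
      rcases mul_eq_zero.1 h2 with h3 | h3
      · exact absurd h3 p1
      · rcases mul_eq_zero.1 h3 with h3 | h3
        · exact absurd h3 p1
        · rcases mul_eq_zero.1 h3 with h3 | h3
          · exact absurd h3 p1
          · exact h3
  ext n
  rw [h1 n, map_zero]

theorem TX_Z2_LG : TX_Z2_L (G2 K)
    = - (3 * th (th (F2 K)) - X * (768 * th (th (F2 K)) + 768 * th (F2 K) + 176 * F2 K)) := by
  have h := TX_Z2_G K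
  unfold TX_Z2_L
  linear_combination h

theorem TX_Z2_LE {E W : PowerSeries K} (hE : th E = W - 1) (hWF : W * F2 K = CBs K 64) :
    TX_Z2_L (E * F2 K)
      = - (3 * th (th (F2 K)) - X * (768 * th (th (F2 K)) + 768 * th (F2 K) + 176 * F2 K)) := by
  have hF : constantCoeff (F2 K) ≠ 0 := by rw [TX_Z2_F0]; exact one_ne_zero
  have hF0 : F2 K ≠ 0 := by intro h; rw [h, map_zero] at hF; exact hF rfl
  have z3 := Z2w K
  have hB0 : CBs K 64 ≠ 0 := by
    intro h
    rw [h] at z3
    simp at z3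
  have z1 := TX_Z2_F K
  have z2 := Z2ode K
  have tP := TX_Z2_thP K
  rw [tP] at z2
  set F := F2 K with hFd
  set B := CBs K 64 with hBd
  have w1 : th W * F + W * th F = th B := by rw [← th_mul, hWF]
  have b1 : (1 - 256 * X) * th B = (128 * X) * B := by
    have h := congrArg th z3
    rw [th_mul, tP, th_one, sq, th_mul] at h
    have h2 : (2 * B) * ((1 - 256 * X) * th B - (128 * X) * B) = 0 := by linear_combination h
    rcases mul_eq_zero.1 h2 with h3 | h3
    · rcases mul_eq_zero.1 h3 with h4 | h4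
      · have h5 := congrArg constantCoeff h4
        rw [map_ofNat, map_zero] at h5
        exact absurd h5 two_ne_zero
      · exact absurd h4 hB0
    · exact sub_eq_zero.1 h3
  have b2 : (1 - 256 * X) * th (th B) = (384 * X) * th B + (128 * X) * B := by
    have h := congrArg th b1
    rw [th_mul, tP, th_mul, th_ofNat_mul, th_X] at h
    linear_combination h
  -- derivatives of `E F`
  have e1 : th (E * F) = B - F + E * th F := by
    rw [th_mul, hE]
    linear_combination hWF
  have e2 : th (th (E * F)) = th B - 2 * th F + W * th F + E * th (th F) := by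
    rw [e1, th_add, th_sub, th_mul, hE]
    ring
  have e3 : th (th (th (E * F))) = th (th B) - 3 * th (th F) + th W * th F + 2 * W * th (th F) +
      E * th (th (th F)) := by
    rw [e2, th_add, th_add, th_sub, th_ofNat_mul, th_mul, th_mul, hE]
    ring
  unfold TX_Z2_L
  rw [e3, e2, e1]
  have hF3 : F * F ≠ 0 := mul_ne_zero hF0 hF0
  -- multiply by `F²`
  have main : (F * F) * ((1 - 256 * X) * (th (th B) + th W * th F + 2 * W * th (th F)) -
      X * (384 * (th B + W * th F) + 176 * B)) = 0 := by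
    have w3 : F * F * th W = F * th B - B * th F := by
      linear_combination F * w1 - th F * hWF
    linear_combination (F * F) * b2 + (1 - 256 * X) * th F * w3 + F * th F * b1 + B * z2 +
      (F * ((1 - 256 * X) * 2 * th (th F) - 384 * X * th F)) * hWF
  have h4 := (mul_eq_zero.1 main).resolve_left hF3
  linear_combination h4 + E * z1

/-- the Wronskian -/
theorem Z2wr : F2 K ^ 2 + (F2 K * th (G2 K) - G2 K * th (F2 K)) = F2 K * CBs K 64 := by
  have hF : constantCoeff (F2 K) ≠ 0 := by rw [TX_Z2_F0]; exact one_ne_zero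
  have hWF : (CBs K 64 * (F2 K)⁻¹) * F2 K = CBs K 64 := by
    rw [mul_assoc, PowerSeries.inv_mul_cancel _ hF, mul_one]
  obtain ⟨E, hE0, hE⟩ := exists_th_eq (CBs K 64 * (F2 K)⁻¹ - 1) (by
    rw [map_sub, map_mul, constantCoeff_CBs, constantCoeff_inv, TX_Z2_F0, map_one]
    simp)
  have h1 := TX_Z2_LE K hE hWF
  have h2 := TX_Z2_LG K
  have h3 : TX_Z2_L (G2 K - E * F2 K) = 0 := by
    have h4 : TX_Z2_L (G2 K - E * F2 K) = TX_Z2_L (G2 K) - TX_Z2_L (E * F2 K) := by
      unfold TX_Z2_L
      simp only [th_sub]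
      ring
    rw [h4, h1, h2, sub_self]
  have h4 := TX_Z2_uniq h3 (by rw [map_sub, TX_Z2_G0, map_mul, hE0, zero_mul, sub_zero])
  have h5 : G2 K = E * F2 K := sub_eq_zero.1 h4
  rw [h5, th_mul, hE]
  linear_combination F2 K * hWF

end

end Pool.Agent.Lib_helper91.TX
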