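import Pool.Agent.Lib_helper91.TX.C2
import Pool.Agent.Lib_helper91.TX.Z2
import Pool.Agent.Lib_helper91.TN.GZ

namespace Pool.Agent.Lib_helper91.TX

open PowerSeries Finset Pool.Agent.Lib_helper91.TN

variable (p : ℕ) [Fact p.Prime]

theorem TX_FA2_trp_zero (f : PowerSeries ℚ_[p]) (n : ℕ) (h : p ≤ n) : coeff n (trp p f) = 0 := by
  rw [trp, coeff_mk, if_neg (Nat.not_lt.mpr h)]

theorem TX_FA2_coeff_trp (f : PowerSeries ℚ_[p]) (n : ℕ) : coeff (n % p) (trp p f) = coeff (n % p) f := by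
  have hp0 : 0 < p := (Fact.out : p.Prime).pos
  rw [trp, coeff_mk, if_pos (Nat.mod_lt n hp0)]

theorem TX_FA2_coeff_p_mul (f : PowerSeries ℚ_[p]) (n : ℕ) :
    coeff n ((p : PowerSeries ℚ_[p]) * f) = (p : ℚ_[p]) * coeff n f := by
  have h : (p : PowerSeries ℚ_[p]) = C (p : ℚ_[p]) := (map_natCast C p).symm
  rw [h, coeff_C_mul]

theorem TX_FA2_F : (fam2 p).F = F2 ℚ_[p] := rfl
theorem TX_FA2_G : (fam2 p).G = G2 ℚ_[p] := rfl
theorem TX_FA2_w : (fam2 p).w = CBs ℚ_[p] 64 := rfl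
theorem TX_FA2_FT : (fam2 p).FT = trp p (F2 ℚ_[p]) := rfl
theorem TX_FA2_GT : (fam2 p).GT = trp p (G2 ℚ_[p]) := rfl

theorem TX_FA2_coeff_F (n : ℕ) : coeff n (F2 ℚ_[p]) = (cc n : ℚ_[p]) := by
  rw [F2, coeff_mk]

theorem TX_FA2_coeff_G (n : ℕ) : coeff n (G2 ℚ_[p]) = gc ℚ_[p] n := by
  rw [G2, coeff_mk]

theorem TX_FA2_a1 (hp : 3 < p) (T : ℕ) :
    PO 2 T ((fam2 p).F - ((fam2 p).FT * ph p ℚ_[p] (fam2 p).F
      + (p : PowerSeries ℚ_[p]) * (fam2 p).GT * ph p ℚ_[p] (th (fam2 p).F))) := by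
  rw [TX_FA2_F, TX_FA2_FT, TX_FA2_GT]
  intro n _
  have hp0 : 0 < p := (Fact.out : p.Prime).pos
  have h := C2a p hp (n % p) (n / p) (Nat.mod_lt n hp0)
  rw [Nat.mod_add_div] at h
  rw [map_sub, map_add, mul_assoc, TX_FA2_coeff_p_mul, coeff_mul_ph p _ _ (TX_FA2_trp_zero p _),
    coeff_mul_ph p _ _ (TX_FA2_trp_zero p _), TX_FA2_coeff_trp, TX_FA2_coeff_trp, coeff_th,
    TX_FA2_coeff_F, TX_FA2_coeff_F, TX_FA2_coeff_F, TX_FA2_coeff_G]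
  convert h using 1
  ring

theorem TX_FA2_a2 (hp : 3 < p) :
    PO 2 (T0 p) ((p : PowerSeries ℚ_[p]) * (fam2 p).G - ((fam2 p).FT * ph p ℚ_[p] (fam2 p).G
      + (p : PowerSeries ℚ_[p]) * (fam2 p).GT
        * (ph p ℚ_[p] (fam2 p).F + ph p ℚ_[p] (th (fam2 p).G)))) := by
  rw [TX_FA2_F, TX_FA2_G, TX_FA2_FT, TX_FA2_GT]
  intro n hn
  have hp0 : 0 < p := (Fact.out : p.Prime).pos
  have h2 : n / p < p := Nat.div_lt_of_lt_mul hn
  have h := C2b p hp (n % p) (n / p) (Nat.mod_lt n hp0) h2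
  rw [Nat.mod_add_div] at h
  rw [← map_add (ph p ℚ_[p]), map_sub, map_add, mul_assoc (p : PowerSeries ℚ_[p]),
    TX_FA2_coeff_p_mul, TX_FA2_coeff_p_mul, coeff_mul_ph p _ _ (TX_FA2_trp_zero p _),
    coeff_mul_ph p _ _ (TX_FA2_trp_zero p _), TX_FA2_coeff_trp, TX_FA2_coeff_trp, map_add, coeff_th,
    TX_FA2_coeff_F, TX_FA2_coeff_F, TX_FA2_coeff_G, TX_FA2_coeff_G, TX_FA2_coeff_G]
  convert h using 1
  ring

theorem fam2_ok (hp : 3 < p) : (fam2 p).Ok where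
  F0 := TX_Z2_F0 ℚ_[p]
  G0 := TX_Z2_G0 ℚ_[p]
  w0 := constantCoeff_CBs 64
  iF := by
    intro T n _
    rw [TX_FA2_F, TX_FA2_coeff_F]
    exact PI_natCast _
  iG := by
    intro n hn
    rw [TX_FA2_G, TX_FA2_coeff_G]
    exact C2i p hp n hn
  iw := by
    intro T
    rw [TX_FA2_w]
    have h := GZ_CBs p T 64
    simpa using h
  a1 := TX_FA2_a1 p hp
  a2 := TX_FA2_a2 p hp
  wr := Z2wr ℚ_[p]

theorem fam2_ode : (fam2 p).Ode (1 - 256 * X) (48 * X) where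
  P0 := by simp
  B0 := by simp
  wP := Z2w ℚ_[p]
  ode := Z2ode ℚ_[p]

end Pool.Agent.Lib_helper91.TX
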