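import Pool.Agent.Lib_helper91.TX.Defs
import Pool.Agent.Lib_helper91.TN.A4
import Pool.Agent.Lib_helper91.TN.A5
import Pool.Agent.Lib_helper91.TN.JJ

namespace Pool.Agent.Lib_helper91.TX

open PowerSeries Finset Pool.Agent.Lib_helper91.TN

variable (p : ℕ) [Fact p.Prime]

section GJJone

variable {p}
variable (A : Fam p) (h : A.Ok)

include h

theorem GJJ_trp_PO (f : PowerSeries ℚ_[p]) (hf : PO 0 (nz p) f) (T : ℕ) : PO 0 T (trp p f) := by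
  intro n _
  unfold trp
  rw [coeff_mk]
  split_ifs with h1
  · exact hf n h1
  · exact PI_zero 0

theorem GJJ_FT0 : constantCoeff A.FT = 1 := by
  have hp : 0 < p := Nat.Prime.pos Fact.out
  unfold Fam.FT trp
  rw [← coeff_zero_eq_constantCoeff_apply, coeff_mk, if_pos hp, coeff_zero_eq_constantCoeff_apply, h.F0]

theorem GJJ_PO_FT (T : ℕ) : PO 0 T A.FT := GJJ_trp_PO A h _ (h.iF _) T

theorem GJJ_PO_GT (T : ℕ) : PO 0 T A.GT := GJJ_trp_PO A h _ h.iG T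

theorem GJJ_PO_RR (T : ℕ) : PO 0 T A.RR :=
  PO_mul_left (GJJ_PO_GT A h T) (PO_inv (GJJ_PO_FT A h T) (by rw [GJJ_FT0 A h, norm_one]))

theorem GJJ_F0' : constantCoeff A.F ≠ 0 := by rw [h.F0]; exact one_ne_zero

theorem GJJ_PO_W (T : ℕ) : PO 0 T A.W :=
  PO_mul_left (h.iw T) (PO_inv (h.iF T) (by rw [h.F0, norm_one]))

theorem GJJ_PO_E : PO 0 (nz p) A.E :=
  PO_mul_left h.iG (PO_inv (h.iF _) (by rw [h.F0, norm_one]))

theorem GJJ_EF : A.E * A.F = A.G := by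
  unfold Fam.E
  rw [mul_assoc, PowerSeries.inv_mul_cancel _ (GJJ_F0' A h), mul_one]

theorem GJJ_WF : A.W * A.F = A.w := by
  unfold Fam.W
  rw [mul_assoc, PowerSeries.inv_mul_cancel _ (GJJ_F0' A h), mul_one]

theorem GJJ_RF : A.RR * A.FT = A.GT := by
  unfold Fam.RR
  rw [mul_assoc, PowerSeries.inv_mul_cancel _ (by rw [GJJ_FT0 A h]; exact one_ne_zero), mul_one]

theorem GJJ_W0 : constantCoeff A.W = 1 := by
  unfold Fam.W
  rw [map_mul, h.w0, PowerSeries.constantCoeff_inv, h.F0, inv_one, mul_one]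

theorem GJJ_E0 : constantCoeff A.E = 0 := by
  unfold Fam.E
  rw [map_mul, h.G0, zero_mul]

theorem GJJ_Z5' : A.F ^ 2 + (A.F * th A.G - A.G * th A.F) = A.F ^ 2 * A.W := by
  rw [h.wr, ← GJJ_WF A h]
  ring

theorem GJJ_Z5 : th A.E = A.W - 1 := by
  have hF : A.F ≠ 0 := by
    intro h0
    have := GJJ_F0' A h
    rw [h0, map_zero] at this
    exact this rfl
  have h1 : th A.E * A.F + A.E * th A.F = th A.G := by
    rw [← th_mul, GJJ_EF A h]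
  have h2 := GJJ_Z5' A h
  have h3 := GJJ_EF A h
  have h4 : A.F ^ 2 * th A.E = A.F ^ 2 * (A.W - 1) := by
    linear_combination A.F * h1 + h2 - th A.F * h3
  exact mul_left_cancel₀ (pow_ne_zero 2 hF) h4

theorem GJJ_A3 :
    PO 2 (T0 p) ((p : PowerSeries ℚ_[p]) * A.E - ph p ℚ_[p] A.E
      - (p : PowerSeries ℚ_[p]) * A.RR * ph p ℚ_[p] A.W) := by
  have h1 : A.E * A.F = A.G := GJJ_EF A h
  have h2 : ph p ℚ_[p] A.E * ph p ℚ_[p] A.F = ph p ℚ_[p] A.G := by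
    rw [← map_mul, h1]
  have h3 : A.RR * A.FT = A.GT := GJJ_RF A h
  have h4 : ph p ℚ_[p] A.F ^ 2 + (ph p ℚ_[p] A.F * ph p ℚ_[p] (th A.G)
      - ph p ℚ_[p] A.G * ph p ℚ_[p] (th A.F)) =
      ph p ℚ_[p] A.F ^ 2 * ph p ℚ_[p] A.W := by
    have h := congrArg (ph p ℚ_[p]) (GJJ_Z5' A h)
    simpa only [map_add, map_mul, map_sub, map_pow] using h
  have key := A3_alg (p : PowerSeries ℚ_[p]) A.F (ph p ℚ_[p] A.F) A.E
    (ph p ℚ_[p] A.E) A.G (ph p ℚ_[p] A.G) A.FT A.GT A.RR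
    (ph p ℚ_[p] A.W) (ph p ℚ_[p] (th A.F)) (ph p ℚ_[p] (th A.G))
    h1 h2 h3 h4
  have e1 := h.a1 (T0 p)
  have e2 := h.a2
  have hle : T0 p ≤ p * nz p := le_refl _
  have iF : PO 0 (T0 p) A.F := h.iF _
  have ifF : PO 0 (T0 p) (ph p ℚ_[p] A.F) := PO_ph hle (h.iF _)
  have ifG : PO 0 (T0 p) (ph p ℚ_[p] A.G) := PO_ph hle h.iG
  have ifW : PO 0 (T0 p) (ph p ℚ_[p] A.W) := PO_ph hle (GJJ_PO_W A h _)
  have iftF : PO 0 (T0 p) (ph p ℚ_[p] (th A.F)) := PO_ph hle (PO_th (h.iF _))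
  have iR : PO 0 (T0 p) A.RR := GJJ_PO_RR A h _
  have iG : PO 0 (T0 p) A.GT := GJJ_PO_GT A h _
  have ip : PO 1 (T0 p) (p : PowerSeries ℚ_[p]) := PO_p _
  have ip0 : PO 0 (T0 p) (p : PowerSeries ℚ_[p]) := PO_mono (Nat.zero_le 1) le_rfl ip
  have ip2 : PO 2 (T0 p) ((p : PowerSeries ℚ_[p]) ^ 2) := by
    rw [sq]
    exact PO_mul ip ip
  have hD : PO 2 (T0 p) (A.F * ph p ℚ_[p] A.F *
      ((p : PowerSeries ℚ_[p]) * A.E - ph p ℚ_[p] A.E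
      - (p : PowerSeries ℚ_[p]) * A.RR * ph p ℚ_[p] A.W)) := by
    rw [key]
    refine PO_sub (PO_sub (PO_sub ?_ ?_) ?_) ?_
    · exact PO_mul_right e2 ifF
    · exact PO_mul_right e1 ifG
    · exact PO_mul_right ip2
        (PO_mul_left (PO_mul_left (PO_mul_left (PO_mul_left iR ifW) ifF) iG) iftF)
    · exact PO_mul_left (PO_mul_left (PO_mul_left (PO_mul_left ip0 iR) ifW) ifF) e1
  refine PO_of_mul (PO_mul_left iF ifF) ?_ hD
  rw [map_mul, constantCoeff_ph, h.F0, mul_one, norm_one]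

theorem GJJ_A6_main (e : ℕ) (g : PowerSeries ℚ_[p]) (he : 1 ≤ e)
    (hg0 : constantCoeff g = 1) (hg : ∀ T, PO 0 T g) (η : PowerSeries ℚ_[p])
    (hη : ∀ T, PO 0 T η)
    (hδ : g ^ p * (ph p ℚ_[p] g)⁻¹ - 1 = (p : PowerSeries ℚ_[p]) * η) :
    PO 2 (T0 p) ((p : PowerSeries ℚ_[p]) * cmp A.E (X ^ e * g)
        - ph p ℚ_[p] (cmp A.E (X ^ e * g))
        - (p : PowerSeries ℚ_[p]) * cmp A.RR (X ^ e * g)
          * ph p ℚ_[p] (cmp A.W (X ^ e * g))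
        - (p : PowerSeries ℚ_[p]) * η * (ph p ℚ_[p] (cmp A.W (X ^ e * g)) - 1)) := by
  set z := X ^ e * g with hz
  have hz0 : constantCoeff z = 0 := by
    rw [hz, map_mul, map_pow, constantCoeff_X, zero_pow (by omega), zero_mul]
  have hzI : ∀ T, PO 0 T z := fun T => PO_mul_left (PO_X_pow e T) (hg T)
  set y := ph p ℚ_[p] z with hy
  have hyX : X ^ p ∣ y := by
    refine ⟨X ^ (p * (e - 1)) * ph p ℚ_[p] g, ?_⟩
    rw [hy, hz, map_mul, map_pow, ph_X, ← mul_assoc, ← pow_add, ← pow_mul]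
    congr 2
    obtain ⟨e', rfl⟩ : ∃ e', e = e' + 1 := ⟨e - 1, by omega⟩
    rw [Nat.add_sub_cancel]
    ring
  have hyI : ∀ T, PO 0 T y := fun T =>
    PO_ph (n0 := T) (by nlinarith [Nat.Prime.one_lt (Fact.out : p.Prime)]) (hzI T)
  have hyz : z ^ p = y * (1 + (p : PowerSeries ℚ_[p]) * η) := by
    rw [← hδ, hy, hz, map_mul, map_pow, ph_X, mul_pow]
    have hu := A6_unit p g hg0
    have : ph p ℚ_[p] g * (1 + (g ^ p * (ph p ℚ_[p] g)⁻¹ - 1)) = g ^ p := by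
      calc ph p ℚ_[p] g * (1 + (g ^ p * (ph p ℚ_[p] g)⁻¹ - 1))
          = (ph p ℚ_[p] g * (ph p ℚ_[p] g)⁻¹) * g ^ p := by ring
        _ = g ^ p := by rw [hu, one_mul]
    rw [mul_assoc, this]
    congr 1
    rw [← pow_mul, ← pow_mul, mul_comm]
  -- A3 composed with z
  have h3 := PO_cmp (z := z) hz0 (GJJ_A3 A h) (hzI _)
  rw [cmp_sub _ _ _ hz0, cmp_sub _ _ _ hz0, cmp_mul _ _ _ hz0, cmp_mul _ _ _ hz0,
    cmp_mul _ _ _ hz0, cmp_natCast _ _ hz0, cmp_ph _ _ _ hz0, cmp_ph _ _ _ hz0, hyz] at h3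
  -- A5 for E and A5' for W
  have h5 := A5 p A.E y η (nz p) (GJJ_PO_E A h) hyI hη hyX
  have h5' := A5' p A.W y η (nz p) (GJJ_PO_W A h _) hyI hη hyX
  have hy0 := A5_const p y hyX
  rw [GJJ_Z5 A h, cmp_sub _ _ _ hy0, cmp_one _ hy0] at h5
  rw [show p * nz p = T0 p from rfl] at h5 h5'
  rw [ph_cmp _ _ _ hz0, ph_cmp _ _ _ hz0, ← hy]
  have h6 : PO 2 (T0 p) ((p : PowerSeries ℚ_[p]) * cmp A.RR z
      * (cmp A.W (y * (1 + (p : PowerSeries ℚ_[p]) * η)) - cmp A.W y)) :=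
    PO_mul (PO_mul_right (PO_p _) (PO_cmp hz0 (GJJ_PO_RR A h _) (hzI _))) h5'
  have e : (p : PowerSeries ℚ_[p]) * cmp A.E z - cmp A.E y
        - (p : PowerSeries ℚ_[p]) * cmp A.RR z * cmp A.W y
        - (p : PowerSeries ℚ_[p]) * η * (cmp A.W y - 1)
      = ((p : PowerSeries ℚ_[p]) * cmp A.E z
          - cmp A.E (y * (1 + (p : PowerSeries ℚ_[p]) * η))
          - (p : PowerSeries ℚ_[p]) * cmp A.RR z
            * cmp A.W (y * (1 + (p : PowerSeries ℚ_[p]) * η)))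
        + (cmp A.E (y * (1 + (p : PowerSeries ℚ_[p]) * η))
          - (cmp A.E y + (p : PowerSeries ℚ_[p]) * η * (cmp A.W y - 1)))
        + (p : PowerSeries ℚ_[p]) * cmp A.RR z
          * (cmp A.W (y * (1 + (p : PowerSeries ℚ_[p]) * η)) - cmp A.W y) := by
    ring
  rw [e]
  exact PO_add (PO_add h3 h5) h6

theorem GJJ_A6 (hp : 3 < p) (e : ℕ) (he : 1 ≤ e) (g lam : PowerSeries ℚ_[p])
    (hg0 : constantCoeff g = 1) (hg : ∀ T, PO 0 T g) (hl0 : constantCoeff lam = 0)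
    (hl : th lam * g = th g) :
    PO 2 (T0 p) ((p : PowerSeries ℚ_[p]) * (lam + cmp A.E (X ^ e * g))
        - ph p ℚ_[p] (lam + cmp A.E (X ^ e * g))
      - ((p : PowerSeries ℚ_[p]) * cmp A.RR (X ^ e * g) + (g ^ p * (ph p ℚ_[p] g)⁻¹ - 1))
        * ph p ℚ_[p] (cmp A.W (X ^ e * g))) := by
  obtain ⟨η, hη, hδ⟩ := A6_eta p g hg0 hg
  have h1 := A4 p (by omega) g lam hg0 hg hl0 hl (T0 p)
  have h2 := GJJ_A6_main A h e g he hg0 hg η hη hδ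
  rw [hδ] at h1 ⊢
  have e3 : (p : PowerSeries ℚ_[p]) * (lam + cmp A.E (X ^ e * g))
        - ph p ℚ_[p] (lam + cmp A.E (X ^ e * g))
      - ((p : PowerSeries ℚ_[p]) * cmp A.RR (X ^ e * g) + (p : PowerSeries ℚ_[p]) * η)
        * ph p ℚ_[p] (cmp A.W (X ^ e * g))
      = ((p : PowerSeries ℚ_[p]) * lam - ph p ℚ_[p] lam - (p : PowerSeries ℚ_[p]) * η)
        + ((p : PowerSeries ℚ_[p]) * cmp A.E (X ^ e * g)
        - ph p ℚ_[p] (cmp A.E (X ^ e * g))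
        - (p : PowerSeries ℚ_[p]) * cmp A.RR (X ^ e * g)
          * ph p ℚ_[p] (cmp A.W (X ^ e * g))
        - (p : PowerSeries ℚ_[p]) * η * (ph p ℚ_[p] (cmp A.W (X ^ e * g)) - 1)) := by
    rw [map_add]
    ring
  rw [e3]
  exact PO_add h1 h2

/-- the derivative of `λ + E(z)` -/
theorem GJJ_der (e : ℕ) (he : 1 ≤ e) (g l lam : PowerSeries ℚ_[p]) (hg0 : constantCoeff g = 1)
    (hl : l * g = (e : PowerSeries ℚ_[p]) * g + th g) (hlam : th lam * g = th g) :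
    th (lam + cmp A.E (X ^ e * g)) =
      l * cmp A.W (X ^ e * g) - (e : PowerSeries ℚ_[p]) := by
  have hz0 : constantCoeff (X ^ e * g) = 0 := by
    rw [map_mul, map_pow, constantCoeff_X, zero_pow (by omega), zero_mul]
  have hg : g ≠ 0 := by
    rintro rfl
    rw [map_zero] at hg0
    exact zero_ne_one hg0
  have h1 : th lam = l - (e : PowerSeries ℚ_[p]) := by
    apply mul_right_cancel₀ hg
    rw [hlam, sub_mul, hl]
    ring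
  have h3 := JJ_th p e he g l hl A.E
  rw [GJJ_Z5 A h, cmp_sub _ _ _ hz0, cmp_one _ hz0] at h3
  rw [th_add, h1, h3]
  ring

/-- the relation `F(z) ≡ FT(z) φ(F(z)) + b φ((θF)(z))` -/
theorem GJJ_E (e : ℕ) (he : 1 ≤ e) (g : PowerSeries ℚ_[p])
    (hg0 : constantCoeff g = 1) (hg : ∀ T, PO 0 T g) :
    PO 2 (T0 p) (cmp A.F (X ^ e * g)
      - (cmp A.FT (X ^ e * g) * ph p ℚ_[p] (cmp A.F (X ^ e * g))
        + ((g ^ p * (ph p ℚ_[p] g)⁻¹ - 1) * cmp A.FT (X ^ e * g)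
            + (p : PowerSeries ℚ_[p]) * cmp A.GT (X ^ e * g))
          * ph p ℚ_[p] (cmp (th A.F) (X ^ e * g)))) := by
  obtain ⟨η, hη, hδ⟩ := A6_eta p g hg0 hg
  rw [hδ]
  set z := X ^ e * g with hz
  have hz0 : constantCoeff z = 0 := by
    rw [hz, map_mul, map_pow, constantCoeff_X, zero_pow (by omega), zero_mul]
  have hzI : ∀ T, PO 0 T z := fun T => PO_mul_left (PO_X_pow e T) (hg T)
  set y := ph p ℚ_[p] z with hy
  have hyX : X ^ p ∣ y := by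
    refine ⟨X ^ (p * (e - 1)) * ph p ℚ_[p] g, ?_⟩
    rw [hy, hz, map_mul, map_pow, ph_X, ← mul_assoc, ← pow_add, ← pow_mul]
    congr 2
    obtain ⟨e', rfl⟩ : ∃ e', e = e' + 1 := ⟨e - 1, by omega⟩
    rw [Nat.add_sub_cancel]
    ring
  have hyI : ∀ T, PO 0 T y := fun T =>
    PO_ph (n0 := T) (by nlinarith [Nat.Prime.one_lt (Fact.out : p.Prime)]) (hzI T)
  have hyz : z ^ p = y * (1 + (p : PowerSeries ℚ_[p]) * η) := by
    rw [← hδ, hy, hz, map_mul, map_pow, ph_X, mul_pow]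
    have hu := A6_unit p g hg0
    have : ph p ℚ_[p] g * (1 + (g ^ p * (ph p ℚ_[p] g)⁻¹ - 1)) = g ^ p := by
      calc ph p ℚ_[p] g * (1 + (g ^ p * (ph p ℚ_[p] g)⁻¹ - 1))
          = (ph p ℚ_[p] g * (ph p ℚ_[p] g)⁻¹) * g ^ p := by ring
        _ = g ^ p := by rw [hu, one_mul]
    rw [mul_assoc, this]
    congr 1
    rw [← pow_mul, ← pow_mul, mul_comm]
  have h1 := PO_cmp (z := z) hz0 (h.a1 (T0 p)) (hzI _)
  rw [cmp_sub _ _ _ hz0, cmp_add _ _ _ hz0, cmp_mul _ _ _ hz0, cmp_mul _ _ _ hz0,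
    cmp_mul _ _ _ hz0, cmp_natCast _ _ hz0, cmp_ph _ _ _ hz0, cmp_ph _ _ _ hz0, hyz] at h1
  have h5 := A5 p A.F y η (nz p) (h.iF _) hyI hη hyX
  have h5' := A5' p (th A.F) y η (nz p) (PO_th (h.iF _)) hyI hη hyX
  rw [show p * nz p = T0 p from rfl] at h5 h5'
  rw [ph_cmp _ _ _ hz0, ph_cmp _ _ _ hz0, ← hy]
  have h6 : PO 2 (T0 p) (cmp A.FT z * (cmp A.F (y * (1 + (p : PowerSeries ℚ_[p]) * η))
      - (cmp A.F y + (p : PowerSeries ℚ_[p]) * η * cmp (th A.F) y))) :=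
    PO_mul_left (PO_cmp hz0 (GJJ_PO_FT A h _) (hzI _)) h5
  have h7 : PO 2 (T0 p) ((p : PowerSeries ℚ_[p]) * cmp A.GT z
      * (cmp (th A.F) (y * (1 + (p : PowerSeries ℚ_[p]) * η)) - cmp (th A.F) y)) :=
    PO_mul (PO_mul_right (PO_p _) (PO_cmp hz0 (GJJ_PO_GT A h _) (hzI _))) h5'
  have e8 : cmp A.F z - (cmp A.FT z * cmp A.F y
        + ((p : PowerSeries ℚ_[p]) * η * cmp A.FT z + (p : PowerSeries ℚ_[p]) * cmp A.GT z)
          * cmp (th A.F) y)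
      = (cmp A.F z
          - (cmp A.FT z * cmp A.F (y * (1 + (p : PowerSeries ℚ_[p]) * η))
            + (p : PowerSeries ℚ_[p]) * cmp A.GT z
              * cmp (th A.F) (y * (1 + (p : PowerSeries ℚ_[p]) * η))))
        + cmp A.FT z * (cmp A.F (y * (1 + (p : PowerSeries ℚ_[p]) * η))
          - (cmp A.F y + (p : PowerSeries ℚ_[p]) * η * cmp (th A.F) y))
        + (p : PowerSeries ℚ_[p]) * cmp A.GT z
          * (cmp (th A.F) (y * (1 + (p : PowerSeries ℚ_[p]) * η))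
            - cmp (th A.F) y) := by
    ring
  rw [e8]
  exact PO_add (PO_add h1 h6) h7

theorem GJJ_RRc (e : ℕ) (he : 1 ≤ e) (g : PowerSeries ℚ_[p]) :
    cmp A.RR (X ^ e * g) * cmp A.FT (X ^ e * g) = cmp A.GT (X ^ e * g) := by
  have hz0 : constantCoeff (X ^ e * g) = 0 := by
    rw [map_mul, map_pow, constantCoeff_X, zero_pow (by omega), zero_mul]
  rw [← cmp_mul _ _ _ hz0]
  congr 1
  exact GJJ_RF A h

end GJJone

/-- the relation between `RR` of the two families -/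
theorem GJJ_A7 (hp : 3 < p) (A1 A2 : Fam p) (h1 : A1.Ok) (h2 : A2.Ok) (e1 e2 : ℕ)
    (he1 : 1 ≤ e1) (he2 : 1 ≤ e2) (hp2 : ¬ p ∣ e2)
    (g1 g2 l1 l2 : PowerSeries ℚ_[p])
    (h10 : constantCoeff g1 = 1) (h20 : constantCoeff g2 = 1)
    (hg1 : ∀ T, PO 0 T g1) (hg2 : ∀ T, PO 0 T g2)
    (hl1 : l1 * g1 = (e1 : PowerSeries ℚ_[p]) * g1 + th g1)
    (hl2 : l2 * g2 = (e2 : PowerSeries ℚ_[p]) * g2 + th g2)
    (hp1 : ¬ p ∣ e1)
    (hW : (e1 : PowerSeries ℚ_[p]) * l2 * cmp A2.W (X ^ e2 * g2)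
      = (e2 : PowerSeries ℚ_[p]) * l1 * cmp A1.W (X ^ e1 * g1)) :
    PO 2 (T0 p)
      (((p : PowerSeries ℚ_[p]) * cmp A2.RR (X ^ e2 * g2) + (g2 ^ p * (ph p ℚ_[p] g2)⁻¹ - 1))
          * ph p ℚ_[p] l1
        - ((p : PowerSeries ℚ_[p]) * cmp A1.RR (X ^ e1 * g1) + (g1 ^ p * (ph p ℚ_[p] g1)⁻¹ - 1))
          * ph p ℚ_[p] l2) := by
  obtain ⟨lam1, hlam10, hlam1⟩ := A7_lam p g1 h10
  obtain ⟨lam2, hlam20, hlam2⟩ := A7_lam p g2 h20
  have hz10 : constantCoeff (X ^ e1 * g1 : PowerSeries ℚ_[p]) = 0 := by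
    rw [map_mul, map_pow, constantCoeff_X, zero_pow (by omega), zero_mul]
  have hz20 : constantCoeff (X ^ e2 * g2 : PowerSeries ℚ_[p]) = 0 := by
    rw [map_mul, map_pow, constantCoeff_X, zero_pow (by omega), zero_mul]
  have hA1 := GJJ_der A1 h1 e1 he1 g1 l1 lam1 h10 hl1 hlam1
  have hA2 := GJJ_der A2 h2 e2 he2 g2 l2 lam2 h20 hl2 hlam2
  have h61 := GJJ_A6 A1 h1 hp e1 he1 g1 lam1 h10 hg1 hlam10 hlam1
  have h62 := GJJ_A6 A2 h2 hp e2 he2 g2 lam2 h20 hg2 hlam20 hlam2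
  set B1 := lam1 + cmp A1.E (X ^ e1 * g1) with hB1def
  set B2 := lam2 + cmp A2.E (X ^ e2 * g2) with hB2def
  have hB : (e1 : PowerSeries ℚ_[p]) * B2 = (e2 : PowerSeries ℚ_[p]) * B1 := by
    apply th_ext
    · rw [th_natCast_mul, th_natCast_mul, hA1, hA2]
      linear_combination hW
    · rw [map_mul, map_mul, hB1def, hB2def, map_add, map_add, hlam10, hlam20,
        constantCoeff_cmp _ _ hz10, constantCoeff_cmp _ _ hz20, GJJ_E0 A1 h1, GJJ_E0 A2 h2]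
      ring
  set c1 := (p : PowerSeries ℚ_[p]) * cmp A1.RR (X ^ e1 * g1) + (g1 ^ p * (ph p ℚ_[p] g1)⁻¹ - 1)
  set c2 := (p : PowerSeries ℚ_[p]) * cmp A2.RR (X ^ e2 * g2)
    + (g2 ^ p * (ph p ℚ_[p] g2)⁻¹ - 1)
  set W1 := cmp A1.W (X ^ e1 * g1)
  set W2 := cmp A2.W (X ^ e2 * g2)
  have hphI : ∀ (f : PowerSeries ℚ_[p]), (∀ T, PO 0 T f) → ∀ T, PO 0 T (ph p ℚ_[p] f) :=
    fun f hf T => PO_ph (n0 := T) (by nlinarith [Nat.Prime.one_lt (Fact.out : p.Prime)]) (hf T)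
  have hl1I := A7_int p e1 g1 l1 h10 hg1 hl1
  have hl2I := A7_int p e2 g2 l2 h20 hg2 hl2
  have hW2I : ∀ T, PO 0 T W2 := fun T =>
    PO_cmp hz20 (GJJ_PO_W A2 h2 T) (PO_mul_left (PO_X_pow e2 T) (hg2 T))
  have hl20 : constantCoeff l2 = (e2 : ℚ_[p]) := JJ_l0 p e2 g2 l2 h20 hl2
  -- the product with the unit
  have key : PO 2 (T0 p) ((e1 : PowerSeries ℚ_[p]) * ph p ℚ_[p] (l2 * W2)
      * (c2 * ph p ℚ_[p] l1 - c1 * ph p ℚ_[p] l2)) := by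
    have h7 : PO 2 (T0 p) (ph p ℚ_[p] l1 * ph p ℚ_[p] l2 *
        ((e2 : PowerSeries ℚ_[p]) * ((p : PowerSeries ℚ_[p]) * B1 - ph p ℚ_[p] B1
            - c1 * ph p ℚ_[p] W1)
          - (e1 : PowerSeries ℚ_[p]) * ((p : PowerSeries ℚ_[p]) * B2 - ph p ℚ_[p] B2
            - c2 * ph p ℚ_[p] W2))) :=
      PO_mul_left (PO_mul_left (hphI l1 hl1I _) (hphI l2 hl2I _))
        (PO_sub (PO_mul_left (PO_natCast e2 _) h61) (PO_mul_left (PO_natCast e1 _) h62))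
    have f1 : (e1 : PowerSeries ℚ_[p]) * ph p ℚ_[p] l2 * ph p ℚ_[p] W2
        = (e2 : PowerSeries ℚ_[p]) * ph p ℚ_[p] l1 * ph p ℚ_[p] W1 := by
      have := congrArg (ph p ℚ_[p]) hW
      simpa only [map_mul, map_natCast] using this
    have f2 : (e1 : PowerSeries ℚ_[p]) * ph p ℚ_[p] B2 = (e2 : PowerSeries ℚ_[p]) * ph p ℚ_[p] B1 := by
      have := congrArg (ph p ℚ_[p]) hB
      simpa only [map_mul, map_natCast] using this
    have e : (e1 : PowerSeries ℚ_[p]) * ph p ℚ_[p] (l2 * W2)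
        * (c2 * ph p ℚ_[p] l1 - c1 * ph p ℚ_[p] l2)
        = ph p ℚ_[p] l1 * ph p ℚ_[p] l2 *
        ((e2 : PowerSeries ℚ_[p]) * ((p : PowerSeries ℚ_[p]) * B1 - ph p ℚ_[p] B1
            - c1 * ph p ℚ_[p] W1)
          - (e1 : PowerSeries ℚ_[p]) * ((p : PowerSeries ℚ_[p]) * B2 - ph p ℚ_[p] B2
            - c2 * ph p ℚ_[p] W2)) := by
      rw [map_mul]
      linear_combination (-c1 * ph p ℚ_[p] l2) * f1
        + (ph p ℚ_[p] l1 * ph p ℚ_[p] l2 * (p : PowerSeries ℚ_[p])) * hB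
        - (ph p ℚ_[p] l1 * ph p ℚ_[p] l2) * f2
    rw [e]
    exact h7
  refine PO_of_mul (PO_mul_left (PO_natCast e1 _)
    (hphI _ (fun T => PO_mul_left (hl2I T) (hW2I T)) _)) ?_ key
  rw [map_mul, constantCoeff_ph, map_mul, hl20, constantCoeff_cmp _ _ hz20, GJJ_W0 A2 h2, mul_one,
    norm_mul, map_natCast, norm_natCast_eq_one e1 hp1, norm_natCast_eq_one e2 hp2, mul_one]

/-- the functional equation for two families (generic copy of TN/A3, A6, A7, JJ) -/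
theorem GJJ (hp : 3 < p) (A1 A2 : Fam p) (h1 : A1.Ok) (h2 : A2.Ok) (e1 e2 : ℕ) (he1 : 1 ≤ e1) (he2 : 1 ≤ e2)
    (hp1 : ¬ p ∣ e1) (hp2 : ¬ p ∣ e2) (g1 g2 l1 l2 μ : PowerSeries ℚ_[p])
    (h10 : constantCoeff g1 = 1) (h20 : constantCoeff g2 = 1)
    (hg1 : ∀ T, PO 0 T g1) (hg2 : ∀ T, PO 0 T g2)
    (hl1 : l1 * g1 = (e1 : PowerSeries ℚ_[p]) * g1 + th g1)
    (hl2 : l2 * g2 = (e2 : PowerSeries ℚ_[p]) * g2 + th g2)
    (hμ0 : constantCoeff μ = 1)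
    (hF : cmp A2.F (X ^ e2 * g2) = μ * cmp A1.F (X ^ e1 * g1))
    (hW : (e1 : PowerSeries ℚ_[p]) * l2 * cmp A2.W (X ^ e2 * g2)
      = (e2 : PowerSeries ℚ_[p]) * l1 * cmp A1.W (X ^ e1 * g1)) :
    PO 2 (T0 p) (Fam.JE A1 A2 e1 e2 g1 g2 l2 μ) := by
  have hK := GJJ_A7 p hp A1 A2 h1 h2 e1 e2 he1 he2 hp2 g1 g2 l1 l2 h10 h20 hg1 hg2 hl1 hl2 hp1 hW
  have hphI : ∀ (f : PowerSeries ℚ_[p]), (∀ T, PO 0 T f) → ∀ T, PO 0 T (ph p ℚ_[p] f) :=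
    fun f hf T => PO_ph (n0 := T) (by nlinarith [Nat.Prime.one_lt (Fact.out : p.Prime)]) (hf T)
  have hz10 : constantCoeff (X ^ e1 * g1 : PowerSeries ℚ_[p]) = 0 := by
    rw [map_mul, map_pow, constantCoeff_X, zero_pow (by omega), zero_mul]
  have hz20 : constantCoeff (X ^ e2 * g2 : PowerSeries ℚ_[p]) = 0 := by
    rw [map_mul, map_pow, constantCoeff_X, zero_pow (by omega), zero_mul]
  have hz1I : ∀ T, PO 0 T (X ^ e1 * g1) := fun T => PO_mul_left (PO_X_pow e1 T) (hg1 T)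
  have hz2I : ∀ T, PO 0 T (X ^ e2 * g2) := fun T => PO_mul_left (PO_X_pow e2 T) (hg2 T)
  have hE1 := GJJ_E A1 h1 e1 he1 g1 h10 hg1
  have hE2 := GJJ_E A2 h2 e2 he2 g2 h20 hg2
  have hd1 := JJ_delta p g1 h10 hg1 (T0 p)
  have hd2 := JJ_delta p g2 h20 hg2 (T0 p)
  have ht1 := JJ_th p e1 he1 g1 l1 hl1 A1.F
  have ht2 := JJ_th p e2 he2 g2 l2 hl2 A2.F
  have hr1 := GJJ_RRc A1 h1 e1 he1 g1
  have hr2 := GJJ_RRc A2 h2 e2 he2 g2
  have hl20 := JJ_l0 p e2 g2 l2 h20 hl2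
  have hl1I := A7_int p e1 g1 l1 h10 hg1 hl1
  have hl2I := A7_int p e2 g2 l2 h20 hg2 hl2
  have hn2 : ‖constantCoeff l2‖ = 1 := by
    rw [hl20]
    exact norm_natCast_eq_one e2 hp2
  have hne2 : constantCoeff l2 ≠ 0 := by
    intro h
    rw [h, norm_zero] at hn2
    exact zero_ne_one hn2
  have hl2i : l2 * l2⁻¹ = 1 := PowerSeries.mul_inv_cancel _ hne2
  have hl2iI : ∀ T, PO 0 T l2⁻¹ := fun T => PO_inv (hl2I T) hn2
  have hF1I : ∀ T, PO 0 T (cmp A1.F (X ^ e1 * g1)) := fun T =>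
    PO_cmp hz10 (h1.iF T) (hz1I T)
  have hF2I : ∀ T, PO 0 T (cmp A2.F (X ^ e2 * g2)) := fun T =>
    PO_cmp hz20 (h2.iF T) (hz2I T)
  have hD1I : ∀ T, PO 0 T (cmp (th A1.F) (X ^ e1 * g1)) := fun T =>
    PO_cmp hz10 (PO_th (h1.iF T)) (hz1I T)
  have hT1I : ∀ T, PO 0 T (cmp A1.FT (X ^ e1 * g1)) := fun T =>
    PO_cmp hz10 (GJJ_PO_FT A1 h1 T) (hz1I T)
  have hT2I : ∀ T, PO 0 T (cmp A2.FT (X ^ e2 * g2)) := fun T =>
    PO_cmp hz20 (GJJ_PO_FT A2 h2 T) (hz2I T)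
  have hG1I : ∀ T, PO 0 T (cmp A1.GT (X ^ e1 * g1)) := fun T =>
    PO_cmp hz10 (GJJ_PO_GT A1 h1 T) (hz1I T)
  have hG2I : ∀ T, PO 0 T (cmp A2.GT (X ^ e2 * g2)) := fun T =>
    PO_cmp hz20 (GJJ_PO_GT A2 h2 T) (hz2I T)
  have hF10 : constantCoeff (cmp A1.F (X ^ e1 * g1)) = 1 := by
    rw [constantCoeff_cmp _ _ hz10, h1.F0]
  have hT10 : constantCoeff (cmp A1.FT (X ^ e1 * g1)) = 1 := by
    rw [constantCoeff_cmp _ _ hz10, GJJ_FT0 A1 h1]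
  have hμI : ∀ T, PO 0 T μ := fun T => by
    refine PO_of_mul (hF1I T) (by rw [hF10, norm_one]) ?_
    rw [mul_comm, ← hF]
    exact hF2I T
  unfold Fam.JE
  set F1 := cmp A1.F (X ^ e1 * g1) with hF1def
  set F2 := cmp A2.F (X ^ e2 * g2) with hF2def
  set D1 := cmp (th A1.F) (X ^ e1 * g1) with hD1def
  set D2 := cmp (th A2.F) (X ^ e2 * g2) with hD2def
  set U1 := cmp A1.FT (X ^ e1 * g1) with hU1def
  set U2 := cmp A2.FT (X ^ e2 * g2) with hU2def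
  set B1 := cmp A1.GT (X ^ e1 * g1) with hB1def
  set B2 := cmp A2.GT (X ^ e2 * g2) with hB2def
  set R1 := cmp A1.RR (X ^ e1 * g1) with hR1def
  set R2 := cmp A2.RR (X ^ e2 * g2) with hR2def
  set d1 := g1 ^ p * (ph p ℚ_[p] g1)⁻¹ - 1 with hd1def
  set d2 := g2 ^ p * (ph p ℚ_[p] g2)⁻¹ - 1 with hd2def
  -- the derivative of `F2 = μ F1`
  have hD2 : D2 = th μ * l2⁻¹ * F1 + μ * l1 * l2⁻¹ * D1 := by
    have h1 : l2 * D2 = th μ * F1 + μ * (l1 * D1) := by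
      rw [← ht2, hF, th_mul, ← ht1]
    calc D2 = (l2 * l2⁻¹) * D2 := by rw [hl2i, one_mul]
      _ = l2⁻¹ * (l2 * D2) := by ring
      _ = _ := by rw [h1]; ring
  have hphl2 : ph p ℚ_[p] l2 * ph p ℚ_[p] l2⁻¹ = 1 := by
    rw [← map_mul, hl2i, map_one]
  have hb1 : PO 1 (T0 p) (d1 * U1 + (p : PowerSeries ℚ_[p]) * B1) :=
    PO_add (PO_mul_right hd1 (hT1I _)) (PO_mul_right (PO_p _) (hG1I _))
  have hb2 : PO 1 (T0 p) (d2 * U2 + (p : PowerSeries ℚ_[p]) * B2) :=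
    PO_add (PO_mul_right hd2 (hT2I _)) (PO_mul_right (PO_p _) (hG2I _))
  -- the main relation
  have hmain : PO 2 (T0 p) (ph p ℚ_[p] F1 * (U2 * ph p ℚ_[p] μ - μ * U1
        + ph p ℚ_[p] (th μ * l2⁻¹) * (d2 * U2 + (p : PowerSeries ℚ_[p]) * B2))
      + ph p ℚ_[p] D1 * ((d2 * U2 + (p : PowerSeries ℚ_[p]) * B2) * ph p ℚ_[p] (μ * l1 * l2⁻¹)
        - μ * (d1 * U1 + (p : PowerSeries ℚ_[p]) * B1))) := by
    have h1 := PO_neg (PO_sub hE2 (PO_mul_left (hμI _) hE1))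
    have h2 : -((F2 - (U2 * ph p ℚ_[p] F2 + (d2 * U2 + (p : PowerSeries ℚ_[p]) * B2)
          * ph p ℚ_[p] D2)) - μ * (F1 - (U1 * ph p ℚ_[p] F1
          + (d1 * U1 + (p : PowerSeries ℚ_[p]) * B1) * ph p ℚ_[p] D1))) =
        ph p ℚ_[p] F1 * (U2 * ph p ℚ_[p] μ - μ * U1
          + ph p ℚ_[p] (th μ * l2⁻¹) * (d2 * U2 + (p : PowerSeries ℚ_[p]) * B2))
        + ph p ℚ_[p] D1 * ((d2 * U2 + (p : PowerSeries ℚ_[p]) * B2) * ph p ℚ_[p] (μ * l1 * l2⁻¹)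
          - μ * (d1 * U1 + (p : PowerSeries ℚ_[p]) * B1)) := by
      rw [hD2, hF]
      simp only [map_mul, map_add]
      ring
    rwa [h2] at h1
  -- modulo `p`
  have hmodp : PO 1 (T0 p) (U2 * ph p ℚ_[p] μ - μ * U1) := by
    have h1 := PO_mono (i := 1) (T := T0 p) (by norm_num) le_rfl hmain
    have i1 : PO 0 (T0 p) (ph p ℚ_[p] F1) := hphI _ hF1I _
    have i2 : PO 0 (T0 p) (ph p ℚ_[p] D1) := hphI _ hD1I _
    have i3 : PO 0 (T0 p) (ph p ℚ_[p] (th μ * l2⁻¹)) :=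
      hphI _ (fun T => PO_mul_left (PO_th (hμI T)) (hl2iI T)) _
    have i4 : PO 0 (T0 p) (ph p ℚ_[p] (μ * l1 * l2⁻¹)) :=
      hphI _ (fun T => PO_mul_left (PO_mul_left (hμI T) (hl1I T)) (hl2iI T)) _
    have h2 : PO 1 (T0 p) (ph p ℚ_[p] F1 * (ph p ℚ_[p] (th μ * l2⁻¹)
        * (d2 * U2 + (p : PowerSeries ℚ_[p]) * B2))) := PO_mul_left i1 (PO_mul_left i3 hb2)
    have h3 : PO 1 (T0 p) (ph p ℚ_[p] D1 * ((d2 * U2 + (p : PowerSeries ℚ_[p]) * B2)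
        * ph p ℚ_[p] (μ * l1 * l2⁻¹) - μ * (d1 * U1 + (p : PowerSeries ℚ_[p]) * B1))) :=
      PO_mul_left i2 (PO_sub (PO_mul_right hb2 i4) (PO_mul_left (hμI _) hb1))
    have h4 := PO_sub (PO_sub h1 h2) h3
    refine PO_of_mul i1 (by rw [constantCoeff_ph, hF10, norm_one]) ?_
    convert h4 using 1
    ring
  -- the second bracket
  have hsec : PO 2 (T0 p) ((d2 * U2 + (p : PowerSeries ℚ_[p]) * B2)
      * ph p ℚ_[p] (μ * l1 * l2⁻¹) - μ * (d1 * U1 + (p : PowerSeries ℚ_[p]) * B1)) := by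
    have j1 : PO 0 (T0 p) (ph p ℚ_[p] μ) := hphI _ hμI _
    have j2 : PO 0 (T0 p) (ph p ℚ_[p] l2) := hphI _ hl2I _
    have h1 : PO 2 (T0 p) (ph p ℚ_[p] μ * (U1 * U2 *
        (((p : PowerSeries ℚ_[p]) * R2 + d2) * ph p ℚ_[p] l1
          - ((p : PowerSeries ℚ_[p]) * R1 + d1) * ph p ℚ_[p] l2))) :=
      PO_mul_left j1 (PO_mul_left (PO_mul_left (hT1I _) (hT2I _)) hK)
    have h2 : PO 2 (T0 p) ((d1 * U1 + (p : PowerSeries ℚ_[p]) * B1) * ph p ℚ_[p] l2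
        * (U2 * ph p ℚ_[p] μ - μ * U1)) := PO_mul (PO_mul_right hb1 j2) hmodp
    refine PO_of_mul (PO_mul_left (hT1I _) j2) ?_ (f := U1 * ph p ℚ_[p] l2) ?_
    · rw [map_mul, hT10, one_mul, constantCoeff_ph, hn2]
    · have e : U1 * ph p ℚ_[p] l2 * ((d2 * U2 + (p : PowerSeries ℚ_[p]) * B2)
          * ph p ℚ_[p] (μ * l1 * l2⁻¹) - μ * (d1 * U1 + (p : PowerSeries ℚ_[p]) * B1)) =
          ph p ℚ_[p] μ * (U1 * U2 *
            (((p : PowerSeries ℚ_[p]) * R2 + d2) * ph p ℚ_[p] l1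
              - ((p : PowerSeries ℚ_[p]) * R1 + d1) * ph p ℚ_[p] l2))
          + (d1 * U1 + (p : PowerSeries ℚ_[p]) * B1) * ph p ℚ_[p] l2
            * (U2 * ph p ℚ_[p] μ - μ * U1) := by
        rw [← hr1, ← hr2]
        simp only [map_mul]
        linear_combination (U1 * (d2 * U2 + (p : PowerSeries ℚ_[p]) * (R2 * U2))
          * ph p ℚ_[p] μ * ph p ℚ_[p] l1) * hphl2
      rw [e]
      exact PO_add h1 h2
  refine PO_of_mul (hphI _ hF1I _) (by rw [constantCoeff_ph, hF10, norm_one]) ?_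
    (f := ph p ℚ_[p] F1)
  have h5 : PO 2 (T0 p) (ph p ℚ_[p] D1 * ((d2 * U2 + (p : PowerSeries ℚ_[p]) * B2)
      * ph p ℚ_[p] (μ * l1 * l2⁻¹) - μ * (d1 * U1 + (p : PowerSeries ℚ_[p]) * B1))) :=
    PO_mul_left (hphI _ hD1I _) hsec
  have h6 := PO_sub hmain h5
  rwa [add_sub_cancel_right] at h6

end Pool.Agent.Lib_helper91.TX
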