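import Pool.Agent.Lib_helper91.TX.Defs

namespace Pool.Agent.Lib_helper91.TX

open Finset

/-- the ring homomorphism `ℤ[i] → R`, `i ↦ r` -/
def gZ {R : Type} [CommRing R] (r : R) (h : r * r = ((-1 : ℤ) : R)) : GaussianInt →+* R :=
  Zsqrtd.lift ⟨r, h⟩

theorem JX_gZ_apply {R : Type} [CommRing R] (r : R) (h : r * r = ((-1 : ℤ) : R)) (z : GaussianInt) :
    gZ r h z = (z.re : R) + (z.im : R) * r := by
  simp [gZ, Zsqrtd.lift]

theorem JX_prim : IsPrimitiveRoot (⟨0, 1⟩ : GaussianInt) 4 := by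
  refine IsPrimitiveRoot.mk_of_lt _ (by norm_num) (by decide) ?_
  intro l hl0 hl4
  interval_cases l <;> decide

theorem JX_star (p : ℕ) [Fact p.Prime] (χ ψ : MulChar (ZMod p) ℂ) :
    jacobiSum χ⁻¹ ψ⁻¹ = (starRingEnd ℂ) (jacobiSum χ ψ) := by
  rw [jacobiSum, jacobiSum, map_sum]
  refine Finset.sum_congr rfl fun t _ => ?_
  rw [map_mul, ← MulChar.star_apply', ← MulChar.star_apply']
  rfl

theorem JX_norm (p : ℕ) [Fact p.Prime] (χ : MulChar (ZMod p) GaussianInt) (hχ : orderOf χ = 4) :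
    (jacobiSum χ (χ ^ 2)).re ^ 2 + (jacobiSum χ (χ ^ 2)).im ^ 2 = (p : ℤ) := by
  have hinj := GaussianInt.toComplex_injective
  have h1 : χ ≠ 1 := by
    intro h
    rw [h, orderOf_one] at hχ
    norm_num at hχ
  have h2 : χ ^ 2 ≠ 1 := by
    intro h
    have := orderOf_dvd_of_pow_eq_one h
    rw [hχ] at this
    norm_num at this
  have h3 : χ * χ ^ 2 ≠ 1 := by
    intro h
    have h' : χ ^ 3 = 1 := by rw [← h, pow_succ']
    have := orderOf_dvd_of_pow_eq_one h'
    rw [hχ] at this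
    norm_num at this
  have hc : ringChar ℂ ≠ ringChar (ZMod p) := by
    rw [ZMod.ringChar_zmod_n, CharP.ringChar_zero_iff_CharZero ℂ |>.mpr inferInstance]
    exact (Fact.out : p.Prime).ne_zero.symm
  have H := jacobiSum_mul_jacobiSum_inv hc
    (χ := χ.ringHomComp GaussianInt.toComplex) (φ := (χ ^ 2).ringHomComp GaussianInt.toComplex)
    ((MulChar.ringHomComp_ne_one_iff hinj).mpr h1) ((MulChar.ringHomComp_ne_one_iff hinj).mpr h2)
    (by
      rw [← MulChar.ringHomComp_mul]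
      exact (MulChar.ringHomComp_ne_one_iff hinj).mpr h3)
  rw [JX_star, jacobiSum_ringHomComp, Complex.mul_conj, ZMod.card] at H
  have H2 : Complex.normSq (GaussianInt.toComplex (jacobiSum χ (χ ^ 2))) = (p : ℝ) := by
    exact_mod_cast H
  rw [Complex.normSq_apply, ← GaussianInt.intCast_re, ← GaussianInt.intCast_im] at H2
  have H3 : (((jacobiSum χ (χ ^ 2)).re * (jacobiSum χ (χ ^ 2)).re
    + (jacobiSum χ (χ ^ 2)).im * (jacobiSum χ (χ ^ 2)).im : ℤ) : ℝ) = ((p : ℤ) : ℝ) := by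
    push_cast
    exact H2
  have H4 := Int.cast_injective H3
  linarith [H4, sq (jacobiSum χ (χ ^ 2)).re, sq (jacobiSum χ (χ ^ 2)).im]

theorem JX_odd (p : ℕ) [Fact p.Prime] (K : ℕ) (hK : p = 4 * K + 1)
    (χ : MulChar (ZMod p) GaussianInt) (hχ : orderOf χ = 4) :
    Odd (jacobiSum χ (χ ^ 2)).re := by
  have h4 : χ ^ 4 = 1 := by rw [← hχ]; exact pow_orderOf_eq_one χ
  have hd : 4 ∣ Fintype.card (ZMod p) - 1 := by
    rw [ZMod.card, hK]
    simp
  obtain ⟨z, _, hz⟩ := exists_jacobiSum_eq_neg_one_add (n := 4) (by norm_num) (χ := χ) (ψ := χ ^ 2)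
    h4 (by rw [← pow_mul, mul_comm, pow_mul, h4, one_pow]) hd JX_prim
  rw [hz]
  have : (-1 + z * ((⟨0, 1⟩ : GaussianInt) - 1) ^ 2).re = -1 + 2 * z.im := by
    simp [sq]
    ring
  rw [this]
  exact ⟨z.im - 1, by ring⟩

theorem JX_pow_sum (p : ℕ) [Fact p.Prime] (i : ℕ) (hi : 0 < i) :
    ∑ t : ZMod p, t ^ i = if (p - 1) ∣ i then -1 else 0 := by
  classical
  have h := FiniteField.sum_pow_units (ZMod p) i
  rw [ZMod.card] at h
  rw [← h]
  let φ : (ZMod p)ˣ ↪ ZMod p := ⟨fun x ↦ x, Units.val_injective⟩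
  have hmap : univ.map φ = univ \ {0} := by
    ext x
    simp only [mem_map, mem_univ, Function.Embedding.coeFn_mk, true_and, mem_sdiff,
      mem_singleton, φ]
    exact (isUnit_iff_ne_zero (a := x))
  calc
    ∑ t : ZMod p, t ^ i = ∑ t ∈ univ \ {(0 : ZMod p)}, t ^ i := by
      rw [← sum_sdiff ({0} : Finset (ZMod p)).subset_univ, sum_singleton, zero_pow hi.ne', add_zero]
    _ = ∑ x : (ZMod p)ˣ, (x : ZMod p) ^ i := by
      rw [← hmap, sum_map]
      rfl
    _ = _ := by simp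

theorem JX_sum (p : ℕ) [Fact p.Prime] (K : ℕ) (hK : p = 4 * K + 1) :
    ∑ t : ZMod p, t ^ (3 * K) * ((1 - t) ^ (3 * K)) ^ 2 ≠ 0 := by
  have hp : p.Prime := Fact.out
  have hK0 : 0 < K := by
    rcases Nat.eq_zero_or_pos K with h | h
    · subst h
      norm_num at hK
      exact absurd (hK ▸ hp) Nat.not_prime_one
    · exact h
  have e1 : ∀ t : ZMod p, ((1 - t) ^ (3 * K)) ^ 2 = (1 - t) ^ (2 * K) := by
    intro t
    rw [← pow_mul]
    by_cases h : (1 - t) = 0
    · rw [h, zero_pow (by omega), zero_pow (by omega)]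
    · have := ZMod.pow_card_sub_one_eq_one h
      have h2 : p - 1 = 4 * K := by omega
      rw [h2] at this
      rw [show 3 * K * 2 = 4 * K + 2 * K by ring, pow_add, this, one_mul]
  simp_rw [e1]
  have e2 : ∀ t : ZMod p, t ^ (3 * K) * (1 - t) ^ (2 * K)
      = ∑ j ∈ range (2 * K + 1), (-1) ^ j * ((2 * K).choose j : ZMod p) * t ^ (3 * K + j) := by
    intro t
    rw [show (1 - t) = -t + 1 by ring, add_pow, mul_sum]
    refine sum_congr rfl fun j _ => ?_
    rw [one_pow, neg_pow, pow_add]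
    ring
  simp_rw [e2]
  rw [sum_comm]
  simp_rw [← mul_sum]
  have e3 : ∀ j ∈ range (2 * K + 1), (-1) ^ j * ((2 * K).choose j : ZMod p) * ∑ t : ZMod p, t ^ (3 * K + j)
      = if j = K then (-1) ^ K * ((2 * K).choose K : ZMod p) * (-1) else 0 := by
    intro j hj
    rw [mem_range] at hj
    rw [JX_pow_sum p _ (by omega)]
    have h2 : p - 1 = 4 * K := by omega
    rw [h2]
    by_cases h : j = K
    · rw [if_pos h, h, if_pos ⟨1, by ring⟩]
    · rw [if_neg h, if_neg, mul_zero]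
      rintro ⟨c, hc⟩
      have hc1 : c = 1 := by
        have : c < 2 := by
          by_contra h3
          have : 4 * K * 2 ≤ 4 * K * c := Nat.mul_le_mul_left _ (by omega)
          omega
        have : c ≠ 0 := by
          rintro rfl
          omega
        omega
      rw [hc1] at hc
      omega
  rw [sum_congr rfl e3, sum_ite_eq' (range (2 * K + 1)) K, if_pos (mem_range.mpr (by omega))]
  have hch : ((2 * K).choose K : ZMod p) ≠ 0 := by
    rw [Ne, ZMod.natCast_eq_zero_iff]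
    intro hdvd
    have h1 : (2 * K).choose K ∣ (2 * K).factorial := by
      rw [← Nat.choose_mul_factorial_mul_factorial (show K ≤ 2 * K by omega), mul_assoc]
      exact Dvd.intro _ rfl
    have := (hp.dvd_factorial).mp (hdvd.trans h1)
    omega
  have hneg : (-1 : ZMod p) ^ K ≠ 0 := pow_ne_zero _ (neg_ne_zero.mpr one_ne_zero)
  exact mul_ne_zero (mul_ne_zero hneg hch) (neg_ne_zero.mpr one_ne_zero)

theorem JX_char (p : ℕ) [Fact p.Prime] (K : ℕ) (hK : p = 4 * K + 1)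
    (r : ZMod p) (hr : r * r = ((-1 : ℤ) : ZMod p)) :
    ∃ χ : MulChar (ZMod p) GaussianInt, orderOf χ = 4 ∧ (∀ t : ZMod p, gZ r hr (χ t) = t ^ (3 * K)) := by
  have hp : p.Prime := Fact.out
  have hK0 : 0 < K := by
    rcases Nat.eq_zero_or_pos K with h | h
    · subst h
      norm_num at hK
      exact absurd (hK ▸ hp) Nat.not_prime_one
    · exact h
  have hd : 4 ∣ Fintype.card (ZMod p) - 1 := by
    rw [ZMod.card, hK]
    simp
  obtain ⟨χ₀, hχ₀⟩ := MulChar.exists_mulChar_orderOf (ZMod p) hd JX_prim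
  obtain ⟨g, hg⟩ := IsCyclic.exists_generator (α := (ZMod p)ˣ)
  have h4 : χ₀ ^ 4 = 1 := by rw [← hχ₀]; exact pow_orderOf_eq_one χ₀
  have h2 : χ₀ ^ 2 ≠ 1 := by
    intro h
    have := orderOf_dvd_of_pow_eq_one h
    rw [hχ₀] at this
    norm_num at this
  set u : GaussianInt := χ₀ g with hu
  have hu4 : u ^ 4 = 1 := by
    rw [hu, ← MulChar.pow_apply_coe, h4]
    exact MulChar.one_apply_coe g
  have hu2 : u ^ 2 ≠ 1 := by
    intro h
    apply h2
    rw [MulChar.eq_iff hg]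
    rw [MulChar.pow_apply_coe, ← hu, h]
    exact (MulChar.one_apply_coe g).symm
  have hu2' : u ^ 2 = -1 := by
    have : (u ^ 2 - 1) * (u ^ 2 + 1) = 0 := by
      have : (u ^ 2 - 1) * (u ^ 2 + 1) = u ^ 4 - 1 := by ring
      rw [this, hu4, sub_self]
    rcases mul_eq_zero.mp this with h | h
    · exact absurd (sub_eq_zero.mp h) hu2
    · exact eq_neg_of_add_eq_zero_left h
  have hgu : gZ r hr u = r ∨ gZ r hr u = -r := by
    have h1 : gZ r hr u ^ 2 = r ^ 2 := by
      rw [← map_pow, hu2', sq r, hr]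
      simp
    exact sq_eq_sq_iff_eq_or_eq_neg.mp h1
  have hg4 : ((g : ZMod p)) ^ (4 * K) = 1 := by
    have := ZMod.pow_card_sub_one_eq_one (p := p) (a := (g : ZMod p)) g.ne_zero
    rwa [show p - 1 = 4 * K by omega] at this
  have hg2 : ((g : ZMod p)) ^ (2 * K) = -1 := by
    have h1 : (((g : ZMod p)) ^ (2 * K)) ^ 2 = 1 ^ 2 := by
      rw [← pow_mul, show 2 * K * 2 = 4 * K by ring, hg4, one_pow]
    rcases sq_eq_sq_iff_eq_or_eq_neg.mp h1 with h | h
    · exfalso
      have hu' : g ^ (2 * K) = 1 := by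
        ext
        rw [Units.val_pow_eq_pow_val, h]
        rfl
      have h3 := orderOf_dvd_of_pow_eq_one hu'
      rw [orderOf_eq_card_of_forall_mem_zpowers hg, Nat.card_eq_fintype_card, ZMod.card_units p,
        show p - 1 = 4 * K by omega] at h3
      have := Nat.le_of_dvd (by omega) h3
      omega
    · exact h
  have hg3 : ((g : ZMod p)) ^ (3 * K) = r ∨ ((g : ZMod p)) ^ (3 * K) = -r := by
    have h1 : (((g : ZMod p)) ^ (3 * K)) ^ 2 = r ^ 2 := by
      rw [← pow_mul, show 3 * K * 2 = 4 * K + 2 * K by ring, pow_add, hg4, hg2, sq r, hr]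
      simp
    exact sq_eq_sq_iff_eq_or_eq_neg.mp h1
  have key : ∀ χ : MulChar (ZMod p) GaussianInt, gZ r hr (χ g) = ((g : ZMod p)) ^ (3 * K) →
      ∀ t : ZMod p, gZ r hr (χ t) = t ^ (3 * K) := by
    intro χ hχ t
    by_cases ht : t = 0
    · rw [ht, MulChar.map_zero, map_zero, zero_pow (by omega)]
    · obtain ⟨w, hw⟩ := isUnit_iff_ne_zero.mpr ht
      obtain ⟨m, hm⟩ := (Submonoid.mem_powers_iff _ _).mp ((mem_powers_iff_mem_zpowers).mpr (hg w))
      rw [← hw, ← hm, Units.val_pow_eq_pow_val, map_pow, map_pow, hχ, ← pow_mul, ← pow_mul, mul_comm]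
  have hinvg : gZ r hr ((χ₀ ^ 3) g) = - gZ r hr u := by
    rw [MulChar.pow_apply_coe, ← hu, show u ^ 3 = u ^ 2 * u by ring, hu2', map_mul]
    simp
  have hord : orderOf (χ₀ ^ 3) = 4 := by
    rw [Nat.Coprime.orderOf_pow, hχ₀]
    rw [hχ₀]
    norm_num
  rcases hgu with h1 | h1 <;> rcases hg3 with h3 | h3
  · exact ⟨χ₀, hχ₀, key χ₀ (by rw [← hu, h1, h3])⟩
  · exact ⟨χ₀ ^ 3, hord, key _ (by rw [hinvg, h1, h3])⟩
  · exact ⟨χ₀ ^ 3, hord, key _ (by rw [hinvg, h1, h3, neg_neg])⟩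
  · exact ⟨χ₀, hχ₀, key χ₀ (by rw [← hu, h1, h3])⟩

/-- the quartic character and its Jacobi sum -/
theorem JX (p : ℕ) [Fact p.Prime] (K : ℕ) (hK : p = 4 * K + 1) (x y : ℤ) (hxy : (p : ℤ) = x ^ 2 + y ^ 2)
    (hx : Odd x) (r : ZMod p) (hr : r * r = ((-1 : ℤ) : ZMod p)) (hxr : (x : ZMod p) + r * (y : ZMod p) = 0) :
    ∃ χ : MulChar (ZMod p) GaussianInt, orderOf χ = 4 ∧ (∀ t : ZMod p, gZ r hr (χ t) = t ^ (3 * K)) ∧
      jacobiSum χ (χ ^ 2) ^ 2 = (⟨x ^ 2 - y ^ 2, -2 * x * y⟩ : GaussianInt) := by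
  have hp : p.Prime := Fact.out
  obtain ⟨χ, hχ, hχt⟩ := JX_char p K hK r hr
  refine ⟨χ, hχ, hχt, ?_⟩
  have hn := JX_norm p χ hχ
  have hodd := JX_odd p K hK χ hχ
  have hJ : gZ r hr (jacobiSum χ (χ ^ 2)) ≠ 0 := by
    rw [jacobiSum, map_sum]
    have : ∀ t : ZMod p, gZ r hr (χ t * (χ ^ 2) (1 - t)) = t ^ (3 * K) * ((1 - t) ^ (3 * K)) ^ 2 := by
      intro t
      rw [map_mul, MulChar.pow_apply' χ (by norm_num), map_pow, hχt, hχt]
    simp_rw [this]
    exact JX_sum p K hK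
  set J := jacobiSum χ (χ ^ 2) with hJdef
  obtain ⟨a, b⟩ := J
  simp only at hn hodd
  have hr2 : r * r = -1 := by rw [hr]; simp
  have hab : (a : ZMod p) = r * (b : ZMod p) := by
    rw [JX_gZ_apply] at hJ
    simp only at hJ
    have h0 : ((a : ZMod p) + (b : ZMod p) * r) * ((a : ZMod p) - (b : ZMod p) * r) = 0 := by
      have : ((a : ZMod p) + (b : ZMod p) * r) * ((a : ZMod p) - (b : ZMod p) * r)
          = (a : ZMod p) ^ 2 - (b : ZMod p) ^ 2 * (r * r) := by ring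
      rw [this, hr2]
      have h5 : ((a ^ 2 + b ^ 2 : ℤ) : ZMod p) = 0 := by
        rw [hn]
        simp
      push_cast at h5
      linear_combination h5
    rcases mul_eq_zero.mp h0 with h | h
    · exact absurd h hJ
    · linear_combination h
  have hx0 : (x : ZMod p) = - (r * (y : ZMod p)) := by linear_combination hxr
  have d1 : (p : ℤ) ∣ a * x - b * y := by
    rw [← ZMod.intCast_zmod_eq_zero_iff_dvd]
    push_cast
    rw [hab, hx0]
    linear_combination (-(b : ZMod p) * (y : ZMod p)) * hr2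
  have d2 : (p : ℤ) ∣ a * y + b * x := by
    rw [← ZMod.intCast_zmod_eq_zero_iff_dvd]
    push_cast
    rw [hab, hx0]
    ring
  obtain ⟨m, hm⟩ := d1
  obtain ⟨n, hn2⟩ := d2
  have hp0 : (p : ℤ) ≠ 0 := by exact_mod_cast hp.ne_zero
  have hmn : m ^ 2 + n ^ 2 = 1 := by
    have h6 : (a * x - b * y) ^ 2 + (a * y + b * x) ^ 2 = (p : ℤ) ^ 2 := by
      have : (a * x - b * y) ^ 2 + (a * y + b * x) ^ 2 = (a ^ 2 + b ^ 2) * (x ^ 2 + y ^ 2) := by ring
      rw [this, hn, ← hxy]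
      ring
    rw [hm, hn2] at h6
    have h7 : (p : ℤ) ^ 2 * (m ^ 2 + n ^ 2) = (p : ℤ) ^ 2 * 1 := by linear_combination h6
    exact mul_left_cancel₀ (pow_ne_zero 2 hp0) h7
  have hyev : Even y := by
    have hpodd : Odd (p : ℤ) := by
      rw [hK]
      exact ⟨2 * K, by push_cast; ring⟩
    rw [hxy] at hpodd
    by_contra hy
    rw [Int.not_even_iff_odd] at hy
    have := (hx.pow (n := 2)).add_odd (hy.pow (n := 2))
    exact (Int.not_even_iff_odd.mpr hpodd) this
  have hap : a * (p : ℤ) = x * ((p : ℤ) * m) + y * ((p : ℤ) * n) := by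
    rw [← hm, ← hn2, hxy]
    ring
  have hbp : b * (p : ℤ) = - y * ((p : ℤ) * m) + x * ((p : ℤ) * n) := by
    rw [← hm, ← hn2, hxy]
    ring
  have ha' : a = x * m + y * n := by
    have : (p : ℤ) * a = (p : ℤ) * (x * m + y * n) := by linear_combination hap
    exact mul_left_cancel₀ hp0 this
  have hb' : b = - y * m + x * n := by
    have : (p : ℤ) * b = (p : ℤ) * (- y * m + x * n) := by linear_combination hbp
    exact mul_left_cancel₀ hp0 this
  have hn0 : n = 0 := by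
    by_contra h
    have hn1 : 1 ≤ n ^ 2 := by
      have : 0 < n ^ 2 := by positivity
      omega
    have hm0 : m ^ 2 = 0 := by nlinarith [sq_nonneg m]
    have hm1 : m = 0 := by simpa using hm0
    rw [hm1] at ha'
    rw [ha'] at hodd
    have : Even (x * 0 + y * n) := by
      rw [mul_zero, zero_add]
      exact hyev.mul_right n
    exact (Int.not_even_iff_odd.mpr hodd) this
  have hm2 : m ^ 2 = 1 := by rw [hn0] at hmn; linarith
  rw [hn0] at ha' hb'
  rw [ha', hb', Zsqrtd.ext_iff]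
  simp only [sq, Zsqrtd.re_mul, Zsqrtd.im_mul]
  constructor
  · linear_combination (x ^ 2 - y ^ 2) * hm2
  · linear_combination (-2 * x * y) * hm2

end Pool.Agent.Lib_helper91.TX
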