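import Pool.Agent.Lib_helper91.TX.RIC
import Pool.Agent.Lib_helper91.TN.CmpApi

namespace Pool.Agent.Lib_helper91.TX

open PowerSeries Finset Pool.Agent.Lib_helper91.TN

variable (p : ℕ) [Fact p.Prime]

/-- the composed differential equation for `f = F(z)`, and for `f^2` -/
theorem MOD_one (A : Fam p) (h : A.Ok) (P B : PowerSeries ℚ_[p]) (o : A.Ode P B) (e : ℕ)
    (he : 1 ≤ e) (g l D : PowerSeries ℚ_[p]) (hg : constantCoeff g = 1)
    (hl : l * g = (e : PowerSeries ℚ_[p]) * g + th g)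
    (hD : D * l ^ 2 = (e : PowerSeries ℚ_[p]) ^ 2 * cmp P (X ^ e * g)) :
    constantCoeff D = 1 ∧ constantCoeff l = (e : ℚ_[p]) ∧
    constantCoeff (cmp A.F (X ^ e * g)) = 1 ∧
    D * (4 * (cmp A.F (X ^ e * g) ^ 2) * th (th (cmp A.F (X ^ e * g) ^ 2))
        - 3 * (th (cmp A.F (X ^ e * g) ^ 2)) ^ 2)
      + 2 * th D * (cmp A.F (X ^ e * g) ^ 2) * th (cmp A.F (X ^ e * g) ^ 2)
      = 4 * ((e : PowerSeries ℚ_[p]) ^ 2 * cmp B (X ^ e * g)) * (cmp A.F (X ^ e * g) ^ 2) ^ 2 := by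
  have hz : constantCoeff (X ^ e * g : PowerSeries ℚ_[p]) = 0 := by
    rw [map_mul, map_pow, constantCoeff_X, zero_pow (by omega), zero_mul]
  have hthz : th (X ^ e * g : PowerSeries ℚ_[p]) = l * (X ^ e * g) := by
    rw [th_mul, th_X_pow]
    linear_combination (-(X ^ e : PowerSeries ℚ_[p])) * hl
  have hch : ∀ f : PowerSeries ℚ_[p], th (cmp f (X ^ e * g)) = l * cmp (th f) (X ^ e * g) := by
    intro f
    have h1 := th_cmp f (X ^ e * g) 1 l hz (by rw [one_mul, hthz])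
    rwa [one_mul] at h1
  have hl0 : constantCoeff l = (e : ℚ_[p]) := by
    have h1 := congrArg (constantCoeff (R := ℚ_[p])) hl
    rw [map_mul, map_add, map_mul, constantCoeff_th, hg, map_natCast] at h1
    simpa using h1
  have he0 : (e : ℚ_[p]) ≠ 0 := by
    have : (e : ℕ) ≠ 0 := by omega
    exact_mod_cast this
  have hlne : l ≠ 0 := by
    intro h0
    rw [h0, map_zero] at hl0
    exact he0 hl0.symm
  have hD0 : constantCoeff D = 1 := by
    have h1 := congrArg (constantCoeff (R := ℚ_[p])) hD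
    rw [map_mul, map_mul, map_pow, map_pow, hl0, map_natCast, constantCoeff_cmp _ _ hz, o.P0,
      mul_one] at h1
    have h2 : (e : ℚ_[p]) ^ 2 ≠ 0 := pow_ne_zero 2 he0
    exact mul_right_cancel₀ h2 (by rw [h1, one_mul])
  refine ⟨hD0, hl0, by rw [constantCoeff_cmp _ _ hz, h.F0], ?_⟩
  -- the differential equation of the family, composed
  have hode : cmp P (X ^ e * g) * (2 * cmp A.F (X ^ e * g) * cmp (th (th A.F)) (X ^ e * g)
        - cmp (th A.F) (X ^ e * g) ^ 2)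
      + cmp (th P) (X ^ e * g) * cmp A.F (X ^ e * g) * cmp (th A.F) (X ^ e * g)
      = cmp B (X ^ e * g) * cmp A.F (X ^ e * g) ^ 2 := by
    have h1 := congrArg (fun f : PowerSeries ℚ_[p] => TN.cmp f (X ^ e * g)) o.ode
    simp only [cmp_add _ _ _ hz, cmp_sub _ _ _ hz, cmp_mul _ _ _ hz, cmp_pow _ _ hz,
      cmp_ofNat _ _ hz] at h1
    exact h1
  have hDth : th D * l + 2 * D * th l = (e : PowerSeries ℚ_[p]) ^ 2 * cmp (th P) (X ^ e * g) := by
    have h1 := congrArg th hD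
    have h2 : th ((e : PowerSeries ℚ_[p]) ^ 2 * cmp P (X ^ e * g))
        = (e : PowerSeries ℚ_[p]) ^ 2 * (l * cmp (th P) (X ^ e * g)) := by
      rw [th_mul, hch, th_pow, th_natCast]
      ring
    rw [h2, th_mul, th_pow] at h1
    apply mul_left_cancel₀ hlne
    push_cast at h1
    linear_combination h1
  have e1 : th (cmp A.F (X ^ e * g)) = l * cmp (th A.F) (X ^ e * g) := hch _
  have e2 : th (cmp (th A.F) (X ^ e * g)) = l * cmp (th (th A.F)) (X ^ e * g) := hch _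
  generalize cmp A.F (X ^ e * g) = f at *
  generalize cmp (th A.F) (X ^ e * g) = a at *
  generalize cmp (th (th A.F)) (X ^ e * g) = b at *
  generalize cmp (th P) (X ^ e * g) = P' at *
  generalize cmp P (X ^ e * g) = P0 at *
  generalize cmp B (X ^ e * g) = B0 at *
  have t1 : th (f ^ 2) = 2 * f * (l * a) := by
    rw [th_pow, e1]
    push_cast
    ring
  have t2 : th (th (f ^ 2)) = 2 * (l * a) ^ 2 + 2 * f * (th l * a + l * (l * b)) := by
    rw [t1, th_mul, th_mul, th_ofNat, e1, th_mul, e2]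
    ring
  rw [t2, t1]
  linear_combination (4 * f ^ 2 * (2 * f * b - a ^ 2)) * hD + (4 * f ^ 3 * a) * hDth
    + (4 * f ^ 2 * (e : PowerSeries ℚ_[p]) ^ 2) * hode

/-- the modular identity from algebraic conditions -/
theorem MOD (A1 A2 : Fam p) (h1 : A1.Ok) (h2 : A2.Ok) (P1 B1 P2 B2 : PowerSeries ℚ_[p])
    (o1 : A1.Ode P1 B1) (o2 : A2.Ode P2 B2) (e1 e2 : ℕ) (he1 : 1 ≤ e1) (he2 : 1 ≤ e2)
    (g1 g2 l1 l2 r D1 D2 : PowerSeries ℚ_[p])
    (h10 : constantCoeff g1 = 1) (h20 : constantCoeff g2 = 1)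
    (hl1 : l1 * g1 = (e1 : PowerSeries ℚ_[p]) * g1 + th g1)
    (hl2 : l2 * g2 = (e2 : PowerSeries ℚ_[p]) * g2 + th g2)
    (hr0 : constantCoeff r = 1)
    (hD1 : D1 * l1 ^ 2 = (e1 : PowerSeries ℚ_[p]) ^ 2 * cmp P1 (X ^ e1 * g1))
    (hD2 : D2 * l2 ^ 2 = (e2 : PowerSeries ℚ_[p]) ^ 2 * cmp P2 (X ^ e2 * g2))
    (hD : D1 = r * D2)
    (hB : 4 * r * ((e1 : PowerSeries ℚ_[p]) ^ 2 * cmp B1 (X ^ e1 * g1))
        + D2 * (4 * r * th (th r) - 3 * (th r) ^ 2) + 2 * r * th D2 * th r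
      = 4 * r ^ 2 * ((e2 : PowerSeries ℚ_[p]) ^ 2 * cmp B2 (X ^ e2 * g2))) :
    ∃ μ : PowerSeries ℚ_[p], constantCoeff μ = 1 ∧ μ ^ 2 = r ∧
      cmp A2.F (X ^ e2 * g2) = μ * cmp A1.F (X ^ e1 * g1) ∧
      (e1 : PowerSeries ℚ_[p]) * l2 * cmp A2.W (X ^ e2 * g2)
        = (e2 : PowerSeries ℚ_[p]) * l1 * cmp A1.W (X ^ e1 * g1) := by
  obtain ⟨d10, l10, f10, q1⟩ := MOD_one p A1 h1 P1 B1 o1 e1 he1 g1 l1 D1 h10 hl1 hD1
  obtain ⟨d20, l20, f20, q2⟩ := MOD_one p A2 h2 P2 B2 o2 e2 he2 g2 l2 D2 h20 hl2 hD2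
  have hz1 : constantCoeff (X ^ e1 * g1 : PowerSeries ℚ_[p]) = 0 := by
    rw [map_mul, map_pow, constantCoeff_X, zero_pow (by omega), zero_mul]
  have hz2 : constantCoeff (X ^ e2 * g2 : PowerSeries ℚ_[p]) = 0 := by
    rw [map_mul, map_pow, constantCoeff_X, zero_pow (by omega), zero_mul]
  have c1 : cmp A1.W (X ^ e1 * g1) = cmp A1.w (X ^ e1 * g1) * (cmp A1.F (X ^ e1 * g1))⁻¹ := by
    rw [Fam.W, cmp_mul _ _ _ hz1, cmp_inv _ _ hz1 (by rw [h1.F0]; exact one_ne_zero)]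
  have c2 : cmp A2.W (X ^ e2 * g2) = cmp A2.w (X ^ e2 * g2) * (cmp A2.F (X ^ e2 * g2))⁻¹ := by
    rw [Fam.W, cmp_mul _ _ _ hz2, cmp_inv _ _ hz2 (by rw [h2.F0]; exact one_ne_zero)]
  have w1 : cmp A1.w (X ^ e1 * g1) ^ 2 * cmp P1 (X ^ e1 * g1) = 1 := by
    rw [← cmp_pow _ _ hz1, ← cmp_mul _ _ _ hz1, o1.wP, cmp_one _ hz1]
  have w2 : cmp A2.w (X ^ e2 * g2) ^ 2 * cmp P2 (X ^ e2 * g2) = 1 := by
    rw [← cmp_pow _ _ hz2, ← cmp_mul _ _ _ hz2, o2.wP, cmp_one _ hz2]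
  have w10 : constantCoeff (cmp A1.w (X ^ e1 * g1)) = 1 := by rw [constantCoeff_cmp _ _ hz1, h1.w0]
  have w20 : constantCoeff (cmp A2.w (X ^ e2 * g2)) = 1 := by rw [constantCoeff_cmp _ _ hz2, h2.w0]
  have B20 : constantCoeff ((e2 : PowerSeries ℚ_[p]) ^ 2 * cmp B2 (X ^ e2 * g2)) = 0 := by
    rw [map_mul, constantCoeff_cmp _ _ hz2, o2.B0, mul_zero]
  rw [c1, c2]
  generalize cmp A1.F (X ^ e1 * g1) = f1 at *
  generalize cmp A2.F (X ^ e2 * g2) = f2 at *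
  generalize cmp A1.w (X ^ e1 * g1) = v1 at *
  generalize cmp A2.w (X ^ e2 * g2) = v2 at *
  generalize cmp P1 (X ^ e1 * g1) = R1 at *
  generalize cmp P2 (X ^ e2 * g2) = R2 at *
  generalize cmp B1 (X ^ e1 * g1) = S1 at *
  generalize cmp B2 (X ^ e2 * g2) = S2 at *
  have key : f2 ^ 2 = r * f1 ^ 2 := by
    refine RIC ℚ_[p] D2 ((e2 : PowerSeries ℚ_[p]) ^ 2 * S2) (f2 ^ 2) (r * f1 ^ 2) d20 B20
      (by rw [map_pow, f20, one_pow]) (by rw [map_mul, map_pow, f10, hr0, one_pow, one_mul]) q2 ?_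
    have hD' : th D1 = th r * D2 + r * th D2 := by rw [hD, th_mul]
    rw [hD'] at q1
    rw [hD] at q1
    have k1 : th (r * f1 ^ 2) = th r * f1 ^ 2 + r * th (f1 ^ 2) := th_mul _ _
    have k2 : th (th (r * f1 ^ 2)) = th (th r) * f1 ^ 2 + 2 * th r * th (f1 ^ 2)
        + r * th (th (f1 ^ 2)) := by
      rw [k1, th_add, th_mul, th_mul]
      ring
    rw [k2, k1]
    generalize th (th (f1 ^ 2)) = u2 at *
    generalize th (f1 ^ 2) = u1 at *
    linear_combination r * q1 + (f1 ^ 2) ^ 2 * hB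
  have f1ne : constantCoeff f1 ≠ 0 := by rw [f10]; exact one_ne_zero
  have f2ne : constantCoeff f2 ≠ 0 := by rw [f20]; exact one_ne_zero
  have i1 : f1 * f1⁻¹ = 1 := PowerSeries.mul_inv_cancel _ f1ne
  have i2 : f2 * f2⁻¹ = 1 := PowerSeries.mul_inv_cancel _ f2ne
  have e10 : (e1 : ℚ_[p]) ≠ 0 := by
    have : (e1 : ℕ) ≠ 0 := by omega
    exact_mod_cast this
  have e20 : (e2 : ℚ_[p]) ≠ 0 := by
    have : (e2 : ℕ) ≠ 0 := by omega
    exact_mod_cast this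
  refine ⟨f2 * f1⁻¹, ?_, ?_, ?_, ?_⟩
  · have := congrArg (constantCoeff (R := ℚ_[p])) i1
    rw [map_mul, f10, one_mul, map_one] at this
    rw [map_mul, f20, this, one_mul]
  · calc (f2 * f1⁻¹) ^ 2 = f2 ^ 2 * (f1⁻¹) ^ 2 := by ring
      _ = r * f1 ^ 2 * (f1⁻¹) ^ 2 := by rw [key]
      _ = r * (f1 * f1⁻¹) ^ 2 := by ring
      _ = r := by rw [i1]; ring
  · linear_combination (-f2) * i1
  · have inv10 : constantCoeff (f1⁻¹) = 1 := by
      have := congrArg (constantCoeff (R := ℚ_[p])) i1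
      rw [map_mul, f10, one_mul, map_one] at this
      exact this
    have inv20 : constantCoeff (f2⁻¹) = 1 := by
      have := congrArg (constantCoeff (R := ℚ_[p])) i2
      rw [map_mul, f20, one_mul, map_one] at this
      exact this
    set L : PowerSeries ℚ_[p] := (e1 : PowerSeries ℚ_[p]) * l2 * (v2 * f2⁻¹) with hL
    set R : PowerSeries ℚ_[p] := (e2 : PowerSeries ℚ_[p]) * l1 * (v1 * f1⁻¹) with hR
    have hL0 : constantCoeff L = (e1 : ℚ_[p]) * e2 := by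
      rw [hL, map_mul, map_mul, map_mul, map_natCast, l20, w20, inv20]
      ring
    have hR0 : constantCoeff R = (e1 : ℚ_[p]) * e2 := by
      rw [hR, map_mul, map_mul, map_mul, map_natCast, l10, w10, inv10]
      ring
    have l1ne : l1 ≠ 0 := by
      intro h0
      rw [h0, map_zero] at l10
      exact e10 l10.symm
    have l2ne : l2 ≠ 0 := by
      intro h0
      rw [h0, map_zero] at l20
      exact e20 l20.symm
    have a2 : L ^ 2 * (D2 * f2 ^ 2) = (e1 : PowerSeries ℚ_[p]) ^ 2 * (e2 : PowerSeries ℚ_[p]) ^ 2 := by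
      apply mul_left_cancel₀ (pow_ne_zero 2 l2ne)
      calc l2 ^ 2 * (L ^ 2 * (D2 * f2 ^ 2)) = L ^ 2 * f2 ^ 2 * (D2 * l2 ^ 2) := by ring
        _ = L ^ 2 * f2 ^ 2 * ((e2 : PowerSeries ℚ_[p]) ^ 2 * R2) := by rw [hD2]
        _ = (e1 : PowerSeries ℚ_[p]) ^ 2 * l2 ^ 2 * (e2 : PowerSeries ℚ_[p]) ^ 2
            * (v2 ^ 2 * R2) * (f2 * f2⁻¹) ^ 2 := by rw [hL]; ring
        _ = _ := by rw [w2, i2]; ring
    have a1 : R ^ 2 * (D1 * f1 ^ 2) = (e1 : PowerSeries ℚ_[p]) ^ 2 * (e2 : PowerSeries ℚ_[p]) ^ 2 := by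
      apply mul_left_cancel₀ (pow_ne_zero 2 l1ne)
      calc l1 ^ 2 * (R ^ 2 * (D1 * f1 ^ 2)) = R ^ 2 * f1 ^ 2 * (D1 * l1 ^ 2) := by ring
        _ = R ^ 2 * f1 ^ 2 * ((e1 : PowerSeries ℚ_[p]) ^ 2 * R1) := by rw [hD1]
        _ = (e2 : PowerSeries ℚ_[p]) ^ 2 * l1 ^ 2 * (e1 : PowerSeries ℚ_[p]) ^ 2
            * (v1 ^ 2 * R1) * (f1 * f1⁻¹) ^ 2 := by rw [hR]; ring
        _ = _ := by rw [w1, i1]; ring
    have hT : D1 * f1 ^ 2 = D2 * f2 ^ 2 := by rw [hD, key]; ring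
    have hTne : D2 * f2 ^ 2 ≠ 0 := by
      intro h0
      have := congrArg (constantCoeff (R := ℚ_[p])) h0
      rw [map_mul, map_pow, d20, f20, map_zero] at this
      norm_num at this
    have hsq : L ^ 2 = R ^ 2 := by
      apply mul_right_cancel₀ hTne
      rw [a2, ← hT, a1]
    have hprod : (L - R) * (L + R) = 0 := by linear_combination hsq
    rcases mul_eq_zero.1 hprod with h | h
    · exact sub_eq_zero.1 h
    · exfalso
      have := congrArg (constantCoeff (R := ℚ_[p])) h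
      rw [map_add, hL0, hR0, map_zero] at this
      have h3 : (e1 : ℚ_[p]) * e2 ≠ 0 := mul_ne_zero e10 e20
      apply h3
      have h4 : (2 : ℚ_[p]) * ((e1 : ℚ_[p]) * e2) = 0 := by rw [two_mul]; exact this
      rcases mul_eq_zero.1 h4 with h5 | h5
      · exact absurd h5 two_ne_zero
      · exact h5

end Pool.Agent.Lib_helper91.TX
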