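import Pool.Agent.Lib_helper91.TX.Defs
import Pool.Agent.Lib_helper91.TN.ThApi

namespace Pool.Agent.Lib_helper91.TX

open PowerSeries Finset Pool.Agent.Lib_helper91.TN

theorem RIC_low {K : Type} [Field K] (A D : PowerSeries K) (n : ℕ)
    (hD : ∀ m < n, coeff m D = 0) : coeff n (A * D) = constantCoeff A * coeff n D := by
  rw [coeff_mul, Finset.Nat.sum_antidiagonal_eq_sum_range_succ (fun i j => coeff i A * coeff j D) n,
    Finset.sum_eq_single 0]
  · simp
  · intro i hi hi0
    rw [hD (n - i) (by have := Finset.mem_range.mp hi; omega), mul_zero]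
  · intro h
    exact absurd (Finset.mem_range.mpr (Nat.succ_pos n)) h

/-- uniqueness for the nonlinear equation (coefficient `n ≥ 1` of `h` is determined: leading term `4 n² h_n`) -/
theorem RIC (K : Type) [Field K] [CharZero K] (P B h k : PowerSeries K) (hP : constantCoeff P = 1)
    (hB : constantCoeff B = 0) (h0 : constantCoeff h = 1) (k0 : constantCoeff k = 1)
    (eh : P * (4 * h * th (th h) - 3 * (th h) ^ 2) + 2 * th P * h * th h = 4 * B * h ^ 2)
    (ek : P * (4 * k * th (th k) - 3 * (th k) ^ 2) + 2 * th P * k * th k = 4 * B * k ^ 2) : h = k := by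
  ext n
  induction n using Nat.strong_induction_on with
  | _ n ih =>
    rcases Nat.eq_zero_or_pos n with rfl | hn
    · have h1 : coeff 0 h = constantCoeff h := by simp
      have h2 : coeff 0 k = constantCoeff k := by simp
      rw [h1, h2, h0, k0]
    have hD : ∀ m < n, coeff m (h - k) = 0 := by
      intro m hm
      rw [map_sub, ih m hm, sub_self]
    have hD1 : ∀ m < n, coeff m (th (h - k)) = 0 := by
      intro m hm
      rw [coeff_th, hD m hm, mul_zero]
    have hD2 : ∀ m < n, coeff m (th (th (h - k))) = 0 := by
      intro m hm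
      rw [coeff_th, hD1 m hm, mul_zero]
    have key : 4 * P * h * th (th (h - k)) + (4 * P * th (th k) + 2 * th P * th k - 4 * B * (h + k)) * (h - k)
        + (2 * th P * h - 3 * P * (th h + th k)) * th (h - k) = 0 := by
      rw [th_sub, th_sub]
      linear_combination eh - ek
    have hc := congrArg (coeff n) key
    rw [map_add, map_add, RIC_low _ _ n hD2, RIC_low _ _ n hD, RIC_low _ _ n hD1, coeff_th, coeff_th,
      map_zero] at hc
    have e1 : constantCoeff (4 * P * h) = (4 : K) := by
      rw [map_mul, map_mul, hP, h0, mul_one, mul_one, map_ofNat]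
    have e2 : constantCoeff (4 * P * th (th k) + 2 * th P * th k - 4 * B * (h + k)) = (0 : K) := by
      simp only [map_mul, map_add, map_sub, constantCoeff_th, hB]
      ring
    have e3 : constantCoeff (2 * th P * h - 3 * P * (th h + th k)) = (0 : K) := by
      simp only [map_mul, map_add, map_sub, constantCoeff_th]
      ring
    rw [e1, e2, e3, zero_mul, zero_mul, add_zero, add_zero] at hc
    have hn0 : (n : K) ≠ 0 := by
      exact_mod_cast hn.ne'
    have h4 : (4 : K) ≠ 0 := by norm_num
    have : coeff n (h - k) = 0 := by
      rcases mul_eq_zero.mp hc with h5 | h5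
      · exact absurd h5 h4
      · rcases mul_eq_zero.mp h5 with h6 | h6
        · exact absurd h6 hn0
        · rcases mul_eq_zero.mp h6 with h7 | h7
          · exact absurd h7 hn0
          · exact h7
    rw [map_sub] at this
    exact sub_eq_zero.mp this

end Pool.Agent.Lib_helper91.TX
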