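import Pool.Agent.Lib_helper91.TX.GJJ
import Pool.Agent.Lib_helper91.TX.MOD
import Pool.Agent.Lib_helper91.TX.FA1
import Pool.Agent.Lib_helper91.TX.FA2

namespace Pool.Agent.Lib_helper91.TX

open PowerSeries Finset Pool.Agent.Lib_helper91.TN

variable (p : ℕ) [Fact p.Prime]

theorem S1A_cmp1 (z : PowerSeries ℚ_[p]) (hz : constantCoeff z = 0) :
    cmp (1 - 256 * X : PowerSeries ℚ_[p]) z = 1 - 256 * z := by
  rw [cmp_sub _ _ _ hz, cmp_mul _ _ _ hz, cmp_one _ hz, cmp_X _ hz, cmp_ofNat _ _ hz]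

theorem S1A_cmp2 (z : PowerSeries ℚ_[p]) (hz : constantCoeff z = 0) :
    cmp (48 * X : PowerSeries ℚ_[p]) z = 48 * z := by
  rw [cmp_mul _ _ _ hz, cmp_X _ hz, cmp_ofNat _ _ hz]

theorem S1A_cmp3 (z : PowerSeries ℚ_[p]) (hz : constantCoeff z = 0) :
    cmp (PD ℚ_[p]) z = 1 - 12 * z - 64 * z ^ 2 := by
  rw [PD, cmp_sub _ _ _ hz, cmp_sub _ _ _ hz, cmp_mul _ _ _ hz, cmp_mul _ _ _ hz, cmp_one _ hz,
    cmp_pow _ _ hz, cmp_X _ hz, cmp_ofNat _ _ hz, cmp_ofNat _ _ hz]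

theorem S1A_cmp4 (z : PowerSeries ℚ_[p]) (hz : constantCoeff z = 0) :
    cmp (4 * X + 60 * X ^ 2 : PowerSeries ℚ_[p]) z = 4 * z + 60 * z ^ 2 := by
  rw [cmp_add _ _ _ hz, cmp_mul _ _ _ hz, cmp_mul _ _ _ hz,
    cmp_pow _ _ hz, cmp_X _ hz, cmp_ofNat _ _ hz, cmp_ofNat _ _ hz]

/-- Step 1: the functional equation as power series -/
theorem S1A (hp : 3 < p) (u0 : ℤ) : ∃ μ l2 g1 g2 : PowerSeries ℚ_[p],
    constantCoeff μ = 1 ∧ μ ^ 2 * cst ℚ_[p] (pV u0) ^ 2 = cst ℚ_[p] (pQ u0) ∧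
    cst ℚ_[p] (pQ u0) * cst ℚ_[p] (pV u0) ^ 4 * g1 = cst ℚ_[p] (pN u0) ^ 5 ∧
    cst ℚ_[p] (pQ u0) * g2 = cst ℚ_[p] (pN u0) ∧
    l2 * (cst ℚ_[p] (pN u0) * cst ℚ_[p] (pQ u0)) = cst ℚ_[p] (pA u0) ∧
    PO 2 (T0 p) (Fam.JE (fam2 p) (fam1 p) 1 1 g1 g2 l2 μ) := by
  obtain ⟨u, hu⟩ : ∃ u : PowerSeries ℚ_[p], u = ((u0 : ℤ) : PowerSeries ℚ_[p]) := ⟨_, rfl⟩
  have thu : th u = 0 := by
    rw [hu, show ((u0 : ℤ) : PowerSeries ℚ_[p]) = C ((u0 : ℤ) : ℚ_[p]) by rw [map_intCast]]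
    exact th_C _
  have eN : cst ℚ_[p] (pN u0) = 1 + u * X := by
    rw [pN, map_add, map_mul, map_one, cst_C, cst_X, hu]
  have eQ : cst ℚ_[p] (pQ u0) = 1 + (2 * u + 6) * X + (u ^ 2 + 6 * u + 25) * X ^ 2 := by
    rw [pQ, map_add, map_add, map_mul, map_mul, map_pow, map_one, cst_C, cst_C, cst_X, hu]
    push_cast
    ring
  have eV : cst ℚ_[p] (pV u0) = 1 + (u + 25) * X := by
    rw [pV, map_add, map_mul, map_one, cst_C, cst_X, hu]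
    push_cast
    ring
  have eA : cst ℚ_[p] (pA u0) = (1 + u * X) ^ 2 - 25 * X ^ 2 := by
    rw [pA, map_sub, map_pow, map_mul, map_pow, eN, cst_X, map_ofNat]
  have cN : constantCoeff (cst ℚ_[p] (pN u0)) = 1 := by
    rw [eN, map_add, map_mul, constantCoeff_X, mul_zero, add_zero, map_one]
  have cQ : constantCoeff (cst ℚ_[p] (pQ u0)) = 1 := by
    rw [eQ, map_add, map_add, map_mul, map_mul, map_pow, constantCoeff_X, mul_zero, zero_pow two_ne_zero,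
      mul_zero, add_zero, add_zero, map_one]
  have cV : constantCoeff (cst ℚ_[p] (pV u0)) = 1 := by
    rw [eV, map_add, map_mul, constantCoeff_X, mul_zero, add_zero, map_one]
  have nQ : constantCoeff (cst ℚ_[p] (pQ u0)) ≠ 0 := by rw [cQ]; exact one_ne_zero
  have nN : constantCoeff (cst ℚ_[p] (pN u0)) ≠ 0 := by rw [cN]; exact one_ne_zero
  have nV : constantCoeff (cst ℚ_[p] (pV u0)) ≠ 0 := by rw [cV]; exact one_ne_zero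
  have hN := PowerSeries.mul_inv_cancel _ nN
  have hQ := PowerSeries.mul_inv_cancel _ nQ
  have hV := PowerSeries.mul_inv_cancel _ nV
  have tiQ := th_inv _ nQ
  have tiV := th_inv _ nV
  have ciQ : constantCoeff (cst ℚ_[p] (pQ u0))⁻¹ = 1 := by rw [PowerSeries.constantCoeff_inv, cQ, inv_one]
  have ciV : constantCoeff (cst ℚ_[p] (pV u0))⁻¹ = 1 := by rw [PowerSeries.constantCoeff_inv, cV, inv_one]
  have pN' : ∀ T, PO 0 T (cst ℚ_[p] (pN u0)) := fun T => PO_cst T _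
  have pQ' : ∀ T, PO 0 T (cst ℚ_[p] (pQ u0))⁻¹ := fun T => PO_inv (PO_cst T _) (by rw [cQ, norm_one])
  have pV' : ∀ T, PO 0 T (cst ℚ_[p] (pV u0))⁻¹ := fun T => PO_inv (PO_cst T _) (by rw [cV, norm_one])
  have thN : th (cst ℚ_[p] (pN u0)) = u * X := by
    rw [eN, th_add, th_mul, th_one, th_X, thu]; ring
  have thQ : th (cst ℚ_[p] (pQ u0)) = (2 * u + 6) * X + 2 * (u ^ 2 + 6 * u + 25) * X ^ 2 := by
    rw [eQ, th_add, th_add, th_mul, th_mul, th_add, th_add, th_add, th_mul, th_mul, th_pow u, th_one, th_X, th_X_pow, thu,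
      th_ofNat, th_ofNat, th_ofNat]
    push_cast
    ring
  have thV : th (cst ℚ_[p] (pV u0)) = (u + 25) * X := by
    rw [eV, th_add, th_mul, th_one, th_X, th_add, thu, th_ofNat]; ring
  rw [thQ] at tiQ
  rw [thV] at tiV
  -- the algebraic identities
  have i1 : cst ℚ_[p] (pQ u0) * cst ℚ_[p] (pV u0) ^ 4 - 256 * X * cst ℚ_[p] (pN u0) ^ 5
      = (cst ℚ_[p] (pN u0) ^ 3 - 75 * X * cst ℚ_[p] (pN u0) ^ 2 - 625 * X ^ 2 * cst ℚ_[p] (pN u0) - 3125 * X ^ 3) ^ 2 := by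
    rw [eN, eQ, eV]; ring
  have i2 : cst ℚ_[p] (pQ u0) ^ 2 - 12 * X * cst ℚ_[p] (pN u0) * cst ℚ_[p] (pQ u0)
      - 64 * X ^ 2 * cst ℚ_[p] (pN u0) ^ 2 = (cst ℚ_[p] (pN u0) ^ 2 - 25 * X ^ 2) ^ 2 := by
    rw [eN, eQ]; ring
  have jl1 : cst ℚ_[p] (pN u0) ^ 3 - 75 * X * cst ℚ_[p] (pN u0) ^ 2 - 625 * X ^ 2 * cst ℚ_[p] (pN u0) - 3125 * X ^ 3
      = cst ℚ_[p] (pN u0) * cst ℚ_[p] (pQ u0) * cst ℚ_[p] (pV u0)
        + 5 * (u * X) * cst ℚ_[p] (pQ u0) * cst ℚ_[p] (pV u0)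
        - cst ℚ_[p] (pN u0) * ((2 * u + 6) * X + 2 * (u ^ 2 + 6 * u + 25) * X ^ 2) * cst ℚ_[p] (pV u0)
        - 4 * cst ℚ_[p] (pN u0) * cst ℚ_[p] (pQ u0) * ((u + 25) * X) := by
    rw [eN, eQ, eV]; ring
  have jl2 : cst ℚ_[p] (pN u0) ^ 2 - 25 * X ^ 2
      = cst ℚ_[p] (pN u0) * cst ℚ_[p] (pQ u0) + (u * X) * cst ℚ_[p] (pQ u0)
        - cst ℚ_[p] (pN u0) * ((2 * u + 6) * X + 2 * (u ^ 2 + 6 * u + 25) * X ^ 2) := by
    rw [eN, eQ]; ring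
  have i3 : 192 * X * cst ℚ_[p] (pN u0) ^ 5
      + cst ℚ_[p] (pN u0) ^ 2 * (4 * cst ℚ_[p] (pQ u0) * (((2 * u + 6) * X + 4 * (u ^ 2 + 6 * u + 25) * X ^ 2) * cst ℚ_[p] (pV u0) ^ 2
            - 4 * ((2 * u + 6) * X + 2 * (u ^ 2 + 6 * u + 25) * X ^ 2) * ((u + 25) * X) * cst ℚ_[p] (pV u0)
            - 2 * cst ℚ_[p] (pQ u0) * ((u + 25) * X) * cst ℚ_[p] (pV u0)
            + 6 * cst ℚ_[p] (pQ u0) * ((u + 25) * X) ^ 2)
          - 3 * (((2 * u + 6) * X + 2 * (u ^ 2 + 6 * u + 25) * X ^ 2) * cst ℚ_[p] (pV u0)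
            - 2 * cst ℚ_[p] (pQ u0) * ((u + 25) * X)) ^ 2)
      + 2 * cst ℚ_[p] (pQ u0) * cst ℚ_[p] (pV u0) * (2 * cst ℚ_[p] (pN u0) * (u * X))
        * (((2 * u + 6) * X + 2 * (u ^ 2 + 6 * u + 25) * X ^ 2) * cst ℚ_[p] (pV u0)
            - 2 * cst ℚ_[p] (pQ u0) * ((u + 25) * X))
      = 4 * cst ℚ_[p] (pV u0) ^ 2 * (4 * X * cst ℚ_[p] (pN u0) * cst ℚ_[p] (pQ u0)
          + 60 * X ^ 2 * cst ℚ_[p] (pN u0) ^ 2) := by
    rw [eN, eQ, eV]; ring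
  have eA' : cst ℚ_[p] (pA u0) = cst ℚ_[p] (pN u0) ^ 2 - 25 * X ^ 2 := by rw [eA, eN]
  have thQ2 : th ((2 * u + 6) * X + 2 * (u ^ 2 + 6 * u + 25) * X ^ 2 : PowerSeries ℚ_[p])
      = (2 * u + 6) * X + 4 * (u ^ 2 + 6 * u + 25) * X ^ 2 := by
    rw [th_add, th_mul, th_mul, th_add, th_mul, th_mul 2 (u ^ 2 + 6 * u + 25), th_add, th_add, th_mul 6 u, th_pow u, th_X, th_X_pow, thu,
      th_ofNat, th_ofNat, th_ofNat]
    push_cast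
    ring
  have thV2 : th ((u + 25) * X : PowerSeries ℚ_[p]) = (u + 25) * X := by
    rw [th_mul, th_add, thu, th_ofNat, th_X]; ring
  rw [eA', jl2]
  rw [jl1] at i1
  rw [jl2] at i2
  generalize (2 * u + 6) * X + 4 * (u ^ 2 + 6 * u + 25) * X ^ 2 = Q2 at *
  generalize (2 * u + 6) * X + 2 * (u ^ 2 + 6 * u + 25) * X ^ 2 = Q1 at *
  generalize (u + 25) * X = V1 at *
  generalize u * X = N1 at *
  generalize (cst ℚ_[p] (pN u0))⁻¹ = iN at *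
  generalize (cst ℚ_[p] (pQ u0))⁻¹ = iQ at *
  generalize (cst ℚ_[p] (pV u0))⁻¹ = iV at *
  generalize cst ℚ_[p] (pN u0) = N at *
  generalize cst ℚ_[p] (pQ u0) = Q at *
  generalize cst ℚ_[p] (pV u0) = V at *
  have hV4 : (V * iV) ^ 4 = 1 := by rw [hV, one_pow]
  have thg1 : th (N ^ 5 * iQ * iV ^ 4) = 5 * N ^ 4 * N1 * iQ * iV ^ 4
      - N ^ 5 * Q1 * iQ ^ 2 * iV ^ 4 - 4 * N ^ 5 * V1 * iQ * iV ^ 5 := by
    rw [th_mul, th_mul, th_pow, th_pow, thN, tiQ, tiV]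
    push_cast
    ring
  have thg2 : th (N * iQ) = N1 * iQ - N * Q1 * iQ ^ 2 := by
    rw [th_mul, thN, tiQ]
    ring
  have thr : th (Q * iV ^ 2) = Q1 * iV ^ 2 - 2 * Q * V1 * iV ^ 3 := by
    rw [th_mul, th_pow, tiV, thQ]
    push_cast
    ring
  have thr2 : th (Q1 * iV ^ 2 - 2 * Q * V1 * iV ^ 3) = Q2 * iV ^ 2 - 4 * Q1 * V1 * iV ^ 3
      - 2 * Q * V1 * iV ^ 3 + 6 * Q * V1 ^ 2 * iV ^ 4 := by
    rw [th_sub, th_mul, th_mul, th_mul, th_mul, th_pow, th_pow, tiV, thV2, thQ2, thQ, th_ofNat]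
    push_cast
    ring
  have thS : th (N ^ 2) = 2 * N * N1 := by
    rw [th_pow, thN]
    push_cast
    ring
  have z1 : constantCoeff (X ^ 1 * (N ^ 5 * iQ * iV ^ 4)) = 0 := by
    simp
  have z2 : constantCoeff (X ^ 1 * (N * iQ)) = 0 := by
    simp
  have h10 : constantCoeff (N ^ 5 * iQ * iV ^ 4) = 1 := by
    simp [cN, ciQ, ciV]
  have h20 : constantCoeff (N * iQ) = 1 := by
    simp [cN, ciQ]
  have hl1 : ((N * Q * V + 5 * N1 * Q * V - N * Q1 * V - 4 * N * Q * V1) * iN * iQ * iV)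
      * (N ^ 5 * iQ * iV ^ 4) = ((1 : ℕ) : PowerSeries ℚ_[p]) * (N ^ 5 * iQ * iV ^ 4)
        + th (N ^ 5 * iQ * iV ^ 4) := by
    rw [thg1]
    push_cast
    linear_combination (iQ ^ 2 * iV ^ 5 * N ^ 4 *
        (N * Q * V + 5 * N1 * Q * V - N * Q1 * V - 4 * N * Q * V1)) * hN
      + (N ^ 4 * (N + 5 * N1) * V * iQ * iV ^ 5 - 4 * N * V1 * N ^ 4 * iQ * iV ^ 5) * hQ
      + (N ^ 4 * (N + 5 * N1) * iQ * iV ^ 4 - N * Q1 * N ^ 4 * iQ ^ 2 * iV ^ 4) * hV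
  have hl2 : ((N * Q + N1 * Q - N * Q1) * iN * iQ) * (N * iQ)
      = ((1 : ℕ) : PowerSeries ℚ_[p]) * (N * iQ) + th (N * iQ) := by
    rw [thg2]
    push_cast
    linear_combination ((N * Q + N1 * Q - N * Q1) * iQ ^ 2) * hN
      + ((N + N1) * iQ) * hQ
  obtain ⟨μ, hμ0, hμ2, hF, hW⟩ := MOD p (fam2 p) (fam1 p) (fam2_ok p hp) (fam1_ok p hp)
    (1 - 256 * X) (48 * X) (PD ℚ_[p]) (4 * X + 60 * X ^ 2) (fam2_ode p) (fam1_ode p) 1 1 le_rfl le_rfl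
    (N ^ 5 * iQ * iV ^ 4) (N * iQ)
    ((N * Q * V + 5 * N1 * Q * V - N * Q1 * V - 4 * N * Q * V1) * iN * iQ * iV)
    ((N * Q + N1 * Q - N * Q1) * iN * iQ)
    (Q * iV ^ 2) (Q * iV ^ 2 * N ^ 2) (N ^ 2) h10 h20 hl1 hl2 (by simp [cQ, ciV])
    (by
      rw [S1A_cmp1 p _ z1]
      push_cast
      linear_combination (iQ * iV ^ 4 * ((N * iN) ^ 2 * (Q * iQ))) * (-i1)
        + ((Q * V ^ 4 - 256 * (X * N ^ 5)) * iQ * iV ^ 4 * ((N * iN + 1) * (Q * iQ))) * hN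
        + ((Q * V ^ 4 - 256 * (X * N ^ 5)) * iQ * iV ^ 4) * hQ
        + (V * iV) ^ 4 * hQ + hV4)
    (by
      rw [S1A_cmp3 p _ z2]
      push_cast
      linear_combination ((N * iN) ^ 2 * iQ ^ 2) * (-i2)
        + ((Q ^ 2 - 12 * X * N * Q - 64 * X ^ 2 * N ^ 2) * iQ ^ 2 * (N * iN + 1)) * hN
        + (Q * iQ + 1 - 12 * X * N * iQ) * hQ)
    rfl
    (by
      rw [S1A_cmp2 p _ z1, S1A_cmp4 p _ z2, thr, thr2, thS]
      push_cast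
      linear_combination (iV ^ 6) * i3
        + (192 * X * N ^ 5 * iV ^ 6 - 16 * X * N * Q * iV ^ 4 - 240 * X ^ 2 * N ^ 2 * iV ^ 4 * (Q * iQ + 1)) * hQ
        + (-4 * N ^ 2 * Q * Q2 * iV ^ 4 * (V * iV + 1) + 4 * N ^ 2 * Q * Q1 * V1 * iV ^ 5
            + 8 * N ^ 2 * Q ^ 2 * V1 * iV ^ 5 + 3 * N ^ 2 * Q1 ^ 2 * iV ^ 4 * (V * iV + 1)
            - 4 * Q * N * N1 * Q1 * iV ^ 4 * (V * iV + 1) + 8 * Q ^ 2 * N * N1 * V1 * iV ^ 5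
            + 16 * X * N * Q * iV ^ 4 * (V * iV + 1) + 240 * X ^ 2 * N ^ 2 * iV ^ 4 * (V * iV + 1)) * hV)
  refine ⟨μ, (N * Q + N1 * Q - N * Q1) * iN * iQ,
    N ^ 5 * iQ * iV ^ 4, N * iQ, hμ0, ?_, ?_, ?_, ?_, ?_⟩
  · rw [hμ2]
    linear_combination (Q * (V * iV + 1)) * hV
  · linear_combination (N ^ 5 * (V * iV) ^ 4) * hQ + N ^ 5 * hV4
  · linear_combination N * hQ
  · linear_combination ((N * Q + N1 * Q - N * Q1) * (Q * iQ)) * hN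
      + (N * Q + N1 * Q - N * Q1) * hQ
  · refine GJJ p hp (fam2 p) (fam1 p) (fam2_ok p hp) (fam1_ok p hp) 1 1 le_rfl le_rfl ?_ ?_ _ _ _ _ _
      h10 h20 ?_ ?_ hl1 hl2 hμ0 hF hW
    · intro h
      have := Nat.le_of_dvd one_pos h
      omega
    · intro h
      have := Nat.le_of_dvd one_pos h
      omega
    · intro T
      exact PO_mul_left (PO_mul_left (PO_pow (pN' T) _) (pQ' T)) (PO_pow (pV' T) _)
    · intro T
      exact PO_mul_left (pN' T) (pQ' T)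

end Pool.Agent.Lib_helper91.TX
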