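import Pool.Agent.Lib_helper91.TX.S1A
import Pool.Agent.Lib_helper91.TX.S1C
import Pool.Agent.Lib_helper91.TN.GZ
import Pool.Agent.Lib_helper91.TN.A4
import Pool.Agent.Lib_helper91.TN.POApi

namespace Pool.Agent.Lib_helper91.TX

open PowerSeries Finset Pool.Agent.Lib_helper91.TN

variable (p : ℕ) [Fact p.Prime]

theorem S1B_two (h2 : 2 < p) : ‖(2 : ℚ_[p])‖ = 1 := by
  have h : ¬ p ∣ 2 := fun h => by
    have := Nat.le_of_dvd (by norm_num) h
    omega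
  have := norm_natCast_eq_one (p := p) 2 h
  simpa using this

/-- square roots of integral series are integral -/
theorem S1B_sqrt (h2 : 2 < p) (w : PowerSeries ℚ_[p]) (h0 : constantCoeff w = 1)
    (h : ∀ T, PO 0 T (w ^ 2)) : ∀ T, PO 0 T w := by
  have key : ∀ n, PI 0 (coeff n (w - 1)) := by
    intro n
    induction n using Nat.strong_induction_on with
    | _ n ih =>
      have e : (2 : PowerSeries ℚ_[p]) * (w - 1) = (w ^ 2 - 1) - (w - 1) * (w - 1) := by ring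
      have e1 : coeff n ((2 : PowerSeries ℚ_[p]) * (w - 1)) = 2 * coeff n (w - 1) := by
        have : (2 : PowerSeries ℚ_[p]) = C (2 : ℚ_[p]) := (map_ofNat C 2).symm
        rw [this, coeff_C_mul]
      have h3 : PI 0 (coeff n ((w ^ 2 - 1) - (w - 1) * (w - 1))) := by
        rw [map_sub]
        refine PI_sub ?_ ?_
        · have := PO_sub (h (n + 1)) (PO_one (p := p) (n + 1)) n (Nat.lt_succ_self n)
          exact this
        · rw [coeff_mul]
          refine PI_sum _ _ ?_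
          rintro ⟨a, b⟩ hab
          rw [Finset.HasAntidiagonal.mem_antidiagonal] at hab
          simp only at hab ⊢
          have c0 : coeff 0 (w - 1) = 0 := by
            rw [map_sub, coeff_zero_eq_constantCoeff_apply, h0]
            simp
          by_cases ha : a = 0
          · rw [ha, c0, zero_mul]; exact PI_zero 0
          by_cases hb : b = 0
          · rw [hb, c0, mul_zero]; exact PI_zero 0
          exact PI_mul (i := 0) (j := 0) (ih a (by omega)) (ih b (by omega))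
      rw [← e, e1] at h3
      exact PI_of_unit_mul (S1B_two p h2) h3
  intro T n hn
  have e : w = (w - 1) + 1 := by ring
  rw [e]
  exact PO_add (T := n + 1) (fun m _ => key m) (PO_one (n + 1)) n (Nat.lt_succ_self n)

theorem S1B_cst_phom (a : ℕ → ℕ) (κ H : Polynomial ℤ) (z : PowerSeries ℚ_[p])
    (h : cst ℚ_[p] H * z = cst ℚ_[p] κ) :
    cst ℚ_[p] (phom p a κ H) = cst ℚ_[p] H ^ (p - 1) * ∑ k ∈ range p, (a k : PowerSeries ℚ_[p]) * z ^ k := by
  unfold phom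
  rw [map_sum, Finset.mul_sum]
  refine Finset.sum_congr rfl fun k hk => ?_
  rw [Finset.mem_range] at hk
  have e : cst ℚ_[p] H ^ (p - 1) = cst ℚ_[p] H ^ k * cst ℚ_[p] H ^ (p - 1 - k) := by
    rw [← pow_add]; congr 1; omega
  rw [map_mul, map_mul, map_pow, map_pow, cst_C, e, ← h, mul_pow]
  push_cast
  ring

theorem S1B_cmp (f : PowerSeries ℚ_[p]) (z : PowerSeries ℚ_[p]) (hz : constantCoeff z = 0) :
    cmp (trp p f) z = ∑ k ∈ range p, C (coeff k f) * z ^ k := by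
  unfold trp
  exact cmp_trunc _ _ _ hz

/-- the algebra of the cleared equation -/
theorem S1B_alg {R : Type} [CommRing R] (P F1 F2 G2 μ mi m2 D c2 y V Q4 Vq fV fQ fA fN fP Qp Qv Qh Np Xp Hb Hc Hg Hg' JE : R)
    (hJ : JE = F2 * m2 - μ * F1 + D * ((c2 - 1) * F2 + P * G2))
    (hm : μ * mi = 1) (hVq : Vq = Q4 * V)
    (hy : y * V = Qh * m2 * mi * fV)
    (hD : D * (fA * fV) = -(Xp * fP * m2 * fN))
    (hc : c2 * (Qp * fN) = Np * fQ)
    (hHb : Hb = Qv * F2) (hHg : Hg' = Qv * G2) (hHc : Hc = Qv * Q4 * F1) :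
    Vq * (Qp + fQ) * (fV * fA * Qp * Hb - Xp * fP * ((Np * fQ - fN * Qp) * Hb + P * Qp * fN * Hg))
      - 2 * fV ^ 2 * fA * Qh * Qp * Hc
    = (Qp + fQ - 2 * y) * (Vq * (fV * fA * Qp * Hb - Xp * fP * ((Np * fQ - fN * Qp) * Hb + P * Qp * fN * Hg)))
      + (2 * y * Vq * Xp * fP * Qp * fN) * (P * (Hg' - Hg))
      + (2 * Qp * Qv * fA * fV * mi * fV * Qh * Q4) * JE := by
  have e1 : Q4 * (y * V) = Q4 * (Qh * m2 * mi * fV) := by rw [hy]
  have e2 : (Qp * fA * fV) * JE = Qp * fA * fV * (F2 * m2 - μ * F1)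
      - Xp * fP * m2 * ((Np * fQ - Qp * fN) * F2 + P * Qp * fN * G2) := by
    rw [hJ]
    linear_combination (Qp * ((c2 - 1) * F2 + P * G2)) * hD - (Xp * fP * m2 * F2) * hc
  have e3 : (2 * Qp * Qv * fA * fV * mi * fV * Qh * Q4) * JE
      = 2 * Qv * mi * fV * Qh * Q4 * ((Qp * fA * fV) * JE) := by ring
  rw [e3, e2, hVq, hHb, hHg, hHc]
  linear_combination (2 * Qv * Q4 * (fV * fA * Qp * F2
      - Xp * fP * ((Np * fQ - fN * Qp) * F2 + P * Qp * fN * G2))) * hy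
    + (2 * fV ^ 2 * fA * Qh * Qp * Qv * Q4 * F1) * hm

/-- Step 1: the functional equation as a polynomial congruence -/
theorem S1B_PO (hp : 13 ≤ p) (u0 : ℤ) : PO 2 (T0 p) (cst ℚ_[p] (J1 u0 p)) := by
  obtain ⟨μ, l2, g1, g2, hμ0, hμ, hg1, hg2, hl2, hJ⟩ := S1A p (by omega) u0
  have hodd : p % 2 = 1 := by
    rcases (Nat.Prime.eq_two_or_odd (Fact.out : p.Prime)) with h | h
    · omega
    · exact h
  -- abbreviations
  have hV0 : constantCoeff (cst ℚ_[p] (pV u0)) = 1 := by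
    rw [constantCoeff_cst]; simp [pV]
  have hQ0 : constantCoeff (cst ℚ_[p] (pQ u0)) = 1 := by
    rw [constantCoeff_cst]; simp [pQ]
  have hN0 : constantCoeff (cst ℚ_[p] (pN u0)) = 1 := by
    rw [constantCoeff_cst]; simp [pN]
  have hA0 : constantCoeff (cst ℚ_[p] (pA u0)) = 1 := by
    rw [constantCoeff_cst]; simp [pA, pN, Polynomial.coeff_zero_eq_eval_zero]
  have hthQ : th (cst ℚ_[p] (pQ u0)) * cst ℚ_[p] (pV u0) - 2 * (cst ℚ_[p] (pQ u0) * th (cst ℚ_[p] (pV u0)))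
      = -(2 * (X * cst ℚ_[p] (pPh u0))) := by
    rw [th_cst, th_cst, ← cst_X, ← map_mul, ← map_mul, ← map_mul]
    have e2 : (2 : PowerSeries ℚ_[p]) = cst ℚ_[p] 2 := (map_ofNat (cst ℚ_[p]) 2).symm
    rw [e2, ← map_mul, ← map_mul, ← map_sub, ← map_neg]
    congr 1
    unfold pQ pV pPh
    simp only [Polynomial.derivative_add, Polynomial.derivative_one, Polynomial.derivative_mul,
      Polynomial.derivative_C, Polynomial.derivative_X, Polynomial.derivative_X_pow]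
    simp only [map_add, map_mul, map_pow, map_ofNat, Nat.cast_ofNat]
    ring
  have iV : ∀ T, PO 0 T (cst ℚ_[p] (pV u0)) := fun T => PO_cst T _
  have iQ : ∀ T, PO 0 T (cst ℚ_[p] (pQ u0)) := fun T => PO_cst T _
  have iN : ∀ T, PO 0 T (cst ℚ_[p] (pN u0)) := fun T => PO_cst T _
  have iA : ∀ T, PO 0 T (cst ℚ_[p] (pA u0)) := fun T => PO_cst T _
  have iP : ∀ T, PO 0 T (cst ℚ_[p] (pPh u0)) := fun T => PO_cst T _
  have hfV := ph_cst p (R := ℚ_[p]) (pV u0)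
  have hfQ := ph_cst p (R := ℚ_[p]) (pQ u0)
  have hfN := ph_cst p (R := ℚ_[p]) (pN u0)
  have hfA := ph_cst p (R := ℚ_[p]) (pA u0)
  have hfP := ph_cst p (R := ℚ_[p]) (pPh u0)
  have z2 : constantCoeff (X ^ 1 * g2 : PowerSeries ℚ_[p]) = 0 := by simp
  have z1 : constantCoeff (X ^ 1 * g1 : PowerSeries ℚ_[p]) = 0 := by simp
  have hb : cst ℚ_[p] (phom p bb (Polynomial.X * pN u0) (pQ u0))
      = cst ℚ_[p] (pQ u0) ^ (p - 1) * cmp (fam1 p).FT (X ^ 1 * g2) := by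
    have e : cst ℚ_[p] (pQ u0) * (X ^ 1 * g2) = cst ℚ_[p] (Polynomial.X * pN u0) := by
      rw [map_mul, cst_X, ← hg2]; ring
    rw [S1B_cst_phom p bb _ _ _ e]
    unfold Fam.FT
    rw [S1B_cmp p _ _ z2]
    congr 1
    refine Finset.sum_congr rfl fun k _ => ?_
    congr 1
    unfold fam1
    simp only [FF, coeff_mk, map_natCast]
  have hg : cst ℚ_[p] (phom p (gl p) (Polynomial.X * pN u0) (pQ u0))
      = cst ℚ_[p] (pQ u0) ^ (p - 1) * ∑ k ∈ range p, (gl p k : PowerSeries ℚ_[p]) * (X ^ 1 * g2) ^ k := by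
    have e : cst ℚ_[p] (pQ u0) * (X ^ 1 * g2) = cst ℚ_[p] (Polynomial.X * pN u0) := by
      rw [map_mul, cst_X, ← hg2]; ring
    rw [S1B_cst_phom p _ _ _ _ e]
  have hc : cst ℚ_[p] (phom p cc (Polynomial.X * pN u0 ^ 5) (pQ u0 * pV u0 ^ 4))
      = cst ℚ_[p] (pQ u0) ^ (p - 1) * (cst ℚ_[p] (pV u0) ^ 4) ^ (p - 1) * cmp (fam2 p).FT (X ^ 1 * g1) := by
    have e : cst ℚ_[p] (pQ u0 * pV u0 ^ 4) * (X ^ 1 * g1) = cst ℚ_[p] (Polynomial.X * pN u0 ^ 5) := by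
      rw [map_mul, map_mul, cst_X, map_pow, map_pow, ← hg1]; ring
    rw [S1B_cst_phom p cc _ _ _ e, map_mul, map_pow, mul_pow]
    unfold Fam.FT
    rw [S1B_cmp p _ _ z1]
    congr 1
    refine Finset.sum_congr rfl fun k _ => ?_
    congr 1
    unfold fam2
    simp only [coeff_mk, map_natCast]
  -- integrality
  have ig2 : ∀ T, PO 0 T g2 := fun T => PO_of_mul (iQ T) (by rw [hQ0]; simp) (by rw [hg2]; exact iN T)
  have ig1 : ∀ T, PO 0 T g1 := fun T => by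
    refine PO_of_mul (f := cst ℚ_[p] (pQ u0) * cst ℚ_[p] (pV u0) ^ 4)
      (PO_mul_left (iQ T) (PO_pow (iV T) 4)) ?_ (by rw [hg1]; exact PO_pow (iN T) 5)
    rw [map_mul, map_pow, hQ0, hV0]; simp
  have iw := S1B_sqrt p (by omega) (μ * cst ℚ_[p] (pV u0)) (by rw [map_mul, hμ0, hV0, one_mul])
    (fun T => by rw [mul_pow, hμ]; exact iQ T)
  have iμ : ∀ T, PO 0 T μ := fun T => by
    refine PO_of_mul (iV T) (by rw [hV0]; simp) ?_
    rw [mul_comm]; exact iw T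
  have hμne : constantCoeff μ ≠ 0 := by rw [hμ0]; exact one_ne_zero
  have hVne : constantCoeff (cst ℚ_[p] (pV u0)) ≠ 0 := by rw [hV0]; exact one_ne_zero
  have imi : ∀ T, PO 0 T μ⁻¹ := fun T => PO_inv (iμ T) (by rw [hμ0]; simp)
  have iVi : ∀ T, PO 0 T (cst ℚ_[p] (pV u0))⁻¹ := fun T => PO_inv (iV T) (by rw [hV0]; simp)
  have iph : ∀ f : PowerSeries ℚ_[p], (∀ T, PO 0 T f) → ∀ T, PO 0 T (ph p ℚ_[p] f) := fun f hf T =>
    PO_ph (n0 := T) (Nat.le_mul_of_pos_left T (by omega)) (hf T)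
  have hmi : μ * μ⁻¹ = 1 := PowerSeries.mul_inv_cancel _ hμne
  have hVi : cst ℚ_[p] (pV u0) * (cst ℚ_[p] (pV u0))⁻¹ = 1 := PowerSeries.mul_inv_cancel _ hVne
  set V := cst ℚ_[p] (pV u0) with hVdef
  set Q := cst ℚ_[p] (pQ u0) with hQdef
  set N := cst ℚ_[p] (pN u0) with hNdef
  set A := cst ℚ_[p] (pA u0) with hAdef
  set Ph := cst ℚ_[p] (pPh u0) with hPdef
  -- the square root
  set y := Q ^ ((p + 1) / 2) * ph p ℚ_[p] μ * μ⁻¹ * ph p ℚ_[p] V * V⁻¹ with hydef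
  have hyV : y * V = Q ^ ((p + 1) / 2) * ph p ℚ_[p] μ * μ⁻¹ * ph p ℚ_[p] V := by
    rw [hydef]; linear_combination (Q ^ ((p + 1) / 2) * ph p ℚ_[p] μ * μ⁻¹ * ph p ℚ_[p] V) * hVi
  have hy2 : y ^ 2 = Q ^ p * ph p ℚ_[p] Q := by
    have e1 : (Q ^ ((p + 1) / 2)) ^ 2 = Q ^ p * Q := by
      rw [← pow_mul, ← pow_succ]; congr 1; omega
    have e2 : ph p ℚ_[p] μ ^ 2 * ph p ℚ_[p] V ^ 2 = ph p ℚ_[p] Q := by
      rw [← map_pow, ← map_pow, ← map_mul, hμ]
    have e3 : Q * (μ⁻¹) ^ 2 * (V⁻¹) ^ 2 = 1 := by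
      calc Q * (μ⁻¹) ^ 2 * (V⁻¹) ^ 2 = (μ * μ⁻¹) ^ 2 * (V * V⁻¹) ^ 2 := by rw [← hμ]; ring
        _ = 1 := by rw [hmi, hVi]; ring
    calc y ^ 2 = (Q ^ ((p + 1) / 2)) ^ 2 * (ph p ℚ_[p] μ ^ 2 * ph p ℚ_[p] V ^ 2) * ((μ⁻¹) ^ 2 * (V⁻¹) ^ 2) := by
          rw [hydef]; ring
      _ = Q ^ p * ph p ℚ_[p] Q * (Q * (μ⁻¹) ^ 2 * (V⁻¹) ^ 2) := by rw [e1, e2]; ring
      _ = Q ^ p * ph p ℚ_[p] Q := by rw [e3, mul_one]
  have iy : ∀ T, PO 0 T y := fun T => by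
    rw [hydef]
    exact PO_mul_left (PO_mul_left (PO_mul_left (PO_mul_left (PO_pow (iQ T) _) (iph _ iμ T)) (imi T))
      (iph _ iV T)) (iVi T)
  have y0 : constantCoeff y = 1 := by
    rw [hydef, map_mul, map_mul, map_mul, map_mul, map_pow, constantCoeff_ph, constantCoeff_ph,
      PowerSeries.constantCoeff_inv, PowerSeries.constantCoeff_inv, hQ0, hμ0, hV0]
    simp
  have i2 : ∀ T, PO 0 T (2 : PowerSeries ℚ_[p]) := fun T => by
    have := PO_natCast (p := p) 2 T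
    simpa using this
  have hu : ∀ T, PO 2 T (Q ^ p + ph p ℚ_[p] Q - 2 * y) := fun T => by
    have e : (Q ^ p + ph p ℚ_[p] Q + 2 * y) * (Q ^ p + ph p ℚ_[p] Q - 2 * y)
        = (ph p ℚ_[p] Q - Q ^ p) * (ph p ℚ_[p] Q - Q ^ p) := by
      linear_combination (-4 : PowerSeries ℚ_[p]) * hy2
    refine PO_of_mul (f := Q ^ p + ph p ℚ_[p] Q + 2 * y)
      (PO_add (PO_add (PO_pow (iQ T) p) (iph _ iQ T)) (PO_mul_left (i2 T) (iy T))) ?_ ?_
    · rw [map_add, map_add, map_mul, map_pow, constantCoeff_ph, hQ0, y0, map_ofNat]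
      have h4 : (1 ^ p + 1 + 2 * 1 : ℚ_[p]) = 2 * 2 := by norm_num
      rw [h4, norm_mul, S1B_two p (by omega), one_mul]
    · rw [e]
      exact PO_mul (frob p Q iQ T) (frob p Q iQ T)
  -- the derivative
  have hD : ph p ℚ_[p] (th μ * l2⁻¹) * (ph p ℚ_[p] A * ph p ℚ_[p] V)
      = -(X ^ p * ph p ℚ_[p] Ph * ph p ℚ_[p] μ * ph p ℚ_[p] N) := by
    have l20 : constantCoeff l2 = 1 := by
      have := congrArg constantCoeff hl2
      rwa [map_mul, map_mul, hN0, hQ0, hA0, mul_one, mul_one] at this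
    have hl2i : l2 * l2⁻¹ = 1 := PowerSeries.mul_inv_cancel _ (by rw [l20]; exact one_ne_zero)
    have e1 : l2⁻¹ * A = N * Q := by
      rw [← hl2]; linear_combination (N * Q) * hl2i
    have e2 : 2 * μ * th μ * V ^ 2 + μ ^ 2 * (2 * V * th V) = th Q := by
      have := congrArg th hμ
      rw [th_mul, th_pow, th_pow] at this
      push_cast at this
      rw [← this]
      ring
    have e3 : (2 : PowerSeries ℚ_[p]) * (Q * V * th μ) = 2 * (-(X * Ph * μ)) := by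
      have e4 : (2 : PowerSeries ℚ_[p]) * (Q * V * th μ) = μ * V * (2 * μ * th μ * V ^ 2) := by
        rw [← hμ]; ring
      rw [e4]
      linear_combination (μ * V) * e2 + μ * hthQ - (2 * μ * th V) * hμ
    have h2ne : (2 : PowerSeries ℚ_[p]) ≠ 0 := by
      intro h
      have := congrArg constantCoeff h
      rw [map_ofNat, map_zero] at this
      norm_num at this
    have e5 := mul_left_cancel₀ h2ne e3
    have e6 : th μ * l2⁻¹ * (A * V) = -(X * Ph * μ * N) := by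
      calc th μ * l2⁻¹ * (A * V) = (l2⁻¹ * A) * (V * th μ) := by ring
        _ = N * (Q * V * th μ) := by rw [e1]; ring
        _ = _ := by rw [e5]; ring
    rw [← map_mul, ← map_mul, e6, map_neg, map_mul, map_mul, map_mul, ph_X]
  have g20 : constantCoeff g2 = 1 := by
    have := congrArg constantCoeff hg2
    rwa [map_mul, hQ0, hN0, one_mul] at this
  have hc2 : g2 ^ p * (ph p ℚ_[p] g2)⁻¹ * (Q ^ p * ph p ℚ_[p] N) = N ^ p * ph p ℚ_[p] Q := by
    have e1 : ph p ℚ_[p] g2 * (ph p ℚ_[p] g2)⁻¹ = 1 :=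
      PowerSeries.mul_inv_cancel _ (by rw [constantCoeff_ph, g20]; exact one_ne_zero)
    rw [← hg2, map_mul, mul_pow]
    linear_combination (g2 ^ p * Q ^ p * ph p ℚ_[p] Q) * e1
  -- the difference of the two versions of G
  have hHg : ∀ T, PO 2 T ((p : PowerSeries ℚ_[p]) * (Q ^ (p - 1) * cmp (fam1 p).GT (X ^ 1 * g2)
      - cst ℚ_[p] (phom p (gl p) (Polynomial.X * pN u0) (pQ u0)))) := fun T => by
    refine PO_mul (i := 1) (j := 1) (PO_p (p := p) T) ?_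
    rw [hg]
    have e : Q ^ (p - 1) * cmp (fam1 p).GT (X ^ 1 * g2)
        - Q ^ (p - 1) * ∑ k ∈ range p, (gl p k : PowerSeries ℚ_[p]) * (X ^ 1 * g2) ^ k
        = Q ^ (p - 1) * ∑ k ∈ range p, C (gg ℚ_[p] k - (gl p k : ℚ_[p])) * (X ^ 1 * g2) ^ k := by
      unfold Fam.GT
      rw [S1B_cmp p _ _ z2, ← mul_sub, ← Finset.sum_sub_distrib]
      congr 1
      refine Finset.sum_congr rfl fun k _ => ?_
      unfold fam1
      simp only [GG, coeff_mk, map_natCast, map_sub]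
      ring
    rw [e]
    refine PO_mul_left (p := p) (PO_pow (iQ T) _) (PO_sum (p := p) _ _ fun k hk => ?_)
    rw [Finset.mem_range] at hk
    exact PO_mul_right (PO_C (PI_gl p k hk)) (PO_pow (PO_mul_left (PO_X_pow (p := p) 1 T) (ig2 T)) k)
  -- conclusion
  have e4 : 4 * p - 3 = 4 * (p - 1) + 1 := by omega
  have eJ : cst ℚ_[p] (J1 u0 p) = V ^ (4 * p - 3) * (Q ^ p + ph p ℚ_[p] Q)
      * (ph p ℚ_[p] V * ph p ℚ_[p] A * Q ^ p * cst ℚ_[p] (phom p bb (Polynomial.X * pN u0) (pQ u0))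
        - X ^ p * ph p ℚ_[p] Ph * ((N ^ p * ph p ℚ_[p] Q - ph p ℚ_[p] N * Q ^ p)
            * cst ℚ_[p] (phom p bb (Polynomial.X * pN u0) (pQ u0))
          + (p : PowerSeries ℚ_[p]) * Q ^ p * ph p ℚ_[p] N
            * cst ℚ_[p] (phom p (gl p) (Polynomial.X * pN u0) (pQ u0))))
      - 2 * ph p ℚ_[p] V ^ 2 * ph p ℚ_[p] A * Q ^ ((p + 1) / 2) * Q ^ p
        * cst ℚ_[p] (phom p cc (Polynomial.X * pN u0 ^ 5) (pQ u0 * pV u0 ^ 4)) := by
    unfold J1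
    rw [hVdef, hQdef, hNdef, hAdef, hPdef, hfV, hfQ, hfN, hfA, hfP]
    simp only [map_sub, map_add, map_mul, map_pow, cst_X, map_ofNat, map_natCast]
  rw [eJ, S1B_alg (p : PowerSeries ℚ_[p]) (cmp (fam2 p).FT (X ^ 1 * g1)) (cmp (fam1 p).FT (X ^ 1 * g2))
    (cmp (fam1 p).GT (X ^ 1 * g2)) μ μ⁻¹ (ph p ℚ_[p] μ) (ph p ℚ_[p] (th μ * l2⁻¹))
    (g2 ^ p * (ph p ℚ_[p] g2)⁻¹) y V ((V ^ 4) ^ (p - 1)) (V ^ (4 * p - 3)) (ph p ℚ_[p] V) (ph p ℚ_[p] Q)
    (ph p ℚ_[p] A) (ph p ℚ_[p] N) (ph p ℚ_[p] Ph) (Q ^ p) (Q ^ (p - 1)) (Q ^ ((p + 1) / 2)) (N ^ p) (X ^ p)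
    _ _ _ (Q ^ (p - 1) * cmp (fam1 p).GT (X ^ 1 * g2)) (Fam.JE (fam2 p) (fam1 p) 1 1 g1 g2 l2 μ)
    rfl hmi (by rw [e4, pow_succ, pow_mul]) hyV hD hc2 hb rfl hc]
  have iH : ∀ (f : Polynomial ℤ) (T : ℕ), PO 0 T (cst ℚ_[p] f) := fun f T => PO_cst T f
  refine PO_add (PO_add ?_ ?_) ?_
  · refine PO_mul_right (hu _) (PO_mul_left (PO_pow (iV _) _) (PO_sub ?_ ?_))
    · exact PO_mul_left (PO_mul_left (PO_mul_left (iph _ iV _) (iph _ iA _)) (PO_pow (iQ _) p)) (iH _ _)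
    · refine PO_mul_left (PO_mul_left (PO_X_pow p _) (iph _ iP _)) (PO_add (PO_mul_left (PO_sub ?_ ?_) (iH _ _)) ?_)
      · exact PO_mul_left (PO_pow (iN _) p) (iph _ iQ _)
      · exact PO_mul_left (iph _ iN _) (PO_pow (iQ _) p)
      · exact PO_mul_left (PO_mul_left (PO_mul_left (PO_natCast p _) (PO_pow (iQ _) p)) (iph _ iN _)) (iH _ _)
  · refine PO_mul_left ?_ (hHg _)
    exact PO_mul_left (PO_mul_left (PO_mul_left (PO_mul_left (PO_mul_left (PO_mul_left (i2 _) (iy _))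
      (PO_pow (iV _) _)) (PO_X_pow p _)) (iph _ iP _)) (PO_pow (iQ _) p)) (iph _ iN _)
  · refine PO_mul_left ?_ hJ
    exact PO_mul_left (PO_mul_left (PO_mul_left (PO_mul_left (PO_mul_left (PO_mul_left (PO_mul_left
      (PO_mul_left (i2 _) (PO_pow (iQ _) p)) (PO_pow (iQ _) _)) (iph _ iA _)) (iph _ iV _)) (imi _))
      (iph _ iV _)) (PO_pow (iQ _) _)) (PO_pow (PO_pow (iV _) 4) _)

/-- Step 1: the functional equation as a polynomial congruence -/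
theorem S1B (hp : 13 ≤ p) (u0 : ℤ) : ∃ g : Polynomial ℤ, J1 u0 p = (p : Polynomial ℤ) ^ 2 * g := by
  have h1 := S1B_PO p hp u0
  have h2 := (S1C_J1 u0 p hp).1
  have hT : 13 * p ≤ T0 p := by
    unfold T0 nz
    exact Nat.mul_le_mul_right p hp
  have h3 : Polynomial.C ((p : ℤ) ^ 2) ∣ J1 u0 p := by
    rw [Polynomial.C_dvd_iff_dvd_coeff]
    intro n
    by_cases hn : n < T0 p
    · have h4 := h1 n hn
      rw [coeff_cst, PI_intCast_iff] at h4
      exact h4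
    · rw [Polynomial.coeff_eq_zero_of_natDegree_lt (by omega)]
      exact dvd_zero _
  obtain ⟨g, hg⟩ := h3
  refine ⟨g, ?_⟩
  rw [hg, map_pow]
  simp

end Pool.Agent.Lib_helper91.TX
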