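import Pool.Agent.Lib_helper91.TX.GJJ
import Pool.Agent.Lib_helper91.TX.MOD
import Pool.Agent.Lib_helper91.TX.FA2

namespace Pool.Agent.Lib_helper91.TX

open PowerSeries Finset Pool.Agent.Lib_helper91.TN

variable (p : ℕ) [Fact p.Prime]

theorem s2a_cmp1 (z : PowerSeries ℚ_[p]) (hz : constantCoeff z = 0) :
    cmp (1 - 256 * X : PowerSeries ℚ_[p]) z = 1 - 256 * z := by
  rw [cmp_sub _ _ _ hz, cmp_mul _ _ _ hz, cmp_one _ hz, cmp_X _ hz, cmp_ofNat _ _ hz]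

theorem s2a_cmp2 (z : PowerSeries ℚ_[p]) (hz : constantCoeff z = 0) :
    cmp (48 * X : PowerSeries ℚ_[p]) z = 48 * z := by
  rw [cmp_mul _ _ _ hz, cmp_X _ hz, cmp_ofNat _ _ hz]

/-- Step 2: the functional equation as power series -/
theorem S2A (hp : 3 < p) (d : D2) (hd : d.Valid) (hpl : ¬ p ∣ d.l) : ∃ μ l2 g1 g2 : PowerSeries ℚ_[p],
    μ * cst ℚ_[p] V24 = 1 ∧
    cst ℚ_[p] d.Q * cst ℚ_[p] V24 ^ 4 * g1 = cst ℚ_[p] d.N ^ d.l ∧
    cst ℚ_[p] d.Q * g2 = cst ℚ_[p] d.N ∧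
    l2 * (cst ℚ_[p] d.N * cst ℚ_[p] d.Q) = cst ℚ_[p] d.L ∧
    PO 2 (T0 p) (Fam.JE (fam2 p) (fam2 p) 1 d.l g1 g2 l2 μ) := by
  have hl := hd.hl
  obtain ⟨M, hM⟩ : ∃ M : PowerSeries ℚ_[p], M = cst ℚ_[p] d.N ^ (d.l - 1) := ⟨_, rfl⟩
  -- the identities over power series
  have thN : th (cst ℚ_[p] d.N) = cst ℚ_[p] (pth d.N) := th_cst _
  have thQ : th (cst ℚ_[p] d.Q) = cst ℚ_[p] (pth d.Q) := th_cst _
  have thV : th (cst ℚ_[p] V24) = cst ℚ_[p] (pth V24) := th_cst _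
  have thV2 : th (cst ℚ_[p] (pth V24)) = cst ℚ_[p] (pth (pth V24)) := th_cst _
  have thS : th (cst ℚ_[p] d.S) = cst ℚ_[p] (pth d.S) := th_cst _
  have eL : cst ℚ_[p] d.L = (d.l : PowerSeries ℚ_[p]) * cst ℚ_[p] d.N * cst ℚ_[p] d.Q
      + cst ℚ_[p] (pth d.N) * cst ℚ_[p] d.Q - cst ℚ_[p] d.N * cst ℚ_[p] (pth d.Q) := by
    simp only [D2.L, map_add, map_sub, map_mul, map_natCast]
  have eL1 : cst ℚ_[p] d.L1 = cst ℚ_[p] d.N * cst ℚ_[p] d.Q * cst ℚ_[p] V24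
      + (d.l : PowerSeries ℚ_[p]) * cst ℚ_[p] (pth d.N) * cst ℚ_[p] d.Q * cst ℚ_[p] V24
      - cst ℚ_[p] d.N * cst ℚ_[p] (pth d.Q) * cst ℚ_[p] V24
      - 4 * cst ℚ_[p] d.N * cst ℚ_[p] d.Q * cst ℚ_[p] (pth V24) := by
    simp only [D2.L1, map_add, map_sub, map_mul, map_natCast, map_ofNat]
  have eS : cst ℚ_[p] d.S = cst ℚ_[p] d.R * cst ℚ_[p] d.N ^ 2 * cst ℚ_[p] d.Q := by
    simp only [D2.S, map_mul, map_pow]
  have i1 := congrArg (cst ℚ_[p]) hd.I1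
  have i2 := congrArg (cst ℚ_[p]) hd.I2
  have i3 := congrArg (cst ℚ_[p]) hd.I3
  simp only [map_add, map_sub, map_mul, map_pow, map_natCast, map_ofNat, cst_X] at i1 i2 i3
  have cN : constantCoeff (cst ℚ_[p] d.N) = 1 := by rw [constantCoeff_cst, hd.hN0, Int.cast_one]
  have cQ : constantCoeff (cst ℚ_[p] d.Q) = 1 := by rw [constantCoeff_cst, hd.hQ0, Int.cast_one]
  have cV : constantCoeff (cst ℚ_[p] V24) = 1 := by
    rw [constantCoeff_cst]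
    simp [V24, Polynomial.coeff_one]
  have nN : constantCoeff (cst ℚ_[p] d.N) ≠ 0 := by rw [cN]; exact one_ne_zero
  have nQ : constantCoeff (cst ℚ_[p] d.Q) ≠ 0 := by rw [cQ]; exact one_ne_zero
  have nV : constantCoeff (cst ℚ_[p] V24) ≠ 0 := by rw [cV]; exact one_ne_zero
  have hN := PowerSeries.mul_inv_cancel _ nN
  have hQ := PowerSeries.mul_inv_cancel _ nQ
  have hV := PowerSeries.mul_inv_cancel _ nV
  have tiN := th_inv _ nN
  have tiQ := th_inv _ nQ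
  have tiV := th_inv _ nV
  have ciN : constantCoeff (cst ℚ_[p] d.N)⁻¹ = 1 := by rw [PowerSeries.constantCoeff_inv, cN, inv_one]
  have ciQ : constantCoeff (cst ℚ_[p] d.Q)⁻¹ = 1 := by rw [PowerSeries.constantCoeff_inv, cQ, inv_one]
  have ciV : constantCoeff (cst ℚ_[p] V24)⁻¹ = 1 := by rw [PowerSeries.constantCoeff_inv, cV, inv_one]
  have pN : ∀ T, PO 0 T (cst ℚ_[p] d.N) := fun T => PO_cst T _
  have pQ : ∀ T, PO 0 T (cst ℚ_[p] d.Q)⁻¹ := fun T => PO_inv (PO_cst T _) (by rw [cQ, norm_one])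
  have pV : ∀ T, PO 0 T (cst ℚ_[p] V24)⁻¹ := fun T => PO_inv (PO_cst T _) (by rw [cV, norm_one])
  rw [thN] at tiN
  rw [thQ] at tiQ
  rw [thV] at tiV
  rw [eL] at i2 ⊢
  rw [eL1] at i1
  rw [eS] at i3 thS
  generalize cst ℚ_[p] (pth (pth V24)) = V2 at *
  generalize cst ℚ_[p] (pth V24) = V1 at *
  generalize cst ℚ_[p] (pth d.N) = N1 at *
  generalize cst ℚ_[p] (pth d.Q) = Q1 at *
  generalize cst ℚ_[p] (pth d.S) = S1 at *
  generalize cst ℚ_[p] d.R = R at *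
  generalize (cst ℚ_[p] d.N)⁻¹ = iN at *
  generalize (cst ℚ_[p] d.Q)⁻¹ = iQ at *
  generalize (cst ℚ_[p] V24)⁻¹ = iV at *
  generalize cst ℚ_[p] d.N = N at *
  generalize cst ℚ_[p] d.Q = Q at *
  generalize cst ℚ_[p] V24 = V at *
  have hNl : N ^ d.l = M * N := by
    rw [hM, ← pow_succ]
    congr 1
    omega
  have hV4 : (V * iV) ^ 4 = 1 := by rw [hV, one_pow]
  have thg1 : th (N ^ d.l * iQ * iV ^ 4) = (d.l : PowerSeries ℚ_[p]) * M * N1 * iQ * iV ^ 4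
      - M * N * Q1 * iQ ^ 2 * iV ^ 4 - 4 * M * N * V1 * iQ * iV ^ 5 := by
    rw [th_mul, th_mul, th_pow, th_pow, thN, tiQ, tiV, ← hM, hNl]
    push_cast
    ring
  have thg2 : th (N * iQ) = N1 * iQ - N * Q1 * iQ ^ 2 := by
    rw [th_mul, thN, tiQ]
    ring
  have thr : th (iV ^ 2) = -(2 * V1 * iV ^ 3) := by
    rw [th_pow, tiV]
    push_cast
    ring
  have thr2 : th (-(2 * V1 * iV ^ 3)) = -(2 * V2 * iV ^ 3) + 6 * V1 ^ 2 * iV ^ 4 := by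
    rw [th_neg, th_mul, th_mul, th_pow, tiV, thV2, th_ofNat]
    push_cast
    ring
  have z1 : constantCoeff (X ^ 1 * (N ^ d.l * iQ * iV ^ 4)) = 0 := by
    simp
  have z2 : constantCoeff (X ^ d.l * (N * iQ)) = 0 := by
    rw [map_mul, map_pow, constantCoeff_X, zero_pow (by omega), zero_mul]
  have h10 : constantCoeff (N ^ d.l * iQ * iV ^ 4) = 1 := by
    simp [cN, ciQ, ciV]
  have h20 : constantCoeff (N * iQ) = 1 := by
    simp [cN, ciQ]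
  have hl1 : (((N * Q * V + (d.l : PowerSeries ℚ_[p]) * N1 * Q * V - N * Q1 * V - 4 * N * Q * V1) * iN * iQ * iV)
      * (N ^ d.l * iQ * iV ^ 4)) = ((1 : ℕ) : PowerSeries ℚ_[p]) * (N ^ d.l * iQ * iV ^ 4)
        + th (N ^ d.l * iQ * iV ^ 4) := by
    rw [thg1, hNl]
    push_cast
    linear_combination (iQ ^ 2 * iV ^ 5 * M *
        (N * Q * V + (d.l : PowerSeries ℚ_[p]) * N1 * Q * V - N * Q1 * V - 4 * N * Q * V1)) * hN
      + (M * (N + (d.l : PowerSeries ℚ_[p]) * N1) * V * iQ * iV ^ 5 - 4 * N * V1 * M * iQ * iV ^ 5) * hQ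
      + (M * (N + (d.l : PowerSeries ℚ_[p]) * N1) * iQ * iV ^ 4 - N * Q1 * M * iQ ^ 2 * iV ^ 4) * hV
  have hl2 : (((d.l : PowerSeries ℚ_[p]) * N * Q + N1 * Q - N * Q1) * iN * iQ) * (N * iQ)
      = (d.l : PowerSeries ℚ_[p]) * (N * iQ) + th (N * iQ) := by
    rw [thg2]
    linear_combination (((d.l : PowerSeries ℚ_[p]) * N * Q + N1 * Q - N * Q1) * iQ ^ 2) * hN
      + (((d.l : PowerSeries ℚ_[p]) * N + N1) * iQ) * hQ
  obtain ⟨μ, hμ0, hμ2, hF, hW⟩ := MOD p (fam2 p) (fam2 p) (fam2_ok p hp) (fam2_ok p hp)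
    (1 - 256 * X) (48 * X) (1 - 256 * X) (48 * X) (fam2_ode p) (fam2_ode p) 1 d.l le_rfl hl
    (N ^ d.l * iQ * iV ^ 4) (N * iQ)
    ((N * Q * V + (d.l : PowerSeries ℚ_[p]) * N1 * Q * V - N * Q1 * V - 4 * N * Q * V1) * iN * iQ * iV)
    (((d.l : PowerSeries ℚ_[p]) * N * Q + N1 * Q - N * Q1) * iN * iQ)
    (iV ^ 2) (R * N ^ 2 * Q * iV ^ 2) (R * N ^ 2 * Q) h10 h20 hl1 hl2 (by simp [ciV])
    (by
      rw [s2a_cmp1 p _ z1]
      push_cast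
      linear_combination (iQ * iV ^ 4 * ((N * iN) ^ 2 * (Q * iQ))) * (-i1)
        + ((Q * V ^ 4 - 256 * (X * N ^ d.l)) * iQ * iV ^ 4 * ((N * iN + 1) * (Q * iQ))) * hN
        + ((Q * V ^ 4 - 256 * (X * N ^ d.l)) * iQ * iV ^ 4) * hQ
        + (V * iV) ^ 4 * hQ + hV4)
    (by
      rw [s2a_cmp1 p _ z2]
      linear_combination (iQ * ((N * iN) ^ 2 * (Q * iQ))) * (-i2)
        + ((d.l : PowerSeries ℚ_[p]) ^ 2 * (Q - 256 * (X ^ d.l * N)) * iQ * ((N * iN + 1) * (Q * iQ))) * hN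
        + ((d.l : PowerSeries ℚ_[p]) ^ 2 * (Q - 256 * (X ^ d.l * N)) * iQ) * hQ
        + (d.l : PowerSeries ℚ_[p]) ^ 2 * hQ)
    (by ring)
    (by
      rw [s2a_cmp2 p _ z1, s2a_cmp2 p _ z2, thr, thr2, thS]
      push_cast
      linear_combination (4 * iQ * iV ^ 6) * i3
        - (4 * iV ^ 6 * (R * N ^ 2 * Q * (3 * V1 ^ 2 - 2 * V * V2) - S1 * V1 * V)) * hQ
        + (8 * (R * N ^ 2 * Q) * V2 * iV ^ 5 + 4 * S1 * V1 * iV ^ 5
            + 192 * (d.l : PowerSeries ℚ_[p]) ^ 2 * X ^ d.l * N * iQ * iV ^ 4 * (V * iV + 1)) * hV)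
  refine ⟨μ, ((d.l : PowerSeries ℚ_[p]) * N * Q + N1 * Q - N * Q1) * iN * iQ,
    N ^ d.l * iQ * iV ^ 4, N * iQ, ?_, ?_, ?_, ?_, ?_⟩
  · have h1 : (μ * V - 1) * (μ * V + 1) = 0 := by
      linear_combination V ^ 2 * hμ2 + (V * iV + 1) * hV
    rcases mul_eq_zero.1 h1 with h | h
    · exact sub_eq_zero.1 h
    · exfalso
      have h2 := congrArg (constantCoeff (R := ℚ_[p])) h
      rw [map_add, map_mul, hμ0, cV, map_one, map_zero] at h2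
      norm_num at h2
  · linear_combination (N ^ d.l * (V * iV) ^ 4) * hQ + N ^ d.l * hV4
  · linear_combination N * hQ
  · linear_combination (((d.l : PowerSeries ℚ_[p]) * N * Q + N1 * Q - N * Q1) * (Q * iQ)) * hN
      + ((d.l : PowerSeries ℚ_[p]) * N * Q + N1 * Q - N * Q1) * hQ
  · refine GJJ p hp (fam2 p) (fam2 p) (fam2_ok p hp) (fam2_ok p hp) 1 d.l le_rfl hl ?_ hpl _ _ _ _ _
      h10 h20 ?_ ?_ hl1 hl2 hμ0 hF hW
    · intro h
      have := Nat.le_of_dvd one_pos h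
      omega
    · intro T
      exact PO_mul_left (PO_mul_left (PO_pow (pN T) _) (pQ T)) (PO_pow (pV T) _)
    · intro T
      exact PO_mul_left (pN T) (pQ T)

end Pool.Agent.Lib_helper91.TX
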